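import Pool.Agent.Helper27.Mz2.LensC

/-!
# G1: two discs on the boundary sqrt a + sqrt b = 2

Proof. a = (1+s)^2, b = (1-s)^2 with s in [0, 1]. Let F(s) = pi (a + b) - lens a b
= pi (2 + 2 s^2) - lens ((1+s)^2) ((1-s)^2). F(0) = 2 pi - lens 1 1 = sig. For 0 < s < 1
F'(s) = 4 pi s - 2 (1+s) ang a b + 2 (1-s) ang b a >= 4 pi s - 4 s ang a b (ang_le_ang:
ang b a >= ang a b) and ang a b <= pi/3, since (1+a-b)/(2 sqrt a) = (1+4s)/(2(1+s)) >= 1/2. So
F' >= (8 pi/3) s > 0; F is continuous on [0, 1].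
-/

open MeasureTheory Set Filter Topology
open scoped ENNReal InnerProductSpace

namespace Melzak

lemma a1_arccos_half : Real.arccos (1 / 2) = Real.pi / 3 := by
  rw [← Real.cos_pi_div_three, Real.arccos_cos (by positivity) (by linarith [Real.pi_pos])]

lemma a1_ang_le {s : ℝ} (hs : 0 < s) (hs1 : s < 1) :
    ang ((1 + s) ^ 2) ((1 - s) ^ 2) ≤ Real.pi / 3 := by
  rw [← a1_arccos_half]
  unfold ang
  apply Real.arccos_le_arccos
  rw [Real.sqrt_sq (by linarith), div_le_div_iff₀ (by norm_num) (by linarith)]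
  nlinarith

/-- the function F of the proof -/
noncomputable def a1F (s : ℝ) : ℝ :=
  Real.pi * ((1 + s) ^ 2 + (1 - s) ^ 2) - lens ((1 + s) ^ 2) ((1 - s) ^ 2)

lemma a1_deriv {s : ℝ} (hs : 0 < s) (hs1 : s < 1) :
    HasDerivAt a1F (Real.pi * (4 * s) - (ang ((1 + s) ^ 2) ((1 - s) ^ 2) * (2 * (1 + s)) +
      ang ((1 - s) ^ 2) ((1 + s) ^ 2) * (-(2 * (1 - s))))) s := by
  have hf : HasDerivAt (fun x : ℝ => (1 + x) ^ 2) (2 * (1 + s)) s := by
    have := ((hasDerivAt_id s).const_add 1).pow 2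
    refine this.congr_deriv ?_
    simp
  have hg : HasDerivAt (fun x : ℝ => (1 - x) ^ 2) (-(2 * (1 - s))) s := by
    have := ((hasDerivAt_id s).const_sub 1).pow 2
    refine this.congr_deriv ?_
    simp
  have h1 := hasDerivAt_lens_comp hf hg (by positivity) (by
    have : 0 < 1 - s := by linarith
    positivity)
  have h2 := ((hf.add hg).const_mul Real.pi).sub h1
  refine h2.congr_deriv ?_
  ring

lemma a1_deriv_pos {s : ℝ} (hs : 0 < s) (hs1 : s < 1) : 0 < deriv a1F s := by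
  rw [(a1_deriv hs hs1).deriv]
  have h1 := a1_ang_le hs hs1
  have h2 : ang ((1 + s) ^ 2) ((1 - s) ^ 2) ≤ ang ((1 - s) ^ 2) ((1 + s) ^ 2) := by
    apply ang_le_ang
    · have : 0 < 1 - s := by linarith
      positivity
    · nlinarith
  have h3 := mul_le_mul_of_nonneg_right h2 (show 0 ≤ 2 * (1 - s) by linarith)
  have h4 := mul_le_mul_of_nonneg_right h1 (show 0 ≤ 4 * s by linarith)
  have h5 := mul_pos Real.pi_pos hs
  nlinarith

lemma a1_cont : Continuous a1F := by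
  unfold a1F
  have : Continuous fun s : ℝ => lens ((1 + s) ^ 2) ((1 - s) ^ 2) :=
    continuous_lens.comp (f := fun s : ℝ => (((1 + s) ^ 2, (1 - s) ^ 2) : ℝ × ℝ)) (by fun_prop)
  fun_prop

lemma a1_mono : StrictMonoOn a1F (Icc 0 1) := by
  apply strictMonoOn_of_deriv_pos (convex_Icc _ _) a1_cont.continuousOn
  intro s hs
  rw [interior_Icc] at hs
  exact a1_deriv_pos hs.1 hs.2

lemma a1_zero : a1F 0 = sig := by
  rw [← two_pi_sub_lens_one_one]
  simp [a1F]
  ring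

lemma a1_eq {a b : ℝ} (ha : 0 ≤ a) (hb : 0 ≤ b) (h : Real.sqrt a + Real.sqrt b = 2) :
    Real.pi * (a + b) - lens a b = a1F (Real.sqrt a - 1) := by
  unfold a1F
  have h1 : (1 + (Real.sqrt a - 1)) ^ 2 = a := by
    rw [show 1 + (Real.sqrt a - 1) = Real.sqrt a by ring, Real.sq_sqrt ha]
  have h2 : (1 - (Real.sqrt a - 1)) ^ 2 = b := by
    rw [show 1 - (Real.sqrt a - 1) = Real.sqrt b by linarith, Real.sq_sqrt hb]
  rw [h1, h2]

theorem two_disc {a b : ℝ} (hb : 0 ≤ b) (hab : b ≤ a) (h : Real.sqrt a + Real.sqrt b = 2) :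
    sig ≤ Real.pi * (a + b) - lens a b := by
  rw [a1_eq (hb.trans hab) hb h, ← a1_zero]
  have h1 := Real.sqrt_nonneg b
  have h2 := Real.sqrt_le_sqrt hab
  exact a1_mono.monotoneOn ⟨le_rfl, zero_le_one⟩ ⟨by linarith, by linarith⟩ (by linarith)

theorem two_disc_strict {a b : ℝ} (hb : 0 ≤ b) (hab : b < a)
    (h : Real.sqrt a + Real.sqrt b = 2) : sig < Real.pi * (a + b) - lens a b := by
  rw [a1_eq (hb.trans hab.le) hb h, ← a1_zero]
  have h1 := Real.sqrt_nonneg b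
  have h2 := Real.sqrt_lt_sqrt hb hab
  exact a1_mono ⟨le_rfl, zero_le_one⟩ ⟨by linarith, by linarith⟩ (by linarith)

end Melzak
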