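import Pool.Agent.Helper27.Mz2.LensC

/-!
# G2 (ii): three discs with a + b + c = 12/5, case b + c <= 1

T(a,b,c) = lens a b + lens a c + lens b c, a >= 7/5. Move (b, c) to (t, t), t = (b+c)/2: along
(s - x, x), c <= x <= t, b' = s - x: dT/dx = (ang x b' - ang b' x) + (ang x a - ang b' a) >= 0
(ang_le_ang; ang_le_of_mul_le with y = a >= 1). Then V(t) = T(12/5 - 2t, t, t) for t up to 1/2:
V'(t) = 2 (ang t a + ang t t - 2 ang a t), a = 12/5 - 2t. ang a t <= pi/4, as
(1 + a - t)/(2 sqrt a) = (17/5 - 3t)/(2 sqrt(12/5 - 2t)) >= 1/sqrt 2 for t in [0, 1/2]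
((17/5 - 3t)^2 >= 2 (12/5 - 2t)); and ang t a + ang t t >= pi/2: for t <= 1/3, ang t a >= pi/2 as
1 + t - a = 3t - 7/5 <= 0; for t >= 1/3: (3t - 7/5)/(2 sqrt t) <= 1/2 so ang t a >= pi/3, and
1/(2 sqrt t) <= sqrt 3/2 so ang t t >= pi/6. So V(t) <= V(1/2) = T(7/5, 1/2, 1/2).
(If b = c = 0 then the left side is 0.)
-/

open MeasureTheory Set Filter Topology
open scoped ENNReal InnerProductSpace

namespace Melzak

lemma three_two_mono {s : ℝ} (hs : s ≤ 1) :
    MonotoneOn (fun x => lens (12 / 5 - s) (s - x) + lens (12 / 5 - s) x + lens (s - x) x)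
      (Icc 0 (s / 2)) := by
  have hder : ∀ x ∈ interior (Icc 0 (s / 2)), HasDerivAt
      (fun x => lens (12 / 5 - s) (s - x) + lens (12 / 5 - s) x + lens (s - x) x)
      ((ang (12 / 5 - s) (s - x) * 0 + ang (s - x) (12 / 5 - s) * (-1)) +
        (ang (12 / 5 - s) x * 0 + ang x (12 / 5 - s) * 1) +
        (ang (s - x) x * (-1) + ang x (s - x) * 1)) x := by
    intro x hx
    rw [interior_Icc] at hx
    have h1 : HasDerivAt (fun _ : ℝ => 12 / 5 - s) 0 x := hasDerivAt_const _ _
    have h2 : HasDerivAt (fun y : ℝ => s - y) (-1) x := by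
      simpa using (hasDerivAt_id x).const_sub s
    have h3 : HasDerivAt (fun y : ℝ => y) 1 x := hasDerivAt_id x
    have p1 : 0 < 12 / 5 - s := by linarith
    have p2 : 0 < s - x := by linarith [hx.1, hx.2]
    have p3 : 0 < x := hx.1
    exact ((hasDerivAt_lens_comp h1 h2 p1 p2).add (hasDerivAt_lens_comp h1 h3 p1 p3)).add
      (hasDerivAt_lens_comp h2 h3 p2 p3)
  apply monotoneOn_of_deriv_nonneg (convex_Icc _ _)
  · apply Continuous.continuousOn
    exact ((continuous_lens.comp (f := fun x : ℝ => (12 / 5 - s, s - x)) (by fun_prop)).add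
      (continuous_lens.comp (f := fun x : ℝ => (12 / 5 - s, x)) (by fun_prop))).add
      (continuous_lens.comp (f := fun x : ℝ => (s - x, x)) (by fun_prop))
  · intro x hx
    exact (hder x hx).differentiableAt.differentiableWithinAt
  · intro x hx
    rw [(hder x hx).deriv]
    rw [interior_Icc] at hx
    have h1 : ang (s - x) (12 / 5 - s) ≤ ang x (12 / 5 - s) := by
      apply ang_le_of_mul_le hx.1 (by linarith [hx.2])
      have := Real.sqrt_nonneg (x * (s - x))
      linarith
    have h2 : ang (s - x) x ≤ ang x (s - x) := ang_le_ang hx.1 (by linarith [hx.2])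
    linarith

lemma ang_le_pi_div_four {t : ℝ} (h0 : 0 ≤ t) (h1 : t ≤ 1 / 2) : ang (12 / 5 - 2 * t) t ≤ Real.pi / 4 := by
  unfold ang
  have ha : 0 < 12 / 5 - 2 * t := by linarith
  have hsa : 0 < Real.sqrt (12 / 5 - 2 * t) := Real.sqrt_pos.2 ha
  have h : Real.cos (Real.pi / 4) ≤ (1 + (12 / 5 - 2 * t) - t) / (2 * Real.sqrt (12 / 5 - 2 * t)) := by
    rw [Real.cos_pi_div_four, le_div_iff₀ (by positivity)]
    have h2 : Real.sqrt 2 * Real.sqrt (12 / 5 - 2 * t) ≤ 1 + (12 / 5 - 2 * t) - t := by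
      rw [← Real.sqrt_mul (by norm_num)]
      rw [Real.sqrt_le_left (by linarith)]
      nlinarith
    linarith
  calc Real.arccos ((1 + (12 / 5 - 2 * t) - t) / (2 * Real.sqrt (12 / 5 - 2 * t)))
      ≤ Real.arccos (Real.cos (Real.pi / 4)) := Real.arccos_le_arccos h
    _ = Real.pi / 4 := Real.arccos_cos (by positivity) (by linarith [Real.pi_pos])

lemma pi_div_two_le_ang {t : ℝ} (h0 : 0 < t) (h1 : t ≤ 1 / 2) :
    Real.pi / 2 ≤ ang t (12 / 5 - 2 * t) + ang t t := by
  have hst : 0 < Real.sqrt t := Real.sqrt_pos.2 h0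
  rcases le_total t (1 / 3) with h | h
  · have h2 : Real.pi / 2 ≤ ang t (12 / 5 - 2 * t) := by
      unfold ang
      have h3 : (1 + t - (12 / 5 - 2 * t)) / (2 * Real.sqrt t) ≤ 0 :=
        div_nonpos_of_nonpos_of_nonneg (by linarith) (by positivity)
      have h4 := Real.arccos_le_arccos h3
      rwa [Real.arccos_zero] at h4
    have := ang_nonneg t t
    linarith
  · have h3s : Real.sqrt (1 / 3) ≤ Real.sqrt t := Real.sqrt_le_sqrt h
    have h2 : Real.pi / 3 ≤ ang t (12 / 5 - 2 * t) := by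
      unfold ang
      have h3 : (1 + t - (12 / 5 - 2 * t)) / (2 * Real.sqrt t) ≤ Real.cos (Real.pi / 3) := by
        rw [Real.cos_pi_div_three, div_le_iff₀ (by positivity)]
        have h5 : (0.5:ℝ) ≤ Real.sqrt t := by
          apply Real.le_sqrt_of_sq_le
          norm_num
          linarith
        norm_num at h5 ⊢
        linarith
      have h4 := Real.arccos_le_arccos h3
      rwa [Real.arccos_cos (by positivity) (by linarith [Real.pi_pos])] at h4
    have h6 : Real.pi / 6 ≤ ang t t := by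
      unfold ang
      have h3 : (1 + t - t) / (2 * Real.sqrt t) ≤ Real.cos (Real.pi / 6) := by
        rw [Real.cos_pi_div_six, div_le_iff₀ (by positivity)]
        have h5 : 1 ≤ Real.sqrt 3 * Real.sqrt t := by
          rw [← Real.sqrt_mul (by norm_num)]
          apply Real.le_sqrt_of_sq_le
          linarith
        linarith
      have h4 := Real.arccos_le_arccos h3
      rwa [Real.arccos_cos (by positivity) (by linarith [Real.pi_pos])] at h4
    linarith

lemma three_two_mono2 :
    MonotoneOn (fun t => lens (12 / 5 - 2 * t) t + lens (12 / 5 - 2 * t) t + lens t t)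
      (Icc 0 (1 / 2)) := by
  have hder : ∀ x ∈ interior (Icc (0:ℝ) (1 / 2)), HasDerivAt
      (fun t => lens (12 / 5 - 2 * t) t + lens (12 / 5 - 2 * t) t + lens t t)
      ((ang (12 / 5 - 2 * x) x * (-2) + ang x (12 / 5 - 2 * x) * 1) +
        (ang (12 / 5 - 2 * x) x * (-2) + ang x (12 / 5 - 2 * x) * 1) +
        (ang x x * 1 + ang x x * 1)) x := by
    intro x hx
    rw [interior_Icc] at hx
    have h1 : HasDerivAt (fun y : ℝ => 12 / 5 - 2 * y) (-2) x := by
      simpa using ((hasDerivAt_id x).const_mul (2:ℝ)).const_sub (12 / 5 : ℝ)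
    have h3 : HasDerivAt (fun y : ℝ => y) 1 x := hasDerivAt_id x
    have p1 : 0 < 12 / 5 - 2 * x := by linarith [hx.2]
    have p3 : 0 < x := hx.1
    exact ((hasDerivAt_lens_comp h1 h3 p1 p3).add (hasDerivAt_lens_comp h1 h3 p1 p3)).add
      (hasDerivAt_lens_comp h3 h3 p3 p3)
  apply monotoneOn_of_deriv_nonneg (convex_Icc _ _)
  · apply Continuous.continuousOn
    exact ((continuous_lens.comp (f := fun x : ℝ => (12 / 5 - 2 * x, x)) (by fun_prop)).add
      (continuous_lens.comp (f := fun x : ℝ => (12 / 5 - 2 * x, x)) (by fun_prop))).add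
      (continuous_lens.comp (f := fun x : ℝ => (x, x)) (by fun_prop))
  · intro x hx
    exact (hder x hx).differentiableAt.differentiableWithinAt
  · intro x hx
    rw [(hder x hx).deriv]
    rw [interior_Icc] at hx
    have h1 := ang_le_pi_div_four hx.1.le hx.2.le
    have h2 := pi_div_two_le_ang hx.1 hx.2.le
    linarith

theorem three_case_two {a b c : ℝ} (hc : 0 ≤ c) (hbc : c ≤ b) (hab : b ≤ a)
    (h : a + b + c = 12 / 5) (h1 : b + c ≤ 1) :
    lens a b + lens a c + lens b c ≤
      lens (7 / 5) (1 / 2) + lens (7 / 5) (1 / 2) + lens (1 / 2) (1 / 2) := by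
  have ha : a = 12 / 5 - (b + c) := by linarith
  have e1 := three_two_mono h1 (a := c) (b := (b + c) / 2) ⟨hc, by linarith⟩
    ⟨by linarith, le_rfl⟩ (by linarith)
  have e2 := three_two_mono2 (a := (b + c) / 2) (b := 1 / 2) ⟨by linarith, by linarith⟩
    ⟨by norm_num, le_rfl⟩ (by linarith)
  simp only at e1 e2
  rw [show b + c - c = b by ring, show b + c - (b + c) / 2 = (b + c) / 2 by ring, ← ha] at e1
  rw [show (12:ℝ) / 5 - 2 * ((b + c) / 2) = a by linarith,
    show (12:ℝ) / 5 - 2 * (1 / 2) = 7 / 5 by norm_num] at e2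
  linarith

end Melzak
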