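import Pool.Agent.Helper27.Mz2.LensB

/-!
# G2 (num): 3 lens (4/5) (4/5) < 12/5 pi - sig

lens (4/5) (4/5) = 2 (4/5) (th - sin th cos th), cos th = 1/(2 sqrt(4/5)) = sqrt 5/4,
sin th = sqrt 11/4, so 3 lens = (24/5) (th - sqrt 55/16). Need
(24/5)(th - sqrt 55/16) < 12/5 pi - sig = 16 pi/15 - sqrt 3/2. (th = 0.97759, left 2.46758, right
2.48501; th <= 0.981 is enough (left 2.484); e.g. from cos 0.98 = 0.5570 < sqrt 5/4 = 0.5590: th < 0.98.)
-/

open MeasureTheory Set Filter Topology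
open scoped ENNReal InnerProductSpace

namespace Melzak

lemma ang_four_fifths_lt : ang (4 / 5) (4 / 5) < 0.981 := by
  unfold ang
  have hcb := Real.cos_bound (x := 0.4905) (by rw [abs_of_pos (by norm_num)]; norm_num)
  have hc1 : Real.cos 0.4905 ≤ 0.882726 := by
    have h := (abs_le.1 hcb).2
    rw [abs_of_pos (by norm_num : (0:ℝ) < 0.4905)] at h
    norm_num at h ⊢
    linarith
  have hc0 : 0 ≤ Real.cos 0.4905 := by
    apply Real.cos_nonneg_of_neg_pi_div_two_le_of_le
    · have := Real.pi_gt_three; linarith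
    · have := Real.pi_gt_three; linarith
  have hc2 : Real.cos 0.981 ≤ 0.5585 := by
    have : (0.981 : ℝ) = 2 * 0.4905 := by norm_num
    rw [this, Real.cos_two_mul]
    nlinarith
  have hs : (0.5585 : ℝ) < (1 + 4 / 5 - 4 / 5) / (2 * Real.sqrt (4 / 5)) := by
    have h2 : Real.sqrt (4 / 5) < 0.8945 := by
      rw [Real.sqrt_lt' (by norm_num)]
      norm_num
    have h3 : 0 < Real.sqrt (4 / 5) := Real.sqrt_pos.2 (by norm_num)
    rw [lt_div_iff₀ (by positivity)]
    nlinarith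
  have hle1 : (1 + 4 / 5 - 4 / 5) / (2 * Real.sqrt (4 / 5)) ≤ (1:ℝ) := by
    have h2 : (0.5:ℝ) ≤ Real.sqrt (4 / 5) := by
      apply Real.le_sqrt_of_sq_le
      norm_num
    rw [div_le_one (by positivity)]
    linarith
  have h4 : Real.arccos ((1 + 4 / 5 - 4 / 5) / (2 * Real.sqrt (4 / 5))) < Real.arccos (Real.cos 0.981) := by
    apply Real.arccos_lt_arccos
    · exact Real.neg_one_le_cos _
    · linarith
    · exact hle1
  rwa [Real.arccos_cos (by norm_num) (by have := Real.pi_gt_three; linarith)] at h4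

theorem three_num : 3 * lens (4 / 5) (4 / 5) < 12 / 5 * Real.pi - sig := by
  have hk : kap (4 / 5) (4 / 5) = 4 / 5 * ang (4 / 5) (4 / 5) - 1 / 2 * Real.sqrt (11 / 20) := by
    rw [kap_eq (by norm_num)]
    · norm_num
    · rw [show ((1:ℝ) + 4 / 5 - 4 / 5) / 2 = 1 / 2 by norm_num, abs_of_pos (by norm_num)]
      apply Real.le_sqrt_of_sq_le
      norm_num
  unfold lens sig
  rw [hk]
  have h1 := ang_four_fifths_lt
  have h2 : 0.7416 ≤ Real.sqrt (11 / 20) := by
    apply Real.le_sqrt_of_sq_le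
    norm_num
  have h3 : Real.sqrt 3 < 1.73206 := by
    rw [Real.sqrt_lt' (by norm_num)]
    norm_num
  have h4 := Real.pi_gt_d4
  norm_num at h1 h2 h3 h4 ⊢
  linarith

end Melzak
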