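import Pool.Agent.Helper27.Mz2.Ana2a
import Pool.Agent.Helper27.Mz2.Ana2b
import Pool.Agent.Helper27.Mz2.Ana2c

/-!
# G2: three discs with a + b + c = 12/5 (assembly, done)
-/

open MeasureTheory Set Filter Topology
open scoped ENNReal InnerProductSpace

namespace Melzak

theorem three_disc {a b c : ℝ} (hc : 0 ≤ c) (hbc : c ≤ b) (hab : b ≤ a)
    (h : a + b + c = 12 / 5) :
    sig < Real.pi * (a + b + c) - (lens a b + lens a c + lens b c) := by
  have h0 : lens a b + lens a c + lens b c ≤ 3 * lens (4 / 5) (4 / 5) := by
    rcases le_total 1 (b + c) with h1 | h1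
    · exact three_case_one hc hbc hab h h1
    · exact (three_case_two hc hbc hab h h1).trans
        (three_case_one (by norm_num) (by norm_num) (by norm_num) (by norm_num) (by norm_num))
  have := three_num
  rw [h]
  linarith

end Melzak
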