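import Pool.Agent.Helper27.Mz2.LensC

/-!
# G2 (i): three discs with a + b + c = 12/5, case b + c >= 1

T(a,b,c) = lens a b + lens a c + lens b c.
Move (a, b) to (m, m), m = (a+b)/2: along (s - x, x), b <= x <= m, s = a + b,
dT/dx = (ang x a' - ang a' x) + (ang x c - ang a' c), a' = s - x >= x. The first bracket is >= 0 by
ang_le_ang, the second by ang_le_of_mul_le, as x a' >= a b >= (1-c)^2 (b >= 1 - c).
Then T(m, m, c) =: U(c), m = 6/5 - c/2, c <= 4/5:
U'(c) = 2 ang c m - ang m c - ang m m >= 0 for 0 < c < 4/5: ang c m >= ang m c (c <= m) and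
ang c m >= ang m m, i.e. (1 + c - m)/(2 sqrt c) <= 1/(2 sqrt m), i.e. (3c/2 - 1/5) sqrt m <= sqrt c:
trivial if 3c/2 <= 1/5, else (3c/2 - 1/5)^2 (6/5 - c/2) <= c, a cubic inequality on [2/15, 4/5] with
equality at c = 4/5. So U(c) <= U(4/5) = 3 lens (4/5) (4/5).
-/

open MeasureTheory Set Filter Topology
open scoped ENNReal InnerProductSpace

namespace Melzak

lemma ana2a_mono1 {b c s : ℝ} (hc : 0 ≤ c) (hb : 0 < b) (h1 : 1 ≤ b + c) :
    MonotoneOn (fun x => lens (s - x) x + lens (s - x) c + lens x c) (Icc b (s / 2)) := by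
  have hder : ∀ x ∈ interior (Icc b (s / 2)), HasDerivAt
      (fun x => lens (s - x) x + lens (s - x) c + lens x c)
      ((ang (s - x) x * (-1) + ang x (s - x) * 1) + ang (s - x) c * (-1) + ang x c) x := by
    intro x hx
    rw [interior_Icc] at hx
    have h2 : HasDerivAt (fun y : ℝ => s - y) (-1) x := by
      simpa using (hasDerivAt_id x).const_sub s
    have h3 : HasDerivAt (fun y : ℝ => y) 1 x := hasDerivAt_id x
    have p3 : 0 < x := by linarith [hx.1]
    have p2 : 0 < s - x := by linarith [hx.1, hx.2]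
    exact ((hasDerivAt_lens_comp h2 h3 p2 p3).add
      (HasDerivAt.comp (h₂ := fun y => lens y c) x (hasDerivAt_lens p2 hc) h2)).add
      (hasDerivAt_lens p3 hc)
  apply monotoneOn_of_deriv_nonneg (convex_Icc _ _)
  · apply Continuous.continuousOn
    exact ((continuous_lens.comp (f := fun x : ℝ => (s - x, x)) (by fun_prop)).add
      (continuous_lens.comp (f := fun x : ℝ => (s - x, c)) (by fun_prop))).add
      (continuous_lens.comp (f := fun x : ℝ => (x, c)) (by fun_prop))
  · intro x hx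
    exact (hder x hx).differentiableAt.differentiableWithinAt
  · intro x hx
    rw [(hder x hx).deriv]
    rw [interior_Icc] at hx
    have p3 : 0 < x := by linarith [hx.1]
    have hle : x ≤ s - x := by linarith [hx.2]
    have k1 : ang (s - x) x ≤ ang x (s - x) := ang_le_ang p3 hle
    have k2 : ang (s - x) c ≤ ang x c := by
      apply ang_le_of_mul_le p3 hle
      have h3 : x ≤ Real.sqrt (x * (s - x)) := by
        apply Real.le_sqrt_of_sq_le
        nlinarith
      linarith [hx.1]
    linarith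

lemma ana2a_mono2 :
    MonotoneOn (fun c => lens (6 / 5 - c / 2) (6 / 5 - c / 2) + lens (6 / 5 - c / 2) c +
      lens (6 / 5 - c / 2) c) (Icc 0 (4 / 5)) := by
  have hder : ∀ x ∈ interior (Icc (0:ℝ) (4 / 5)), HasDerivAt
      (fun c => lens (6 / 5 - c / 2) (6 / 5 - c / 2) + lens (6 / 5 - c / 2) c +
        lens (6 / 5 - c / 2) c)
      ((ang (6 / 5 - x / 2) (6 / 5 - x / 2) * (-(1 / 2)) +
          ang (6 / 5 - x / 2) (6 / 5 - x / 2) * (-(1 / 2))) +
        (ang (6 / 5 - x / 2) x * (-(1 / 2)) + ang x (6 / 5 - x / 2) * 1) +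
        (ang (6 / 5 - x / 2) x * (-(1 / 2)) + ang x (6 / 5 - x / 2) * 1)) x := by
    intro x hx
    rw [interior_Icc] at hx
    have h1 : HasDerivAt (fun y : ℝ => 6 / 5 - y / 2) (-(1 / 2)) x := by
      simpa using ((hasDerivAt_id x).div_const (2:ℝ)).const_sub (6 / 5 : ℝ)
    have h3 : HasDerivAt (fun y : ℝ => y) 1 x := hasDerivAt_id x
    have p1 : 0 < 6 / 5 - x / 2 := by linarith [hx.2]
    have p3 : 0 < x := hx.1
    exact ((hasDerivAt_lens_comp h1 h1 p1 p1).add (hasDerivAt_lens_comp h1 h3 p1 p3)).add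
      (hasDerivAt_lens_comp h1 h3 p1 p3)
  apply monotoneOn_of_deriv_nonneg (convex_Icc _ _)
  · apply Continuous.continuousOn
    exact ((continuous_lens.comp (f := fun x : ℝ => (6 / 5 - x / 2, 6 / 5 - x / 2))
      (by fun_prop)).add
      (continuous_lens.comp (f := fun x : ℝ => (6 / 5 - x / 2, x)) (by fun_prop))).add
      (continuous_lens.comp (f := fun x : ℝ => (6 / 5 - x / 2, x)) (by fun_prop))
  · intro x hx
    exact (hder x hx).differentiableAt.differentiableWithinAt
  · intro x hx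
    rw [(hder x hx).deriv]
    rw [interior_Icc] at hx
    obtain ⟨hx0, hx1⟩ := hx
    have hle : x ≤ 6 / 5 - x / 2 := by linarith
    have k1 : ang (6 / 5 - x / 2) x ≤ ang x (6 / 5 - x / 2) := ang_le_ang hx0 hle
    have k2 : ang (6 / 5 - x / 2) (6 / 5 - x / 2) ≤ ang x (6 / 5 - x / 2) := by
      have hm : 0 < 6 / 5 - x / 2 := by linarith
      have hsm := Real.sqrt_pos.mpr hm
      have hsx := Real.sqrt_pos.mpr hx0
      apply Real.arccos_le_arccos
      rw [div_le_div_iff₀ (by positivity) (by positivity)]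
      have key : (1 + x - (6 / 5 - x / 2)) * Real.sqrt (6 / 5 - x / 2) ≤ Real.sqrt x := by
        by_cases h0 : 1 + x - (6 / 5 - x / 2) ≤ 0
        · exact (mul_nonpos_of_nonpos_of_nonneg h0 hsm.le).trans hsx.le
        · push Not at h0
          apply Real.le_sqrt_of_sq_le
          rw [mul_pow, Real.sq_sqrt hm.le]
          have hq : 9 * x ^ 2 / 8 - 21 * x / 10 + 3 / 50 ≤ 0 := by nlinarith
          nlinarith [mul_nonneg (sub_nonneg.mpr hx1.le) (neg_nonneg.mpr hq)]
      linarith
    linarith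

theorem three_case_one {a b c : ℝ} (hc : 0 ≤ c) (hbc : c ≤ b) (hab : b ≤ a)
    (h : a + b + c = 12 / 5) (h1 : 1 ≤ b + c) :
    lens a b + lens a c + lens b c ≤ 3 * lens (4 / 5) (4 / 5) := by
  have hb : 0 < b := by linarith
  have e2 := ana2a_mono2 (a := c) (b := 4 / 5) ⟨hc, by linarith⟩
    ⟨by norm_num, le_rfl⟩ (by linarith)
  simp only at e2
  rw [show (6:ℝ) / 5 - 4 / 5 / 2 = 4 / 5 by norm_num] at e2
  have e1 := @ana2a_mono1 b c (a + b) hc hb h1 b ⟨le_rfl, by linarith⟩ ((a + b) / 2)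
    ⟨by linarith, le_rfl⟩ (by linarith)
  simp only at e1
  rw [show a + b - b = a by ring, show a + b - (a + b) / 2 = (a + b) / 2 by ring,
    show (a + b) / 2 = 6 / 5 - c / 2 by linarith] at e1
  linarith

end Melzak
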