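import Pool.Agent.Helper27.Mz2.Ana3Ex

/-!
# G3 (S4)

f(y) = lens y e. Claim f(12/5 - 2x) + 2 f(x) <= pi e when x (12/5 - 2x) < (1-e)^2,
x = max(e, (1 - sqrt e)^2). For e <= 1/4: f(x) = 0 (lens_eq_zero) and f <= pi e (lens_le).
For e >= 1/4: x = e, the hypothesis says e (12/5 - 2e) < (1-e)^2, i.e. 3e^2 - 4.4 e + 1 > 0, so
e < 0.2812 (as e <= 4/5). The gap pi e - lens e (12/5 - 2e)
= int_0^e (pi - ang s (12/5 - 2e)) ds = int_0^e arccos((7/5 - 2e - s)/(2 sqrt s)) ds is at least
int_(1/5)^(1/4) arccos((9/10 - s)/(2 sqrt s)) ds >= (1/20) arccos(0.7827) >= 0.0336 (e >= 1/4, the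
integrand is nonnegative), and 2 lens e e <= (2/3)(4e-1)^(3/2) <= 0.0294 (lens_self_le).
-/

open MeasureTheory Set Filter Topology
open scoped ENNReal InnerProductSpace

namespace Melzak

/-- the angle is at most `pi - 3/5` -/
lemma s4_ang {e s : ℝ} (he : 1 / 4 ≤ e) (hs : 1 / 5 ≤ s) :
    ang s (12 / 5 - 2 * e) ≤ Real.pi - 3 / 5 := by
  unfold ang
  have hs0 : 0 < Real.sqrt s := Real.sqrt_pos.mpr (by linarith)
  have hsq : Real.sqrt s ^ 2 = s := Real.sq_sqrt (by linarith)
  have h1 : 3 / 5 ≤ Real.arccos (-((1 + s - (12 / 5 - 2 * e)) / (2 * Real.sqrt s))) := by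
    have h2 : Real.arccos (Real.cos (3 / 5)) = 3 / 5 :=
      Real.arccos_cos (by norm_num) (by linarith [Real.pi_gt_three])
    rw [← h2]
    apply Real.arccos_le_arccos
    have h3 : (1 : ℝ) - (3 / 5) ^ 2 / 2 ≤ Real.cos (3 / 5) := Real.one_sub_sq_div_two_le_cos
    refine le_trans ?_ h3
    rw [← neg_div, div_le_iff₀ (by positivity)]
    have h4 : (2 / 5 : ℝ) ≤ Real.sqrt s := Real.le_sqrt_of_sq_le (by norm_num; linarith)
    nlinarith
  rw [Real.arccos_neg] at h1
  linarith

theorem net_s4 {e x : ℝ} (he : 0 < e) (he' : e ≤ 4 / 5)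
    (hx : x = max e ((1 - Real.sqrt e) ^ 2)) (hx' : x ≤ 4 / 5)
    (h : x * (12 / 5 - 2 * x) < (1 - e) ^ 2) :
    lens (12 / 5 - 2 * x) e + 2 * lens x e ≤ Real.pi * e := by
  have hs0 : 0 ≤ Real.sqrt e := Real.sqrt_nonneg e
  have hsq : Real.sqrt e ^ 2 = e := Real.sq_sqrt he.le
  rcases le_total e (1 / 4) with h1 | h1
  · have h2 : Real.sqrt e ≤ 1 / 2 := by
      rw [show (1 / 2 : ℝ) = Real.sqrt (1 / 4) by
        rw [show (1 / 4 : ℝ) = (1 / 2) ^ 2 by norm_num, Real.sqrt_sq (by norm_num)]]
      exact Real.sqrt_le_sqrt h1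
    have h3 : x = (1 - Real.sqrt e) ^ 2 := by
      rw [hx]
      apply max_eq_right
      nlinarith
    have h4 : Real.sqrt x = 1 - Real.sqrt e := by
      rw [h3, Real.sqrt_sq (by linarith)]
    have hx0 : 0 ≤ x := by rw [h3]; positivity
    have h5 : lens x e = 0 := lens_eq_zero hx0 he.le (by rw [h4]; linarith)
    have h6 : lens (12 / 5 - 2 * x) e ≤ Real.pi * e := by
      rw [lens_comm]
      exact lens_le he.le (by linarith)
    rw [h5]
    linarith
  · have h2 : 1 / 2 ≤ Real.sqrt e := Real.le_sqrt_of_sq_le (by norm_num; linarith)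
    have h2' : Real.sqrt e ≤ 1 := by
      rw [← Real.sqrt_one]
      exact Real.sqrt_le_sqrt (by linarith)
    have h3 : x = e := by
      rw [hx]
      apply max_eq_left
      nlinarith
    rw [h3] at h ⊢
    have h4 : e < 2813 / 10000 := by
      by_contra hcon
      rw [not_lt] at hcon
      nlinarith
    -- the gap
    set b : ℝ := 12 / 5 - 2 * e with hb
    have hb0 : 0 ≤ b := by rw [hb]; linarith
    set g : ℝ → ℝ := fun s => Real.pi * s - lens s b with hg
    have hd : ∀ s, 0 < s → HasDerivAt g (Real.pi - ang s b) s := by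
      intro s hs
      have h5 := ((hasDerivAt_id s).const_mul Real.pi).sub (hasDerivAt_lens hs hb0)
      rw [mul_one] at h5
      exact h5
    have hcont : ContinuousOn g (Ioi 0) := fun s hs => (hd s hs).continuousAt.continuousWithinAt
    have hpi : ∀ s, ang s b ≤ Real.pi := fun s => Real.arccos_le_pi _
    have hg1 : 0 ≤ g (1 / 5) := by
      have := lens_le (a := 1 / 5) (b := b) (by norm_num) hb0
      simp only [hg]
      linarith
    have hg2 : (3 / 5 : ℝ) * (1 / 4 - 1 / 5) ≤ g (1 / 4) - g (1 / 5) := by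
      apply (convex_Icc (1 / 5 : ℝ) (1 / 4)).mul_sub_le_image_sub_of_le_deriv
        (hcont.mono fun s hs => ?_) (fun s hs => ?_) (fun s hs => ?_) _ (by norm_num) _ (by norm_num)
        (by norm_num)
      · show 0 < s
        linarith [hs.1]
      · rw [interior_Icc] at hs
        exact (hd s (by linarith [hs.1])).differentiableAt.differentiableWithinAt
      · rw [interior_Icc] at hs
        rw [(hd s (by linarith [hs.1])).deriv]
        have := s4_ang h1 hs.1.le
        linarith
    have hg3 : g (1 / 4) ≤ g e := by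
      have hm : MonotoneOn g (Icc (1 / 4) e) := by
        apply monotoneOn_of_deriv_nonneg (convex_Icc _ _) (hcont.mono fun s hs => ?_)
          (fun s hs => ?_) (fun s hs => ?_)
        · show 0 < s
          linarith [hs.1]
        · rw [interior_Icc] at hs
          exact (hd s (by linarith [hs.1])).differentiableAt.differentiableWithinAt
        · rw [interior_Icc] at hs
          rw [(hd s (by linarith [hs.1])).deriv]
          linarith [hpi s]
      exact hm (left_mem_Icc.2 h1) (right_mem_Icc.2 h1) h1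
    have hself := lens_self_le h1
    have hw : Real.sqrt (4 * e - 1) ^ 3 ≤ 9 / 200 := by
      have hw0 : 0 ≤ Real.sqrt (4 * e - 1) := Real.sqrt_nonneg _
      have hw1 : Real.sqrt (4 * e - 1) ≤ 3555 / 10000 := by
        apply Real.sqrt_le_iff.2
        constructor
        · norm_num
        · norm_num
          linarith
      calc Real.sqrt (4 * e - 1) ^ 3 ≤ (3555 / 10000) ^ 3 := pow_le_pow_left₀ hw0 hw1 3
        _ ≤ 9 / 200 := by norm_num
    have hge : (3 / 100 : ℝ) ≤ Real.pi * e - lens e b := by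
      have : g e = Real.pi * e - lens e b := rfl
      linarith
    rw [lens_comm b e]
    linarith

end Melzak
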