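import Pool.Agent.Helper27.Mz2.Ana3S23
import Pool.Agent.Helper27.Mz2.Ana3S4

/-!
# G3: the fourth disc is not covered too often (net >= 0), assembly

f(x) = lens x e. If e = 0 trivial (lens x 0 = 0, lens_le with lens_comm).
Case A: sqrt c + sqrt e <= 1: f(c) = 0, use lens_add_le.
Case B: sqrt c + sqrt e > 1. f is increasing, so increase a until a + b + c = 12/5 (the condition
sqrt a + sqrt b <= 2 is not used any more). Then e <= c <= 4/5. Let x = max(e, (1 - sqrt e)^2) <= c,
m = 6/5 - x/2.
B1: b c <= (1-e)^2: exch_out for (c, b), t0 = x: f(b) + f(c) <= f(x) + f(b + c - x). Let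
(p, q) = (a, b + c - x), p + q = 2 m, both >= x. If p q >= (1-e)^2: f(p) + f(q) <= 2 f(m) (exch_in
for the sorted pair), use net_s23. If p q < (1-e)^2: f(p) + f(q) <= f(x) + f(2m - x) by exch_out
(sorted pair, t0 = x), 2m - x = 12/5 - 2x, use net_s4; x (12/5 - 2x) <= p q < (1-e)^2.
B2: b c > (1-e)^2: f(a) + f(b) <= 2 f(6/5 - c/2) (exch_in, a b >= b c), and
(1-e)^2 <= c b <= c (6/5 - c/2), so exch_psi and net_s1 finish.
-/

open MeasureTheory Set Filter Topology
open scoped ENNReal InnerProductSpace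

namespace Melzak

/-- Exchange for an unordered pair, inwards. -/
lemma a3_in {p q e : ℝ} (he : 0 ≤ e) (he1 : e ≤ 1) (hp : 0 ≤ p) (hq : 0 ≤ q)
    (h : (1 - e) ^ 2 ≤ p * q) : lens p e + lens q e ≤ 2 * lens ((p + q) / 2) e := by
  rcases le_total p q with h1 | h1
  · exact exch_in he he1 hp h1 h
  · have := exch_in he he1 hq h1 (by linarith [mul_comm p q])
    rw [add_comm q p] at this
    linarith

/-- Exchange for an unordered pair, outwards. -/
lemma a3_out {t₀ p q e : ℝ} (he : 0 ≤ e) (he1 : e ≤ 1) (ht₀ : 0 ≤ t₀) (hp : t₀ ≤ p) (hq : t₀ ≤ q)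
    (h : p * q ≤ (1 - e) ^ 2) :
    lens p e + lens q e ≤ lens t₀ e + lens (p + q - t₀) e := by
  rcases le_total p q with h1 | h1
  · exact exch_out he he1 ht₀ hp h1 h
  · have := exch_out he he1 ht₀ hq h1 (by linarith [mul_comm p q])
    rw [add_comm q p] at this
    linarith

/-- Case B, with the sum equal to 12/5. -/
lemma a3_main {a b c e : ℝ} (he : 0 < e) (hce : e ≤ c) (hbc : c ≤ b) (hab : b ≤ a)
    (hs : a + b + c = 12 / 5) (h1 : 1 < Real.sqrt c + Real.sqrt e) :
    lens a e + lens b e + lens c e ≤ Real.pi * e := by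
  have hc0 : 0 < c := lt_of_lt_of_le he hce
  have hc45 : c ≤ 4 / 5 := by linarith
  have he45 : e ≤ 4 / 5 := by linarith
  have he1 : e ≤ 1 := by linarith
  have hse : Real.sqrt e ^ 2 = e := Real.sq_sqrt he.le
  have hsc : Real.sqrt c ^ 2 = c := Real.sq_sqrt hc0.le
  have hse0 : 0 ≤ Real.sqrt e := Real.sqrt_nonneg e
  have hsc0 : 0 ≤ Real.sqrt c := Real.sqrt_nonneg c
  have hse1 : Real.sqrt e ≤ 1 := by
    rw [Real.sqrt_le_one]; exact he1
  obtain ⟨x, hx⟩ : ∃ x, x = max e ((1 - Real.sqrt e) ^ 2) := ⟨_, rfl⟩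
  have hxc : x ≤ c := by
    rw [hx]
    apply max_le hce
    nlinarith
  have hx0 : 0 ≤ x := by
    rw [hx]; exact le_max_of_le_left he.le
  have hx45 : x ≤ 4 / 5 := hxc.trans hc45
  rcases le_total (c * b) ((1 - e) ^ 2) with hB | hB
  · have hA := exch_out he.le he1 hx0 hxc hbc hB
    have hq : x ≤ c + b - x := by linarith
    have hp : x ≤ a := by linarith
    rcases le_or_gt ((1 - e) ^ 2) (a * (c + b - x)) with hC | hC
    · have hD := a3_in he.le he1 (hx0.trans hp) (hx0.trans hq) hC
      have hE := net_s23 he he45 hx hx45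
      have h3 : (a + (c + b - x)) / 2 = 6 / 5 - x / 2 := by linarith
      rw [h3] at hD
      linarith
    · have hD := a3_out he.le he1 hx0 hp hq hC.le
      have h3 : a + (c + b - x) - x = 12 / 5 - 2 * x := by linarith
      rw [h3] at hD
      have hE := net_s4 he he45 hx hx45 (by
        refine lt_of_le_of_lt ?_ hC
        have h4 : 12 / 5 - 2 * x = a + (c + b - x) - x := h3.symm
        rw [h4]
        nlinarith [mul_nonneg (sub_nonneg.mpr hp) (sub_nonneg.mpr hq)])
      linarith
  · have hA := exch_in he.le he1 (hc0.le.trans hbc) hab (by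
      refine hB.trans ?_
      nlinarith)
    have h3 : (b + a) / 2 = 6 / 5 - c / 2 := by linarith
    rw [h3] at hA
    have hC := exch_psi he.le he1 hc0.le hc45 (by
      refine hB.trans ?_
      nlinarith)
    have hD := net_s1 he.le he45
    linarith

theorem net_nonneg {a b c e : ℝ} (he : 0 ≤ e) (hce : e ≤ c) (hbc : c ≤ b) (hab : b ≤ a)
    (hs : a + b + c ≤ 12 / 5) (h2 : Real.sqrt a + Real.sqrt b ≤ 2) :
    lens a e + lens b e + lens c e ≤ Real.pi * e := by
  have hc0 : 0 ≤ c := he.trans hce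
  have hb0 : 0 ≤ b := hc0.trans hbc
  have ha0 : 0 ≤ a := hb0.trans hab
  rcases le_or_gt (Real.sqrt c + Real.sqrt e) 1 with h1 | h1
  · rw [lens_eq_zero hc0 he h1, add_zero]
    exact lens_add_le ha0 hb0 he h2
  · rcases he.eq_or_lt with h0 | h0
    · subst h0
      rw [Real.sqrt_zero, add_zero] at h1
      have h3 : 1 < c := by
        by_contra h4
        rw [not_lt] at h4
        have := Real.sqrt_le_one.mpr h4
        linarith
      linarith
    · have h3 := a3_main (a := 12 / 5 - b - c) h0 hce hbc (by linarith) (by ring) h1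
      have h4 := lens_mono ha0 (show a ≤ 12 / 5 - b - c by linarith) he (le_refl e)
      linarith

end Melzak
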