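import Pool.Agent.Helper27.Mz2.LensC

/-!
# G3 (a): exchange lemmas

Fix e, f(x) = lens x e, f'(x) = ang x e.
exch_in: 0 <= t <= t', (1-e)^2 <= t t': g(x) = f(x) + f(s - x), s = t + t', is increasing on
[t, s/2]: g' = ang x e - ang (s-x) e >= 0 by ang_le_of_mul_le, as x (s-x) >= t t' >= (1-e)^2.
exch_out: t t' <= (1-e)^2: on [t0, t] x (s-x) <= t t' <= (1-e)^2, so g' <= 0 (ang_le_of_le_mul).
exch_psi: psi(c) = 2 f(6/5 - c/2) + f(c) has psi' = ang c e - ang mc e >= 0 on [c, 4/5], where
mc = 6/5 - c/2 >= c, as c mc increases with c, so >= (1-e)^2. psi(4/5) = 3 f(4/5).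
lens_self_le: with w = sqrt(4e-1), lens e e = (1+w^2)/2 arctan w - w/2 (kap_eq: h = 1/2,
arccos(1/(2 sqrt e)) = arctan w, sqrt(e - 1/4) = w/2), and (1 + w^2) arctan w <= w + 2 w^3/3
(derivative of the difference: 2 w (w - arctan w) >= 0).
-/

open MeasureTheory Set Filter Topology
open scoped ENNReal InnerProductSpace

namespace Melzak

lemma a3e_cont (e : ℝ) {f : ℝ → ℝ} (hf : Continuous f) : Continuous fun x => lens (f x) e :=
  continuous_lens.comp (f := fun x => ((f x, e) : ℝ × ℝ)) (by fun_prop)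

lemma a3e_deriv {e s x : ℝ} (he : 0 ≤ e) (hx : 0 < x) (hs : 0 < s - x) :
    HasDerivAt (fun x => lens x e + lens (s - x) e) (ang x e - ang (s - x) e) x := by
  have h1 := hasDerivAt_lens hx he
  have h2 := (hasDerivAt_lens hs he).comp x ((hasDerivAt_id x).const_sub s)
  exact (h1.add h2).congr_deriv (by simp [sub_eq_add_neg])

theorem exch_in {t t' e : ℝ} (he : 0 ≤ e) (he1 : e ≤ 1) (ht : 0 ≤ t) (htt : t ≤ t')
    (h : (1 - e) ^ 2 ≤ t * t') :
    lens t e + lens t' e ≤ 2 * lens ((t + t') / 2) e := by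
  set s := t + t' with hs
  have hmono : MonotoneOn (fun x => lens x e + lens (s - x) e) (Icc t (s / 2)) := by
    apply monotoneOn_of_deriv_nonneg (convex_Icc _ _)
    · exact ((a3e_cont e continuous_id).add (a3e_cont e (by fun_prop))).continuousOn
    · intro x hx
      rw [interior_Icc] at hx
      exact (a3e_deriv he (lt_of_le_of_lt ht hx.1)
        (by linarith [hx.2, hx.1])).differentiableAt.differentiableWithinAt
    · intro x hx
      rw [interior_Icc] at hx
      have hx0 : 0 < x := lt_of_le_of_lt ht hx.1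
      rw [(a3e_deriv he hx0 (by linarith [hx.2, hx.1])).deriv, sub_nonneg]
      apply ang_le_of_mul_le hx0 (by linarith [hx.2])
      apply Real.le_sqrt_of_sq_le
      nlinarith [mul_nonneg (sub_nonneg.mpr hx.1.le) (show 0 ≤ t' - x by linarith [hx.2])]
  have h1 := hmono (left_mem_Icc.mpr (by linarith)) (right_mem_Icc.mpr (by linarith))
    (show t ≤ s / 2 by linarith)
  simp only at h1
  have e1 : s - t = t' := by rw [hs]; ring
  have e2 : s - s / 2 = s / 2 := by ring
  rw [e1, e2] at h1
  linarith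

theorem exch_out {t₀ t t' e : ℝ} (he : 0 ≤ e) (he1 : e ≤ 1) (ht₀ : 0 ≤ t₀) (ht : t₀ ≤ t)
    (htt : t ≤ t') (h : t * t' ≤ (1 - e) ^ 2) :
    lens t e + lens t' e ≤ lens t₀ e + lens (t + t' - t₀) e := by
  set s := t + t' with hs
  have hmono : AntitoneOn (fun x => lens x e + lens (s - x) e) (Icc t₀ t) := by
    apply antitoneOn_of_deriv_nonpos (convex_Icc _ _)
    · exact ((a3e_cont e continuous_id).add (a3e_cont e (by fun_prop))).continuousOn
    · intro x hx
      rw [interior_Icc] at hx
      exact (a3e_deriv he (lt_of_le_of_lt ht₀ hx.1)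
        (by linarith [hx.2, hx.1])).differentiableAt.differentiableWithinAt
    · intro x hx
      rw [interior_Icc] at hx
      have hx0 : 0 < x := lt_of_le_of_lt ht₀ hx.1
      rw [(a3e_deriv he hx0 (by linarith [hx.2, hx.1])).deriv, sub_nonpos]
      apply ang_le_of_le_mul hx0 (by linarith [hx.2])
      apply Real.sqrt_le_iff.mpr
      refine ⟨by linarith, ?_⟩
      nlinarith [mul_nonneg (sub_nonneg.mpr hx.2.le) (show 0 ≤ t' - x by linarith [hx.2])]
  have h1 := hmono (left_mem_Icc.mpr (by linarith)) (right_mem_Icc.mpr (by linarith)) ht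
  simp only at h1
  have e1 : s - t = t' := by rw [hs]; ring
  rw [e1] at h1
  linarith

/-- The function psi of case B2. -/
theorem exch_psi {c e : ℝ} (he : 0 ≤ e) (he1 : e ≤ 1) (hc : 0 ≤ c) (hc' : c ≤ 4 / 5)
    (h : (1 - e) ^ 2 ≤ c * (6 / 5 - c / 2)) :
    2 * lens (6 / 5 - c / 2) e + lens c e ≤ 3 * lens (4 / 5) e := by
  have hd : ∀ x : ℝ, 0 < x → x < 4 / 5 → HasDerivAt (fun x => 2 * lens (6 / 5 - x / 2) e + lens x e)
      (ang x e - ang (6 / 5 - x / 2) e) x := by
    intro x hx hx'
    have h1 := hasDerivAt_lens hx he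
    have h2 := (hasDerivAt_lens (show 0 < 6 / 5 - x / 2 by linarith) he).comp x
      (((hasDerivAt_id x).div_const 2).const_sub (6 / 5))
    exact ((h2.const_mul 2).add h1).congr_deriv (by simp; ring)
  have hmono : MonotoneOn (fun x => 2 * lens (6 / 5 - x / 2) e + lens x e) (Icc c (4 / 5)) := by
    apply monotoneOn_of_deriv_nonneg (convex_Icc _ _)
    · exact ((continuous_const.mul (a3e_cont e (by fun_prop))).add
        (a3e_cont e continuous_id)).continuousOn
    · intro x hx
      rw [interior_Icc] at hx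
      exact (hd x (lt_of_le_of_lt hc hx.1) hx.2).differentiableAt.differentiableWithinAt
    · intro x hx
      rw [interior_Icc] at hx
      have hx0 : 0 < x := lt_of_le_of_lt hc hx.1
      rw [(hd x hx0 hx.2).deriv, sub_nonneg]
      apply ang_le_of_mul_le hx0 (by linarith [hx.2])
      apply Real.le_sqrt_of_sq_le
      nlinarith [mul_nonneg (sub_nonneg.mpr hx.1.le) (show 0 ≤ 12 / 5 - x - c by linarith [hx.2])]
  have h1 := hmono (left_mem_Icc.mpr hc') (right_mem_Icc.mpr hc') hc'
  simp only at h1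
  have e2 : (6 / 5 - 4 / 5 / 2 : ℝ) = 4 / 5 := by norm_num
  rw [e2] at h1
  linarith

lemma a3e_arctan_le {x : ℝ} (hx : 0 ≤ x) : Real.arctan x ≤ x := by
  rcases lt_or_ge x (Real.pi / 2) with h | h
  · have h1 := Real.arctan_mono (Real.le_tan hx h)
    rwa [Real.arctan_tan (by linarith [Real.pi_pos]) h] at h1
  · exact (Real.arctan_lt_pi_div_two x).le.trans h

lemma a3e_arctan {w : ℝ} (hw : 0 ≤ w) : (1 + w ^ 2) * Real.arctan w ≤ w + 2 * w ^ 3 / 3 := by
  have hd : ∀ x : ℝ, HasDerivAt (fun x => x + 2 * x ^ 3 / 3 - (1 + x ^ 2) * Real.arctan x)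
      (2 * x * (x - Real.arctan x)) x := by
    intro x
    have h1 := Real.hasDerivAt_arctan x
    have h2 : HasDerivAt (fun x : ℝ => 1 + x ^ 2) (2 * x) x := by
      simpa using (hasDerivAt_pow 2 x).const_add 1
    have h3 : HasDerivAt (fun x : ℝ => x + 2 * x ^ 3 / 3) (1 + 2 * x ^ 2) x := by
      have := ((hasDerivAt_pow 3 x).const_mul 2).div_const 3
      refine ((hasDerivAt_id x).add this).congr_deriv ?_
      norm_num; ring
    refine (h3.sub (h2.mul h1)).congr_deriv ?_
    have : (1 + x ^ 2) ≠ 0 := by positivity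
    field_simp
    ring
  have hmono : MonotoneOn (fun x => x + 2 * x ^ 3 / 3 - (1 + x ^ 2) * Real.arctan x) (Ici 0) := by
    apply monotoneOn_of_deriv_nonneg (convex_Ici _)
    · intro x _
      exact (hd x).continuousAt.continuousWithinAt
    · intro x _
      exact (hd x).differentiableAt.differentiableWithinAt
    · intro x hx
      rw [interior_Ici] at hx
      have hx0 : (0:ℝ) < x := hx
      rw [(hd x).deriv]
      have : Real.arctan x ≤ x := a3e_arctan_le hx0.le
      have h2 : 0 ≤ x - Real.arctan x := by linarith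
      positivity
  have h1 := hmono (mem_Ici.mpr le_rfl) (mem_Ici.mpr hw) hw
  simp only [Real.arctan_zero] at h1
  norm_num at h1
  linarith

theorem lens_self_le {e : ℝ} (he : 1 / 4 ≤ e) :
    lens e e ≤ (Real.sqrt (4 * e - 1)) ^ 3 / 3 := by
  set w := Real.sqrt (4 * e - 1) with hw
  have hw0 : 0 ≤ w := Real.sqrt_nonneg _
  have hw2 : w ^ 2 = 4 * e - 1 := Real.sq_sqrt (by linarith)
  have he0 : 0 < e := by linarith
  have hse : Real.sqrt e = Real.sqrt (1 + w ^ 2) / 2 := by
    rw [show 1 + w ^ 2 = 2 ^ 2 * e by rw [hw2]; ring, Real.sqrt_mul (by norm_num),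
      Real.sqrt_sq (by norm_num)]
    ring
  have hang : ang e e = Real.arctan w := by
    unfold ang
    have : (1 + e - e) / (2 * Real.sqrt e) = Real.cos (Real.arctan w) := by
      rw [Real.cos_arctan, hse]
      have : Real.sqrt (1 + w ^ 2) ≠ 0 := by positivity
      field_simp
      ring
    rw [this, Real.arccos_cos]
    · rw [← Real.arctan_zero]; exact Real.arctan_mono hw0
    · linarith [Real.arctan_lt_pi_div_two w, Real.pi_pos]
  have hk : kap e e = e * Real.arctan w - 1 / 2 * (w / 2) := by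
    rw [kap_eq he0, hang]
    · congr 2
      · ring
      · rw [show e - ((1 + e - e) / 2) ^ 2 = (w / 2) ^ 2 by rw [div_pow w, hw2]; ring,
          Real.sqrt_sq (by positivity)]
    · rw [show (1 + e - e) / 2 = 1 / 2 by ring, abs_of_pos (by norm_num)]
      apply Real.le_sqrt_of_sq_le
      linarith
  have h1 := a3e_arctan hw0
  unfold lens
  rw [hk]
  have : e = (1 + w ^ 2) / 4 := by rw [hw2]; ring
  rw [this]
  nlinarith

end Melzak
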