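import Pool.Agent.Helper27.Mz2.LensC

/-!
# G3 (gap): a lower bound of pi e/2 - lens (1+del) e

pi e/2 - lens (1+del) e = pi e/2 - lens e (1+del) = int_0^e (pi/2 - ang s (1+del)) ds
= int_0^e arcsin((s - del)/(2 sqrt s)) ds (Real.arcsin is -pi/2 below -1). Pointwise:
arcsin v >= v for 0 <= v <= 1 (v <= sqrt e/2), and arcsin v >= v - (pi/2 - 1) min(1, |v|^3) for
v <= 0: for |v| >= 1 clear, for 0 <= y <= 1: arcsin y <= y + (pi/2 - 1) y^3 [put y = sin x: the
function sin x + (pi/2 - 1) sin^3 x - x on [0, pi/2] vanishes at both ends; or: (arcsin y - y)/y^3 is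
increasing, as arcsin y - y is a power series with nonnegative coefficients of degree >= 3; or any
other proof]. For s <= del |v| <= del/(2 sqrt s). So the integral is at least
int_0^e (sqrt s/2 - del/(2 sqrt s)) ds - (pi/2 - 1) int_0^del min(1, (del/(2 sqrt s))^3) ds
>= sqrt e (e/3 - del) - (3/4)(pi/2 - 1) del^2, where the last integral is at most the integral over
(0, inf), = del^2/4 (s <= del^2/4) + del^2/2 (s >= del^2/4).
-/

open MeasureTheory Set Filter Topology
open scoped ENNReal InnerProductSpace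

namespace Melzak

private lemma gap_sin {x : ℝ} (h0 : 0 ≤ x) (h1 : x ≤ Real.pi / 2) :
    x ≤ Real.sin x + (Real.pi / 2 - 1) * Real.sin x ^ 3 := by
  set c : ℝ := Real.pi / 2 - 1 with hc
  have hpi3 := Real.pi_gt_three
  have hc0 : 0 < c := by rw [hc]; linarith
  have hder : ∀ y : ℝ, HasDerivAt (fun y => Real.sin y + c * Real.sin y ^ 3 - y)
      ((1 - Real.cos y) * (3 * c * (Real.cos y ^ 2 + Real.cos y) - 1)) y := by
    intro y
    have e1 := (((Real.hasDerivAt_sin y).add
      (((Real.hasDerivAt_sin y).pow 3).const_mul c)).sub (hasDerivAt_id y))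
    refine (e1.congr_deriv ?_)
    have e2 := Real.sin_sq_add_cos_sq y
    have e3 : Real.sin y ^ 2 = 1 - Real.cos y ^ 2 := by linarith
    simp only [Nat.cast_ofNat, Nat.add_one_sub_one]
    rw [e3]
    ring
  have hcont : Continuous (fun y : ℝ => Real.sin y + c * Real.sin y ^ 3 - y) := by fun_prop
  by_cases hq : 0 ≤ 3 * c * (Real.cos x ^ 2 + Real.cos x) - 1
  · have hmono : MonotoneOn (fun y : ℝ => Real.sin y + c * Real.sin y ^ 3 - y) (Icc 0 x) := by
      apply monotoneOn_of_deriv_nonneg (convex_Icc 0 x) hcont.continuousOn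
      · intro y _
        exact (hder y).differentiableAt.differentiableWithinAt
      · intro y hy
        rw [interior_Icc] at hy
        rw [(hder y).deriv]
        have h2 : Real.cos x ≤ Real.cos y :=
          Real.cos_le_cos_of_nonneg_of_le_pi hy.1.le (by linarith) hy.2.le
        have h3 : 0 ≤ Real.cos x := Real.cos_nonneg_of_mem_Icc ⟨by linarith, h1⟩
        have h4 := Real.cos_le_one y
        apply mul_nonneg (by linarith)
        have h5 : Real.cos x ^ 2 + Real.cos x ≤ Real.cos y ^ 2 + Real.cos y := by nlinarith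
        have h6 : 3 * c * (Real.cos x ^ 2 + Real.cos x) ≤
            3 * c * (Real.cos y ^ 2 + Real.cos y) :=
          mul_le_mul_of_nonneg_left h5 (by positivity)
        linarith
    have h2 := hmono ⟨le_rfl, h0⟩ ⟨h0, le_rfl⟩ h0
    simp only [Real.sin_zero] at h2
    norm_num at h2
    linarith
  · push Not at hq
    have hanti : AntitoneOn (fun y : ℝ => Real.sin y + c * Real.sin y ^ 3 - y)
        (Icc x (Real.pi / 2)) := by
      apply antitoneOn_of_deriv_nonpos (convex_Icc x (Real.pi / 2)) hcont.continuousOn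
      · intro y _
        exact (hder y).differentiableAt.differentiableWithinAt
      · intro y hy
        rw [interior_Icc] at hy
        rw [(hder y).deriv]
        have h2 : Real.cos y ≤ Real.cos x :=
          Real.cos_le_cos_of_nonneg_of_le_pi h0 (by linarith [hy.2]) hy.1.le
        have h3 : 0 ≤ Real.cos y := Real.cos_nonneg_of_mem_Icc
          ⟨by linarith [hy.1], hy.2.le⟩
        have h4 := Real.cos_le_one y
        apply mul_nonpos_of_nonneg_of_nonpos (by linarith)
        have h5 : Real.cos y ^ 2 + Real.cos y ≤ Real.cos x ^ 2 + Real.cos x := by nlinarith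
        have h6 : 3 * c * (Real.cos y ^ 2 + Real.cos y) ≤
            3 * c * (Real.cos x ^ 2 + Real.cos x) :=
          mul_le_mul_of_nonneg_left h5 (by positivity)
        linarith
    have h2 := hanti ⟨le_rfl, h1⟩ ⟨h1, le_rfl⟩ h1
    simp only [Real.sin_pi_div_two] at h2
    norm_num at h2
    rw [hc] at h2 ⊢
    linarith

private lemma gap_arcsin_pos {v : ℝ} (h0 : 0 ≤ v) (h1 : v ≤ 1) : v ≤ Real.arcsin v := by
  have h2 : 0 ≤ Real.arcsin v := Real.arcsin_nonneg.2 h0
  have h3 := Real.sin_le h2
  rwa [Real.sin_arcsin (by linarith) h1] at h3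

private lemma gap_arcsin_cube {y : ℝ} (h0 : 0 ≤ y) (h1 : y ≤ 1) :
    Real.arcsin y ≤ y + (Real.pi / 2 - 1) * y ^ 3 := by
  have h3 := gap_sin (Real.arcsin_nonneg.2 h0) (Real.arcsin_le_pi_div_two y)
  rwa [Real.sin_arcsin (by linarith) h1] at h3

private lemma gap_arcsin_neg {v : ℝ} (h0 : v ≤ 0) (h1 : -1 ≤ v) :
    v - (Real.pi / 2 - 1) * (-v) ^ 3 ≤ Real.arcsin v := by
  have h3 := gap_arcsin_cube (y := -v) (by linarith) (by linarith)
  rw [Real.arcsin_neg] at h3
  linarith

private lemma gap_arcsin_one {v : ℝ} (h0 : v ≤ 0) :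
    v - (Real.pi / 2 - 1) ≤ Real.arcsin v := by
  have hpi3 := Real.pi_gt_three
  by_cases h1 : -1 ≤ v
  · refine le_trans ?_ (gap_arcsin_neg h0 h1)
    have h2 : (-v) ^ 3 ≤ 1 := pow_le_one₀ (by linarith) (by linarith)
    nlinarith
  · push Not at h1
    rw [Real.arcsin_of_le_neg_one h1.le]
    linarith

private lemma gap_v {s δ : ℝ} (hs : 0 ≤ s) :
    (1 / 2) * s ^ (1 / 2 : ℝ) - (δ / 2) * s ^ (-(1 / 2) : ℝ) =
      (s - δ) / (2 * Real.sqrt s) := by
  rcases eq_or_lt_of_le hs with h | h
  · rw [← h]
    rw [Real.zero_rpow (by norm_num), Real.zero_rpow (by norm_num)]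
    simp
  · have hq := Real.sqrt_pos.2 h
    have h1 : s ^ (-(1 / 2) : ℝ) = 1 / Real.sqrt s := by
      rw [Real.rpow_neg hs, Real.sqrt_eq_rpow, inv_eq_one_div]
    rw [h1, ← Real.sqrt_eq_rpow]
    have h2 := Real.mul_self_sqrt hs
    field_simp
    nlinarith

private lemma gap_int_ang (e b : ℝ) :
    IntervalIntegrable (fun s => ang s b) volume 0 e := by
  have hm : Measurable (fun s => ang s b) := by
    unfold ang
    exact Real.continuous_arccos.measurable.comp
      (((measurable_const.add measurable_id).sub measurable_const).div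
        (measurable_const.mul Real.continuous_sqrt.measurable))
  apply IntervalIntegrable.mono_fun' (g := fun _ => Real.pi) intervalIntegrable_const
    hm.aestronglyMeasurable
  refine Eventually.of_forall fun s => ?_
  simp only
  rw [Real.norm_eq_abs, abs_of_nonneg (ang_nonneg _ _)]
  exact Real.arccos_le_pi _

private lemma gap_int_v (a b δ : ℝ) :
    IntervalIntegrable (fun s : ℝ => (1 / 2) * s ^ (1 / 2 : ℝ) - (δ / 2) * s ^ (-(1 / 2) : ℝ))
      volume a b :=
  ((intervalIntegral.intervalIntegrable_rpow' (by norm_num)).const_mul _).sub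
    ((intervalIntegral.intervalIntegrable_rpow' (by norm_num)).const_mul _)

theorem net_gap {e δ : ℝ} (he : 0 ≤ e) (he1 : e ≤ 1) (hδ : 0 ≤ δ) (hδe : δ ≤ e) :
    Real.sqrt e * (e / 3 - δ) - 3 / 4 * (Real.pi / 2 - 1) * δ ^ 2 ≤
      Real.pi * e / 2 - lens (1 + δ) e := by
  have hpi3 := Real.pi_gt_three
  set c : ℝ := Real.pi / 2 - 1 with hc
  have hc0 : 0 < c := by rw [hc]; linarith
  set v : ℝ → ℝ := fun s => (1 / 2) * s ^ (1 / 2 : ℝ) - (δ / 2) * s ^ (-(1 / 2) : ℝ) with hv
  have hvint : ∀ a b, IntervalIntegrable v volume a b := fun a b => gap_int_v a b δ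
  set g : ℝ → ℝ := fun s => Real.pi / 2 - ang s (1 + δ) with hg
  have hgeq : ∀ s, g s = Real.arcsin ((s - δ) / (2 * Real.sqrt s)) := by
    intro s
    simp only [hg, ang]
    rw [Real.arccos_eq_pi_div_two_sub_arcsin]
    have : 1 + s - (1 + δ) = s - δ := by ring
    rw [this]
    ring
  have hgint : ∀ a, IntervalIntegrable g volume 0 a := fun a =>
    intervalIntegrable_const.sub (gap_int_ang a _)
  have hgint2 : ∀ a b, IntervalIntegrable g volume a b := fun a b =>
    (hgint a).symm.trans (hgint b)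
  have h1 : Real.pi * e / 2 - lens (1 + δ) e = ∫ s in (0 : ℝ)..e, g s := by
    rw [lens_comm, lens_eq_integral he (by linarith), hg, intervalIntegral.integral_sub
      intervalIntegrable_const (gap_int_ang e _), intervalIntegral.integral_const]
    simp only [smul_eq_mul, sub_zero]
    ring
  set p : ℝ := δ ^ 2 / 4 with hp
  have hp0 : 0 ≤ p := by rw [hp]; positivity
  have hpδ : p ≤ δ := by rw [hp]; nlinarith
  -- piece 1
  have P1 : (∫ s in (0 : ℝ)..p, v s) - c * p ≤ ∫ s in (0 : ℝ)..p, g s := by
    have e1 : (∫ s in (0 : ℝ)..p, v s) - c * p = ∫ s in (0 : ℝ)..p, (v s - c) := by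
      rw [intervalIntegral.integral_sub (hvint 0 p) intervalIntegrable_const,
        intervalIntegral.integral_const]
      simp only [smul_eq_mul, sub_zero]
      ring
    rw [e1]
    apply intervalIntegral.integral_mono_on hp0
      ((hvint 0 p).sub intervalIntegrable_const) (hgint p)
    intro s hs
    rw [hgeq, hv]
    simp only
    rw [gap_v hs.1]
    apply gap_arcsin_one
    apply div_nonpos_of_nonpos_of_nonneg
    · linarith [hs.2]
    · positivity
  -- piece 2
  have P2 : (∫ s in p..δ, v s) - c * (δ ^ 2 / 2) ≤ ∫ s in p..δ, g s := by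
    rcases eq_or_lt_of_le hδ with h0 | h0
    · have : p = δ := by rw [hp, ← h0]; norm_num
      rw [this, intervalIntegral.integral_same, intervalIntegral.integral_same, ← h0]
      norm_num
    · have hp1 : 0 < p := by rw [hp]; positivity
      have hnot : (0 : ℝ) ∉ uIcc p δ := by
        rw [uIcc_of_le hpδ]
        intro h
        linarith [h.1]
      have hwint : IntervalIntegrable (fun s : ℝ => c * (δ ^ 3 / 8) * s ^ (-(3 / 2) : ℝ))
          volume p δ := (intervalIntegral.intervalIntegrable_rpow (Or.inr hnot)).const_mul _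
      have hw : ∫ s in p..δ, c * (δ ^ 3 / 8) * s ^ (-(3 / 2) : ℝ) ≤ c * (δ ^ 2 / 2) := by
        rw [intervalIntegral.integral_const_mul, integral_rpow (Or.inr ⟨by norm_num, hnot⟩)]
        have e1 : (-(3 / 2) : ℝ) + 1 = -(1 / 2) := by norm_num
        rw [e1]
        have e2 : p ^ (-(1 / 2) : ℝ) = 2 / δ := by
          rw [Real.rpow_neg hp0, ← Real.sqrt_eq_rpow, hp]
          have : Real.sqrt (δ ^ 2 / 4) = δ / 2 := by
            rw [show δ ^ 2 / 4 = (δ / 2) ^ 2 by ring, Real.sqrt_sq (by positivity)]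
          rw [this, inv_div]
        have e3 : 0 ≤ δ ^ (-(1 / 2) : ℝ) := Real.rpow_nonneg hδ _
        rw [e2]
        have e4 : c * (δ ^ 3 / 8) * ((δ ^ (-(1 / 2) : ℝ) - 2 / δ) / -(1 / 2)) =
            c * (δ ^ 2 / 2) - c * (δ ^ 3 / 4) * δ ^ (-(1 / 2) : ℝ) := by
          field_simp
          ring
        rw [e4]
        have e5 : 0 ≤ c * (δ ^ 3 / 4) * δ ^ (-(1 / 2) : ℝ) := by positivity
        linarith
      have e1 : (∫ s in p..δ, v s) - ∫ s in p..δ, c * (δ ^ 3 / 8) * s ^ (-(3 / 2) : ℝ) =
          ∫ s in p..δ, (v s - c * (δ ^ 3 / 8) * s ^ (-(3 / 2) : ℝ)) :=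
        (intervalIntegral.integral_sub (hvint p δ) hwint).symm
      have e2 : (∫ s in p..δ, (v s - c * (δ ^ 3 / 8) * s ^ (-(3 / 2) : ℝ))) ≤
          ∫ s in p..δ, g s := by
        apply intervalIntegral.integral_mono_on hpδ ((hvint p δ).sub hwint) (hgint2 p δ)
        intro s hs
        have hs0 : 0 < s := lt_of_lt_of_le hp1 hs.1
        rw [hgeq, hv]
        simp only
        rw [gap_v hs0.le]
        have hq : 0 < Real.sqrt s := Real.sqrt_pos.2 hs0
        have hq1 : δ / 2 ≤ Real.sqrt s := by
          rw [show δ / 2 = Real.sqrt ((δ / 2) ^ 2) by rw [Real.sqrt_sq (by positivity)]]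
          apply Real.sqrt_le_sqrt
          have := hs.1
          rw [hp] at this
          nlinarith
        have hv0 : (s - δ) / (2 * Real.sqrt s) ≤ 0 := by
          apply div_nonpos_of_nonpos_of_nonneg
          · linarith [hs.2]
          · positivity
        have hv1 : -1 ≤ (s - δ) / (2 * Real.sqrt s) := by
          rw [le_div_iff₀ (by positivity)]
          linarith
        refine le_trans ?_ (gap_arcsin_neg hv0 hv1)
        have e3 : (-((s - δ) / (2 * Real.sqrt s))) ^ 3 ≤ (δ / (2 * Real.sqrt s)) ^ 3 := by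
          apply pow_le_pow_left₀ (by linarith)
          rw [← neg_div]
          apply div_le_div_of_nonneg_right _ (by positivity)
          linarith
        have e4 : (δ / (2 * Real.sqrt s)) ^ 3 = δ ^ 3 / 8 * s ^ (-(3 / 2) : ℝ) := by
          have e5 : s ^ (-(3 / 2) : ℝ) = (Real.sqrt s ^ 3)⁻¹ := by
            rw [Real.rpow_neg hs0.le, Real.sqrt_eq_rpow, ← Real.rpow_natCast,
              ← Real.rpow_mul hs0.le]
            norm_num
          rw [e5]
          field_simp
          norm_num
        rw [e4] at e3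
        have e6 := mul_le_mul_of_nonneg_left e3 hc0.le
        rw [← mul_assoc] at e6
        rw [← hc]
        linarith
      linarith
  -- piece 3
  have P3 : (∫ s in δ..e, v s) ≤ ∫ s in δ..e, g s := by
    apply intervalIntegral.integral_mono_on hδe (hvint δ e) (hgint2 δ e)
    intro s hs
    have hs0 : 0 ≤ s := hδ.trans hs.1
    rw [hgeq, hv]
    simp only
    rw [gap_v hs0]
    apply gap_arcsin_pos
    · apply div_nonneg
      · linarith [hs.1]
      · positivity
    · rcases eq_or_lt_of_le hs0 with h | h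
      · rw [← h]; simp
      · have hq : 0 < Real.sqrt s := Real.sqrt_pos.2 h
        rw [div_le_one (by positivity)]
        have e1 := Real.mul_self_sqrt hs0
        have e2 : Real.sqrt s ≤ 1 := by
          rw [Real.sqrt_le_one]
          exact hs.2.trans he1
        nlinarith
  have hsum : ∫ s in (0 : ℝ)..e, g s =
      (∫ s in (0 : ℝ)..p, g s) + (∫ s in p..δ, g s) + ∫ s in δ..e, g s := by
    rw [intervalIntegral.integral_add_adjacent_intervals (hgint2 0 p) (hgint2 p δ),
      intervalIntegral.integral_add_adjacent_intervals (hgint2 0 δ) (hgint2 δ e)]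
  have hsumv : ∫ s in (0 : ℝ)..e, v s =
      (∫ s in (0 : ℝ)..p, v s) + (∫ s in p..δ, v s) + ∫ s in δ..e, v s := by
    rw [intervalIntegral.integral_add_adjacent_intervals (hvint 0 p) (hvint p δ),
      intervalIntegral.integral_add_adjacent_intervals (hvint 0 δ) (hvint δ e)]
  have hV : ∫ s in (0 : ℝ)..e, v s = Real.sqrt e * (e / 3 - δ) := by
    simp only [hv]
    rw [intervalIntegral.integral_sub
      ((intervalIntegral.intervalIntegrable_rpow' (by norm_num)).const_mul _)
      ((intervalIntegral.intervalIntegrable_rpow' (by norm_num)).const_mul _),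
      intervalIntegral.integral_const_mul, intervalIntegral.integral_const_mul,
      integral_rpow (Or.inl (by norm_num)), integral_rpow (Or.inl (by norm_num))]
    have e1 : (1 / 2 : ℝ) + 1 = 3 / 2 := by norm_num
    have e2 : (-(1 / 2) : ℝ) + 1 = 1 / 2 := by norm_num
    rw [e1, e2, Real.zero_rpow (by norm_num), Real.zero_rpow (by norm_num), ← Real.sqrt_eq_rpow]
    have e3 : e ^ (3 / 2 : ℝ) = e * Real.sqrt e := by
      rcases eq_or_lt_of_le he with h | h
      · rw [← h]; simp
      · rw [show (3 / 2 : ℝ) = 1 + 1 / 2 by norm_num, Real.rpow_add h, Real.rpow_one,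
          ← Real.sqrt_eq_rpow]
    rw [e3]
    ring
  rw [h1, hsum]
  rw [hsumv] at hV
  have hfin : c * p + c * (δ ^ 2 / 2) = 3 / 4 * c * δ ^ 2 := by rw [hp]; ring
  linarith

end Melzak
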