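import Pool.Agent.Helper27.Mz2.LensC

/-!
# G3 (S1): 3 lens (4/5) e <= pi e for 0 <= e <= 4/5

phi(e) = pi e - 3 lens (4/5) e = pi e - 3 lens e (4/5), phi(0) = 0, phi'(e) = pi - 3 ang e (4/5), and
ang e (4/5) = arccos((1/5 + e)/(2 sqrt e)) >= pi/3 iff e - sqrt e + 1/5 <= 0 iff
sqrt e in [(1 - sqrt(1/5))/2, (1 + sqrt(1/5))/2]. So phi increases, decreases, increases, and it is
enough that phi(e*) >= 0 at e* = ((1 + sqrt(1/5))/2)^2 = 3/10 + sqrt 5/10. There ang e* (4/5) = pi/3,
kap e* (4/5) = e* (pi/3 - sqrt 3/4), kap (4/5) e* = (4/5)(th - sin th cos th) with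
cos th = (9/5 - e*)/(2 sqrt(4/5)) = 0.713526: th - sin th cos th = 0.27641 <= (3 sqrt 3/9.6) e* =
0.28341 is what is needed (phi(e*) >= 0 iff (4/5)(th - sin th cos th) <= e* sqrt 3/4).
(th = 0.7764; sin th = 0.70063.)
-/

open MeasureTheory Set Filter Topology
open scoped ENNReal InnerProductSpace

namespace Melzak

lemma s1_arccos_half : Real.arccos (1 / 2) = Real.pi / 3 := by
  rw [← Real.cos_pi_div_three, Real.arccos_cos (by positivity) (by linarith [Real.pi_pos])]

lemma s1_ang_le {x : ℝ} (hx : 0 < x) (h : Real.sqrt x ≤ 1 / 5 + x) :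
    ang x (4 / 5) ≤ Real.pi / 3 := by
  rw [← s1_arccos_half]
  unfold ang
  apply Real.arccos_le_arccos
  have hs := Real.sqrt_pos.mpr hx
  rw [div_le_div_iff₀ (by norm_num) (by positivity)]
  linarith

lemma s1_le_ang {x : ℝ} (hx : 0 < x) (h : 1 / 5 + x ≤ Real.sqrt x) :
    Real.pi / 3 ≤ ang x (4 / 5) := by
  rw [← s1_arccos_half]
  unfold ang
  apply Real.arccos_le_arccos
  have hs := Real.sqrt_pos.mpr hx
  rw [div_le_div_iff₀ (by positivity) (by norm_num)]
  linarith

/-- the value at the critical point -/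
lemma s1_crit {q : ℝ} (hq : q ^ 2 = 5) (h1 : 2.236 ≤ q) (h2 : q ≤ 2.2361) :
    3 * lens (3 / 10 + q / 10) (4 / 5) ≤ Real.pi * (3 / 10 + q / 10) := by
  set e : ℝ := 3 / 10 + q / 10 with he
  set r : ℝ := 1 / 2 + q / 10 with hr
  have hr0 : 0 < r := by linarith
  have he0 : 0 < e := by linarith
  have her : e = r ^ 2 := by rw [he, hr]; nlinarith
  have hse : Real.sqrt e = r := by rw [her, Real.sqrt_sq hr0.le]
  have hpi : Real.pi < 3.1416 := Real.pi_lt_d4
  have h3 : Real.sqrt 3 ^ 2 = 3 := Real.sq_sqrt (by norm_num)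
  have h3' : (1.732 : ℝ) ≤ Real.sqrt 3 := by
    apply Real.le_sqrt_of_sq_le; norm_num
  -- first half of the lens
  have k1 : kap e (4 / 5) = e * (Real.pi / 3) - e * (Real.sqrt 3 / 4) := by
    rw [kap_eq he0]
    · have a1 : ang e (4 / 5) = Real.pi / 3 := by
        apply le_antisymm
        · apply s1_ang_le he0; rw [hse]; linarith
        · apply s1_le_ang he0; rw [hse]; linarith
      have a2 : (1 + e - 4 / 5) / 2 = r / 2 := by rw [he, hr]; ring
      have a3 : Real.sqrt (e - (r / 2) ^ 2) = r * (Real.sqrt 3 / 2) := by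
        rw [show e - (r / 2) ^ 2 = (r * (Real.sqrt 3 / 2)) ^ 2 by
          rw [mul_pow, div_pow (Real.sqrt 3), h3, her]; ring, Real.sqrt_sq (by positivity)]
      rw [a1, a2, a3, her]
      ring
    · rw [hse, abs_of_pos (by linarith)]
      linarith
  -- second half
  set h : ℝ := (9 / 5 - e) / 2 with hh
  have hh1 : 0.638195 ≤ h := by rw [hh, he]; linarith
  have hh2 : h ≤ 0.6382 := by rw [hh, he]; linarith
  have h45 : Real.sqrt (4 / 5) ^ 2 = 4 / 5 := Real.sq_sqrt (by norm_num)
  have h45' : 0 < Real.sqrt (4 / 5) := Real.sqrt_pos.mpr (by norm_num)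
  have hhs : h ≤ Real.sqrt (4 / 5) := by
    apply Real.le_sqrt_of_sq_le; nlinarith
  have k2 : kap (4 / 5) e = 4 / 5 * ang (4 / 5) e - h * Real.sqrt (4 / 5 - h ^ 2) := by
    have a2 : (1 + 4 / 5 - e) / 2 = h := by rw [hh]; ring
    rw [kap_eq (by norm_num), a2]
    rw [a2, abs_of_pos (by linarith)]
    exact hhs
  have k3 : ang (4 / 5) e ≤ Real.pi / 4 - 0.005 := by
    have a0 : Real.arccos (Real.cos (Real.pi / 4 - 0.005)) = Real.pi / 4 - 0.005 := by
      apply Real.arccos_cos <;> linarith [Real.pi_gt_three]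
    rw [← a0]
    unfold ang
    apply Real.arccos_le_arccos
    have b1 : (1 + 4 / 5 - e) / (2 * Real.sqrt (4 / 5)) = h / Real.sqrt (4 / 5) := by
      rw [hh]; field_simp; ring
    rw [b1, le_div_iff₀ h45', Real.cos_sub, Real.cos_pi_div_four, Real.sin_pi_div_four]
    have c1 : Real.cos 0.005 ≤ 1 := Real.cos_le_one _
    have c2 : Real.sin 0.005 ≤ 0.005 := Real.sin_le (by norm_num)
    have c3 : Real.sqrt 2 ^ 2 = 2 := Real.sq_sqrt (by norm_num)
    have c4 : 0 < Real.sqrt 2 := by positivity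
    have c5 : Real.sqrt 2 / 2 * Real.cos 0.005 + Real.sqrt 2 / 2 * Real.sin 0.005 ≤
        Real.sqrt 2 / 2 * 1.005 := by nlinarith
    refine (mul_le_mul_of_nonneg_right c5 h45'.le).trans ?_
    apply le_of_sq_le_sq _ (by linarith)
    have : (Real.sqrt 2 / 2 * 1.005 * Real.sqrt (4 / 5)) ^ 2 =
        Real.sqrt 2 ^ 2 * Real.sqrt (4 / 5) ^ 2 * (1.005 / 2) ^ 2 := by ring
    rw [this, c3, h45]
    nlinarith
  have k4 : 0.6266 ≤ Real.sqrt (4 / 5 - h ^ 2) := by
    apply Real.le_sqrt_of_sq_le; nlinarith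
  have k5 : 0.638195 * 0.6266 ≤ h * Real.sqrt (4 / 5 - h ^ 2) :=
    mul_le_mul hh1 k4 (by norm_num) (by linarith)
  have k6 : kap (4 / 5) e ≤ e * (Real.sqrt 3 / 4) := by
    have : 0.5236 * (1.732 / 4) ≤ e * (Real.sqrt 3 / 4) := by
      apply mul_le_mul _ _ (by norm_num) he0.le
      · rw [he]; linarith
      · linarith
    rw [k2]
    nlinarith
  unfold lens
  rw [k1]
  linarith

theorem net_s1 {e : ℝ} (he : 0 ≤ e) (he' : e ≤ 4 / 5) :
    3 * lens (4 / 5) e ≤ Real.pi * e := by
  rw [lens_comm]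
  set q : ℝ := Real.sqrt 5 with hq
  have hq2 : q ^ 2 = 5 := Real.sq_sqrt (by norm_num)
  have hq0 : 0 ≤ q := Real.sqrt_nonneg _
  have hq1 : 2.236 ≤ q := by apply Real.le_sqrt_of_sq_le; norm_num
  have hq3 : q ≤ 2.2361 := by
    rw [hq]; apply Real.sqrt_le_iff.mpr; norm_num
  have hcrit := s1_crit hq2 hq1 hq3
  have hd : ∀ x : ℝ, 0 < x → HasDerivAt (fun x => Real.pi * x - 3 * lens x (4 / 5))
      (Real.pi - 3 * ang x (4 / 5)) x := by
    intro x hx
    have h1 := hasDerivAt_lens hx (show (0:ℝ) ≤ 4 / 5 by norm_num)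
    exact (((hasDerivAt_id x).const_mul Real.pi).sub (h1.const_mul 3)).congr_deriv (by simp)
  have hc : Continuous (fun x => Real.pi * x - 3 * lens x (4 / 5)) := by
    have : Continuous fun x => lens x (4 / 5) :=
      continuous_lens.comp (f := fun x => ((x, 4 / 5) : ℝ × ℝ)) (by fun_prop)
    fun_prop
  -- sign of the derivative
  have key : ∀ x : ℝ, 0 < x → (Real.sqrt x) ^ 2 = x := fun x hx => Real.sq_sqrt hx.le
  have e1 : (3 / 10 - q / 10 : ℝ) = (1 / 2 - q / 10) ^ 2 := by nlinarith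
  have e2 : (3 / 10 + q / 10 : ℝ) = (1 / 2 + q / 10) ^ 2 := by nlinarith
  have hinc : ∀ a b : ℝ, 0 ≤ a → (b ≤ 3 / 10 - q / 10 ∨ 3 / 10 + q / 10 ≤ a) →
      MonotoneOn (fun x => Real.pi * x - 3 * lens x (4 / 5)) (Icc a b) := by
    intro a b ha hab
    apply monotoneOn_of_deriv_nonneg (convex_Icc _ _) hc.continuousOn
    · intro x hx
      rw [interior_Icc] at hx
      exact (hd x (lt_of_le_of_lt ha hx.1)).differentiableAt.differentiableWithinAt
    · intro x hx
      rw [interior_Icc] at hx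
      have hx0 : 0 < x := lt_of_le_of_lt ha hx.1
      rw [(hd x hx0).deriv]
      have hs := Real.sqrt_nonneg x
      have := s1_ang_le hx0 (by
        have h4 := key x hx0
        rcases hab with hab | hab
        · have : Real.sqrt x ≤ 1 / 2 - q / 10 := by
            apply Real.sqrt_le_iff.mpr
            refine ⟨by linarith, by linarith [hx.2]⟩
          nlinarith [mul_nonneg (sub_nonneg.mpr this) (show 0 ≤ 1 / 2 + q / 10 - Real.sqrt x by
            linarith)]
        · have : 1 / 2 + q / 10 ≤ Real.sqrt x := by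
            apply Real.le_sqrt_of_sq_le
            linarith [hx.1]
          nlinarith [mul_nonneg (sub_nonneg.mpr this) (show 0 ≤ Real.sqrt x - (1 / 2 - q / 10) by
            linarith)])
      linarith
  have hdec : AntitoneOn (fun x => Real.pi * x - 3 * lens x (4 / 5))
      (Icc (3 / 10 - q / 10) (3 / 10 + q / 10)) := by
    apply antitoneOn_of_deriv_nonpos (convex_Icc _ _) hc.continuousOn
    · intro x hx
      rw [interior_Icc] at hx
      exact (hd x (by linarith [hx.1])).differentiableAt.differentiableWithinAt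
    · intro x hx
      rw [interior_Icc] at hx
      have hx0 : 0 < x := by linarith [hx.1]
      rw [(hd x hx0).deriv]
      have hs := Real.sqrt_nonneg x
      have := s1_le_ang hx0 (by
        have h4 := key x hx0
        have t1 : Real.sqrt x ≤ 1 / 2 + q / 10 := by
          apply Real.sqrt_le_iff.mpr
          refine ⟨by linarith, by linarith [hx.2]⟩
        have t2 : 1 / 2 - q / 10 ≤ Real.sqrt x := by
          apply Real.le_sqrt_of_sq_le
          linarith [hx.1]
        nlinarith [mul_nonneg (sub_nonneg.mpr t1) (sub_nonneg.mpr t2)])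
      linarith
  have hzero : lens 0 (4 / 5) = 0 := by
    apply le_antisymm
    · have := lens_le (le_refl (0:ℝ)) (show (0:ℝ) ≤ 4 / 5 by norm_num)
      simpa using this
    · exact lens_nonneg _ _
  rcases le_total e (3 / 10 - q / 10) with h | h
  · have := hinc 0 (3 / 10 - q / 10) le_rfl (Or.inl le_rfl) (left_mem_Icc.mpr (by linarith))
      (mem_Icc.mpr ⟨he, h⟩) he
    simp only [hzero] at this
    linarith
  · rcases le_total e (3 / 10 + q / 10) with h' | h'
    · have := hdec (mem_Icc.mpr ⟨h, h'⟩) (right_mem_Icc.mpr (by linarith)) h'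
      simp only at this
      linarith
    · have := hinc (3 / 10 + q / 10) (4 / 5) (by linarith) (Or.inr le_rfl)
        (left_mem_Icc.mpr (by linarith)) (mem_Icc.mpr ⟨h', he'⟩) h'
      simp only at this
      linarith

end Melzak
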