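import Pool.Agent.Helper27.Mz2.Ana3Ex
import Pool.Agent.Helper27.Mz2.Ana3S1
import Pool.Agent.Helper27.Mz2.Ana3Gap

/-!
# G3 (S23)

f(y) = lens y e. Claim 2 f(m) + f(x) <= pi e for 0 < e <= 4/5, x = max(e, (1 - sqrt e)^2),
m = 6/5 - x/2.
 (a) (1-e)^2 <= e (6/5 - e/2) (that is e >= 0.3803): then e >= 1/4, x = e; exch_psi and net_s1.
 (b) m <= 1 and e <= 1/4: f(x) = 0 (sqrt x = 1 - sqrt e, lens_eq_zero) and
 2 f(m) <= 2 f(1) <= pi e (lens_mono, lens_add_le).
 (c) otherwise let del = m - 1 > 0; net_gap: g := pi e/2 - f(m) >= sqrt e (e/3 - del) -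
 0.42811 del^2. For e <= 1/4: f(x) = 0, del = sqrt e - e/2 - 3/10, e/3 - del = (5/6)(sqrt e - 3/5)^2;
 need (5/6) w (3/5 - w)^2 >= 0.42811 (w - w^2/2 - 3/10)^2 for w = sqrt e in [0.36, 1/2]: the left
 side is at least 0.003, the right side is at most 0.0025.
 For 1/4 <= e <= 0.3803: x = e, del = 1/5 - e/2; with w = sqrt(4e - 1) in [0, 0.722]:
 sqrt e = sqrt(1+w^2)/2, e/3 - del = 1/120 + 5 w^2/24, del = 3/40 - w^2/8; the claim
 2 g >= lens e e follows from lens_self_le and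
 sqrt(1+w^2) (1/120 + 5 w^2/24) - 0.8563 (3/40 - w^2/8)^2 - w^3/3 >= 0 on [0, 0.722]
 (sqrt(1+w^2) >= 1 + 2 w^2/5).
-/

open MeasureTheory Set Filter Topology
open scoped ENNReal InnerProductSpace

namespace Melzak

private lemma s23_a {e : ℝ} (h : (1 - e) ^ 2 ≤ e * (6 / 5 - e / 2)) : 1 / 4 ≤ e := by
  nlinarith [sq_nonneg e]

private lemma s23_b {e : ℝ} (h : e * (6 / 5 - e / 2) < (1 - e) ^ 2) (he : e ≤ 4 / 5) :
    e ≤ 381 / 1000 := by
  by_contra hcon
  push Not at hcon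
  nlinarith [mul_nonneg (sub_nonneg.2 hcon.le) (sub_nonneg.2 he)]

private lemma s23_sq_le {w : ℝ} (h : w ^ 2 ≤ 1 / 4) : w ≤ 1 / 2 := by
  nlinarith [sq_nonneg (w - 1 / 2)]

private lemma s23_le_sq {w : ℝ} (h0 : 0 < w) (h : 1 / 4 ≤ w ^ 2) : 1 / 2 ≤ w := by
  nlinarith

private lemma s23_c {w : ℝ} (h : w ≤ 1 / 2) (h0 : 0 < w - w ^ 2 / 2 - 3 / 10) :
    36 / 100 ≤ w := by
  by_contra hcon
  push Not at hcon
  nlinarith

private lemma s23_d {w : ℝ} : w - w ^ 2 / 2 - 3 / 10 ≤ w ^ 2 := by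
  nlinarith [sq_nonneg (w - 1 / 3)]

private lemma s23_e {w : ℝ} (h : w ≤ 1 / 2) : w - w ^ 2 / 2 - 3 / 10 ≤ 75 / 1000 := by
  nlinarith [mul_nonneg (sub_nonneg.2 h) (sub_nonneg.2 h)]

private lemma s23_f {w : ℝ} (h : w ≤ 1 / 2) (h1 : 36 / 100 ≤ w) :
    (3 : ℝ) / 1000 ≤ w * (5 / 6 * (3 / 5 - w) ^ 2) := by
  have h3 : (1 : ℝ) / 100 ≤ (3 / 5 - w) ^ 2 := by nlinarith
  calc (3 : ℝ) / 1000 = 36 / 100 * (5 / 6 * (1 / 100)) := by norm_num
    _ ≤ w * (5 / 6 * (3 / 5 - w) ^ 2) := by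
      apply mul_le_mul h1 (by linarith) (by norm_num) (by linarith)

private lemma s23_g {z : ℝ} (h0 : 0 ≤ z) (h : z ≤ 73 / 100) :
    z ^ 3 / 3 ≤ 2 * ((1 + 2 / 5 * z ^ 2) / 2 * (1 / 120 + 5 * z ^ 2 / 24) -
      4281 / 10000 * (3 / 40 - z ^ 2 / 8) ^ 2) := by
  have h7 : 0 ≤ 2277 / 10000 + 699 / 10000 * z ^ 2 - z / 3 := by
    nlinarith [mul_nonneg (sub_nonneg.2 h) (sub_nonneg.2 h)]
  have h8 : 0 ≤ z ^ 2 * (2277 / 10000 + 699 / 10000 * z ^ 2 - z / 3) :=
    mul_nonneg (by positivity) h7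
  have h9 : 0 ≤ z ^ 2 := by positivity
  have h10 : 0 ≤ z ^ 4 := by positivity
  linarith

private lemma s23_h {z : ℝ} (h : z ^ 2 ≤ 524 / 1000) : z ≤ 73 / 100 := by
  nlinarith

private lemma s23_i {z : ℝ} (h : z ^ 2 ≤ 524 / 1000) :
    ((1 + 2 / 5 * z ^ 2) / 2) ^ 2 ≤ (1 + z ^ 2) / 4 := by
  have h1 : 0 ≤ z ^ 2 * (1 - 4 / 5 * z ^ 2) := mul_nonneg (sq_nonneg z) (by linarith)
  nlinarith

theorem net_s23 {e x : ℝ} (he : 0 < e) (he' : e ≤ 4 / 5)
    (hx : x = max e ((1 - Real.sqrt e) ^ 2)) (hx' : x ≤ 4 / 5) :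
    2 * lens (6 / 5 - x / 2) e + lens x e ≤ Real.pi * e := by
  have hpi3 := Real.pi_gt_three
  have hpi4 := Real.pi_lt_d4
  set w : ℝ := Real.sqrt e with hw
  have hw0 : 0 < w := Real.sqrt_pos.2 he
  have hww : w ^ 2 = e := Real.sq_sqrt he.le
  have hw1 : w < 1 := by
    rw [hw, Real.sqrt_lt' one_pos]
    linarith
  by_cases ha : (1 - e) ^ 2 ≤ e * (6 / 5 - e / 2)
  · -- case (a)
    have he4 : 1 / 4 ≤ e := s23_a ha
    have hwh : 1 / 2 ≤ w := s23_le_sq hw0 (by rw [hww]; exact he4)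
    have hxe : x = e := by
      rw [hx, max_eq_left]
      rw [← hww]
      exact pow_le_pow_left₀ (by linarith) (by linarith) 2
    rw [hxe]
    have h1 := exch_psi (c := e) he.le (by linarith) he.le he' ha
    have h2 := net_s1 he.le he'
    linarith
  · push Not at ha
    by_cases he4 : e ≤ 1 / 4
    · have hwh : w ≤ 1 / 2 := s23_sq_le (by rw [hww]; exact he4)
      have hxe : x = (1 - w) ^ 2 := by
        rw [hx, max_eq_right]
        rw [← hww]
        exact pow_le_pow_left₀ hw0.le (by linarith) 2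
      have hx0 : 0 ≤ x := by rw [hxe]; positivity
      have hfx : lens x e = 0 := by
        apply lens_eq_zero hx0 he.le
        rw [hxe, Real.sqrt_sq (by linarith), ← hw]
        linarith
      rw [hfx]
      by_cases hm : 6 / 5 - x / 2 ≤ 1
      · have h1 : lens (6 / 5 - x / 2) e ≤ lens 1 e :=
          lens_mono (by linarith) hm he.le le_rfl
        have h2 := lens_add_le (a := 1) (b := 1) (e := e) zero_le_one zero_le_one he.le
          (by rw [Real.sqrt_one]; norm_num)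
        linarith
      · push Not at hm
        set δ : ℝ := w - w ^ 2 / 2 - 3 / 10 with hδ
        have hmδ : 6 / 5 - x / 2 = 1 + δ := by rw [hxe, hδ]; ring
        have hδ0 : 0 < δ := by linarith
        have hw36 : 36 / 100 ≤ w := s23_c hwh hδ0
        have hδe : δ ≤ e := by
          rw [← hww, hδ]
          exact s23_d
        have hδ75 : δ ≤ 75 / 1000 := s23_e hwh
        have h1 := net_gap he.le (by linarith) hδ0.le hδe
        rw [← hw] at h1
        have h2 : e / 3 - δ = 5 / 6 * (3 / 5 - w) ^ 2 := by rw [← hww, hδ]; ring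
        rw [h2] at h1
        have h4 : (3 : ℝ) / 1000 ≤ w * (5 / 6 * (3 / 5 - w) ^ 2) := s23_f hwh hw36
        have h5 : δ ^ 2 ≤ (75 / 1000) ^ 2 := pow_le_pow_left₀ hδ0.le hδ75 2
        have h6 : 3 / 4 * (Real.pi / 2 - 1) * δ ^ 2 ≤ 4281 / 10000 * (75 / 1000) ^ 2 := by
          apply mul_le_mul (by linarith) h5 (by positivity) (by norm_num)
        rw [hmδ]
        norm_num at h6
        linarith
    · push Not at he4
      have hwh : 1 / 2 ≤ w := s23_le_sq hw0 (by rw [hww]; exact he4.le)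
      have hxe : x = e := by
        rw [hx, max_eq_left]
        rw [← hww]
        exact pow_le_pow_left₀ (by linarith) (by linarith) 2
      have he381 : e ≤ 381 / 1000 := s23_b ha he'
      set δ : ℝ := 1 / 5 - e / 2 with hδ
      have hmδ : 6 / 5 - e / 2 = 1 + δ := by rw [hδ]; ring
      have h1 := net_gap (e := e) (δ := δ) he.le (by linarith) (by rw [hδ]; linarith)
        (by rw [hδ]; linarith)
      rw [← hw] at h1
      have h2 := lens_self_le (e := e) he4.le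
      set z : ℝ := Real.sqrt (4 * e - 1) with hz
      have hz0 : 0 ≤ z := Real.sqrt_nonneg _
      have hzz : z ^ 2 = 4 * e - 1 := Real.sq_sqrt (by linarith)
      have hz1 : z ≤ 73 / 100 := s23_h (by rw [hzz]; linarith)
      have hez : e = (1 + z ^ 2) / 4 := by linarith
      have hwz : (1 + 2 / 5 * z ^ 2) / 2 ≤ w := by
        rw [hw, hez]
        apply Real.le_sqrt_of_sq_le
        exact s23_i (by rw [hzz]; linarith)
      have h3 : e / 3 - δ = 1 / 120 + 5 * z ^ 2 / 24 := by rw [hδ, hez]; ring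
      have h4 : δ = 3 / 40 - z ^ 2 / 8 := by rw [hδ, hez]; ring
      rw [h3] at h1
      have h5 : 3 / 4 * (Real.pi / 2 - 1) * δ ^ 2 ≤ 4281 / 10000 * δ ^ 2 := by
        apply mul_le_mul_of_nonneg_right (by linarith) (by positivity)
      have h6 : (1 + 2 / 5 * z ^ 2) / 2 * (1 / 120 + 5 * z ^ 2 / 24) ≤
          w * (1 / 120 + 5 * z ^ 2 / 24) :=
        mul_le_mul_of_nonneg_right hwz (by positivity)
      have h7 : z ^ 3 / 3 ≤ 2 * ((1 + 2 / 5 * z ^ 2) / 2 * (1 / 120 + 5 * z ^ 2 / 24) -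
          4281 / 10000 * δ ^ 2) := by
        rw [h4]
        exact s23_g hz0 hz1
      rw [hxe, hmδ]
      linarith

end Melzak
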