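import Pool.Agent.Helper27.Melzak.Defs

/-!
# I1, second half: passage to the limit for the area of the projection

zetaLim_two_ge_of: if 2 |T P| <= zeta_2 P for all polytopes P and a linear map T : E 3 -> E 2, the
same inequality holds for all bodies and zetaLim 2: for polytopes P_k -> K in the Hausdorff distance,
a slightly smaller homothetic copy of K is contained in P_k for large k.
-/

open MeasureTheory Set Filter Topology
open scoped ENNReal InnerProductSpace

namespace Melzak

/-- A smaller homothetic copy of `K` is contained in `P n` for large `n`. -/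
lemma homothety_subset {K : Set (E 3)} (hK : IsBody K) {P : ℕ → Set (E 3)}
    (hP : ∀ n, IsPolytope (P n))
    (hc : Tendsto (fun n => Metric.hausdorffEDist (P n) K) atTop (𝓝 0)) :
    ∃ z : E 3, ∀ l : ℝ, 0 < l → l < 1 → ∀ᶠ n in atTop, AffineMap.homothety z l '' K ⊆ P n := by
  obtain ⟨z, hz⟩ := hK.nonempty_interior
  rw [mem_interior_iff_mem_nhds, Metric.mem_nhds_iff] at hz
  obtain ⟨r, hr, hball⟩ := hz
  refine ⟨z, fun l hl0 hl1 => ?_⟩
  set ρ : ℝ := (1 - l) * (r / 2) with hρ
  have hρpos : 0 < ρ := by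
    have : 0 < 1 - l := by linarith
    positivity
  have hev : ∀ᶠ n in atTop, Metric.hausdorffEDist (P n) K < ENNReal.ofReal ρ :=
    hc.eventually_lt_const (by positivity)
  filter_upwards [hev] with n hn
  rintro _ ⟨k, hk, rfl⟩
  obtain ⟨m, nv, h, hPn⟩ := (hP n).halfspaces
  set x : E 3 := AffineMap.homothety z l k with hx
  have hxe : x = l • (k - z) + z := by
    rw [hx, AffineMap.homothety_apply, vsub_eq_sub, vadd_eq_add]
  by_contra hxP
  rw [hPn] at hxP
  simp only [mem_setOf_eq, not_forall, not_le] at hxP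
  obtain ⟨i, hi⟩ := hxP
  obtain ⟨p0, hp0⟩ := (hP n).nonempty_interior
  have hp0' : p0 ∈ P n := interior_subset hp0
  have hni : nv i ≠ 0 := by
    intro h0
    rw [hPn] at hp0'
    have h1 := hp0' i
    rw [h0, inner_zero_left] at h1 hi
    linarith
  have hnpos : 0 < ‖nv i‖ := norm_pos_iff.mpr hni
  set u : E 3 := (‖nv i‖)⁻¹ • nv i with hu
  have hun : ‖u‖ = 1 := by
    rw [hu, norm_smul, norm_inv, norm_norm]
    exact inv_mul_cancel₀ hnpos.ne'
  have hinu : ⟪nv i, u⟫_ℝ = ‖nv i‖ := by
    rw [hu, inner_smul_right, real_inner_self_eq_norm_sq]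
    field_simp
  -- the point `x + ρ u` is in `K`
  have hw : z + (r / 2) • u ∈ K := by
    apply hball
    rw [Metric.mem_ball, dist_eq_norm, add_sub_cancel_left, norm_smul, hun, mul_one,
      Real.norm_eq_abs, abs_of_pos (by positivity)]
    linarith
  have hq : x + ρ • u ∈ K := by
    have h1 := hK.convex hk hw hl0.le (by linarith : (0 : ℝ) ≤ 1 - l) (by ring)
    convert h1 using 1
    rw [hxe, hρ]
    module
  have hq2 : ∃ p ∈ P n, edist (x + ρ • u) p < ENNReal.ofReal ρ := by
    rw [Metric.hausdorffEDist_comm] at hn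
    exact Metric.exists_edist_lt_of_hausdorffEDist_lt hq hn
  obtain ⟨p, hp, hpd⟩ := hq2
  have hpd' : ‖x + ρ • u - p‖ < ρ := by
    rw [edist_lt_ofReal, dist_eq_norm] at hpd
    exact hpd
  rw [hPn] at hp
  have h2 := hp i
  have h3 : ⟪nv i, x + ρ • u - p⟫_ℝ ≤ ‖nv i‖ * ‖x + ρ • u - p‖ := real_inner_le_norm _ _
  rw [inner_sub_right, inner_add_right, inner_smul_right, hinu] at h3
  have h4 : ‖nv i‖ * ‖x + ρ • u - p‖ < ‖nv i‖ * ρ := mul_lt_mul_of_pos_left hpd' hnpos
  nlinarith

/-- Passage to the limit: if `2 |T P| ≤ ζ₂(P)` for all polytopes then the same for all bodies. -/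
theorem zetaLim_two_ge_of (T : E 3 → E 2) (hadd : ∀ x y, T (x + y) = T x + T y)
    (hsmul : ∀ (c : ℝ) x, T (c • x) = c • T x)
    (H : ∀ P : Set (E 3), IsPolytope P → 2 * volume (T '' P) ≤ zeta 2 P)
    {K : Set (E 3)} (hK : IsBody K) : 2 * volume (T '' K) ≤ zetaLim 2 K := by
  unfold zetaLim
  refine le_iInf fun P => le_iInf fun hP => le_iInf fun hc => ?_
  obtain ⟨z, hz⟩ := homothety_subset hK hP hc
  have himg : ∀ l : ℝ, T '' (AffineMap.homothety z l '' K) =
      AffineMap.homothety (T z) l '' (T '' K) := by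
    intro l
    have h1 : ∀ k : E 3, T (AffineMap.homothety z l k) = AffineMap.homothety (T z) l (T k) := by
      intro k
      have hneg : T (-z) = -T z := by
        have := hsmul (-1) z
        simpa using this
      rw [AffineMap.homothety_apply, AffineMap.homothety_apply, vsub_eq_sub, vadd_eq_add,
        vsub_eq_sub, vadd_eq_add, hadd, hsmul, sub_eq_add_neg, hadd, hneg, ← sub_eq_add_neg]
    ext y
    simp only [mem_image, exists_exists_and_eq_and]
    constructor
    · rintro ⟨k, hk, rfl⟩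
      exact ⟨k, hk, (h1 k).symm⟩
    · rintro ⟨k, hk, rfl⟩
      exact ⟨k, hk, h1 k⟩
  have key : ∀ l : ℝ, 0 < l → l < 1 → 2 * (ENNReal.ofReal (l ^ 2) * volume (T '' K)) ≤
      liminf (fun n => zeta 2 (P n)) atTop := by
    intro l hl0 hl1
    apply le_liminf_of_le
    · isBoundedDefault
    filter_upwards [hz l hl0 hl1] with n hn
    refine le_trans ?_ (H (P n) (hP n))
    have h1 := measure_mono (μ := volume) (image_mono (f := T) hn)
    rw [himg, MeasureTheory.Measure.addHaar_image_homothety] at h1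
    have h2 : Module.finrank ℝ (E 2) = 2 := by simp [E]
    rw [h2, abs_of_pos (by positivity)] at h1
    gcongr
  have hlim : Tendsto (fun l : ℝ => 2 * (ENNReal.ofReal (l ^ 2) * volume (T '' K))) (𝓝[<] 1)
      (𝓝 (2 * (ENNReal.ofReal (1 ^ 2) * volume (T '' K)))) := by
    apply ENNReal.Tendsto.const_mul
    · apply ENNReal.Tendsto.mul_const
      · apply ENNReal.tendsto_ofReal
        have : Tendsto (fun l : ℝ => l ^ 2) (𝓝 1) (𝓝 (1 ^ 2)) := (continuous_pow 2).tendsto 1
        exact this.mono_left nhdsWithin_le_nhds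
      · left
        simp
    · right
      simp
  have hval : 2 * (ENNReal.ofReal (1 ^ 2) * volume (T '' K)) = 2 * volume (T '' K) := by simp
  rw [hval] at hlim
  apply le_of_tendsto hlim
  have : Ioo (0 : ℝ) 1 ∈ 𝓝[<] (1 : ℝ) := Ioo_mem_nhdsLT (by norm_num)
  filter_upwards [this] with l hl
  exact key l hl.1 hl.2

end Melzak
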