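import Pool.Agent.Helper27.Mz2.AreaA
import Pool.Agent.Helper27.Mz2.AreaB

/-!
# I1: the surface area is at least twice the area of the projection

pr : E 3 -> E 2 the projection to the first two coordinates. zeta_two_ge is in AreaA.

zetaLim_two_ge: for polytopes P_k -> K in the Hausdorff distance, |pr K| <= liminf |pr P_k|, as in
Melzak/VolLim.lean (a slightly smaller homothetic copy of K is contained in P_k for large k; take
projections), see AreaB.
-/

open MeasureTheory Set Filter Topology
open scoped ENNReal InnerProductSpace

namespace Melzak

theorem zetaLim_two_ge {K : Set (E 3)} (hK : IsBody K) :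
    2 * volume (pr '' K) ≤ zetaLim 2 K :=
  zetaLim_two_ge_of pr pr_add pr_smul (fun _ hP => zeta_two_ge hP) hK

end Melzak
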