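import Pool.Agent.Helper27.Mz2.Defs2
import Pool.Agent.Helper27.Melzak.Poly

/-!
# Edge lengths, facet areas, adjacency
-/

open MeasureTheory Set Filter Topology
open scoped ENNReal InnerProductSpace

namespace Melzak

/-- Length of the edge between the facets i and j (0 if they do not share an edge). -/
noncomputable def elen {ι : Type*} (n : ι → E 3) (h : ι → ℝ) (i j : ι) : ℝ :=
  (μHE[1] (Fac n h i ∩ Fac n h j)).toReal

/-- Area of the facet i. -/
noncomputable def farea {ι : Type*} (n : ι → E 3) (h : ι → ℝ) (i : ι) : ℝ :=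
  (μHE[2] (Fac n h i)).toReal

/-- Adjacency of facets. -/
def Adj {ι : Type*} (n : ι → E 3) (h : ι → ℝ) (i j : ι) : Prop := i ≠ j ∧ 0 < elen n h i j

end Melzak
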