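import Pool.Agent.Helper27.Melzak.Irred
import Pool.Agent.Helper27.Melzak.Edges
import Pool.Agent.Helper27.Mz2.FacetDefs

/-!
# I1a: the surface area of a polytope is at least twice the area of its projection
-/

open MeasureTheory Set Filter Topology
open scoped ENNReal InnerProductSpace

namespace Melzak

/-- Projection to the first two coordinates. -/
noncomputable def pr (x : E 3) : E 2 := !₂[x 0, x 1]

lemma pr_apply_zero (x : E 3) : pr x 0 = x 0 := rfl
lemma pr_apply_one (x : E 3) : pr x 1 = x 1 := rfl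

lemma pr_lipschitz : LipschitzWith 1 pr := by
  apply LipschitzWith.of_dist_le_mul
  intro x y
  rw [NNReal.coe_one, one_mul, EuclideanSpace.dist_eq, EuclideanSpace.dist_eq]
  apply Real.sqrt_le_sqrt
  rw [Fin.sum_univ_two, Fin.sum_univ_three]
  simp only [pr_apply_zero, pr_apply_one]
  nlinarith [sq_nonneg (dist (x 2) (y 2))]

lemma pr_add (x y : E 3) : pr (x + y) = pr x + pr y := by
  ext i; fin_cases i <;> rfl

lemma pr_smul (a : ℝ) (x : E 3) : pr (a • x) = a • pr x := by
  ext i; fin_cases i <;> rfl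

lemma pr_sub (x y : E 3) : pr (x - y) = pr x - pr y := by
  ext i; fin_cases i <;> rfl

/-- The third basis vector. -/
noncomputable def e3 : E 3 := EuclideanSpace.single (2 : Fin 3) (1 : ℝ)

lemma pr_e3 : pr e3 = 0 := by
  ext i
  fin_cases i
  · change (EuclideanSpace.single (2 : Fin 3) (1 : ℝ) : E 3) 0 = 0
    simp
  · change (EuclideanSpace.single (2 : Fin 3) (1 : ℝ) : E 3) 1 = 0
    simp

lemma norm_e3 : ‖e3‖ = 1 := by simp [e3]

lemma measure_pr_le (S : Set (E 3)) : volume (pr '' S) ≤ μHE[2] S := by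
  rw [← EuclideanSpace.euclideanHausdorffMeasure_eq_volume]
  simp only [MeasureTheory.Measure.euclideanHausdorffMeasure_def, Measure.smul_apply]
  have h := pr_lipschitz.hausdorffMeasure_image_le (d := ((2 : ℕ) : ℝ)) (by norm_num) S
  simp only [NNReal.coe_one, ENNReal.coe_one, ENNReal.one_rpow, one_mul] at h
  gcongr

lemma convex_pr {S : Set (E 3)} (hS : Convex ℝ S) : Convex ℝ (pr '' S) := by
  rintro _ ⟨x, hx, rfl⟩ _ ⟨y, hy, rfl⟩ a b ha hb hab
  exact ⟨a • x + b • y, hS hx hy ha hb hab, by rw [pr_add, pr_smul, pr_smul]⟩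

/-- A point of the interior of the projection is the projection of an interior point. -/
lemma interior_pr {P : Set (E 3)} (hP : Convex ℝ P) (hne : (interior P).Nonempty) {y : E 2}
    (hy : y ∈ interior (pr '' P)) : ∃ p ∈ interior P, pr p = y := by
  obtain ⟨q, hq⟩ := hne
  have hc : Continuous fun ε : ℝ => y + ε • (y - pr q) := by fun_prop
  have h1 : ∀ᶠ ε : ℝ in 𝓝 0, y + ε • (y - pr q) ∈ pr '' P := by
    have h2 : pr '' P ∈ 𝓝 (y + (0 : ℝ) • (y - pr q)) := by
      rw [zero_smul, add_zero]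
      exact mem_interior_iff_mem_nhds.1 hy
    exact hc.continuousAt h2
  have h3 : ∀ᶠ ε : ℝ in 𝓝[>] 0, y + ε • (y - pr q) ∈ pr '' P := nhdsWithin_le_nhds h1
  obtain ⟨ε, ⟨p', hp', he⟩, hε⟩ := (h3.and self_mem_nhdsWithin).exists
  have hε' : 0 < ε := hε
  refine ⟨(ε / (1 + ε)) • q + (1 / (1 + ε)) • p', ?_, ?_⟩
  · exact hP.combo_interior_self_mem_interior hq hp' (by positivity) (by positivity)
      (by field_simp; ring)
  · rw [pr_add, pr_smul, pr_smul, he, smul_add, smul_smul, smul_sub]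
    have h4 : (1 / (1 + ε)) * ε = ε / (1 + ε) := by ring
    rw [h4]
    have h5 : (1 / (1 + ε)) • y + (ε / (1 + ε)) • y = y := by
      rw [← add_smul]
      have : 1 / (1 + ε) + ε / (1 + ε) = 1 := by field_simp
      rw [this, one_smul]
    calc (ε / (1 + ε)) • pr q + ((1 / (1 + ε)) • y + ((ε / (1 + ε)) • y - (ε / (1 + ε)) • pr q))
        = (1 / (1 + ε)) • y + (ε / (1 + ε)) • y := by abel
      _ = y := h5

lemma strict_of_mem_interior {ι : Type*} {n : ι → E 3} {h : ι → ℝ} (hu : ∀ i, ‖n i‖ = 1)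
    {p : E 3} (hp : p ∈ interior (Poly n h)) (k : ι) : ⟪n k, p⟫_ℝ < h k := by
  have hc : Continuous fun ε : ℝ => p + ε • n k := by fun_prop
  have h1 : ∀ᶠ ε : ℝ in 𝓝 0, p + ε • n k ∈ Poly n h := by
    have h2 : Poly n h ∈ 𝓝 (p + (0 : ℝ) • n k) := by
      rw [zero_smul, add_zero]
      exact mem_interior_iff_mem_nhds.1 hp
    exact hc.continuousAt h2
  have h3 : ∀ᶠ ε : ℝ in 𝓝[>] 0, p + ε • n k ∈ Poly n h := nhdsWithin_le_nhds h1
  obtain ⟨ε, h4, hε⟩ := (h3.and self_mem_nhdsWithin).exists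
  have hε' : 0 < ε := hε
  have h5 := h4 k
  rw [inner_add_right, inner_smul_right, real_inner_self_eq_norm_sq, hu k] at h5
  linarith

/-- Going from a strict point in a direction, one hits a facet whose normal is not orthogonal. -/
lemma exists_hit {ι : Type*} [Fintype ι] {n : ι → E 3} {h : ι → ℝ}
    (hb : Bornology.IsBounded (Poly n h)) {p d : E 3} (hp : ∀ k, ⟪n k, p⟫_ℝ < h k)
    (hd : ‖d‖ = 1) : ∃ i, 0 < ⟪n i, d⟫_ℝ ∧ ∃ t : ℝ, p + t • d ∈ Fac n h i := by
  classical
  have hne : (Finset.univ.filter fun i => 0 < ⟪n i, d⟫_ℝ).Nonempty := by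
    by_contra hcon
    rw [Finset.not_nonempty_iff_eq_empty, Finset.filter_eq_empty_iff] at hcon
    obtain ⟨C, hC⟩ := hb.exists_norm_le
    have hmem : ∀ t : ℝ, 0 ≤ t → p + t • d ∈ Poly n h := by
      intro t ht k
      have h1 := hcon (Finset.mem_univ k)
      rw [inner_add_right, inner_smul_right]
      have h2 := hp k
      have h3 : t * ⟪n k, d⟫_ℝ ≤ 0 := mul_nonpos_of_nonneg_of_nonpos ht (not_lt.1 h1)
      linarith
    have h0 : 0 ≤ C := (norm_nonneg _).trans (hC _ (hmem 0 le_rfl))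
    have h1 := hC _ (hmem (C + ‖p‖ + 1) (by positivity))
    have h2 : ‖(C + ‖p‖ + 1) • d‖ = C + ‖p‖ + 1 := by
      rw [norm_smul, hd, mul_one, Real.norm_eq_abs, abs_of_nonneg (by positivity)]
    have h3 : ‖(C + ‖p‖ + 1) • d‖ ≤ ‖p + (C + ‖p‖ + 1) • d‖ + ‖p‖ := by
      have := norm_sub_le (p + (C + ‖p‖ + 1) • d) p
      simpa using this
    linarith
  obtain ⟨i, hi, hmin⟩ := Finset.exists_min_image _ (fun i => (h i - ⟪n i, p⟫_ℝ) / ⟪n i, d⟫_ℝ) hne
  have hi' : 0 < ⟪n i, d⟫_ℝ := (Finset.mem_filter.1 hi).2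
  set t := (h i - ⟪n i, p⟫_ℝ) / ⟪n i, d⟫_ℝ with ht
  have ht0 : 0 < t := div_pos (by linarith [hp i]) hi'
  refine ⟨i, hi', t, ?_, ?_⟩
  · intro k
    rw [inner_add_right, inner_smul_right]
    by_cases hk : 0 < ⟪n k, d⟫_ℝ
    · have h1 := hmin k (Finset.mem_filter.2 ⟨Finset.mem_univ k, hk⟩)
      have h2 : t ≤ (h k - ⟪n k, p⟫_ℝ) / ⟪n k, d⟫_ℝ := h1
      rw [le_div_iff₀ hk] at h2
      linarith
    · have h3 : t * ⟪n k, d⟫_ℝ ≤ 0 := mul_nonpos_of_nonneg_of_nonpos ht0.le (not_lt.1 hk)
      linarith [hp k]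
  · rw [inner_add_right, inner_smul_right, ht, div_mul_cancel₀ _ hi'.ne']
    ring

/-- Each facet is a 2-face. -/
lemma Good.isKFace_Fac {ι : Type*} [Fintype ι] {n : ι → E 3} {h : ι → ℝ} (hg : Good n h) (i : ι) :
    IsKFace 2 (Poly n h) (Fac n h i) := by
  have hne := hg.nonempty_Fac i
  refine ⟨hne, ?_, ?_⟩
  · intro _
    refine ⟨innerSL ℝ (n i), ?_⟩
    obtain ⟨y, hy⟩ := hne
    ext x
    constructor
    · rintro ⟨h1, h2⟩
      refine ⟨h1, fun z hz => ?_⟩
      change ⟪n i, z⟫_ℝ ≤ ⟪n i, x⟫_ℝ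
      rw [h2]
      exact hz i
    · rintro ⟨h1, h2⟩
      refine ⟨h1, le_antisymm (h1 i) ?_⟩
      have h3 : ⟪n i, y⟫_ℝ ≤ ⟪n i, x⟫_ℝ := h2 y hy.1
      rw [hy.2] at h3
      exact h3
  · obtain ⟨y, hy, hy'⟩ := hg.irr i
    have hspan : vectorSpan ℝ (Fac n h i) = (Submodule.span ℝ {n i})ᗮ := by
      apply le_antisymm
      · rw [vectorSpan_def, Submodule.span_le]
        rintro _ ⟨x, hx, z, hz, rfl⟩
        rw [SetLike.mem_coe, Submodule.mem_orthogonal_singleton_iff_inner_right]
        change ⟪n i, x - z⟫_ℝ = 0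
        rw [inner_sub_right, hx.2, hz.2, sub_self]
      · intro d hd
        rw [Submodule.mem_orthogonal_singleton_iff_inner_right] at hd
        have hyF : y ∈ Fac n h i := by
          refine ⟨fun j => ?_, hy⟩
          by_cases hj : j = i
          · rw [hj]; exact hy.le
          · exact (hy' j hj).le
        have hev : ∀ j, ∀ᶠ ε : ℝ in 𝓝[>] 0, ⟪n j, y + ε • d⟫_ℝ ≤ h j := by
          intro j
          by_cases hj : j = i
          · refine Eventually.of_forall fun ε => ?_
            rw [hj, inner_add_right, inner_smul_right, hd, hy]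
            simp
          · have hc : Continuous fun ε : ℝ => ⟪n j, y + ε • d⟫_ℝ := by fun_prop
            have h1 : ∀ᶠ ε : ℝ in 𝓝 0, ⟪n j, y + ε • d⟫_ℝ < h j :=
              hc.continuousAt.eventually_lt continuousAt_const (by simpa using hy' j hj)
            have h2 : ∀ᶠ ε : ℝ in 𝓝[>] 0, ⟪n j, y + ε • d⟫_ℝ < h j := nhdsWithin_le_nhds h1
            exact h2.mono fun ε hε => hε.le
        obtain ⟨ε, h1, hε⟩ := ((eventually_all.2 hev).and self_mem_nhdsWithin).exists
        have hε' : 0 < ε := hε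
        have h2 : y + ε • d ∈ Fac n h i := by
          refine ⟨h1, ?_⟩
          rw [inner_add_right, inner_smul_right, hd, hy]
          simp
        have h3 := vsub_mem_vectorSpan ℝ h2 hyF
        rw [vsub_eq_sub, add_sub_cancel_left] at h3
        have h4 := Submodule.smul_mem _ ε⁻¹ h3
        rwa [smul_smul, inv_mul_cancel₀ hε'.ne', one_smul] at h4
    rw [hspan]
    have h1 : n i ≠ 0 := by
      intro h0
      have := hg.unit i
      rw [h0, norm_zero] at this
      exact zero_ne_one this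
    have h2 := Submodule.finrank_add_finrank_orthogonal (Submodule.span ℝ {n i})
    rw [finrank_span_singleton h1] at h2
    have h3 : Module.finrank ℝ (E 3) = 3 := by simp
    omega

lemma Good.sum_le_zeta_two {ι : Type*} [Fintype ι] {n : ι → E 3} {h : ι → ℝ} (hg : Good n h) :
    ∑ i, μHE[2] (Fac n h i) ≤ zeta 2 (Poly n h) := by
  have hinj : Function.Injective
      (fun i => (⟨Fac n h i, hg.isKFace_Fac i⟩ : {F : Set (E 3) // IsKFace 2 (Poly n h) F})) := by
    intro i j hij
    by_contra hcon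
    have h1 : Fac n h i = Fac n h j := congrArg Subtype.val hij
    obtain ⟨y, hy, hy'⟩ := hg.irr i
    have hyF : y ∈ Fac n h i := by
      refine ⟨fun k => ?_, hy⟩
      by_cases hk : k = i
      · rw [hk]; exact hy.le
      · exact (hy' k hk).le
    rw [h1] at hyF
    exact absurd hyF.2 (hy' j (Ne.symm hcon)).ne
  unfold zeta
  calc ∑ i, μHE[2] (Fac n h i) = ∑' i, μHE[2] (Fac n h i) := (tsum_fintype _).symm
    _ ≤ _ := ENNReal.tsum_comp_le_tsum_of_injective hinj
      (fun F : {F : Set (E 3) // IsKFace 2 (Poly n h) F} => μHE[2] (F : Set (E 3)))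

theorem zeta_two_ge {P : Set (E 3)} (hP : IsPolytope P) :
    2 * volume (pr '' P) ≤ zeta 2 P := by
  classical
  obtain ⟨m, n, h, hg, rfl⟩ := exists_good hP
  have hconv := convex_pr (convex_Poly n h)
  have hcomp : IsCompact (pr '' Poly n h) :=
    (isCompact_Poly hg.bdd).image pr_lipschitz.continuous
  have hv : volume (pr '' Poly n h) = volume (interior (pr '' Poly n h)) := by
    apply le_antisymm _ (measure_mono interior_subset)
    calc volume (pr '' Poly n h)
        ≤ volume (interior (pr '' Poly n h) ∪ frontier (pr '' Poly n h)) := by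
          apply measure_mono
          intro x hx
          by_cases h1 : x ∈ interior (pr '' Poly n h)
          · exact Or.inl h1
          · exact Or.inr ⟨subset_closure hx, h1⟩
      _ ≤ volume (interior (pr '' Poly n h)) + volume (frontier (pr '' Poly n h)) :=
          measure_union_le _ _
      _ = _ := by rw [hconv.addHaar_frontier volume, add_zero]
  have hmeas : ∀ i, MeasurableSet (pr '' Fac n h i) := fun i =>
    ((isCompact_Fac hg.bdd i).image pr_lipschitz.continuous).measurableSet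
  have htwo : ∀ y ∈ interior (pr '' Poly n h),
      (2 : ℝ≥0∞) ≤ ∑ i, (pr '' Fac n h i).indicator 1 y := by
    intro y hy
    obtain ⟨p, hp, hpy⟩ := interior_pr (convex_Poly n h) hP.nonempty_interior hy
    have hs := strict_of_mem_interior hg.unit hp
    obtain ⟨i, hi, t, ht⟩ := exists_hit hg.bdd hs norm_e3
    obtain ⟨j, hj, t', ht'⟩ := exists_hit hg.bdd (d := -e3) hs (by rw [norm_neg, norm_e3])
    have hij : i ≠ j := by
      rintro rfl
      rw [inner_neg_right] at hj
      linarith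
    have hyi : y ∈ pr '' Fac n h i := ⟨_, ht, by rw [pr_add, pr_smul, pr_e3, hpy]; simp⟩
    have hyj : y ∈ pr '' Fac n h j := ⟨_, ht', by
      rw [smul_neg, ← sub_eq_add_neg, pr_sub, pr_smul, pr_e3, hpy]; simp⟩
    calc (2 : ℝ≥0∞) = ∑ k ∈ ({i, j} : Finset (Fin m)), (pr '' Fac n h k).indicator 1 y := by
          rw [Finset.sum_pair hij, Set.indicator_of_mem hyi, Set.indicator_of_mem hyj]
          norm_num
      _ ≤ ∑ k, (pr '' Fac n h k).indicator 1 y :=
          Finset.sum_le_sum_of_subset (Finset.subset_univ _)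
  rw [hv]
  calc 2 * volume (interior (pr '' Poly n h))
      = ∫⁻ y in interior (pr '' Poly n h), 2 := by
        rw [setLIntegral_const]
    _ ≤ ∫⁻ y in interior (pr '' Poly n h), ∑ i, (pr '' Fac n h i).indicator 1 y :=
        setLIntegral_mono' isOpen_interior.measurableSet htwo
    _ ≤ ∫⁻ y, ∑ i, (pr '' Fac n h i).indicator 1 y := setLIntegral_le_lintegral _ _
    _ = ∑ i, volume (pr '' Fac n h i) := by
        rw [lintegral_finsetSum]
        · refine Finset.sum_congr rfl fun i _ => ?_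
          rw [lintegral_indicator_one (hmeas i)]
        · intro i _
          exact measurable_one.indicator (hmeas i)
    _ ≤ ∑ i, μHE[2] (Fac n h i) := Finset.sum_le_sum fun i _ => measure_pr_le _
    _ ≤ zeta 2 (Poly n h) := hg.sum_le_zeta_two

end Melzak
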