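import Pool.Agent.Helper27.Mz2.Defs2
import Pool.Agent.Helper27.Mz2.PL

/-!
# B0: dyadic Brunn-Minkowski inequality in the plane

Proof. By induction on k: C_0 = B, C_(k+1) = midpoints of A and C_k; A convex gives
C_k = (1 - 2^-k) A + 2^-k B, and bm_midpoint (Melzak.PL.bm_midpoint, transported from
Fin 2 -> R to E 2 by the volume preserving equivalence) gives |A| |C_k| <= |C_(k+1)|^2.
So |C_(k+1)|^(2^(k+1)) >= |A|^(2^k) |C_k|^(2^k) >= |A|^(2^k) |A|^(2^k - 1) |B|.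
-/

open MeasureTheory Set Filter Topology
open scoped ENNReal InnerProductSpace Pointwise

namespace Melzak

/-- the midpoint inequality in `E 2` -/
theorem bmd_midpoint {A B D : Set (E 2)} (hA : MeasurableSet A) (hB : MeasurableSet B)
    (hD : MeasurableSet D) (H : ∀ a ∈ A, ∀ b ∈ B, (2 : ℝ)⁻¹ • (a + b) ∈ D) :
    volume A * volume B ≤ volume D ^ 2 := by
  have mp := PiLp.volume_preserving_toLp (Fin 2)
  rw [← mp.measure_preimage hA.nullMeasurableSet, ← mp.measure_preimage hB.nullMeasurableSet,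
    ← mp.measure_preimage hD.nullMeasurableSet]
  refine Melzak.PL.bm_midpoint (mp.measurable hA) (mp.measurable hB) (mp.measurable hD)
    ?_
  intro a ha b hb
  have h := H _ ha _ hb
  show WithLp.toLp 2 (fun i => (a i + b i) / 2) ∈ D
  have e : WithLp.toLp 2 (fun i => (a i + b i) / 2) =
      (2 : ℝ)⁻¹ • (WithLp.toLp 2 a + WithLp.toLp 2 b : E 2) := by
    ext i
    simp
    ring
  rw [e]
  exact h

theorem bm_dyadic {A B : Set (E 2)} (hA : IsCompact A) (hAc : Convex ℝ A) (hAn : A.Nonempty)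
    (hB : IsCompact B) (k : ℕ) :
    volume A ^ (2 ^ k - 1) * volume B ≤
      volume ((1 - (2 : ℝ)⁻¹ ^ k) • A + ((2 : ℝ)⁻¹ ^ k) • B) ^ (2 ^ k) := by
  have hcomp : ∀ k : ℕ, IsCompact ((1 - (2 : ℝ)⁻¹ ^ k) • A + ((2 : ℝ)⁻¹ ^ k) • B) := fun k =>
    (hA.smul _).add (hB.smul _)
  induction k with
  | zero =>
    have e : (1 - (2 : ℝ)⁻¹ ^ 0) • A + ((2 : ℝ)⁻¹ ^ 0) • B = B := by
      rw [pow_zero, sub_self, zero_smul_set hAn, zero_add, one_smul]
    rw [e]
    simp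
  | succ k ih =>
    obtain ⟨C, hC⟩ : ∃ C, C = (1 - (2 : ℝ)⁻¹ ^ k) • A + ((2 : ℝ)⁻¹ ^ k) • B := ⟨_, rfl⟩
    obtain ⟨C', hC'⟩ : ∃ C', C' = (1 - (2 : ℝ)⁻¹ ^ (k + 1)) • A + ((2 : ℝ)⁻¹ ^ (k + 1)) • B :=
      ⟨_, rfl⟩
    have h1 := hcomp k
    have h2 := hcomp (k + 1)
    rw [← hC] at ih h1
    rw [← hC'] at h2 ⊢
    have hmid : volume A * volume C ≤ volume C' ^ 2 := by
      refine bmd_midpoint hA.measurableSet h1.measurableSet h2.measurableSet ?_
      intro a ha x hx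
      rw [hC, Set.mem_add] at hx
      obtain ⟨y, hy, z, hz, rfl⟩ := hx
      obtain ⟨a', ha', rfl⟩ := mem_smul_set.1 hy
      obtain ⟨b, hb, rfl⟩ := mem_smul_set.1 hz
      have hp1 : (2 : ℝ)⁻¹ ^ k ≤ 1 := pow_le_one₀ (by norm_num) (by norm_num)
      rw [hC', Set.mem_add, pow_succ]
      generalize (2 : ℝ)⁻¹ ^ k = p at hp1
      have hq : (0 : ℝ) < 1 - p * 2⁻¹ := by linarith
      refine ⟨(1 - p * 2⁻¹) • (((1 - p * 2⁻¹)⁻¹ * 2⁻¹) • a +
        ((1 - p * 2⁻¹)⁻¹ * ((1 - p) * 2⁻¹)) • a'), smul_mem_smul_set (hAc ha ha' ?_ ?_ ?_),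
        (p * 2⁻¹) • b, smul_mem_smul_set hb, ?_⟩
      · positivity
      · have : 0 ≤ 1 - p := by linarith
        positivity
      · rw [← mul_add, show (2 : ℝ)⁻¹ + (1 - p) * 2⁻¹ = 1 - p * 2⁻¹ by ring,
          inv_mul_cancel₀ hq.ne']
      · rw [smul_add (1 - p * 2⁻¹), smul_smul, smul_smul, ← mul_assoc, ← mul_assoc,
          mul_inv_cancel₀ hq.ne', one_mul, one_mul, smul_add, smul_add, smul_smul, smul_smul,
          add_assoc, mul_comm (2 : ℝ)⁻¹ (1 - p), mul_comm (2 : ℝ)⁻¹ p]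
    calc volume A ^ (2 ^ (k + 1) - 1) * volume B
        = volume A ^ (2 ^ k) * (volume A ^ (2 ^ k - 1) * volume B) := by
          rw [← mul_assoc, ← pow_add]
          congr 2
          have : 1 ≤ 2 ^ k := Nat.one_le_two_pow
          rw [pow_succ]
          omega
      _ ≤ volume A ^ (2 ^ k) * volume C ^ (2 ^ k) := by gcongr
      _ = (volume A * volume C) ^ (2 ^ k) := (mul_pow _ _ _).symm
      _ ≤ (volume C' ^ 2) ^ (2 ^ k) := by gcongr
      _ = volume C' ^ (2 ^ (k + 1)) := by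
          rw [← pow_mul]
          congr 1
          rw [pow_succ]
          ring

end Melzak
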