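import Mathlib

/-!
# F: a weighted edge sum in a graph with e(T) <= 3|T| - 6

Proof. Number the vertices 0, 1, ..., N-1 with rho decreasing; w_(ij) := w (rho_i) (rho_j) is
symmetric, nonnegative and decreasing in i and in j. For j >= 3 let d_j be the number of neighbours
i < j of j and x_j = d_j - 3, v_j = w_(2j), G_j = w_(0j) + w_(1j) + w_(2j). The back edges of j
contribute at most G_j + x_j v_j: if x_j <= 0 the d_j neighbours contribute at most the d_j largest
of the weights w_(0j) >= w_(1j) >= w_(2j) (the sorted neighbours i_1 < i_2 < ... satisfy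
i_m >= m - 1), if x_j > 0 the additional x_j neighbours contribute at most w_(3j) <= v_j each.
Let 3 - y be the number of edges among 0, 1, 2; they contribute at most
w_01 + w_02 + w_12 - y w_12. The condition for T = {0..j}: X_j := sum_(3 <= k <= j) x_k <= y.
By induction sum_(3 <= k <= j) x_k v_k <= y v_3 - (y - X_j) v_j, as v is decreasing; so the sum is
at most y v_3 <= y w_12. (The sum below is over ordered pairs, whence the factor 2.)

The Lean proof is the same induction (on the set of vertices, adding the vertex of least rho):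
for every lower bound r of rho on T the weighted edge sum of T is at most
B(T) - s(T) w (rho_2) r, where s(T) is the slack 6|T| - 12 - e(T) (ordered pairs).
-/

namespace Melzak

open Finset

/-- Adding a vertex to a double sum of a symmetric function with zero diagonal. -/
theorem order_insert {ι : Type*} [DecidableEq ι] (f : ι → ι → ℝ) (hf : ∀ i j, f i j = f j i)
    (a : ι) (haa : f a a = 0) (s : Finset ι) (ha : a ∉ s) :
    ∑ x ∈ insert a s, ∑ y ∈ insert a s, f x y = ∑ x ∈ s, ∑ y ∈ s, f x y + 2 * ∑ y ∈ s, f y a := by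
  rw [sum_insert ha, sum_insert ha]
  have h1 : ∑ x ∈ s, ∑ y ∈ insert a s, f x y = ∑ x ∈ s, (f x a + ∑ y ∈ s, f x y) :=
    sum_congr rfl fun x _ => sum_insert ha
  have h2 : ∑ y ∈ s, f a y = ∑ y ∈ s, f y a := sum_congr rfl fun y _ => hf a y
  rw [h1, sum_add_distrib, haa, h2]
  ring

open Classical in
/-- The induction. -/
theorem order_main {ι : Type*} (adj : ι → ι → Prop)
    (hsymm : ∀ i j, adj i j → adj j i) (hirr : ∀ i, ¬ adj i i)
    (hpl : ∀ T : Finset ι, 3 ≤ T.card →
      ((T ×ˢ T).filter (fun p => adj p.1 p.2)).card + 12 ≤ 6 * T.card)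
    (w : ℝ → ℝ → ℝ) (hws : ∀ a b, w a b = w b a)
    (hwm : ∀ a a' b, 0 ≤ a → a ≤ a' → 0 ≤ b → w a b ≤ w a' b)
    (ρ : ι → ℝ) (hρ : ∀ i, 0 ≤ ρ i) (s : Finset ι) :
    3 ≤ s.card → ∃ i₀ i₁ i₂ : ι, i₀ ∈ s ∧ i₁ ∈ s ∧ i₂ ∈ s ∧ i₀ ≠ i₁ ∧ i₀ ≠ i₂ ∧ i₁ ≠ i₂ ∧
      ρ i₁ ≤ ρ i₀ ∧ ρ i₂ ≤ ρ i₁ ∧
      (∀ j ∈ s, j ≠ i₀ → j ≠ i₁ → j ≠ i₂ → ρ j ≤ ρ i₂) ∧
      ∀ r, 0 ≤ r → (∀ i ∈ s, r ≤ ρ i) →
      ∑ x ∈ s, ∑ y ∈ s, (if adj x y then w (ρ x) (ρ y) else 0) ≤
        2 * (w (ρ i₀) (ρ i₁) + w (ρ i₀) (ρ i₂) + w (ρ i₁) (ρ i₂) +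
          ∑ j ∈ s with j ≠ i₀ ∧ j ≠ i₁ ∧ j ≠ i₂,
            (w (ρ i₀) (ρ j) + w (ρ i₁) (ρ j) + w (ρ i₂) (ρ j))) -
        (6 * (s.card : ℝ) - 12 - ∑ x ∈ s, ∑ y ∈ s, (if adj x y then (1 : ℝ) else 0)) *
          w (ρ i₂) r := by
  have hwm' : ∀ a b b', 0 ≤ a → 0 ≤ b → b ≤ b' → w a b ≤ w a b' := by
    intro a b b' ha hb hbb
    rw [hws a b, hws a b']; exact hwm _ _ _ hb hbb ha
  have hadj : ∀ i j, adj i j ↔ adj j i := fun i j => ⟨hsymm i j, hsymm j i⟩
  have fw : ∀ i j, (if adj i j then w (ρ i) (ρ j) else 0) = if adj j i then w (ρ j) (ρ i) else 0 := by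
    intro i j; simp only [hadj i j, hws (ρ i) (ρ j)]
  have f1 : ∀ i j, (if adj i j then (1 : ℝ) else 0) = if adj j i then (1 : ℝ) else 0 := by
    intro i j; simp only [hadj i j]
  have slack : ∀ T : Finset ι, 3 ≤ T.card →
      0 ≤ 6 * (T.card : ℝ) - 12 - ∑ x ∈ T, ∑ y ∈ T, (if adj x y then (1 : ℝ) else 0) := by
    intro T hT
    have h1 := hpl T hT
    have h2 : (((T ×ˢ T).filter (fun p => adj p.1 p.2)).card : ℝ) =
        ∑ x ∈ T, ∑ y ∈ T, (if adj x y then (1 : ℝ) else 0) := by
      rw [card_eq_sum_ones, Nat.cast_sum, sum_filter, sum_product]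
      simp
    rw [← h2]
    have h3 : ((((T ×ˢ T).filter (fun p => adj p.1 p.2)).card : ℝ)) + 12 ≤ 6 * T.card := by
      exact_mod_cast h1
    linarith
  refine Finset.induction_on_min_value ρ s ?_ ?_
  · intro h; simp at h
  · intro a s has hmin ih hcard
    rw [card_insert_of_notMem has] at hcard
    rcases Nat.lt_or_ge s.card 3 with hlt | hge
    · -- the base case
      have h2 : s.card = 2 := by omega
      obtain ⟨b, c, hbc, rfl⟩ := Finset.card_eq_two.mp h2
      wlog hle : ρ c ≤ ρ b generalizing b c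
      · have := this c b (Ne.symm hbc) (by rwa [Finset.pair_comm]) (by
          intro x hx; apply hmin; rwa [Finset.pair_comm]) (by rwa [Finset.pair_comm]) (by
          rwa [Finset.pair_comm]) (by rwa [Finset.pair_comm]) (by rwa [Finset.pair_comm])
          (le_of_lt (not_le.mp hle))
        rwa [Finset.pair_comm] at this
      have hab : a ≠ b := by rintro rfl; exact has (by simp)
      have hac : a ≠ c := by rintro rfl; exact has (by simp)
      refine ⟨b, c, a, by simp, by simp, by simp, hbc, Ne.symm hab, Ne.symm hac, hle,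
        hmin c (by simp), ?_, ?_⟩
      · intro j hj h1 h2 h3
        simp only [mem_insert, mem_singleton] at hj
        rcases hj with h | h | h
        · exact absurd h h3
        · exact absurd h h1
        · exact absurd h h2
      · intro r hr0 hr
        have hfil : ({j ∈ insert a {b, c} | j ≠ b ∧ j ≠ c ∧ j ≠ a} : Finset ι) = ∅ := by
          ext j; simp only [mem_filter, mem_insert, mem_singleton, notMem_empty, iff_false]
          rintro ⟨h | h | h, h1, h2, h3⟩
          · exact h3 h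
          · exact h1 h
          · exact h2 h
        rw [hfil, sum_empty, add_zero]
        have hc3 : ((insert a {b, c} : Finset ι).card : ℝ) = 3 := by
          rw [card_insert_of_notMem has, h2]; norm_num
        rw [hc3]
        rw [order_insert (fun x y => if adj x y then w (ρ x) (ρ y) else 0) fw a
          (by simp [hirr a]) _ has,
          order_insert (fun x y => if adj x y then (1 : ℝ) else 0) f1 a
          (by simp [hirr a]) _ has]
        have hbs : b ∉ ({c} : Finset ι) := by simpa using hbc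
        rw [order_insert (fun x y => if adj x y then w (ρ x) (ρ y) else 0) fw b
          (by simp [hirr b]) _ hbs,
          order_insert (fun x y => if adj x y then (1 : ℝ) else 0) f1 b
          (by simp [hirr b]) _ hbs]
        rw [sum_pair hbc, sum_pair hbc]
        simp only [sum_singleton]
        simp only [hirr c, if_false]
        have hra := hr a (by simp)
        have hrb := hr b (by simp)
        have hrc := hr c (by simp)
        have k1 : w (ρ a) r ≤ w (ρ b) (ρ a) := by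
          rw [hws (ρ b) (ρ a)]; exact hwm' _ _ _ (hρ a) hr0 hrb
        have k2 : w (ρ a) r ≤ w (ρ c) (ρ a) := by
          rw [hws (ρ c) (ρ a)]; exact hwm' _ _ _ (hρ a) hr0 hrc
        have k3 : w (ρ a) r ≤ w (ρ c) (ρ b) :=
          (hwm' _ _ _ (hρ a) hr0 hrb).trans (hwm _ _ _ (hρ a) (hmin c (by simp)) (hρ b))
        have k4 : w (ρ b) (ρ c) = w (ρ c) (ρ b) := hws _ _
        rw [k4]
        have e1 : (if adj b a then w (ρ b) (ρ a) else 0) - w (ρ b) (ρ a) +
            (1 - if adj b a then (1 : ℝ) else 0) * w (ρ a) r ≤ 0 := by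
          split_ifs <;> linarith
        have e2 : (if adj c a then w (ρ c) (ρ a) else 0) - w (ρ c) (ρ a) +
            (1 - if adj c a then (1 : ℝ) else 0) * w (ρ a) r ≤ 0 := by
          split_ifs <;> linarith
        have e3 : (if adj c b then w (ρ c) (ρ b) else 0) - w (ρ c) (ρ b) +
            (1 - if adj c b then (1 : ℝ) else 0) * w (ρ a) r ≤ 0 := by
          split_ifs <;> linarith
        nlinarith [e1, e2, e3]
    · obtain ⟨i₀, i₁, i₂, m0, m1, m2, n01, n02, n12, r10, r21, hoth, hsum⟩ := ih hge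
      have ha0 : a ≠ i₀ := by rintro rfl; exact has m0
      have ha1 : a ≠ i₁ := by rintro rfl; exact has m1
      have ha2 : a ≠ i₂ := by rintro rfl; exact has m2
      refine ⟨i₀, i₁, i₂, mem_insert_of_mem m0, mem_insert_of_mem m1, mem_insert_of_mem m2,
        n01, n02, n12, r10, r21, ?_, ?_⟩
      · intro j hj h0 h1 h2
        rcases mem_insert.mp hj with rfl | hj
        · exact hmin i₂ m2
        · exact hoth j hj h0 h1 h2
      · intro r hr0 hr
        have hIH := hsum (ρ a) (hρ a) hmin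
        have hfil : ({j ∈ insert a s | j ≠ i₀ ∧ j ≠ i₁ ∧ j ≠ i₂} : Finset ι) =
            insert a {j ∈ s | j ≠ i₀ ∧ j ≠ i₁ ∧ j ≠ i₂} := by
          rw [filter_insert, if_pos ⟨ha0, ha1, ha2⟩]
        rw [hfil, sum_insert (s := {j ∈ s | j ≠ i₀ ∧ j ≠ i₁ ∧ j ≠ i₂}) (by simp [has])]
        have hsl := slack (insert a s) (by rw [card_insert_of_notMem has]; omega)
        have hra := hr a (mem_insert_self _ _)
        have hv : w (ρ i₂) r ≤ w (ρ i₂) (ρ a) := hwm' _ _ _ (hρ _) hr0 hra
        have hmul := mul_le_mul_of_nonneg_left hv hsl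
        refine le_trans ?_ (sub_le_sub_left hmul _)
        rw [order_insert (fun x y => if adj x y then w (ρ x) (ρ y) else 0) fw a
          (by simp [hirr a]) _ has,
          order_insert (fun x y => if adj x y then (1 : ℝ) else 0) f1 a
          (by simp [hirr a]) _ has]
        -- the back edges of `a`
        have hback : ∑ y ∈ s, (if adj y a then w (ρ y) (ρ a) else 0) ≤
            w (ρ i₀) (ρ a) + w (ρ i₁) (ρ a) + w (ρ i₂) (ρ a) +
              ((∑ y ∈ s, if adj y a then (1 : ℝ) else 0) - 3) * w (ρ i₂) (ρ a) := by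
          have hsub : ({i₀, i₁, i₂} : Finset ι) ⊆ s := by
            intro x hx
            simp only [mem_insert, mem_singleton] at hx
            rcases hx with rfl | rfl | rfl <;> assumption
          have t1 : ∑ y ∈ s, ((if adj y a then w (ρ y) (ρ a) else 0) -
              (if adj y a then (1 : ℝ) else 0) * w (ρ i₂) (ρ a)) ≤
              ∑ y ∈ ({i₀, i₁, i₂} : Finset ι), (w (ρ y) (ρ a) - w (ρ i₂) (ρ a)) := by
            rw [← sum_sdiff hsub]
            have t2 : ∑ y ∈ s \ {i₀, i₁, i₂}, ((if adj y a then w (ρ y) (ρ a) else 0) -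
              (if adj y a then (1 : ℝ) else 0) * w (ρ i₂) (ρ a)) ≤ 0 := by
              apply sum_nonpos
              intro y hy
              simp only [mem_sdiff, mem_insert, mem_singleton, not_or] at hy
              have := hwm (ρ y) (ρ i₂) (ρ a) (hρ y) (hoth y hy.1 hy.2.1 hy.2.2.1 hy.2.2.2) (hρ a)
              split_ifs <;> linarith
            have t3 : ∑ y ∈ ({i₀, i₁, i₂} : Finset ι), ((if adj y a then w (ρ y) (ρ a) else 0) -
              (if adj y a then (1 : ℝ) else 0) * w (ρ i₂) (ρ a)) ≤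
              ∑ y ∈ ({i₀, i₁, i₂} : Finset ι), (w (ρ y) (ρ a) - w (ρ i₂) (ρ a)) := by
              apply sum_le_sum
              intro y hy
              have hy2 : ρ i₂ ≤ ρ y := by
                simp only [mem_insert, mem_singleton] at hy
                rcases hy with rfl | rfl | rfl
                · exact r21.trans r10
                · exact r21
                · exact le_rfl
              have := hwm (ρ i₂) (ρ y) (ρ a) (hρ _) hy2 (hρ a)
              split_ifs <;> linarith
            linarith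
          rw [sum_sub_distrib, ← sum_mul, sum_insert (by simp [n01, n02]), sum_pair n12] at t1
          linarith
        have hcc : ((insert a s).card : ℝ) = s.card + 1 := by
          rw [card_insert_of_notMem has]; push_cast; ring
        rw [hcc]
        linarith

open Classical in
theorem edge_sum {ι : Type*} [Fintype ι] (hcard : 3 ≤ Fintype.card ι) (adj : ι → ι → Prop)
    (hsymm : ∀ i j, adj i j → adj j i) (hirr : ∀ i, ¬ adj i i)
    (hpl : ∀ T : Finset ι, 3 ≤ T.card →
      ((T ×ˢ T).filter (fun p => adj p.1 p.2)).card + 12 ≤ 6 * T.card)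
    (w : ℝ → ℝ → ℝ) (hw0 : ∀ a b, 0 ≤ w a b) (hws : ∀ a b, w a b = w b a)
    (hwm : ∀ a a' b, 0 ≤ a → a ≤ a' → 0 ≤ b → w a b ≤ w a' b)
    (ρ : ι → ℝ) (hρ : ∀ i, 0 ≤ ρ i) :
    ∃ i₀ i₁ i₂ : ι, i₀ ≠ i₁ ∧ i₀ ≠ i₂ ∧ i₁ ≠ i₂ ∧ ρ i₁ ≤ ρ i₀ ∧ ρ i₂ ≤ ρ i₁ ∧
      (∀ j, j ≠ i₀ → j ≠ i₁ → j ≠ i₂ → ρ j ≤ ρ i₂) ∧
      ∑ p : ι × ι with adj p.1 p.2, w (ρ p.1) (ρ p.2) ≤
        2 * (w (ρ i₀) (ρ i₁) + w (ρ i₀) (ρ i₂) + w (ρ i₁) (ρ i₂) +
          ∑ j with j ≠ i₀ ∧ j ≠ i₁ ∧ j ≠ i₂,
            (w (ρ i₀) (ρ j) + w (ρ i₁) (ρ j) + w (ρ i₂) (ρ j))) := by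
  obtain ⟨i₀, i₁, i₂, -, -, -, n01, n02, n12, r10, r21, hoth, hsum⟩ :=
    order_main adj hsymm hirr hpl w hws hwm ρ hρ Finset.univ (by simpa using hcard)
  refine ⟨i₀, i₁, i₂, n01, n02, n12, r10, r21, fun j h0 h1 h2 => hoth j (mem_univ _) h0 h1 h2, ?_⟩
  have h1 := hpl Finset.univ (by simpa using hcard)
  have h2 := hsum 0 le_rfl (fun i _ => hρ i)
  have h3 : ∑ p : ι × ι with adj p.1 p.2, w (ρ p.1) (ρ p.2) =
      ∑ x : ι, ∑ y : ι, (if adj x y then w (ρ x) (ρ y) else 0) := by
    rw [sum_filter, ← univ_product_univ, sum_product]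
  have h4 : ((((univ : Finset ι) ×ˢ (univ : Finset ι)).filter (fun p => adj p.1 p.2)).card : ℝ) =
      ∑ x : ι, ∑ y : ι, (if adj x y then (1 : ℝ) else 0) := by
    rw [card_eq_sum_ones, Nat.cast_sum, sum_filter, sum_product]
    simp
  have h5 : ((((univ : Finset ι) ×ˢ (univ : Finset ι)).filter (fun p => adj p.1 p.2)).card : ℝ) + 12
      ≤ 6 * (univ : Finset ι).card := by exact_mod_cast h1
  rw [h3]
  have h6 := hw0 (ρ i₂) 0
  rw [h4] at h5
  have h7 := mul_nonneg (by linarith : (0 : ℝ) ≤ 6 * ((univ : Finset ι).card : ℝ) - 12 -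
    ∑ x : ι, ∑ y : ι, (if adj x y then (1 : ℝ) else 0)) h6
  linarith

end Melzak
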