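import Pool.Agent.Helper27.Mz2.Ana1
import Pool.Agent.Helper27.Mz2.Ana2
import Pool.Agent.Helper27.Mz2.Ana3
import Pool.Agent.Helper27.Mz2.Order

/-!
# H1: the function Phi on the boundary of the region

Phi(rho) = sum_i (pi rho_i - sum_(j ~ i) kap rho_i rho_j) = pi sum rho_i - (1/2) sum over ordered
adjacent pairs of lens rho_i rho_j.

Proof. By edge_sum with w = lens, the top three being i0, i1, i2 with values a >= b >= c:
Phi >= [pi (a+b+c) - lens a b - lens a c - lens b c] + sum over the other j of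
[pi rho_j - lens a rho_j - lens b rho_j - lens c rho_j], and the brackets of the sum are >= 0 by
net_nonneg. The boundary equality holds for the top three (a + b + c = 12/5, as the sum of any
three is at most a + b + c <= 12/5; or sqrt a + sqrt b = 2).
If a + b + c = 12/5: three_disc. If sqrt a + sqrt b = 2: lens a c + lens b c <= pi c (lens_add_le),
so Phi >= pi (a+b) - lens a b >= sig, with > if a > b (two_disc_strict); if a = b = 1 and c > 0 then
lens_one_lt is strict; if a = b = 1, c = 0, all the others are 0: second alternative.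
-/

open MeasureTheory Set Filter Topology
open scoped ENNReal InnerProductSpace

namespace Melzak

open Classical in
/-- The function F_i. -/
noncomputable def FF {ι : Type*} [Fintype ι] (adj : ι → ι → Prop) (ρ : ι → ℝ) (i : ι) : ℝ :=
  Real.pi * ρ i - ∑ j with adj i j, kap (ρ i) (ρ j)

/-- The closed region. -/
def Reg {ι : Type*} (ρ : ι → ℝ) : Prop :=
  (∀ i, 0 ≤ ρ i) ∧ (∀ i j k, i ≠ j → i ≠ k → j ≠ k → ρ i + ρ j + ρ k ≤ 12 / 5) ∧
    (∀ i j, i ≠ j → Real.sqrt (ρ i) + Real.sqrt (ρ j) ≤ 2)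

/-- The boundary part of the region. -/
def Bdy {ι : Type*} (ρ : ι → ℝ) : Prop :=
  (∃ i j k, i ≠ j ∧ i ≠ k ∧ j ≠ k ∧ ρ i + ρ j + ρ k = 12 / 5) ∨
    (∃ i j, i ≠ j ∧ Real.sqrt (ρ i) + Real.sqrt (ρ j) = 2)

/-- If f i <= C off i0, i1 and f i1 <= f i0, C <= f i1 then f i + f j <= f i0 + f i1. -/
lemma bd_two {ι : Type*} (f : ι → ℝ) {i₀ i₁ : ι} (n : i₀ ≠ i₁)
    (h1 : f i₁ ≤ f i₀) (h2 : ∀ j, j ≠ i₀ → f j ≤ f i₁) {i j : ι} (hij : i ≠ j) :
    f i + f j ≤ f i₀ + f i₁ := by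
  by_cases hi : i = i₀
  · subst hi
    have := h2 j (Ne.symm hij)
    linarith
  · have h3 := h2 i hi
    by_cases hj : j = i₀
    · subst hj
      linarith
    · have := h2 j hj
      linarith

lemma bd_three {ι : Type*} (f : ι → ℝ) {i₀ i₁ i₂ : ι} (n01 : i₀ ≠ i₁) (n02 : i₀ ≠ i₂)
    (n12 : i₁ ≠ i₂) (h1 : f i₁ ≤ f i₀) (h2 : f i₂ ≤ f i₁)
    (h3 : ∀ j, j ≠ i₀ → j ≠ i₁ → j ≠ i₂ → f j ≤ f i₂) {i j k : ι} (hij : i ≠ j) (hik : i ≠ k)
    (hjk : j ≠ k) : f i + f j + f k ≤ f i₀ + f i₁ + f i₂ := by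
  have h4 : ∀ j, j ≠ i₀ → f j ≤ f i₁ := by
    intro j hj
    by_cases hj1 : j = i₁
    · rw [hj1]
    · by_cases hj2 : j = i₂
      · rw [hj2]; exact h2
      · exact (h3 j hj hj1 hj2).trans h2
  have h5 : ∀ j, j ≠ i₀ → j ≠ i₁ → f j ≤ f i₂ := by
    intro j hj hj1
    by_cases hj2 : j = i₂
    · rw [hj2]
    · exact h3 j hj hj1 hj2
  -- one of the three is outside i0, i1
  by_cases hk : k ≠ i₀ ∧ k ≠ i₁
  · have := h5 k hk.1 hk.2
    have := bd_two f n01 h1 h4 hij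
    linarith
  · by_cases hj : j ≠ i₀ ∧ j ≠ i₁
    · have := h5 j hj.1 hj.2
      have := bd_two f n01 h1 h4 hik
      linarith
    · by_cases hi : i ≠ i₀ ∧ i ≠ i₁
      · have := h5 i hi.1 hi.2
        have := bd_two f n01 h1 h4 hjk
        linarith
      · exfalso
        have e1 : k = i₀ ∨ k = i₁ := by tauto
        have e2 : j = i₀ ∨ j = i₁ := by tauto
        have e3 : i = i₀ ∨ i = i₁ := by tauto
        rcases e1 with rfl | rfl <;> rcases e2 with rfl | rfl <;> rcases e3 with rfl | rfl <;>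
          simp_all

open Classical in
/-- Phi in terms of the lens sum. -/
lemma bd_phi {ι : Type*} [Fintype ι] (adj : ι → ι → Prop)
    (hsymm : ∀ i j, adj i j → adj j i) (ρ : ι → ℝ) :
    2 * ∑ i, FF adj ρ i = 2 * (Real.pi * ∑ i, ρ i) -
      ∑ p : ι × ι with adj p.1 p.2, lens (ρ p.1) (ρ p.2) := by
  have h1 : ∑ i, FF adj ρ i = Real.pi * ∑ i, ρ i - ∑ i, ∑ j, if adj i j then kap (ρ i) (ρ j) else 0
      := by
    unfold FF
    rw [Finset.sum_sub_distrib, ← Finset.mul_sum]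
    simp only [Finset.sum_filter]
  have h2 : ∑ p : ι × ι with adj p.1 p.2, lens (ρ p.1) (ρ p.2) =
      (∑ i, ∑ j, if adj i j then kap (ρ i) (ρ j) else 0) +
      ∑ i, ∑ j, if adj i j then kap (ρ i) (ρ j) else 0 := by
    rw [Finset.sum_filter, ← Finset.univ_product_univ, Finset.sum_product]
    have h3 : (∑ i, ∑ j, if adj i j then kap (ρ i) (ρ j) else 0) =
        ∑ i, ∑ j, if adj i j then kap (ρ j) (ρ i) else 0 := by
      rw [Finset.sum_comm]
      refine Finset.sum_congr rfl fun i _ => Finset.sum_congr rfl fun j _ => ?_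
      have : adj j i ↔ adj i j := ⟨hsymm _ _, hsymm _ _⟩
      simp only [this]
    conv_rhs => arg 2; rw [h3]
    rw [← Finset.sum_add_distrib]
    refine Finset.sum_congr rfl fun i _ => ?_
    rw [← Finset.sum_add_distrib]
    refine Finset.sum_congr rfl fun j _ => ?_
    split_ifs <;> simp [lens]
  rw [h1, h2]
  ring

open Classical in
theorem boundary {ι : Type*} [Fintype ι] (hcard : 3 ≤ Fintype.card ι) (adj : ι → ι → Prop)
    (hsymm : ∀ i j, adj i j → adj j i) (hirr : ∀ i, ¬ adj i i)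
    (hpl : ∀ T : Finset ι, 3 ≤ T.card →
      ((T ×ˢ T).filter (fun p => adj p.1 p.2)).card + 12 ≤ 6 * T.card)
    {ρ : ι → ℝ} (hR : Reg ρ) (hB : Bdy ρ) :
    sig < ∑ i, FF adj ρ i ∨ ∃ i j, i ≠ j ∧ ρ i = 1 ∧ ρ j = 1 ∧ ∀ k, k ≠ i → k ≠ j → ρ k = 0 := by
  obtain ⟨hR0, hR3, hR2⟩ := hR
  obtain ⟨i₀, i₁, i₂, n01, n02, n12, r10, r21, hoth, hsum⟩ := edge_sum hcard adj hsymm hirr hpl
    lens lens_nonneg lens_comm (fun a a' b ha haa hb => lens_mono ha haa hb le_rfl) ρ hR0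
  have hphi := bd_phi adj hsymm ρ
  have hdec : ∑ i, ρ i = ρ i₀ + ρ i₁ + ρ i₂ +
      ∑ j with j ≠ i₀ ∧ j ≠ i₁ ∧ j ≠ i₂, ρ j := by
    have h0 : (Finset.univ.filter fun j => j ≠ i₀ ∧ j ≠ i₁ ∧ j ≠ i₂) =
        ((Finset.univ.erase i₀).erase i₁).erase i₂ := by
      ext j
      simp only [Finset.mem_filter, Finset.mem_univ, true_and, Finset.mem_erase, and_true]
      tauto
    rw [h0, ← Finset.add_sum_erase Finset.univ ρ (Finset.mem_univ i₀),
      ← Finset.add_sum_erase (Finset.univ.erase i₀) ρ (a := i₁) (by simp [n01.symm]),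
      ← Finset.add_sum_erase ((Finset.univ.erase i₀).erase i₁) ρ (a := i₂)
        (by simp [n02.symm, n12.symm])]
    ring
  have hrest : ∑ j with j ≠ i₀ ∧ j ≠ i₁ ∧ j ≠ i₂,
      (lens (ρ i₀) (ρ j) + lens (ρ i₁) (ρ j) + lens (ρ i₂) (ρ j)) ≤
      Real.pi * ∑ j with j ≠ i₀ ∧ j ≠ i₁ ∧ j ≠ i₂, ρ j := by
    rw [Finset.mul_sum]
    apply Finset.sum_le_sum
    intro j hj
    simp only [Finset.mem_filter, Finset.mem_univ, true_and] at hj
    exact net_nonneg (hR0 j) (hoth j hj.1 hj.2.1 hj.2.2) r21 r10 (hR3 _ _ _ n01 n02 n12)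
      (hR2 _ _ n01)
  have hkey : Real.pi * (ρ i₀ + ρ i₁ + ρ i₂) - (lens (ρ i₀) (ρ i₁) + lens (ρ i₀) (ρ i₂) +
      lens (ρ i₁) (ρ i₂)) ≤ ∑ i, FF adj ρ i := by
    rw [hdec, mul_add] at hphi
    linarith
  rcases hB with ⟨i, j, k, hij, hik, hjk, hS⟩ | ⟨i, j, hij, hS⟩
  · left
    have h1 := bd_three ρ n01 n02 n12 r10 r21 hoth hij hik hjk
    have h2 := hR3 _ _ _ n01 n02 n12
    have h3 := three_disc (hR0 i₂) r21 r10 (by linarith)
    linarith
  · have hmono : ∀ x y, ρ x ≤ ρ y → Real.sqrt (ρ x) ≤ Real.sqrt (ρ y) :=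
      fun x y h => Real.sqrt_le_sqrt h
    have h1 := bd_two (fun i => Real.sqrt (ρ i)) n01 (hmono _ _ r10) (by
      intro j hj
      by_cases hj1 : j = i₁
      · rw [hj1]
      · by_cases hj2 : j = i₂
        · rw [hj2]; exact hmono _ _ r21
        · exact hmono _ _ ((hoth j hj hj1 hj2).trans r21)) hij
    have h2 := hR2 _ _ n01
    have h3 : Real.sqrt (ρ i₀) + Real.sqrt (ρ i₁) = 2 := le_antisymm h2 (by
      linarith)
    have h4 := lens_add_le (hR0 i₀) (hR0 i₁) (hR0 i₂) h2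
    rcases r10.lt_or_eq with h5 | h5
    · left
      have := two_disc_strict (hR0 i₁) h5 h3
      linarith
    · rw [h5] at h3
      have h6 : Real.sqrt (ρ i₀) = 1 := by linarith
      have h7 : ρ i₀ = 1 := by
        have := Real.sq_sqrt (hR0 i₀)
        rw [h6] at this
        linarith
      have h8 : ρ i₁ = 1 := by rw [h5, h7]
      rcases (hR0 i₂).lt_or_eq with h9 | h9
      · left
        have h10 := lens_one_lt h9
        have h11 := two_disc (hR0 i₁) r10 (by rw [h5]; exact h3)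
        rw [h7, h8] at hkey h11
        linarith
      · right
        refine ⟨i₀, i₁, n01, h7, h8, ?_⟩
        intro k hk0 hk1
        by_cases hk2 : k = i₂
        · rw [hk2, ← h9]
        · have := hoth k hk0 hk1 hk2
          exact le_antisymm (by rw [h9]; exact this) (hR0 k)

end Melzak
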