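import Pool.Agent.Helper27.Mz2.Defs2

/-!
# B2: the closing relation: sum of (length of side) * (outer unit normal) = 0

Proof 1. For a vector v let f(x) = <v', x>, v' = v rotated by a right angle. For all but finitely
many s in the interior of f(K) (K = Pgon u c) the line f = s meets K in a nondegenerate segment
with direction v whose endpoints lie each in exactly one side; the upper endpoint in a side with
<u_j, v> > 0 and the lower endpoint in one with <u_j, v> < 0. So
sum_(<u_j,v> > 0) 1_(f(side j)) = sum_(<u_j,v> < 0) 1_(f(side j)) almost everywhere, and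
|f(side j)| = (side u c j) |<u_j, v>|.
Two constraints with the same line are excluded by hinj; a side may be empty or a point.
-/

open MeasureTheory Set Filter Topology
open scoped ENNReal InnerProductSpace Pointwise

set_option linter.unusedSectionVars false
set_option linter.unusedVariables false

namespace Melzak

theorem cl_inner (x y : E 2) : ⟪x, y⟫_ℝ = x 0 * y 0 + x 1 * y 1 := by
  rw [PiLp.inner_apply, Fin.sum_univ_two]
  simp only [RCLike.inner_apply, conj_trivial]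
  ring

/-- the linear functional with kernel spanned by `v` -/
noncomputable def clF (v x : E 2) : ℝ := v 0 * x 1 - v 1 * x 0

/-- the points of the line `<u, x> = c` -/
noncomputable def clP (u : E 2) (c t : ℝ) : E 2 := !₂[c * u 0 - t * u 1, c * u 1 + t * u 0]

theorem cl_sq {u : E 2} (hu : ‖u‖ = 1) : u 0 ^ 2 + u 1 ^ 2 = 1 := by
  have h := real_inner_self_eq_norm_sq u
  rw [cl_inner, hu] at h
  linarith

theorem clP_zero (u : E 2) (c t : ℝ) : clP u c t 0 = c * u 0 - t * u 1 := rfl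
theorem clP_one (u : E 2) (c t : ℝ) : clP u c t 1 = c * u 1 + t * u 0 := rfl

theorem cl_inner_P {u : E 2} (hu : ‖u‖ = 1) (c t : ℝ) : ⟪u, clP u c t⟫_ℝ = c := by
  rw [cl_inner, clP_zero, clP_one]
  have := cl_sq hu
  linear_combination c * this

theorem cl_P_surj {u : E 2} (hu : ‖u‖ = 1) {c : ℝ} {x : E 2} (h : ⟪u, x⟫_ℝ = c) :
    clP u c (u 0 * x 1 - u 1 * x 0) = x := by
  rw [cl_inner] at h
  have h1 := cl_sq hu
  ext i
  fin_cases i
  · show c * u 0 - (u 0 * x 1 - u 1 * x 0) * u 1 = x 0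
    rw [← h]
    linear_combination x 0 * h1
  · show c * u 1 + (u 0 * x 1 - u 1 * x 0) * u 0 = x 1
    rw [← h]
    linear_combination x 1 * h1

theorem cl_F_P (v u : E 2) (c t : ℝ) : clF v (clP u c t) = c * clF v u + t * ⟪u, v⟫_ℝ := by
  unfold clF
  rw [cl_inner, clP_zero, clP_one]
  ring

theorem cl_isometry {u : E 2} (hu : ‖u‖ = 1) (c : ℝ) : Isometry (clP u c) := by
  refine Isometry.of_dist_eq (fun t t' => ?_)
  rw [EuclideanSpace.dist_eq, Fin.sum_univ_two, Real.dist_eq, Real.dist_eq, Real.dist_eq, sq_abs, sq_abs,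
    clP_zero, clP_zero, clP_one, clP_one]
  have h1 := cl_sq hu
  have e : (c * u 0 - t * u 1 - (c * u 0 - t' * u 1)) ^ 2 + (c * u 1 + t * u 0 - (c * u 1 + t' * u 0)) ^ 2 =
      (t - t') ^ 2 := by
    linear_combination (t - t') ^ 2 * h1
  rw [e, Real.sqrt_sq_eq_abs]

/-- the parameters of a side -/
def clT {κ : Type*} (u : κ → E 2) (c : κ → ℝ) (j : κ) : Set ℝ := {t | clP (u j) (c j) t ∈ Pgon u c}

/-- a side -/
def clS {κ : Type*} (u : κ → E 2) (c : κ → ℝ) (j : κ) : Set (E 2) := {x | x ∈ Pgon u c ∧ ⟪u j, x⟫_ℝ = c j}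

section
variable {κ : Type*} [Fintype κ] {u : κ → E 2} {c : κ → ℝ}

theorem cl_S_eq (hu : ∀ j, ‖u j‖ = 1) (j : κ) : clS u c j = clP (u j) (c j) '' clT u c j := by
  ext x
  constructor
  · rintro ⟨h1, h2⟩
    refine ⟨u j 0 * x 1 - u j 1 * x 0, ?_, cl_P_surj (hu j) h2⟩
    show clP (u j) (c j) _ ∈ Pgon u c
    rw [cl_P_surj (hu j) h2]
    exact h1
  · rintro ⟨t, h1, rfl⟩
    exact ⟨h1, cl_inner_P (hu j) _ _⟩

theorem cl_measure (hu : ∀ j, ‖u j‖ = 1) (j : κ) : μHE[1] (clS u c j) = volume (clT u c j) := by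
  rw [cl_S_eq hu, (cl_isometry (hu j) (c j)).euclideanHausdorffMeasure_image]
  have h : (μHE[Module.finrank ℝ ℝ] : Measure ℝ) = volume := InnerProductSpace.euclideanHausdorffMeasure_eq_volume
  rw [Module.finrank_self] at h
  rw [h]

theorem cl_closed : IsClosed (Pgon u c) := by
  have : Pgon u c = ⋂ k, {x | ⟪u k, x⟫_ℝ ≤ c k} := by
    ext x
    simp [Pgon]
  rw [this]
  exact isClosed_iInter (fun k => isClosed_le (by fun_prop) continuous_const)

theorem cl_compact (hb : Bornology.IsBounded (Pgon u c)) : IsCompact (Pgon u c) :=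
  Metric.isCompact_of_isClosed_isBounded cl_closed hb

theorem cl_T_compact (hu : ∀ j, ‖u j‖ = 1) (hb : Bornology.IsBounded (Pgon u c)) (j : κ) :
    IsCompact (clT u c j) := by
  have h : clT u c j = clP (u j) (c j) ⁻¹' Pgon u c := rfl
  rw [h]
  exact (cl_isometry (hu j) (c j)).isClosedEmbedding.isCompact_preimage (cl_compact hb)

theorem cl_F_cont (v : E 2) : Continuous (clF v) := by
  unfold clF
  fun_prop

theorem cl_image (hu : ∀ j, ‖u j‖ = 1) (v : E 2) (j : κ) :
    volume (clF v '' clS u c j) = ENNReal.ofReal |⟪u j, v⟫_ℝ| * μHE[1] (clS u c j) := by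
  rw [cl_measure hu, cl_S_eq hu, image_image]
  have e : (fun t => clF v (clP (u j) (c j) t)) '' clT u c j =
      (fun y => c j * clF v (u j) + y) '' (⟪u j, v⟫_ℝ • clT u c j) := by
    rw [← image_smul, image_image]
    apply image_congr
    intro t _
    rw [cl_F_P, smul_eq_mul]
    ring
  rw [e, image_add_left, measure_preimage_add, Measure.addHaar_smul, Module.finrank_self, pow_one]

/-- existence of the upper end point -/
theorem cl_exists (hb : Bornology.IsBounded (Pgon u c)) {v : E 2} (hv : v ≠ 0) {x : E 2} (hx : x ∈ Pgon u c) :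
    ∃ j, 0 < ⟪u j, v⟫_ℝ ∧ clF v x ∈ clF v '' clS u c j := by
  have hc : IsCompact {r : ℝ | x + r • v ∈ Pgon u c} := by
    apply Metric.isCompact_of_isClosed_isBounded
    · have : Continuous (fun r : ℝ => x + r • v) := by fun_prop
      exact cl_closed.preimage this
    · obtain ⟨C, hC⟩ := hb.exists_norm_le
      rw [isBounded_iff_forall_norm_le]
      refine ⟨(C + ‖x‖) / ‖v‖, fun r hr => ?_⟩
      have hvn : 0 < ‖v‖ := norm_pos_iff.2 hv
      rw [le_div_iff₀ hvn, ← norm_smul]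
      have h1 := hC _ hr
      have h2 : r • v = (x + r • v) - x := by abel
      rw [h2]
      exact (norm_sub_le _ _).trans (by linarith)
  have hne : {r : ℝ | x + r • v ∈ Pgon u c}.Nonempty := ⟨0, by simpa using hx⟩
  obtain ⟨r, hr, hmax⟩ := hc.exists_isGreatest hne
  by_cases hex : ∃ j, 0 < ⟪u j, v⟫_ℝ ∧ ⟪u j, x + r • v⟫_ℝ = c j
  · obtain ⟨j, h1, h2⟩ := hex
    refine ⟨j, h1, x + r • v, ⟨hr, h2⟩, ?_⟩
    unfold clF
    simp only [PiLp.add_apply, PiLp.smul_apply, smul_eq_mul]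
    ring
  · exfalso
    push Not at hex
    have ho : IsOpen {r' : ℝ | ∀ j, 0 < ⟪u j, v⟫_ℝ → ⟪u j, x + r' • v⟫_ℝ < c j} := by
      have : {r' : ℝ | ∀ j, 0 < ⟪u j, v⟫_ℝ → ⟪u j, x + r' • v⟫_ℝ < c j} =
          ⋂ j, {r' : ℝ | 0 < ⟪u j, v⟫_ℝ → ⟪u j, x + r' • v⟫_ℝ < c j} := by
        ext r'
        simp
      rw [this]
      refine isOpen_iInter_of_finite (fun j => ?_)
      by_cases h : 0 < ⟪u j, v⟫_ℝ
      · have e : {r' : ℝ | 0 < ⟪u j, v⟫_ℝ → ⟪u j, x + r' • v⟫_ℝ < c j} =
          {r' : ℝ | ⟪u j, x + r' • v⟫_ℝ < c j} := by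
          ext r'
          simp [h]
        rw [e]
        exact isOpen_lt (by fun_prop) continuous_const
      · have e : {r' : ℝ | 0 < ⟪u j, v⟫_ℝ → ⟪u j, x + r' • v⟫_ℝ < c j} = univ := by
          ext r'
          simp [h]
        rw [e]
        exact isOpen_univ
    have hmem : r ∈ {r' : ℝ | ∀ j, 0 < ⟪u j, v⟫_ℝ → ⟪u j, x + r' • v⟫_ℝ < c j} := fun j hj =>
      lt_of_le_of_ne (hr j) (hex j hj)
    have h1 : ∀ᶠ r' in 𝓝[>] r, r' ∈ {r' : ℝ | ∀ j, 0 < ⟪u j, v⟫_ℝ → ⟪u j, x + r' • v⟫_ℝ < c j} :=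
      mem_nhdsWithin_of_mem_nhds (ho.mem_nhds hmem)
    obtain ⟨r', h2, h3⟩ := (h1.and self_mem_nhdsWithin).exists
    have h3' : r < r' := h3
    have h4 : r' ∈ {r : ℝ | x + r • v ∈ Pgon u c} := by
      intro j
      by_cases h : 0 < ⟪u j, v⟫_ℝ
      · exact (h2 j h).le
      · have e : x + r' • v = (x + r • v) + (r' - r) • v := by
          rw [sub_smul]
          abel
        rw [e, inner_add_right, inner_smul_right]
        have h5 : ⟪u j, x + r • v⟫_ℝ ≤ c j := hr j
        have h6 : (r' - r) * ⟪u j, v⟫_ℝ ≤ 0 :=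
          mul_nonpos_of_nonneg_of_nonpos (by linarith) (not_lt.1 h)
        linarith
    exact absurd (hmax h4) (not_le.2 h3')

/-- the upper end point is unique -/
theorem cl_unique {v : E 2} (hv : v ≠ 0) {j k : κ} (hj : 0 < ⟪u j, v⟫_ℝ) (hk : 0 < ⟪u k, v⟫_ℝ) {x y : E 2}
    (hx : x ∈ clS u c j) (hy : y ∈ clS u c k) (h : clF v x = clF v y) : x = y := by
  have h0 : 0 < v 0 ^ 2 + v 1 ^ 2 := by
    have h1 := real_inner_self_eq_norm_sq v
    rw [cl_inner] at h1
    have h2 : 0 < ‖v‖ ^ 2 := by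
      have := norm_pos_iff.2 hv
      positivity
    nlinarith
  have h1 := hx.1 k
  have h2 := hy.1 j
  have h3 := hx.2
  have h4 := hy.2
  simp only [cl_inner] at h1 h2 h3 h4 hj hk
  unfold clF at h
  -- x - y = r v
  set r := (v 0 * (x 0 - y 0) + v 1 * (x 1 - y 1)) / (v 0 ^ 2 + v 1 ^ 2) with hr
  have e0 : x 0 - y 0 = r * v 0 := by
    rw [hr, div_mul_eq_mul_div, eq_div_iff h0.ne']
    linear_combination -v 1 * h
  have e1 : x 1 - y 1 = r * v 1 := by
    rw [hr, div_mul_eq_mul_div, eq_div_iff h0.ne']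
    linear_combination v 0 * h
  have r1 : 0 ≤ r := by
    have : 0 ≤ r * (u j 0 * v 0 + u j 1 * v 1) := by
      have e : r * (u j 0 * v 0 + u j 1 * v 1) = u j 0 * (x 0 - y 0) + u j 1 * (x 1 - y 1) := by
        rw [e0, e1]; ring
      rw [e]; nlinarith
    exact nonneg_of_mul_nonneg_left this hj
  have r2 : r ≤ 0 := by
    have : 0 ≤ (-r) * (u k 0 * v 0 + u k 1 * v 1) := by
      have e : (-r) * (u k 0 * v 0 + u k 1 * v 1) = -(u k 0 * (x 0 - y 0) + u k 1 * (x 1 - y 1)) := by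
        rw [e0, e1]; ring
      rw [e]; nlinarith
    have := nonneg_of_mul_nonneg_left this hk
    linarith
  have r0 : r = 0 := le_antisymm r2 r1
  rw [r0, zero_mul] at e0 e1
  ext i
  fin_cases i
  · show x 0 = y 0
    linarith
  · show x 1 = y 1
    linarith

/-- exceptional values -/
def clZ (u : κ → E 2) (c : κ → ℝ) (v : E 2) (j k : κ) : Set ℝ :=
  {s | j ≠ k ∧ 0 < ⟪u j, v⟫_ℝ ∧ 0 < ⟪u k, v⟫_ℝ ∧ ∃ x, ⟪u j, x⟫_ℝ = c j ∧ ⟪u k, x⟫_ℝ = c k ∧ clF v x = s}

theorem cl_Z_sub (hu : ∀ j, ‖u j‖ = 1) (hinj : Function.Injective (fun j => (u j, c j))) (v : E 2) (j k : κ) :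
    (clZ u c v j k).Subsingleton := by
  rintro s ⟨hjk, hj, hk, x, h1, h2, rfl⟩ s' ⟨_, _, _, y, h3, h4, rfl⟩
  by_contra hne
  apply hjk
  apply hinj
  have q1 := cl_sq (hu j)
  have q2 := cl_sq (hu k)
  simp only [cl_inner] at h1 h2 h3 h4 hj hk
  have d1 : u j 0 * (x 0 - y 0) + u j 1 * (x 1 - y 1) = 0 := by linarith
  have d2 : u k 0 * (x 0 - y 0) + u k 1 * (x 1 - y 1) = 0 := by linarith
  have hdet : u j 0 * u k 1 - u j 1 * u k 0 = 0 := by
    by_contra hd
    have e0 : (u j 0 * u k 1 - u j 1 * u k 0) * (x 0 - y 0) = 0 := by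
      linear_combination u k 1 * d1 - u j 1 * d2
    have e1 : (u j 0 * u k 1 - u j 1 * u k 0) * (x 1 - y 1) = 0 := by
      linear_combination u j 0 * d2 - u k 0 * d1
    have f0 := (mul_eq_zero.1 e0).resolve_left hd
    have f1 := (mul_eq_zero.1 e1).resolve_left hd
    apply hne
    unfold clF
    have g0 : x 0 = y 0 := by linarith
    have g1 : x 1 = y 1 := by linarith
    rw [g0, g1]
  -- u k = a u j
  set a := u j 0 * u k 0 + u j 1 * u k 1 with ha
  have k0 : u k 0 = a * u j 0 := by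
    rw [ha]
    linear_combination (-u k 0) * q1 - u j 1 * hdet
  have k1 : u k 1 = a * u j 1 := by
    rw [ha]
    linear_combination (-u k 1) * q1 + u j 0 * hdet
  have a2 : a ^ 2 = 1 := by
    rw [k0, k1] at q2
    linear_combination q2 - a ^ 2 * q1
  have apos : 0 < a := by
    have : 0 < a * (u j 0 * v 0 + u j 1 * v 1) := by
      have e : a * (u j 0 * v 0 + u j 1 * v 1) = u k 0 * v 0 + u k 1 * v 1 := by
        rw [k0, k1]; ring
      rw [e]; exact hk
    exact pos_of_mul_pos_left this hj.le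
  have a1 : a = 1 := by nlinarith
  rw [a1, one_mul] at k0 k1
  have huu : u j = u k := by
    ext i
    fin_cases i
    · exact k0.symm
    · exact k1.symm
  show (u j, c j) = (u k, c k)
  rw [huu, ← h1, ← h2, k0, k1]

theorem cl_main (hu : ∀ j, ‖u j‖ = 1) (hinj : Function.Injective (fun j => (u j, c j)))
    (hb : Bornology.IsBounded (Pgon u c)) {v : E 2} (hv : v ≠ 0) :
    ∑ j with 0 < ⟪u j, v⟫_ℝ, ENNReal.ofReal ⟪u j, v⟫_ℝ * μHE[1] (clS u c j) =
      volume (clF v '' Pgon u c) := by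
  classical
  have hm : MeasurableSet (clF v '' Pgon u c) := ((cl_compact hb).image (cl_F_cont v)).measurableSet
  have hSc : ∀ j, IsCompact (clS u c j) := fun j => by
    rw [cl_S_eq hu]
    exact (cl_T_compact hu hb j).image (cl_isometry (hu j) (c j)).continuous
  have hmj : ∀ j, MeasurableSet (clF v '' clS u c j) := fun j =>
    ((hSc j).image (cl_F_cont v)).measurableSet
  have h1 : ∑ j with 0 < ⟪u j, v⟫_ℝ, ENNReal.ofReal ⟪u j, v⟫_ℝ * μHE[1] (clS u c j) =
      ∑ j with 0 < ⟪u j, v⟫_ℝ, volume (clF v '' clS u c j) := by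
    apply Finset.sum_congr rfl
    intro j hj
    rw [Finset.mem_filter] at hj
    rw [cl_image hu, abs_of_pos hj.2]
  rw [h1]
  have h2 : ∑ j with 0 < ⟪u j, v⟫_ℝ, volume (clF v '' clS u c j) =
      ∫⁻ s, ∑ j with 0 < ⟪u j, v⟫_ℝ, (clF v '' clS u c j).indicator 1 s := by
    rw [lintegral_finsetSum]
    · apply Finset.sum_congr rfl
      intro j _
      rw [lintegral_indicator_one (hmj j)]
    · intro j _
      exact measurable_one.indicator (hmj j)
  rw [h2, ← lintegral_indicator_one hm]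
  apply lintegral_congr_ae
  have hZ : volume (⋃ j, ⋃ k, clZ u c v j k) = 0 := by
    apply Set.Countable.measure_zero
    exact countable_iUnion (fun j => countable_iUnion (fun k => (cl_Z_sub hu hinj v j k).countable))
  have hae : ∀ᵐ s : ℝ, s ∉ ⋃ j, ⋃ k, clZ u c v j k := measure_eq_zero_iff_ae_notMem.1 hZ
  filter_upwards [hae] with s hs
  have hs' : ∀ j k, s ∉ clZ u c v j k := fun j k h => hs (mem_iUnion.2 ⟨j, mem_iUnion.2 ⟨k, h⟩⟩)
  by_cases hK : s ∈ clF v '' Pgon u c
  · rw [indicator_of_mem hK]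
    obtain ⟨x, hx, rfl⟩ := hK
    obtain ⟨j, hj, y, hy, hyx⟩ := cl_exists hb hv hx
    rw [Finset.sum_eq_single j]
    · have hmem : clF v x ∈ clF v '' clS u c j := ⟨y, hy, hyx⟩
      rw [indicator_of_mem hmem]
    · intro k hk hkj
      rw [Finset.mem_filter] at hk
      rw [indicator_of_notMem]
      rintro ⟨z, hz, hzx⟩
      have e := cl_unique hv hj hk.2 hy hz (hyx.trans hzx.symm)
      subst e
      exact hs' j k ⟨hkj.symm, hj, hk.2, y, hy.2, hz.2, hyx⟩
    · intro h
      exact absurd (Finset.mem_filter.2 ⟨Finset.mem_univ j, hj⟩) h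
  · rw [indicator_of_notMem hK]
    apply Finset.sum_eq_zero
    intro j _
    rw [indicator_of_notMem]
    rintro ⟨x, hx, rfl⟩
    exact hK ⟨x, hx.1, rfl⟩

end

theorem closing {κ : Type*} [Fintype κ] {u : κ → E 2} {c : κ → ℝ} (hu : ∀ j, ‖u j‖ = 1)
    (hinj : Function.Injective (fun j => (u j, c j)))
    (hb : Bornology.IsBounded (Pgon u c)) (hs : ∃ x, ∀ j, ⟪u j, x⟫_ℝ < c j) (v : E 2) :
    ∑ j, side u c j * ⟪u j, v⟫_ℝ = 0 := by
  classical
  by_cases hv : v = 0
  · subst hv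
    simp
  have hfin : ∀ j, μHE[1] (clS u c j) ≠ ∞ := fun j => by
    rw [cl_measure hu]
    exact (cl_T_compact hu hb j).measure_lt_top.ne
  have key : ∀ w : E 2, w ≠ 0 → ∑ j with 0 < ⟪u j, w⟫_ℝ, side u c j * ⟪u j, w⟫_ℝ =
      (volume (clF w '' Pgon u c)).toReal := by
    intro w hw
    rw [← cl_main hu hinj hb hw, ENNReal.toReal_sum]
    · apply Finset.sum_congr rfl
      intro j hj
      rw [Finset.mem_filter] at hj
      rw [ENNReal.toReal_mul, ENNReal.toReal_ofReal hj.2.le, mul_comm]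
      rfl
    · intro j _
      exact ENNReal.mul_ne_top ENNReal.ofReal_ne_top (hfin j)
  have h1 := key v hv
  have h2 := key (-v) (neg_ne_zero.2 hv)
  have h3 : volume (clF (-v) '' Pgon u c) = volume (clF v '' Pgon u c) := by
    have e : clF (-v) '' Pgon u c = -(clF v '' Pgon u c) := by
      rw [← image_neg_eq_neg, image_image]
      apply image_congr
      intro x _
      unfold clF
      simp only [PiLp.neg_apply]
      ring
    rw [e, Measure.measure_neg]
  rw [h3, ← h1, Finset.sum_filter, Finset.sum_filter] at h2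
  have h4 : ∑ j, side u c j * ⟪u j, v⟫_ℝ = (∑ j, if 0 < ⟪u j, v⟫_ℝ then side u c j * ⟪u j, v⟫_ℝ else 0) -
      ∑ j, if 0 < ⟪u j, -v⟫_ℝ then side u c j * ⟪u j, -v⟫_ℝ else 0 := by
    rw [← Finset.sum_sub_distrib]
    apply Finset.sum_congr rfl
    intro j _
    rw [inner_neg_right]
    rcases lt_trichotomy ⟪u j, v⟫_ℝ 0 with h | h | h
    · rw [if_neg (by linarith), if_pos (by linarith)]; ring
    · rw [h]; simp
    · rw [if_pos h, if_neg (by linarith)]; ring
  rw [h4, h2, sub_self]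

end Melzak
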