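import Pool.Agent.Helper27.Melzak.Defs

/-!
# MP_90631d_gt, pair (3,2): planar definitions

cap r t : area of the part of the disc of radius r beyond the line at (signed) distance t.
kap a b : area of the part of the disc of squared radius a, centre 0, beyond the radical line with
the disc of squared radius b centred at distance 1.
lens a b = kap a b + kap b a : area of the intersection of the two discs.
ang a b : half the angle at the centre of the first disc.
-/

open MeasureTheory Set Filter Topology
open scoped ENNReal InnerProductSpace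

namespace Melzak

noncomputable def cap (r t : ℝ) : ℝ := (volume {x : E 2 | ‖x‖ ≤ r ∧ t ≤ x 0}).toReal

noncomputable def kap (a b : ℝ) : ℝ := cap (Real.sqrt a) ((1 + a - b) / 2)

noncomputable def lens (a b : ℝ) : ℝ := kap a b + kap b a

noncomputable def ang (a b : ℝ) : ℝ := Real.arccos ((1 + a - b) / (2 * Real.sqrt a))

/-- The constant sigma = 4 pi / 3 + sqrt 3 / 2. -/
noncomputable def sig : ℝ := 4 * Real.pi / 3 + Real.sqrt 3 / 2

/-- A (possibly unbounded) polygon. -/
def Pgon {κ : Type*} (u : κ → E 2) (c : κ → ℝ) : Set (E 2) := {x | ∀ k, ⟪u k, x⟫_ℝ ≤ c k}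

/-- The length of the j-th side of a polygon. -/
noncomputable def side {κ : Type*} (u : κ → E 2) (c : κ → ℝ) (j : κ) : ℝ :=
  (μHE[1] {x : E 2 | x ∈ Pgon u c ∧ ⟪u j, x⟫_ℝ = c j}).toReal

end Melzak
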