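import Pool.Agent.Helper27.Mz2.Defs2

/-!
# A1: elementary properties of cap, kap, lens (no calculus)

Proofs.
* cap: monotonicity and the bound are inclusions. Continuity: for r > 0, |cap r t - cap r t'| is at
  most the area of a strip, 2 r |t - t'|, and |cap r t - cap r' t| <= pi |r^2 - r'^2|; for r <= 0
  cap r t = 0 (the set has at most one point); so
  |cap r t - cap r' t'| <= pi |max(r,0)^2 - max(r',0)^2| + 2 max(r',0) |t - t'|.
* lens_eq_inter: the part of the intersection of the discs beyond the line x_0 = (1+a-b)/2 is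
  {|x|^2 <= a, x_0 >= (1+a-b)/2} (there |x-e|^2 = |x|^2 - 2 x_0 + 1 <= b), the other part is, by
  the reflection x -> e - x, {|y|^2 <= b, y_0 >= (1+b-a)/2}; the line has area zero.
* lens_mono, lens_le, lens_eq_zero follow from lens_eq_inter.
* lens_add_le (D): the discs D(e_0, sqrt a) and D(-e_0, sqrt b) have a common set of area zero, as
  sqrt a + sqrt b <= 2, and both intersections with D(0, sqrt e) lie in D(0, sqrt e).
* lens_one_lt: a small ball around (0, y) with 0 < y < sqrt e (e <= 1: y = sqrt e / 2 ...) is in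
  D(0, sqrt e) but in neither of D(+-e_0, 1), as |(0,y) -+ e_0| > 1.
-/

open MeasureTheory Set Filter Topology
open scoped ENNReal InnerProductSpace

namespace Melzak

/-- The map from pairs to the Euclidean plane. -/
noncomputable def la_pt (p : ℝ × ℝ) : E 2 := WithLp.toLp 2 (MeasurableEquiv.finTwoArrow.symm p)

lemma la_pt_mp : MeasurePreserving la_pt :=
  (PiLp.volume_preserving_toLp (Fin 2)).comp (volume_preserving_finTwoArrow ℝ).symm

@[simp] lemma la_pt_zero (p : ℝ × ℝ) : la_pt p 0 = p.1 := rfl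
@[simp] lemma la_pt_one (p : ℝ × ℝ) : la_pt p 1 = p.2 := rfl

lemma la_norm_sq (x : E 2) : ‖x‖ ^ 2 = x 0 ^ 2 + x 1 ^ 2 := by
  rw [EuclideanSpace.norm_sq_eq]; simp

lemma la_norm_le {x : E 2} {r : ℝ} (hr : 0 ≤ r) : ‖x‖ ≤ r ↔ x 0 ^ 2 + x 1 ^ 2 ≤ r ^ 2 := by
  rw [← la_norm_sq]
  exact (sq_le_sq₀ (norm_nonneg _) hr).symm

lemma la_meas0 : Measurable (fun x : E 2 => x 0) := by
  exact (EuclideanSpace.proj (0 : Fin 2) : E 2 →L[ℝ] ℝ).continuous.measurable

lemma la_meas (r t : ℝ) : MeasurableSet {x : E 2 | ‖x‖ ≤ r ∧ t ≤ x 0} := by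
  apply MeasurableSet.inter
  · exact measurableSet_le measurable_norm measurable_const
  · exact measurableSet_le measurable_const (la_meas0)

lemma la_slice (r t x : ℝ) (hr : 0 ≤ r) :
    volume (Prod.mk x ⁻¹' (la_pt ⁻¹' {x : E 2 | ‖x‖ ≤ r ∧ t ≤ x 0})) =
      (Ici t).indicator (fun x => ENNReal.ofReal (2 * Real.sqrt (r ^ 2 - x ^ 2))) x := by
  by_cases hx : x ∈ Ici t
  · rw [indicator_of_mem hx]
    have hx' : t ≤ x := hx
    by_cases h : x ^ 2 ≤ r ^ 2
    · have : Prod.mk x ⁻¹' (la_pt ⁻¹' {x : E 2 | ‖x‖ ≤ r ∧ t ≤ x 0}) =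
          Icc (-Real.sqrt (r ^ 2 - x ^ 2)) (Real.sqrt (r ^ 2 - x ^ 2)) := by
        ext y
        simp only [mem_preimage, mem_ofPred_eq, la_norm_le hr, la_pt_zero, la_pt_one, hx', and_true,
          mem_Icc]
        rw [← abs_le, ← Real.sqrt_sq_eq_abs, Real.sqrt_le_sqrt_iff (by linarith)]
        constructor <;> intro h <;> linarith
      rw [this, Real.volume_Icc]
      congr 1; ring
    · have : Prod.mk x ⁻¹' (la_pt ⁻¹' {x : E 2 | ‖x‖ ≤ r ∧ t ≤ x 0}) = ∅ := by
        ext y
        simp only [mem_preimage, mem_ofPred_eq, la_norm_le hr, la_pt_zero, la_pt_one, hx', and_true,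
          mem_empty_iff_false, iff_false, not_le]
        nlinarith [sq_nonneg y, not_le.mp h]
      rw [this, Real.sqrt_eq_zero_of_nonpos (by linarith [not_le.mp h])]
      simp
  · rw [indicator_of_notMem hx]
    have : Prod.mk x ⁻¹' (la_pt ⁻¹' {x : E 2 | ‖x‖ ≤ r ∧ t ≤ x 0}) = ∅ := by
      ext y
      simp only [mem_preimage, mem_ofPred_eq, la_pt_zero, mem_empty_iff_false, iff_false, not_and]
      intro _ h; exact hx h
    rw [this, measure_empty]

lemma la_vol (r t : ℝ) (hr : 0 ≤ r) : volume {x : E 2 | ‖x‖ ≤ r ∧ t ≤ x 0} =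
    ∫⁻ x in Ici t, ENNReal.ofReal (2 * Real.sqrt (r ^ 2 - x ^ 2)) := by
  rw [← la_pt_mp.measure_preimage (la_meas r t).nullMeasurableSet, Measure.volume_eq_prod,
    Measure.prod_apply (la_pt_mp.measurable (la_meas r t))]
  simp only [la_slice r t _ hr]
  rw [lintegral_indicator measurableSet_Ici]

/-- `cap` as an integral. -/
lemma cap_eq_integral (r t : ℝ) :
    cap r t = ∫ x in t..|r|, 2 * Real.sqrt (max r 0 ^ 2 - x ^ 2) := by
  have hz : ∀ x, |r| ≤ x → Real.sqrt (max r 0 ^ 2 - x ^ 2) = 0 := by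
    intro x hx
    apply Real.sqrt_eq_zero_of_nonpos
    have h1 : max r 0 ≤ x := (max_le (le_abs_self r) (abs_nonneg r)).trans hx
    nlinarith [le_max_right r 0]
  rcases lt_or_ge r 0 with hr | hr
  · have h1 : cap r t = 0 := by
      unfold cap
      have : {x : E 2 | ‖x‖ ≤ r ∧ t ≤ x 0} = ∅ := by
        ext x
        simp only [mem_ofPred_eq, mem_empty_iff_false, iff_false, not_and]
        intro h; exact absurd (norm_nonneg x) (not_le.mpr (lt_of_le_of_lt h hr))
      rw [this]; simp
    rw [h1, max_eq_right hr.le]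
    have : ∀ x : ℝ, 2 * Real.sqrt ((0:ℝ) ^ 2 - x ^ 2) = 0 := by
      intro x
      rw [Real.sqrt_eq_zero_of_nonpos (by nlinarith [sq_nonneg x])]; ring
    simp only [this]; simp
  · rw [max_eq_left hr, abs_of_nonneg hr] at *
    have hcont : Continuous fun x : ℝ => 2 * Real.sqrt (r ^ 2 - x ^ 2) := by fun_prop
    have hnn : ∀ x : ℝ, 0 ≤ 2 * Real.sqrt (r ^ 2 - x ^ 2) := fun x => by positivity
    have h1 : cap r t = ∫ x in Ioi t, 2 * Real.sqrt (r ^ 2 - x ^ 2) := by
      unfold cap
      rw [la_vol r t hr, ← integral_Ici_eq_integral_Ioi, integral_eq_lintegral_of_nonneg_ae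
        (Eventually.of_forall hnn) hcont.aestronglyMeasurable]
    rw [h1]
    rcases le_total t r with htr | htr
    · rw [intervalIntegral.integral_of_le htr]
      apply setIntegral_eq_of_subset_of_forall_sdiff_eq_zero measurableSet_Ioi Ioc_subset_Ioi_self
      intro x hx
      have : r ≤ x := by
        by_contra h
        exact hx.2 ⟨hx.1, (not_le.mp h).le⟩
      rw [hz x this, mul_zero]
    · rw [intervalIntegral.integral_of_ge htr]
      rw [setIntegral_eq_zero_of_forall_eq_zero (fun x hx => by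
        rw [hz x (htr.trans (le_of_lt hx)), mul_zero]),
        setIntegral_eq_zero_of_forall_eq_zero (fun x hx => by
        rw [hz x (le_of_lt hx.1), mul_zero])]
      simp

lemma cap_nonneg (r t : ℝ) : 0 ≤ cap r t := ENNReal.toReal_nonneg

lemma la_fin (r t : ℝ) : volume {x : E 2 | ‖x‖ ≤ r ∧ t ≤ x 0} ≠ ∞ := by
  have h : {x : E 2 | ‖x‖ ≤ r ∧ t ≤ x 0} ⊆ Metric.closedBall 0 r := by
    intro x hx; simpa using hx.1
  exact ((measure_mono h).trans_lt (isCompact_closedBall (0 : E 2) r).measure_lt_top).ne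

lemma la_ball (c : E 2) {r : ℝ} (hr : 0 ≤ r) :
    (volume (Metric.closedBall c r)).toReal = Real.pi * r ^ 2 := by
  rw [EuclideanSpace.volume_closedBall_fin_two]
  simp [ENNReal.toReal_mul, ENNReal.toReal_pow, ENNReal.toReal_ofReal hr, mul_comm, Real.pi_nonneg]

lemma cap_le {r : ℝ} (hr : 0 ≤ r) (t : ℝ) : cap r t ≤ Real.pi * r ^ 2 := by
  rw [← la_ball 0 hr]
  apply ENNReal.toReal_mono (isCompact_closedBall (0 : E 2) r).measure_lt_top.ne
  apply measure_mono
  intro x hx; simpa using hx.1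

lemma cap_anti (r : ℝ) {t t' : ℝ} (h : t ≤ t') : cap r t' ≤ cap r t := by
  apply ENNReal.toReal_mono (la_fin r t)
  exact measure_mono fun x hx => ⟨hx.1, h.trans hx.2⟩

lemma la_cap_zero {r t : ℝ} (ht : r ≤ t) : cap r t = 0 := by
  rw [cap_eq_integral]
  have hz : ∀ x ∈ uIcc t |r|, 2 * Real.sqrt (max r 0 ^ 2 - x ^ 2) = 0 := by
    intro x hx
    rw [Real.sqrt_eq_zero_of_nonpos, mul_zero]
    rcases lt_or_ge r 0 with hr | hr
    · rw [max_eq_right hr.le]; nlinarith [sq_nonneg x]
    · rw [max_eq_left hr]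
      rw [abs_of_nonneg hr, uIcc_of_ge ht] at hx
      nlinarith [hx.1]
  rw [intervalIntegral.integral_congr hz]; simp

lemma continuous_cap : Continuous (fun p : ℝ × ℝ => cap p.1 p.2) := by
  have hf : Continuous (Function.uncurry fun (p : ℝ × ℝ) (x : ℝ) =>
      2 * Real.sqrt (max p.1 0 ^ 2 - x ^ 2)) := by
    unfold Function.uncurry; fun_prop
  have h1 := intervalIntegral.continuous_parametric_intervalIntegral_of_continuous (a₀ := 0)
    (μ := volume) hf (s := fun p : ℝ × ℝ => |p.1|) (by fun_prop)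
  have h2 := intervalIntegral.continuous_parametric_intervalIntegral_of_continuous (a₀ := 0)
    (μ := volume) hf (s := fun p : ℝ × ℝ => p.2) (by fun_prop)
  refine (h1.sub h2).congr fun p => ?_
  have hc : Continuous fun x : ℝ => 2 * Real.sqrt (max p.1 0 ^ 2 - x ^ 2) := by fun_prop
  rw [cap_eq_integral]
  exact intervalIntegral.integral_interval_sub_left (hc.intervalIntegrable _ _)
    (hc.intervalIntegrable _ _)

lemma continuous_kap : Continuous (fun p : ℝ × ℝ => kap p.1 p.2) := by
  unfold kap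
  exact continuous_cap.comp (f := fun p : ℝ × ℝ => (Real.sqrt p.1, (1 + p.1 - p.2) / 2))
    (by fun_prop)

lemma continuous_lens : Continuous (fun p : ℝ × ℝ => lens p.1 p.2) := by
  unfold lens
  exact continuous_kap.add (continuous_kap.comp continuous_swap)

lemma kap_nonneg (a b : ℝ) : 0 ≤ kap a b := cap_nonneg _ _

lemma lens_nonneg (a b : ℝ) : 0 ≤ lens a b := add_nonneg (kap_nonneg _ _) (kap_nonneg _ _)

lemma lens_comm (a b : ℝ) : lens a b = lens b a := add_comm _ _

lemma kap_mono_right (a : ℝ) {b b' : ℝ} (h : b ≤ b') : kap a b ≤ kap a b' :=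
  cap_anti _ (by linarith)

/-- The line `x 0 = c` has area zero. -/
lemma la_line (c : ℝ) : volume {x : E 2 | x 0 = c} = 0 := by
  have hm : MeasurableSet {x : E 2 | x 0 = c} := measurableSet_eq_fun la_meas0 measurable_const
  rw [← la_pt_mp.measure_preimage hm.nullMeasurableSet]
  have : la_pt ⁻¹' {x : E 2 | x 0 = c} = {c} ×ˢ univ := by
    ext p; simp
  rw [this, Measure.volume_eq_prod, Measure.prod_prod]; simp

/-- The unit vector. -/
noncomputable def la_e : E 2 := EuclideanSpace.single (0 : Fin 2) (1 : ℝ)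

@[simp] lemma la_e_zero : la_e 0 = 1 := by simp [la_e]
@[simp] lemma la_e_one : la_e 1 = 0 := by simp [la_e]

lemma la_mem_ball {c x : E 2} {b : ℝ} (hb : 0 ≤ b) : x ∈ Metric.closedBall c (Real.sqrt b) ↔
    (x 0 - c 0) ^ 2 + (x 1 - c 1) ^ 2 ≤ b := by
  rw [Metric.mem_closedBall, dist_eq_norm, la_norm_le (Real.sqrt_nonneg b), Real.sq_sqrt hb]
  simp

lemma lens_eq_inter {a b : ℝ} (ha : 0 ≤ a) (hb : 0 ≤ b) :
    lens a b = (volume (Metric.closedBall (0 : E 2) (Real.sqrt a) ∩
      Metric.closedBall (EuclideanSpace.single (0 : Fin 2) (1 : ℝ)) (Real.sqrt b))).toReal := by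
  change _ = (volume (Metric.closedBall (0 : E 2) (Real.sqrt a) ∩
      Metric.closedBall la_e (Real.sqrt b))).toReal
  set c : ℝ := (1 + a - b) / 2 with hc
  set A : Set (E 2) := {x : E 2 | ‖x‖ ≤ Real.sqrt a ∧ c ≤ x 0} with hA
  set B : Set (E 2) := (fun x : E 2 => la_e - x) ⁻¹' {x : E 2 | ‖x‖ ≤ Real.sqrt b ∧ 1 - c ≤ x 0}
    with hB
  have hAB : Metric.closedBall (0 : E 2) (Real.sqrt a) ∩ Metric.closedBall la_e (Real.sqrt b) =
      A ∪ B := by
    ext x
    simp only [mem_inter_iff, la_mem_ball ha, la_mem_ball hb, hA, hB, mem_union, mem_preimage,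
      mem_ofPred_eq, la_norm_le (Real.sqrt_nonneg _), Real.sq_sqrt ha, Real.sq_sqrt hb]
    simp only [PiLp.sub_apply, PiLp.zero_apply, la_e_zero, la_e_one, sub_zero, zero_sub]
    constructor
    · rintro ⟨h1, h2⟩
      rcases le_total c (x 0) with h | h
      · left; exact ⟨h1, h⟩
      · right; exact ⟨by nlinarith, by linarith⟩
    · rintro (⟨h1, h2⟩ | ⟨h1, h2⟩)
      · exact ⟨h1, by nlinarith⟩
      · exact ⟨by nlinarith, by nlinarith⟩
  have hmA : MeasurableSet A := la_meas _ _
  have hB0 : MeasurePreserving (fun x : E 2 => la_e - x) := by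
    exact Measure.measurePreserving_sub_left volume la_e
  have hmB : MeasurableSet B := hB0.measurable (la_meas _ _)
  have hvB : volume B = volume {x : E 2 | ‖x‖ ≤ Real.sqrt b ∧ 1 - c ≤ x 0} :=
    hB0.measure_preimage (la_meas _ _).nullMeasurableSet
  have hdis : volume (A ∩ B) = 0 := by
    apply measure_mono_null _ (la_line c)
    intro x hx
    have h1 := hx.1.2
    have h2 := hx.2.2
    simp only [PiLp.sub_apply, la_e_zero] at h2
    show x 0 = c
    linarith
  have hun : volume (A ∪ B) = volume A + volume B := by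
    have := measure_union_add_inter (μ := volume) A hmB
    rw [hdis, add_zero] at this
    exact this
  rw [hAB, hun, hvB, ENNReal.toReal_add (la_fin _ _) (la_fin _ _)]
  unfold lens kap cap
  have : 1 - c = (1 + b - a) / 2 := by rw [hc]; ring
  rw [this]

lemma la_fin2 (c c' : E 2) (r r' : ℝ) :
    volume (Metric.closedBall c r ∩ Metric.closedBall c' r') ≠ ∞ :=
  ((measure_mono inter_subset_left).trans_lt (isCompact_closedBall c r).measure_lt_top).ne

lemma lens_mono {a a' b b' : ℝ} (ha : 0 ≤ a) (h : a ≤ a') (hb : 0 ≤ b) (h' : b ≤ b') :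
    lens a b ≤ lens a' b' := by
  rw [lens_eq_inter ha hb, lens_eq_inter (ha.trans h) (hb.trans h')]
  apply ENNReal.toReal_mono (la_fin2 _ _ _ _)
  exact measure_mono (inter_subset_inter
    (Metric.closedBall_subset_closedBall (Real.sqrt_le_sqrt h))
    (Metric.closedBall_subset_closedBall (Real.sqrt_le_sqrt h')))

lemma lens_le {a b : ℝ} (ha : 0 ≤ a) (hb : 0 ≤ b) : lens a b ≤ Real.pi * a := by
  rw [lens_eq_inter ha hb]
  have h1 := la_ball (0 : E 2) (Real.sqrt_nonneg a)
  rw [Real.sq_sqrt ha] at h1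
  rw [← h1]
  apply ENNReal.toReal_mono (isCompact_closedBall (0 : E 2) _).measure_lt_top.ne
  exact measure_mono inter_subset_left

lemma la_kap_zero {a b : ℝ} (ha : 0 ≤ a) (hb : 0 ≤ b) (h : Real.sqrt a + Real.sqrt b ≤ 1) :
    kap a b = 0 := by
  apply la_cap_zero
  have h1 : b ≤ (1 - Real.sqrt a) ^ 2 := by
    have := Real.sqrt_nonneg b
    nlinarith [Real.sq_sqrt hb]
  nlinarith [Real.sq_sqrt ha]

lemma lens_eq_zero {a b : ℝ} (ha : 0 ≤ a) (hb : 0 ≤ b) (h : Real.sqrt a + Real.sqrt b ≤ 1) :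
    lens a b = 0 := by
  unfold lens
  rw [la_kap_zero ha hb h, la_kap_zero hb ha (by linarith), add_zero]

/-- Two lenses of the disc of squared radius `e` on opposite sides. -/
lemma la_two {a b e : ℝ} (ha : 0 ≤ a) (hb : 0 ≤ b) (he : 0 ≤ e)
    (h : Real.sqrt a + Real.sqrt b ≤ 2) :
    lens a e + lens b e = (volume (Metric.closedBall (0 : E 2) (Real.sqrt e) ∩
      (Metric.closedBall la_e (Real.sqrt a) ∪ Metric.closedBall (-la_e) (Real.sqrt b)))).toReal := by
  rw [lens_comm a e, lens_comm b e, lens_eq_inter he ha, lens_eq_inter he hb]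
  change (volume (Metric.closedBall (0 : E 2) (Real.sqrt e) ∩
      Metric.closedBall la_e (Real.sqrt a))).toReal + (volume (Metric.closedBall (0 : E 2)
      (Real.sqrt e) ∩ Metric.closedBall la_e (Real.sqrt b))).toReal = _
  have hneg : volume (Metric.closedBall (0 : E 2) (Real.sqrt e) ∩
      Metric.closedBall la_e (Real.sqrt b)) = volume (Metric.closedBall (0 : E 2) (Real.sqrt e) ∩
      Metric.closedBall (-la_e) (Real.sqrt b)) := by
    have h1 := (Measure.measurePreserving_neg (volume : Measure (E 2))).measure_preimage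
      (s := Metric.closedBall (0 : E 2) (Real.sqrt e) ∩ Metric.closedBall la_e (Real.sqrt b))
      ((measurableSet_closedBall).inter measurableSet_closedBall).nullMeasurableSet
    rw [← h1]
    congr 1
    ext x
    simp only [mem_preimage, mem_inter_iff, la_mem_ball he, la_mem_ball hb, PiLp.neg_apply,
      PiLp.zero_apply, la_e_zero, la_e_one]
    constructor <;> rintro ⟨h1, h2⟩ <;> constructor <;> nlinarith
  rw [hneg, ← ENNReal.toReal_add (la_fin2 _ _ _ _) (la_fin2 _ _ _ _), inter_union_distrib_left]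
  congr 1
  have h1 := measure_union_add_inter (μ := volume) (Metric.closedBall (0 : E 2) (Real.sqrt e) ∩
    Metric.closedBall la_e (Real.sqrt a)) (t := Metric.closedBall (0 : E 2) (Real.sqrt e) ∩
      Metric.closedBall (-la_e) (Real.sqrt b))
      (measurableSet_closedBall.inter measurableSet_closedBall)
  rw [← h1]
  have h2 : volume ((Metric.closedBall (0 : E 2) (Real.sqrt e) ∩
    Metric.closedBall la_e (Real.sqrt a)) ∩ (Metric.closedBall (0 : E 2) (Real.sqrt e) ∩
      Metric.closedBall (-la_e) (Real.sqrt b))) = 0 := by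
    apply measure_mono_null _ (la_line (1 - Real.sqrt a))
    intro x hx
    have h3 := (la_mem_ball ha).mp hx.1.2
    have h4 := (la_mem_ball hb).mp hx.2.2
    simp only [PiLp.neg_apply, la_e_zero, la_e_one] at h3 h4
    have h5 : |x 0 - 1| ≤ Real.sqrt a := by
      apply Real.abs_le_sqrt; nlinarith [sq_nonneg (x 1 - 0)]
    have h6 : |x 0 - -1| ≤ Real.sqrt b := by
      apply Real.abs_le_sqrt; nlinarith [sq_nonneg (x 1 - -0)]
    rw [abs_le] at h5 h6
    show x 0 = 1 - Real.sqrt a
    linarith [h5.1, h5.2, h6.1, h6.2]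
  rw [h2, add_zero]

lemma lens_add_le {a b e : ℝ} (ha : 0 ≤ a) (hb : 0 ≤ b) (he : 0 ≤ e)
    (h : Real.sqrt a + Real.sqrt b ≤ 2) : lens a e + lens b e ≤ Real.pi * e := by
  rw [la_two ha hb he h]
  have h1 := la_ball (0 : E 2) (Real.sqrt_nonneg e)
  rw [Real.sq_sqrt he] at h1
  rw [← h1]
  apply ENNReal.toReal_mono (isCompact_closedBall (0 : E 2) _).measure_lt_top.ne
  exact measure_mono inter_subset_left

lemma lens_one_lt {e : ℝ} (he : 0 < e) : lens 1 e + lens 1 e < Real.pi * e := by
  rw [la_two zero_le_one zero_le_one he.le (by norm_num)]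
  have h1 := la_ball (0 : E 2) (Real.sqrt_nonneg e)
  rw [Real.sq_sqrt he.le] at h1
  rw [← h1]
  set V : Set (E 2) := Metric.closedBall (0 : E 2) (Real.sqrt e) ∩
      (Metric.closedBall la_e (Real.sqrt 1) ∪ Metric.closedBall (-la_e) (Real.sqrt 1)) with hV
  set U : Set (E 2) := Metric.ball (0 : E 2) (Real.sqrt e) ∩
      (Metric.closedBall la_e (Real.sqrt 1) ∪ Metric.closedBall (-la_e) (Real.sqrt 1))ᶜ with hU
  have hUo : IsOpen U := Metric.isOpen_ball.inter
    (Metric.isClosed_closedBall.union Metric.isClosed_closedBall).isOpen_compl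
  have hmem : la_pt (0, Real.sqrt e / 2) ∈ U := by
    have hs := Real.sqrt_pos.mpr he
    constructor
    · rw [Metric.mem_ball, dist_zero_right]
      have : ‖la_pt (0, Real.sqrt e / 2)‖ ≤ Real.sqrt e / 2 := by
        rw [la_norm_le (by positivity)]; simp
      linarith
    · rw [mem_compl_iff, mem_union, la_mem_ball zero_le_one, la_mem_ball zero_le_one]
      simp only [la_pt_zero, la_pt_one, PiLp.neg_apply, la_e_zero, la_e_one, not_or, not_le]
      constructor <;> nlinarith
  have hpos : 0 < volume U := hUo.measure_pos volume ⟨_, hmem⟩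
  have hVf : volume V ≠ ∞ := by
    refine ((measure_mono inter_subset_left).trans_lt
      (isCompact_closedBall (0 : E 2) (Real.sqrt e)).measure_lt_top).ne
  have hUf : volume U ≠ ∞ := by
    refine ((measure_mono (inter_subset_left.trans Metric.ball_subset_closedBall)).trans_lt
      (isCompact_closedBall (0 : E 2) (Real.sqrt e)).measure_lt_top).ne
  have hd : Disjoint V U := by
    rw [Set.disjoint_left]
    intro x hx hx'
    exact hx'.2 hx.2
  have hsub : V ∪ U ⊆ Metric.closedBall (0 : E 2) (Real.sqrt e) :=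
    union_subset inter_subset_left (inter_subset_left.trans Metric.ball_subset_closedBall)
  have h2 : (volume (V ∪ U)).toReal ≤ (volume (Metric.closedBall (0 : E 2) (Real.sqrt e))).toReal :=
    ENNReal.toReal_mono (isCompact_closedBall (0 : E 2) _).measure_lt_top.ne (measure_mono hsub)
  rw [measure_union hd hUo.measurableSet, ENNReal.toReal_add hVf hUf] at h2
  have h3 := ENNReal.toReal_pos hpos.ne' hUf
  linarith

end Melzak
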