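import Pool.Agent.Helper27.Mz2.Defs2

/-!
# B1: thin strips along a side of a polygon

Proof. Rotate so that u_j = e_0. By Fubini the area of {x in K : c_j - r < x_0 <= c_j} is the
integral over s in (c_j - r, c_j] of the length l(s) of the slice {x in K : x_0 = s}. The sets K
being compact, limsup_(s -> c_j) l(s) <= l(c_j) = side u c j: the slices are contained in a fixed
bounded interval, and each point outside the slice at c_j has a neighbourhood outside the slices
near c_j (upper semicontinuity; reverse Fatou / dominated convergence for indicator functions).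
-/

open MeasureTheory Set Filter Topology
open scoped ENNReal InnerProductSpace

namespace Melzak

private lemma st_basis {ν : E 2} (hν : ‖ν‖ = 1) :
    ∃ b : OrthonormalBasis (Fin 2) ℝ (E 2), b 0 = ν := by
  have hv : Orthonormal ℝ (({0} : Set (Fin 2)).domRestrict (fun _ => ν)) := by
    refine ⟨fun i => hν, fun i j hij => ?_⟩
    exact absurd (Subsingleton.elim i j) hij
  obtain ⟨b, hb⟩ := hv.exists_orthonormalBasis_extension_of_card_eq (by simp)
  exact ⟨b, hb 0 (mem_singleton 0)⟩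

private lemma st_closed {κ : Type*} (u : κ → E 2) (c : κ → ℝ) : IsClosed (Pgon u c) := by
  have : Pgon u c = ⋂ k, {x | ⟪u k, x⟫_ℝ ≤ c k} := by ext x; simp [Pgon]
  rw [this]
  exact isClosed_iInter fun k => isClosed_le (by fun_prop) continuous_const

private lemma st_mp (b : OrthonormalBasis (Fin 2) ℝ (E 2)) :
    MeasurePreserving (fun p : ℝ × ℝ => p.1 • b 0 + p.2 • b 1) volume volume := by
  have h1 := (volume_preserving_finTwoArrow ℝ).symm
  have h2 := (PiLp.volume_preserving_toLp (Fin 2))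
  have h3 := b.measurePreserving_repr_symm
  have h := h3.comp (h2.comp h1)
  convert h using 1
  ext p : 1
  simp only [Function.comp]
  rw [← b.sum_repr_symm, Fin.sum_univ_two]
  simp [MeasurableEquiv.finTwoArrow]

private lemma st_usc {K : Set (ℝ × ℝ)} (hK : IsCompact K) (q : ℝ) {ε : ℝ≥0∞} (hε : ε ≠ 0) :
    ∀ᶠ s in 𝓝 q, volume {t : ℝ | (s, t) ∈ K} ≤ volume {t : ℝ | (q, t) ∈ K} + ε := by
  have hc : IsCompact {t : ℝ | (q, t) ∈ K} := by
    have : {t : ℝ | (q, t) ∈ K} = Prod.snd '' (K ∩ {p | p.1 = q}) := by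
      ext t
      constructor
      · intro ht
        exact ⟨(q, t), ⟨ht, rfl⟩, rfl⟩
      · rintro ⟨⟨a, b⟩, ⟨h1, h2⟩, rfl⟩
        change a = q at h2
        subst h2
        exact h1
    rw [this]
    exact (hK.inter_right (isClosed_eq continuous_fst continuous_const)).image continuous_snd
  obtain ⟨U, hU, hUo, hUl⟩ := Set.exists_isOpen_lt_add {t : ℝ | (q, t) ∈ K} (hc.measure_lt_top (μ := volume)).ne hε
  have hK2 : IsCompact (K ∩ {p | p.2 ∈ Uᶜ}) :=
    hK.inter_right (hUo.isClosed_compl.preimage continuous_snd)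
  have hcl : IsClosed (Prod.fst '' (K ∩ {p : ℝ × ℝ | p.2 ∈ Uᶜ})) :=
    (hK2.image continuous_fst).isClosed
  have hq : q ∉ Prod.fst '' (K ∩ {p : ℝ × ℝ | p.2 ∈ Uᶜ}) := by
    rintro ⟨⟨a, b⟩, ⟨h1, h2⟩, h3⟩
    simp only at h3
    subst h3
    exact h2 (hU h1)
  filter_upwards [hcl.isOpen_compl.mem_nhds hq] with s hs
  refine (measure_mono ?_).trans hUl.le
  intro t ht
  by_contra hc
  exact hs ⟨(s, t), ⟨ht, hc⟩, rfl⟩

private lemma st_side {κ : Type*} (u : κ → E 2) (c : κ → ℝ) (j : κ)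
    (b : OrthonormalBasis (Fin 2) ℝ (E 2)) (hb : b 0 = u j) :
    μHE[1] {x : E 2 | x ∈ Pgon u c ∧ ⟪u j, x⟫_ℝ = c j} =
      volume {t : ℝ | c j • b 0 + t • b 1 ∈ Pgon u c} := by
  have hiso : Isometry (fun t : ℝ => c j • b 0 + t • b 1) := by
    refine Isometry.of_dist_eq fun s t => ?_
    rw [dist_add_left, dist_eq_norm, ← sub_smul, norm_smul, b.norm_eq_one, mul_one, Real.dist_eq,
      Real.norm_eq_abs]
  have himg : {x : E 2 | x ∈ Pgon u c ∧ ⟪u j, x⟫_ℝ = c j} =
      (fun t : ℝ => c j • b 0 + t • b 1) '' {t : ℝ | c j • b 0 + t • b 1 ∈ Pgon u c} := by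
    ext x
    constructor
    · rintro ⟨h1, h2⟩
      have hx : x = c j • b 0 + ⟪b 1, x⟫_ℝ • b 1 := by
        conv_lhs => rw [← b.sum_repr' x]
        rw [Fin.sum_univ_two, hb, h2]
      refine ⟨⟪b 1, x⟫_ℝ, ?_, hx.symm⟩
      change c j • b 0 + ⟪b 1, x⟫_ℝ • b 1 ∈ Pgon u c
      rw [← hx]
      exact h1
    · rintro ⟨t, ht, rfl⟩
      refine ⟨ht, ?_⟩
      simp only
      rw [← hb, inner_add_right, inner_smul_right, inner_smul_right, b.inner_eq_one,
        b.inner_eq_zero (by decide)]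
      ring
  rw [himg, hiso.euclideanHausdorffMeasure_image]
  have := InnerProductSpace.euclideanHausdorffMeasure_eq_volume (V := ℝ)
  rw [Module.finrank_self] at this
  rw [this]

theorem strip_le {κ : Type*} [Finite κ] {u : κ → E 2} {c : κ → ℝ} (hu : ∀ j, ‖u j‖ = 1)
    (hb : Bornology.IsBounded (Pgon u c)) (j : κ) {δ : ℝ} (hδ : 0 < δ) :
    ∀ᶠ r in 𝓝[>] (0 : ℝ),
      (volume {x : E 2 | x ∈ Pgon u c ∧ c j - r < ⟪u j, x⟫_ℝ}).toReal ≤
        r * (side u c j + δ) := by
  obtain ⟨b, hb0⟩ := st_basis (hu j)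
  set Φ : ℝ × ℝ → E 2 := fun p => p.1 • b 0 + p.2 • b 1 with hΦ
  have hΦc : Continuous Φ := by fun_prop
  have hKc : IsCompact (Pgon u c) :=
    Metric.isCompact_of_isClosed_isBounded (st_closed u c) hb
  have hinner : ∀ p : ℝ × ℝ, ⟪u j, Φ p⟫_ℝ = p.1 := by
    intro p
    rw [← hb0, hΦ]
    simp only
    rw [inner_add_right, inner_smul_right, inner_smul_right, b.inner_eq_one,
      b.inner_eq_zero (by decide)]
    ring
  have hinner1 : ∀ p : ℝ × ℝ, ⟪b 1, Φ p⟫_ℝ = p.2 := by
    intro p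
    rw [hΦ]
    simp only
    rw [inner_add_right, inner_smul_right, inner_smul_right, b.inner_eq_one,
      b.inner_eq_zero (by decide)]
    ring
  have hrep : ∀ x : E 2, Φ (⟪b 0, x⟫_ℝ, ⟪b 1, x⟫_ℝ) = x := by
    intro x
    rw [hΦ]
    simp only
    conv_rhs => rw [← b.sum_repr' x]
    rw [Fin.sum_univ_two]
  have hK : IsCompact (Φ ⁻¹' (Pgon u c)) := by
    have : Φ ⁻¹' (Pgon u c) = (fun x : E 2 => (⟪b 0, x⟫_ℝ, ⟪b 1, x⟫_ℝ)) '' (Pgon u c) := by
      ext p
      constructor
      · intro hp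
        refine ⟨Φ p, hp, ?_⟩
        simp only
        rw [hinner1, hb0, hinner]
      · rintro ⟨x, hx, rfl⟩
        rw [mem_preimage, hrep]
        exact hx
    rw [this]
    exact hKc.image (by fun_prop)
  have hside : side u c j = (volume {t : ℝ | (c j, t) ∈ Φ ⁻¹' (Pgon u c)}).toReal := by
    unfold side
    rw [st_side u c j b hb0]
    rfl
  have hfin : volume {t : ℝ | (c j, t) ∈ Φ ⁻¹' (Pgon u c)} ≠ ∞ := by
    have hbd : Bornology.IsBounded {t : ℝ | (c j, t) ∈ Φ ⁻¹' (Pgon u c)} := by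
      refine (hK.isBounded.image_snd).subset ?_
      intro t ht
      exact ⟨(c j, t), ht, rfl⟩
    exact hbd.measure_lt_top.ne
  have husc := st_usc hK (c j) (ε := ENNReal.ofReal δ) (by simpa using hδ)
  rw [Metric.eventually_nhds_iff] at husc
  obtain ⟨ε, hε, husc⟩ := husc
  filter_upwards [Ioo_mem_nhdsGT hε] with r hr
  have hms : MeasurableSet {x : E 2 | x ∈ Pgon u c ∧ c j - r < ⟪u j, x⟫_ℝ} :=
    (st_closed u c).measurableSet.inter (measurableSet_lt measurable_const
      (by fun_prop : Measurable fun x : E 2 => ⟪u j, x⟫_ℝ))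
  have hvol : volume {x : E 2 | x ∈ Pgon u c ∧ c j - r < ⟪u j, x⟫_ℝ} ≤
      ENNReal.ofReal (r * (side u c j + δ)) := by
    rw [← (st_mp b).measure_preimage hms.nullMeasurableSet, Measure.volume_eq_prod,
      Measure.prod_apply ((st_mp b).measurable hms)]
    have hle : ∀ s : ℝ, volume (Prod.mk s ⁻¹' ((fun p : ℝ × ℝ => p.1 • b 0 + p.2 • b 1) ⁻¹'
        {x : E 2 | x ∈ Pgon u c ∧ c j - r < ⟪u j, x⟫_ℝ})) ≤
        (Ioc (c j - r) (c j)).indicator (fun _ => ENNReal.ofReal (side u c j + δ)) s := by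
      intro s
      by_cases hs : s ∈ Ioc (c j - r) (c j)
      · rw [indicator_of_mem hs]
        have h1 := husc (y := s) (by
          rw [Real.dist_eq, abs_lt]
          constructor
          · linarith [hs.1, hr.2]
          · linarith [hs.2])
        refine (measure_mono ?_).trans (h1.trans ?_)
        · intro t ht
          exact ht.1
        · rw [ENNReal.ofReal_add (by rw [hside]; exact ENNReal.toReal_nonneg) hδ.le, hside,
            ENNReal.ofReal_toReal hfin]
      · rw [indicator_of_notMem hs]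
        have : Prod.mk s ⁻¹' ((fun p : ℝ × ℝ => p.1 • b 0 + p.2 • b 1) ⁻¹'
            {x : E 2 | x ∈ Pgon u c ∧ c j - r < ⟪u j, x⟫_ℝ}) = ∅ := by
          ext t
          simp only [mem_preimage, mem_empty_iff_false, iff_false]
          rintro ⟨h1, h2⟩
          apply hs
          have h3 : ⟪u j, s • b 0 + t • b 1⟫_ℝ = s := hinner (s, t)
          have h4 : ⟪u j, s • b 0 + t • b 1⟫_ℝ ≤ c j := h1 j
          have h5 : c j - r < ⟪u j, s • b 0 + t • b 1⟫_ℝ := h2
          rw [h3] at h4 h5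
          exact ⟨h5, h4⟩
        rw [this]
        simp
    refine (lintegral_mono hle).trans ?_
    rw [lintegral_indicator measurableSet_Ioc, setLIntegral_const, Real.volume_Ioc,
      mul_comm, ← ENNReal.ofReal_mul (by linarith [hr.1])]
    apply ENNReal.ofReal_le_ofReal
    apply le_of_eq
    ring
  have hnn : 0 ≤ r * (side u c j + δ) := by
    have : 0 ≤ side u c j := ENNReal.toReal_nonneg
    have := hr.1
    positivity
  calc (volume {x : E 2 | x ∈ Pgon u c ∧ c j - r < ⟪u j, x⟫_ℝ}).toReal ≤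
        (ENNReal.ofReal (r * (side u c j + δ))).toReal :=
        ENNReal.toReal_mono ENNReal.ofReal_ne_top hvol
    _ = r * (side u c j + δ) := ENNReal.toReal_ofReal hnn

end Melzak
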