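import Pool.Agent.Helper27.Mz2.BM
import Pool.Agent.Helper27.Mz2.Strip
import Pool.Agent.Helper27.Mz2.Closing

/-!
# B3, B4: Minkowski's inequality in the plane, for a polygon K and a convex set W

K = Pgon u c. Let W be compact, convex, nonempty with <u_j, x> <= t_j on W. Then
2 sqrt(|K| |W|) <= sum_j t_j (side j).

Proof. By the closing relation we may translate W and assume 0 in W; then t_j >= 0. We may assume
|W| > 0; |K| > 0. For k large let lam = 2^-k, s = lam sqrt(|K|/|W|),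
K_s = {x : <u_j, x> <= c_j - s t_j for all j}. K_s + s W is contained in K. Let A = K_s / (1 - lam),
B = (s/lam) W, |B| = |K|. bm_dyadic: |A|^(2^k - 1) |B| <= |K|^(2^k), so |A| <= |K|, i.e.
|K_s| <= (1 - lam)^2 |K|. (K_s is nonempty for small s by Slater; it is compact and convex.)
K minus K_s is the union of the strips {x in K : c_j - s t_j < <u_j, x>}, so by strip_le
|K| - |K_s| <= sum_j s t_j (side j + delta) for s small. So
sum_j t_j (side j + delta) >= (2 lam - lam^2) |K| / s = (2 - lam) sqrt(|K| |W|).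
Let lam -> 0, then delta -> 0.

Second form: the hypothesis on t_j is only needed for sides of positive length: for the other j
replace t_j by an upper bound of <u_j, .> on W; the right side does not change.
-/

open MeasureTheory Set Filter Topology
open scoped ENNReal InnerProductSpace

namespace Melzak

open scoped Pointwise in
/-- the volume of the inner parallel polygon -/
theorem mk_inner {κ : Type*} [Fintype κ] {u : κ → E 2} {c t : κ → ℝ}
    (hb : Bornology.IsBounded (Pgon u c)) (ht : ∀ j, 0 ≤ t j)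
    {W : Set (E 2)} (hW : IsCompact W) (hWt : ∀ j, ∀ x ∈ W, ⟪u j, x⟫_ℝ ≤ t j)
    {ρ : ℝ} (hρ : 0 < ρ) (hV : 0 < volume (Pgon u c))
    (hρW : ENNReal.ofReal (ρ ^ 2) * volume W = volume (Pgon u c)) {k : ℕ} (hk : 1 ≤ k)
    (hn : (Pgon u (fun j => c j - (2 : ℝ)⁻¹ ^ k * ρ * t j)).Nonempty) :
    volume (Pgon u (fun j => c j - (2 : ℝ)⁻¹ ^ k * ρ * t j)) ≤
      ENNReal.ofReal ((1 - (2 : ℝ)⁻¹ ^ k) ^ 2) * volume (Pgon u c) := by
  obtain ⟨K, hK⟩ : ∃ K, K = Pgon u (fun j => c j - (2 : ℝ)⁻¹ ^ k * ρ * t j) := ⟨_, rfl⟩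
  rw [← hK] at hn ⊢
  have hl0 : (0 : ℝ) < (2 : ℝ)⁻¹ ^ k := by positivity
  have hl1 : (2 : ℝ)⁻¹ ^ k < 1 := pow_lt_one₀ (by norm_num) (by norm_num) (by omega)
  have hsub : K ⊆ Pgon u c := by
    intro x hx j
    rw [hK] at hx
    have h1 : ⟪u j, x⟫_ℝ ≤ c j - (2 : ℝ)⁻¹ ^ k * ρ * t j := hx j
    have h2 : 0 ≤ (2 : ℝ)⁻¹ ^ k * ρ * t j := by
      have := ht j
      positivity
    linarith
  have hKcl : IsClosed K := by rw [hK]; exact cl_closed
  have hKc : IsCompact K := Metric.isCompact_of_isClosed_isBounded hKcl (hb.subset hsub)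
  have hKconv : Convex ℝ K := by
    rw [hK]
    have : Pgon u (fun j => c j - (2 : ℝ)⁻¹ ^ k * ρ * t j) =
        ⋂ j, {x | ⟪u j, x⟫_ℝ ≤ c j - (2 : ℝ)⁻¹ ^ k * ρ * t j} := by
      ext x; simp [Pgon]
    rw [this]
    refine convex_iInter fun j => ?_
    exact convex_halfSpace_le (f := fun x => ⟪u j, x⟫_ℝ)
      (innerSL ℝ (u j)).toLinearMap.isLinear _
  obtain ⟨q, hq⟩ : ∃ q : ℝ, q = 1 - (2 : ℝ)⁻¹ ^ k := ⟨_, rfl⟩
  have hq0 : 0 < q := by rw [hq]; linarith
  have hbm := bm_dyadic (A := q⁻¹ • K) (B := ρ • W) (hKc.smul _) (hKconv.smul _)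
    (hn.smul_set) (hW.smul _) k
  rw [← hq, smul_smul, mul_inv_cancel₀ hq0.ne', one_smul] at hbm
  have hincl : K + (2 : ℝ)⁻¹ ^ k • ρ • W ⊆ Pgon u c := by
    intro x hx
    rw [Set.mem_add] at hx
    obtain ⟨y, hy, z, hz, rfl⟩ := hx
    obtain ⟨z', hz', rfl⟩ := mem_smul_set.1 hz
    obtain ⟨w, hw, rfl⟩ := mem_smul_set.1 hz'
    intro j
    rw [hK] at hy
    have h1 : ⟪u j, y⟫_ℝ ≤ c j - (2 : ℝ)⁻¹ ^ k * ρ * t j := hy j
    have h2 := hWt j w hw
    rw [smul_smul, inner_add_right, inner_smul_right]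
    have h3 : (2 : ℝ)⁻¹ ^ k * ρ * ⟪u j, w⟫_ℝ ≤ (2 : ℝ)⁻¹ ^ k * ρ * t j :=
      mul_le_mul_of_nonneg_left h2 (by positivity)
    linarith
  have hfin : volume (Pgon u c) ≠ ∞ :=
    ((Metric.isCompact_of_isClosed_isBounded cl_closed hb).measure_lt_top).ne
  have hB : volume (ρ • W) = volume (Pgon u c) := by
    rw [Measure.addHaar_smul, finrank_euclideanSpace_fin, abs_of_nonneg (by positivity)]
    exact hρW
  have hA : volume (q⁻¹ • K) = ENNReal.ofReal (q⁻¹ ^ 2) * volume K := by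
    rw [Measure.addHaar_smul, finrank_euclideanSpace_fin, abs_of_nonneg (by positivity)]
  have h4 : volume (q⁻¹ • K) ^ (2 ^ k - 1) * volume (Pgon u c) ≤
      volume (Pgon u c) ^ (2 ^ k - 1) * volume (Pgon u c) := by
    rw [← pow_succ, show 2 ^ k - 1 + 1 = 2 ^ k by have := Nat.one_le_two_pow (n := k); omega]
    rw [hB] at hbm
    refine hbm.trans ?_
    gcongr
  have h5 : volume (q⁻¹ • K) ^ (2 ^ k - 1) ≤ volume (Pgon u c) ^ (2 ^ k - 1) :=
    (ENNReal.mul_le_mul_iff_left hV.ne' hfin).1 h4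
  have h6 : volume (q⁻¹ • K) ≤ volume (Pgon u c) := by
    by_contra hcon
    push Not at hcon
    have h7 : 2 ^ k - 1 ≠ 0 := by
      have : 2 ^ 1 ≤ 2 ^ k := Nat.pow_le_pow_right (by norm_num) hk
      omega
    exact absurd h5 (not_le.2 (ENNReal.pow_lt_pow_left h7 hcon))
  calc volume K = ENNReal.ofReal (q ^ 2) * (ENNReal.ofReal (q⁻¹ ^ 2) * volume K) := by
        rw [← mul_assoc, ← ENNReal.ofReal_mul (by positivity), ← mul_pow,
          mul_inv_cancel₀ hq0.ne', one_pow, ENNReal.ofReal_one, one_mul]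
    _ ≤ ENNReal.ofReal ((1 - (2 : ℝ)⁻¹ ^ k) ^ 2) * volume (Pgon u c) := by
        rw [← hA, ← hq]
        exact mul_le_mul_right h6 _

theorem mk_main {κ : Type*} [Fintype κ] {u : κ → E 2} {c t : κ → ℝ}
    (hu : ∀ j, ‖u j‖ = 1)
    (hb : Bornology.IsBounded (Pgon u c)) (hs : ∃ x, ∀ j, ⟪u j, x⟫_ℝ < c j)
    (ht : ∀ j, 0 ≤ t j) {W : Set (E 2)} (hW : IsCompact W)
    (hWt : ∀ j, ∀ x ∈ W, ⟪u j, x⟫_ℝ ≤ t j) :
    2 * Real.sqrt ((volume (Pgon u c)).toReal * (volume W).toReal) ≤ ∑ j, t j * side u c j := by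
  have hside : ∀ j, 0 ≤ side u c j := fun j => ENNReal.toReal_nonneg
  have hfin : volume (Pgon u c) ≠ ∞ :=
    ((Metric.isCompact_of_isClosed_isBounded cl_closed hb).measure_lt_top).ne
  have hWfin : volume W ≠ ∞ := hW.measure_lt_top.ne
  by_cases hW0 : volume W = 0
  · rw [hW0, ENNReal.toReal_zero, mul_zero, Real.sqrt_zero, mul_zero]
    exact Finset.sum_nonneg fun j _ => mul_nonneg (ht j) (hside j)
  obtain ⟨x0, hx0⟩ := hs
  have hV : 0 < volume (Pgon u c) := by
    have ho : IsOpen {x : E 2 | ∀ j, ⟪u j, x⟫_ℝ < c j} := by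
      rw [Set.ofPred_forall]
      exact isOpen_iInter_of_finite fun j => isOpen_lt (by fun_prop) continuous_const
    exact (ho.measure_pos volume ⟨x0, hx0⟩).trans_le
      (measure_mono fun x (hx : ∀ j, ⟪u j, x⟫_ℝ < c j) j => (hx j).le)
  obtain ⟨V, hVe⟩ : ∃ V, V = (volume (Pgon u c)).toReal := ⟨_, rfl⟩
  obtain ⟨w, hwe⟩ : ∃ w, w = (volume W).toReal := ⟨_, rfl⟩
  rw [← hVe, ← hwe]
  have hVpos : 0 < V := by rw [hVe]; exact ENNReal.toReal_pos hV.ne' hfin
  have hwpos : 0 < w := by rw [hwe]; exact ENNReal.toReal_pos hW0 hWfin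
  obtain ⟨ρ, hρe⟩ : ∃ ρ, ρ = Real.sqrt (V / w) := ⟨_, rfl⟩
  have hρ : 0 < ρ := by rw [hρe]; exact Real.sqrt_pos.2 (div_pos hVpos hwpos)
  have hρ2 : ρ ^ 2 = V / w := by rw [hρe, Real.sq_sqrt (div_pos hVpos hwpos).le]
  have hρW : ENNReal.ofReal (ρ ^ 2) * volume W = volume (Pgon u c) := by
    rw [← ENNReal.ofReal_toReal hWfin, ← ENNReal.ofReal_toReal hfin, ← hVe, ← hwe,
      ← ENNReal.ofReal_mul (by positivity), hρ2, div_mul_cancel₀ _ hwpos.ne']
  have hsq : Real.sqrt (V * w) = V / ρ := by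
    rw [Real.sqrt_eq_iff_mul_self_eq (by positivity) (by positivity)]
    field_simp
    rw [hρ2]
    field_simp
  -- reduction to a fixed error
  have key : ∀ δ : ℝ, 0 < δ → 2 * (V / ρ) ≤ ∑ j, t j * (side u c j + δ) := by
    intro δ hδ
    have e1 : ∀ᶠ s in 𝓝[>] (0 : ℝ), ∀ j,
        (volume {x : E 2 | x ∈ Pgon u c ∧ c j - s * t j < ⟪u j, x⟫_ℝ}).toReal ≤
          s * t j * (side u c j + δ) := by
      rw [eventually_all]
      intro j
      rcases eq_or_lt_of_le (ht j) with h0 | h0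
      · refine Eventually.of_forall fun s => ?_
        have : {x : E 2 | x ∈ Pgon u c ∧ c j - s * t j < ⟪u j, x⟫_ℝ} = ∅ := by
          ext x
          simp only [Set.mem_ofPred_eq, mem_empty_iff_false, iff_false, not_and, not_lt]
          intro hx
          rw [← h0, mul_zero, sub_zero]
          exact hx j
        rw [this, measure_empty, ENNReal.toReal_zero, ← h0, mul_zero, zero_mul]
      · have hten : Tendsto (fun s : ℝ => s * t j) (𝓝[>] 0) (𝓝[>] 0) := by
          refine tendsto_nhdsWithin_iff.2 ⟨?_, ?_⟩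
          · have : Tendsto (fun s : ℝ => s * t j) (𝓝 0) (𝓝 (0 * t j)) :=
              (continuous_id.mul continuous_const).tendsto 0
            rw [zero_mul] at this
            exact this.mono_left nhdsWithin_le_nhds
          · filter_upwards [self_mem_nhdsWithin] with s hs
            exact mul_pos hs h0
        exact hten.eventually (strip_le hu hb j hδ)
    have e2 : ∀ᶠ s in 𝓝[>] (0 : ℝ), ∀ j, ⟪u j, x0⟫_ℝ < c j - s * t j := by
      rw [eventually_all]
      intro j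
      have : Tendsto (fun s : ℝ => c j - s * t j) (𝓝 0) (𝓝 (c j - 0 * t j)) :=
        (continuous_const.sub (continuous_id.mul continuous_const)).tendsto 0
      rw [zero_mul, sub_zero] at this
      exact (this.mono_left nhdsWithin_le_nhds).eventually (lt_mem_nhds (hx0 j))
    have hten : Tendsto (fun k : ℕ => (2 : ℝ)⁻¹ ^ k * ρ) atTop (𝓝[>] 0) := by
      refine tendsto_nhdsWithin_iff.2 ⟨?_, Eventually.of_forall fun k => by
        show (0 : ℝ) < _
        positivity⟩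
      have := (tendsto_pow_atTop_nhds_zero_of_lt_one (r := (2 : ℝ)⁻¹) (by norm_num)
        (by norm_num)).mul_const ρ
      rwa [zero_mul] at this
    have hlim : Tendsto (fun k : ℕ => (2 - (2 : ℝ)⁻¹ ^ k) * (V / ρ)) atTop
        (𝓝 (2 * (V / ρ))) := by
      have := ((tendsto_pow_atTop_nhds_zero_of_lt_one (r := (2 : ℝ)⁻¹) (by norm_num)
        (by norm_num)).const_sub 2).mul_const (V / ρ)
      rwa [sub_zero] at this
    refine le_of_tendsto hlim ?_
    filter_upwards [hten.eventually e1, hten.eventually e2, eventually_ge_atTop 1] with k h1 h2 hk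
    have hin := mk_inner hb ht hW hWt hρ hV hρW hk ⟨x0, fun j => (h2 j).le⟩
    obtain ⟨l, hl⟩ : ∃ l : ℝ, l = (2 : ℝ)⁻¹ ^ k := ⟨_, rfl⟩
    rw [← hl] at hin h1 ⊢
    have hl0 : 0 < l := by rw [hl]; positivity
    have hcov : Pgon u c ⊆ Pgon u (fun j => c j - l * ρ * t j) ∪
        ⋃ j, {x : E 2 | x ∈ Pgon u c ∧ c j - l * ρ * t j < ⟪u j, x⟫_ℝ} := by
      intro x hx
      by_cases h : ∀ j, ⟪u j, x⟫_ℝ ≤ c j - l * ρ * t j
      · exact Or.inl h
      · right
        push Not at h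
        obtain ⟨j, hj⟩ := h
        exact mem_iUnion.2 ⟨j, hx, hj⟩
    have hfin2 : ∀ j, volume {x : E 2 | x ∈ Pgon u c ∧ c j - l * ρ * t j < ⟪u j, x⟫_ℝ} ≠ ∞ :=
      fun j => ne_top_of_le_ne_top hfin (measure_mono fun x hx => hx.1)
    have hm : volume (Pgon u c) ≤ ENNReal.ofReal ((1 - l) ^ 2) * volume (Pgon u c) +
        ∑ j, volume {x : E 2 | x ∈ Pgon u c ∧ c j - l * ρ * t j < ⟪u j, x⟫_ℝ} := by
      refine (measure_mono hcov).trans ((measure_union_le _ _).trans ?_)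
      refine add_le_add hin ?_
      have := measure_iUnion_fintype_le (volume : Measure (E 2))
        (fun j => {x : E 2 | x ∈ Pgon u c ∧ c j - l * ρ * t j < ⟪u j, x⟫_ℝ})
      exact this
    have hm2 := ENNReal.toReal_mono (by
      refine ENNReal.add_ne_top.2 ⟨ENNReal.mul_ne_top ENNReal.ofReal_ne_top hfin, ?_⟩
      exact ENNReal.sum_ne_top.2 fun j _ => hfin2 j) hm
    rw [ENNReal.toReal_add (ENNReal.mul_ne_top ENNReal.ofReal_ne_top hfin)
      (ENNReal.sum_ne_top.2 fun j _ => hfin2 j), ENNReal.toReal_mul,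
      ENNReal.toReal_ofReal (by positivity), ENNReal.toReal_sum (fun j _ => hfin2 j), ← hVe] at hm2
    have hm3 : ∑ j, (volume {x : E 2 | x ∈ Pgon u c ∧ c j - l * ρ * t j < ⟪u j, x⟫_ℝ}).toReal ≤
        l * ρ * ∑ j, t j * (side u c j + δ) := by
      rw [Finset.mul_sum]
      refine Finset.sum_le_sum fun j _ => (h1 j).trans (le_of_eq (by ring))
    have hm4 : l * ρ * ((2 - l) * (V / ρ)) ≤ l * ρ * ∑ j, t j * (side u c j + δ) := by
      have e : l * ρ * ((2 - l) * (V / ρ)) = V - (1 - l) ^ 2 * V := by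
        field_simp
        ring
      rw [e]
      linarith
    exact le_of_mul_le_mul_left hm4 (by positivity)
  rw [hsq]
  refine le_of_forall_pos_le_add fun ε hε => ?_
  have hT : 0 ≤ ∑ j, t j := Finset.sum_nonneg fun j _ => ht j
  have h1 := key (ε / (∑ j, t j + 1)) (by positivity)
  have h2 : ∑ j, t j * (side u c j + ε / (∑ j, t j + 1)) =
      ∑ j, t j * side u c j + (∑ j, t j) * (ε / (∑ j, t j + 1)) := by
    rw [Finset.sum_mul, ← Finset.sum_add_distrib]
    exact Finset.sum_congr rfl fun j _ => by ring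
  rw [h2] at h1
  have h3 : (∑ j, t j) * (ε / (∑ j, t j + 1)) ≤ ε := by
    rw [mul_div_assoc', div_le_iff₀ (by positivity)]
    nlinarith
  linarith

theorem minkowski_zero {κ : Type*} [Fintype κ] {u : κ → E 2} {c t : κ → ℝ}
    (hu : ∀ j, ‖u j‖ = 1) (hinj : Function.Injective (fun j => (u j, c j)))
    (hb : Bornology.IsBounded (Pgon u c)) (hs : ∃ x, ∀ j, ⟪u j, x⟫_ℝ < c j)
    {W : Set (E 2)} (hW : IsCompact W) (hWc : Convex ℝ W) (hWn : W.Nonempty)
    (hWt : ∀ j, ∀ x ∈ W, ⟪u j, x⟫_ℝ ≤ t j) :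
    2 * Real.sqrt ((volume (Pgon u c)).toReal * (volume W).toReal) ≤ ∑ j, t j * side u c j := by
  obtain ⟨w0, hw0⟩ := hWn
  have h := mk_main (t := fun j => t j - ⟪u j, w0⟫_ℝ) hu hb hs
    (fun j => sub_nonneg.2 (hWt j w0 hw0)) (W := (fun x => x + w0) ⁻¹' W)
    ((Homeomorph.addRight w0).isCompact_preimage.2 hW) (by
      intro j x hx
      have := hWt j _ hx
      rw [inner_add_right] at this
      linarith)
  rw [measure_preimage_add_right] at h
  have hc := closing hu hinj hb hs w0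
  have e : ∑ j, (t j - ⟪u j, w0⟫_ℝ) * side u c j = ∑ j, t j * side u c j := by
    rw [← sub_zero (∑ j, t j * side u c j), ← hc, ← Finset.sum_sub_distrib]
    exact Finset.sum_congr rfl fun j _ => by ring
  rw [e] at h
  exact h

theorem minkowski {κ : Type*} [Fintype κ] {u : κ → E 2} {c t : κ → ℝ}
    (hu : ∀ j, ‖u j‖ = 1) (hinj : Function.Injective (fun j => (u j, c j)))
    (hb : Bornology.IsBounded (Pgon u c)) (hs : ∃ x, ∀ j, ⟪u j, x⟫_ℝ < c j)
    {W : Set (E 2)} (hW : IsCompact W) (hWc : Convex ℝ W) (hWn : W.Nonempty)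
    (hWt : ∀ j, 0 < side u c j → ∀ x ∈ W, ⟪u j, x⟫_ℝ ≤ t j) :
    2 * Real.sqrt ((volume (Pgon u c)).toReal * (volume W).toReal) ≤ ∑ j, t j * side u c j := by
  classical
  have hM : ∀ j, ∃ M : ℝ, ∀ x ∈ W, ⟪u j, x⟫_ℝ ≤ M := by
    intro j
    obtain ⟨x, hx, hmax⟩ := hW.exists_isMaxOn hWn
      (f := fun x => ⟪u j, x⟫_ℝ) (by fun_prop)
    exact ⟨_, fun y hy => hmax hy⟩
  choose M hM using hM
  have h := minkowski_zero (t := fun j => if 0 < side u c j then t j else M j) hu hinj hb hs hW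
    hWc hWn (by
      intro j x hx
      split_ifs with hj
      · exact hWt j hj x hx
      · exact hM j x hx)
  refine h.trans (le_of_eq (Finset.sum_congr rfl fun j _ => ?_))
  split_ifs with hj
  · rfl
  · have : side u c j = 0 := le_antisymm (not_lt.1 hj) ENNReal.toReal_nonneg
    rw [this, mul_zero, mul_zero]

end Melzak
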