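import Pool.Agent.Helper27.Mz2.FacetChart
import Pool.Agent.Helper27.Mz2.Mink
import Pool.Agent.Helper27.Mz2.LensA

/-!
# C2: the facet inequality

cap_halfplane: rotation invariance of the area.
facet_ineq: take facet_chart and apply minkowski to K = Pgon u c and
W = {x : |x| <= r, <u_j, x> <= t_j for all j in s with side u c j > 0}, compact and convex.
|W| >= pi r^2 - sum_(those j) cap r (t_j) > 0, so W is nonempty. Those j are exactly the j adjacent
to i, and in the sum on the right the j outside s have elen = 0 (measure of the empty set).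
-/

open MeasureTheory Set Filter Topology
open scoped ENNReal InnerProductSpace

namespace Melzak

theorem cap_halfplane {u : E 2} (hu : ‖u‖ = 1) (r t : ℝ) :
    (volume {x : E 2 | ‖x‖ ≤ r ∧ t ≤ ⟪u, x⟫_ℝ}).toReal = cap r t := by
  have hv : Orthonormal ℝ (({0} : Set (Fin 2)).domRestrict (fun _ => u)) := by
    refine ⟨fun i => hu, fun i j hij => ?_⟩
    exact absurd (Subsingleton.elim i j) hij
  obtain ⟨b, hb⟩ := hv.exists_orthonormalBasis_extension_of_card_eq (by simp)
  have hb0 : b 0 = u := hb 0 (mem_singleton 0)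
  unfold cap
  congr 1
  have h1 := b.repr.measurePreserving.measure_preimage (la_meas r t).nullMeasurableSet
  rw [← h1]
  congr 1
  ext x
  simp only [mem_preimage, mem_ofPred_eq, b.repr.norm_map]
  rw [b.repr_apply_apply, hb0]

lemma ft_fin (u : E 2) (r t : ℝ) : volume {x : E 2 | ‖x‖ ≤ r ∧ t ≤ ⟪u, x⟫_ℝ} ≠ ∞ := by
  have h : {x : E 2 | ‖x‖ ≤ r ∧ t ≤ ⟪u, x⟫_ℝ} ⊆ Metric.closedBall 0 r := by
    intro x hx; simpa using hx.1
  exact ((measure_mono h).trans_lt (isCompact_closedBall (0 : E 2) r).measure_lt_top).ne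

/-- the disc with caps cut off -/
lemma ft_disc {κ : Type*} [Fintype κ] {u : κ → E 2} (hu : ∀ j, ‖u j‖ = 1) {r : ℝ} (hr : 0 ≤ r)
    (t : κ → ℝ) (T : Finset κ) :
    Real.pi * r ^ 2 - ∑ j ∈ T, cap r (t j) ≤
      (volume {x : E 2 | ‖x‖ ≤ r ∧ ∀ j ∈ T, ⟪u j, x⟫_ℝ ≤ t j}).toReal := by
  have h1 : Metric.closedBall (0 : E 2) r ⊆ {x : E 2 | ‖x‖ ≤ r ∧ ∀ j ∈ T, ⟪u j, x⟫_ℝ ≤ t j} ∪
      ⋃ j ∈ T, {x : E 2 | ‖x‖ ≤ r ∧ t j ≤ ⟪u j, x⟫_ℝ} := by
    intro x hx
    have hx' : ‖x‖ ≤ r := by simpa using hx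
    by_cases h : ∀ j ∈ T, ⟪u j, x⟫_ℝ ≤ t j
    · exact Or.inl ⟨hx', h⟩
    · push Not at h
      obtain ⟨j, hj, hj'⟩ := h
      refine Or.inr ?_
      simp only [mem_iUnion]
      exact ⟨j, hj, hx', hj'.le⟩
  have hW : volume {x : E 2 | ‖x‖ ≤ r ∧ ∀ j ∈ T, ⟪u j, x⟫_ℝ ≤ t j} ≠ ∞ := by
    have h : {x : E 2 | ‖x‖ ≤ r ∧ ∀ j ∈ T, ⟪u j, x⟫_ℝ ≤ t j} ⊆ Metric.closedBall 0 r := by
      intro x hx; simpa using hx.1
    exact ((measure_mono h).trans_lt (isCompact_closedBall (0 : E 2) r).measure_lt_top).ne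
  have h2 := (measure_mono h1).trans (measure_union_le (μ := volume) _ _)
  have h3 := h2.trans (add_le_add le_rfl (measure_biUnion_finset_le T _))
  have hS : ∑ j ∈ T, volume {x : E 2 | ‖x‖ ≤ r ∧ t j ≤ ⟪u j, x⟫_ℝ} ≠ ∞ :=
    ENNReal.sum_ne_top.2 fun j _ => ft_fin _ _ _
  have h4 := ENNReal.toReal_mono (ENNReal.add_ne_top.2 ⟨hW, hS⟩) h3
  rw [la_ball 0 hr, ENNReal.toReal_add hW hS, ENNReal.toReal_sum fun j _ => ft_fin _ _ _] at h4
  have h5 : ∑ j ∈ T, (volume {x : E 2 | ‖x‖ ≤ r ∧ t j ≤ ⟪u j, x⟫_ℝ}).toReal =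
      ∑ j ∈ T, cap r (t j) := Finset.sum_congr rfl fun j _ => cap_halfplane (hu j) r (t j)
  rw [h5] at h4
  linarith

open Classical in
theorem facet_ineq {ι : Type*} [Fintype ι] {n : ι → E 3} {h : ι → ℝ} (hg : Good n h) (i : ι)
    {r : ℝ} (hr : 0 ≤ r) (t : ι → ℝ)
    (hF : 0 < Real.pi * r ^ 2 - ∑ j with Adj n h i j, cap r (t j)) :
    2 * Real.sqrt (farea n h i * (Real.pi * r ^ 2 - ∑ j with Adj n h i j, cap r (t j))) ≤
      ∑ j with j ≠ i, t j * elen n h i j := by
  obtain ⟨s, u, c, his, hu, hinj, hb, hsl, harea, hside, hout⟩ := facet_chart hg i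
  -- adjacency
  have hadj : ∀ j, Adj n h i j ↔ ∃ hj : j ∈ s, 0 < side u c ⟨j, hj⟩ := by
    intro j
    constructor
    · rintro ⟨h1, h2⟩
      have hj : j ∈ s := by
        by_contra hj
        have h3 := hout j (Ne.symm h1) hj
        unfold elen at h2
        rw [h3, measure_empty] at h2
        simp at h2
      refine ⟨hj, ?_⟩
      rw [← hside ⟨j, hj⟩]
      exact h2
    · rintro ⟨hj, h2⟩
      refine ⟨fun hij => his (hij ▸ hj), ?_⟩
      rw [← hside ⟨j, hj⟩] at h2
      exact h2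
  set T : Finset s := Finset.univ.filter fun j => 0 < side u c j with hT
  have hsum : ∑ j with Adj n h i j, cap r (t j) = ∑ j ∈ T, cap r (t j) := by
    symm
    refine Finset.sum_nbij (fun j => (j : ι)) ?_ ?_ ?_ ?_
    · intro j hj
      rw [Finset.mem_filter]
      exact ⟨Finset.mem_univ _, (hadj j).2 ⟨j.2, (Finset.mem_filter.1 hj).2⟩⟩
    · intro a _ b _ hab
      exact Subtype.ext hab
    · intro j hj
      have hj' := (Finset.mem_filter.1 (Finset.mem_coe.1 hj)).2
      obtain ⟨hjs, h2⟩ := (hadj j).1 hj'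
      exact ⟨⟨j, hjs⟩, Finset.mem_coe.2 (Finset.mem_filter.2 ⟨Finset.mem_univ _, h2⟩), rfl⟩
    · intro j _
      rfl
  have hsum2 : ∑ j with j ≠ i, t j * elen n h i j = ∑ j : s, t j * side u c j := by
    have h1 : ∑ j : s, t j * side u c j = ∑ j ∈ s, t j * elen n h i j := by
      rw [← Finset.sum_coe_sort s (fun j => t j * elen n h i j)]
      exact Finset.sum_congr rfl fun j _ => by rw [hside j]
    rw [h1]
    symm
    apply Finset.sum_subset
    · intro j hj
      rw [Finset.mem_filter]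
      exact ⟨Finset.mem_univ _, fun hij => his (hij ▸ hj)⟩
    · intro j hj hjs
      have hji := (Finset.mem_filter.1 hj).2
      have h3 := hout j hji hjs
      unfold elen
      rw [h3, measure_empty]
      simp
  rw [hsum] at hF ⊢
  rw [hsum2]
  set W : Set (E 2) := {x : E 2 | ‖x‖ ≤ r ∧ ∀ j ∈ T, ⟪u j, x⟫_ℝ ≤ t j} with hW
  have hWv := ft_disc hu hr (fun j : s => t j) T
  have hWn : W.Nonempty := by
    rcases W.eq_empty_or_nonempty with h0 | h0
    · exfalso
      change _ ≤ (volume W).toReal at hWv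
      rw [h0, measure_empty] at hWv
      simp only [ENNReal.toReal_zero] at hWv
      linarith
    · exact h0
  have hWcl : IsClosed W := by
    have : W = Metric.closedBall 0 r ∩ ⋂ j ∈ T, {x : E 2 | ⟪u j, x⟫_ℝ ≤ t j} := by
      ext x
      simp [hW]
    rw [this]
    refine Metric.isClosed_closedBall.inter (isClosed_iInter fun j => isClosed_iInter fun _ => ?_)
    exact isClosed_le (by fun_prop) continuous_const
  have hWc : IsCompact W := by
    refine Metric.isCompact_of_isClosed_isBounded hWcl ?_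
    refine (Metric.isBounded_closedBall (x := (0 : E 2)) (r := r)).subset fun x hx => ?_
    simpa using hx.1
  have hWx : Convex ℝ W := by
    have : W = Metric.closedBall 0 r ∩ ⋂ j ∈ T, {x : E 2 | ⟪u j, x⟫_ℝ ≤ t j} := by
      ext x
      simp [hW]
    rw [this]
    refine (convex_closedBall _ _).inter (convex_iInter fun j => convex_iInter fun _ => ?_)
    exact convex_halfSpace_le (IsLinearMap.mk (fun x y => inner_add_right _ _ _)
      (fun a x => inner_smul_right _ _ _)) _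
  have hmain := minkowski (t := fun j : s => t j) hu hinj hb hsl hWc hWx hWn
    (fun j hj x hx => hx.2 j (Finset.mem_filter.2 ⟨Finset.mem_univ _, hj⟩))
  refine le_trans ?_ hmain
  have hfa : farea n h i = (volume (Pgon u c)).toReal := by
    unfold farea
    rw [harea]
  rw [hfa]
  gcongr

end Melzak
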