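import Pool.Agent.Helper27.Mz2.FacetDefs
import Pool.Agent.Helper27.Melzak.Slab

/-!
# C1: the facets of a polytope as planar polygons

facet_chart: choose an orthonormal basis e_1, e_2, n_i of E 3 (see exists_basis_first in
Melzak/Slab.lean), phi(y) = h_i n_i + y_0 e_1 + y_1 e_2, an isometry of E 2 onto the plane
<n_i, x> = h_i. For j <> i let w_j = (<n_j, e_1>, <n_j, e_2>); s = {j | j <> i, w_j <> 0},
u_j = w_j / |w_j|, c_j = (h_j - h_i <n_j, n_i>) / |w_j|. If w_j = 0 then n_j = +- n_i, the case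
n_j = n_i contradicts hg.irr (two irredundant parallel constraints with the same normal), and for
n_j = - n_i the constraint j is strict on the plane (Slater), so Fac i and Fac j are disjoint.
Slater for the polygon: hg.irr i. Injectivity of (u, c): if (u_j, c_j) = (u_k, c_k), j <> k, the
three planes i, j, k contain a common line, contradicting Good.no_three.
The Hausdorff measures are transported by the isometry; on E 2, muHE[2] = volume
(Melzak/Edges.lean has similar things for muHE[3]: zeta_three).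
farea_pos: the polygon has interior points. fac_measure_ne_top: it is bounded.
-/

open MeasureTheory Set Filter Topology
open scoped ENNReal InnerProductSpace

namespace Melzak

/-- The chart of the plane b_0 = q. -/
private noncomputable def fc_phi (b : OrthonormalBasis (Fin 3) ℝ (E 3)) (q : ℝ) (y : E 2) : E 3 :=
  q • b 0 + (y 0 • b 1 + y 1 • b 2)

private noncomputable def fc_w (b : OrthonormalBasis (Fin 3) ℝ (E 3)) (ν : E 3) : E 2 :=
  !₂[⟪ν, b 1⟫_ℝ, ⟪ν, b 2⟫_ℝ]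

private lemma fc_inner (b : OrthonormalBasis (Fin 3) ℝ (E 3)) (q : ℝ) (y : E 2) (ν : E 3) :
    ⟪ν, fc_phi b q y⟫_ℝ = q * ⟪ν, b 0⟫_ℝ + ⟪fc_w b ν, y⟫_ℝ := by
  unfold fc_phi fc_w
  rw [inner_add_right, inner_add_right, inner_smul_right, inner_smul_right, inner_smul_right]
  have h1 : ∀ a a' : ℝ, ⟪(!₂[a, a'] : E 2), y⟫_ℝ = y 0 * a + y 1 * a' := by
    intro a a'
    rw [PiLp.inner_apply, Fin.sum_univ_two]
    simp
  rw [h1]

private lemma fc_inner_zero (b : OrthonormalBasis (Fin 3) ℝ (E 3)) (q : ℝ) (y : E 2) :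
    ⟪b 0, fc_phi b q y⟫_ℝ = q := by
  rw [fc_inner]
  have h0 : fc_w b (b 0) = 0 := by
    unfold fc_w
    rw [b.inner_eq_zero (by decide), b.inner_eq_zero (by decide)]
    ext k
    fin_cases k <;> simp
  rw [h0, inner_zero_left, b.inner_eq_one]
  ring

private lemma fc_isometry (b : OrthonormalBasis (Fin 3) ℝ (E 3)) (q : ℝ) :
    Isometry (fc_phi b q) := by
  refine Isometry.of_dist_eq fun y z => ?_
  unfold fc_phi
  rw [dist_add_left, dist_eq_norm, dist_eq_norm]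
  have h1 : (y 0 • b 1 + y 1 • b 2 - (z 0 • b 1 + z 1 • b 2) : E 3) =
      (y 0 - z 0) • b 1 + (y 1 - z 1) • b 2 := by
    rw [sub_smul, sub_smul]; abel
  rw [h1]
  have h2 : ‖(y 0 - z 0) • b 1 + (y 1 - z 1) • b 2‖ ^ 2 = ‖y - z‖ ^ 2 := by
    rw [← real_inner_self_eq_norm_sq, inner_add_left, inner_add_right, inner_add_right]
    simp only [inner_smul_left, inner_smul_right]
    rw [b.inner_eq_one, b.inner_eq_one, b.inner_eq_zero (show (1 : Fin 3) ≠ 2 by decide),
      b.inner_eq_zero (show (2 : Fin 3) ≠ 1 by decide), EuclideanSpace.norm_sq_eq, Fin.sum_univ_two]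
    simp
    ring
  exact (pow_left_inj₀ (norm_nonneg _) (norm_nonneg _) two_ne_zero).1 h2

private lemma fc_surj (b : OrthonormalBasis (Fin 3) ℝ (E 3)) (x : E 3) :
    fc_phi b ⟪b 0, x⟫_ℝ !₂[⟪b 1, x⟫_ℝ, ⟪b 2, x⟫_ℝ] = x := by
  unfold fc_phi
  conv_rhs => rw [← b.sum_repr' x]
  rw [Fin.sum_univ_three]
  simp
  abel

private lemma fc_closed {κ : Type*} (u : κ → E 2) (c : κ → ℝ) : IsClosed (Pgon u c) := by
  have : Pgon u c = ⋂ k, {x | ⟪u k, x⟫_ℝ ≤ c k} := by ext x; simp [Pgon]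
  rw [this]
  exact isClosed_iInter fun k => isClosed_le (by fun_prop) continuous_const

theorem facet_chart {ι : Type*} [Fintype ι] {n : ι → E 3} {h : ι → ℝ} (hg : Good n h) (i : ι) :
    ∃ (s : Finset ι) (u : s → E 2) (c : s → ℝ), i ∉ s ∧ (∀ j, ‖u j‖ = 1) ∧
      Function.Injective (fun j => (u j, c j)) ∧ Bornology.IsBounded (Pgon u c) ∧
      (∃ x, ∀ j, ⟪u j, x⟫_ℝ < c j) ∧
      μHE[2] (Fac n h i) = volume (Pgon u c) ∧
      (∀ j : s, elen n h i j = side u c j) ∧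
      (∀ j, j ≠ i → j ∉ s → Fac n h i ∩ Fac n h j = ∅) := by
  classical
  obtain ⟨b, hb⟩ := exists_basis_first (hg.unit i)
  set φ : E 2 → E 3 := fc_phi b (h i) with hφ
  have hiso : Isometry φ := fc_isometry b (h i)
  have hφi : ∀ y, ⟪n i, φ y⟫_ℝ = h i := by
    intro y
    rw [← hb]
    exact fc_inner_zero b (h i) y
  have hφs : ∀ x, ⟪n i, x⟫_ℝ = h i → ∃ y, φ y = x := by
    intro x hx
    refine ⟨!₂[⟪b 1, x⟫_ℝ, ⟪b 2, x⟫_ℝ], ?_⟩
    have := fc_surj b x
    rw [hb, hx] at this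
    exact this
  have hin : ∀ j y, ⟪n j, φ y⟫_ℝ = h i * ⟪n j, n i⟫_ℝ + ⟪fc_w b (n j), y⟫_ℝ := by
    intro j y
    rw [hφ, fc_inner, hb]
  obtain ⟨yi, hyi, hyi'⟩ := hg.irr i
  obtain ⟨y0, hy0⟩ := hφs yi hyi
  set s : Finset ι := Finset.univ.filter (fun j => j ≠ i ∧ fc_w b (n j) ≠ 0) with hs
  have hsw : ∀ j : s, fc_w b (n j) ≠ 0 := fun j => (Finset.mem_filter.1 j.2).2.2
  have hsi : ∀ j : s, (j : ι) ≠ i := fun j => (Finset.mem_filter.1 j.2).2.1
  have hns : ∀ j, j ≠ i → j ∉ s → ∀ y, ⟪n j, φ y⟫_ℝ < h j := by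
    intro j hj hjs y
    have hw : fc_w b (n j) = 0 := by
      by_contra hw
      exact hjs (Finset.mem_filter.2 ⟨Finset.mem_univ _, hj, hw⟩)
    have h1 := hyi' j hj
    rw [← hy0, hin, hw, inner_zero_left] at h1
    rw [hin, hw, inner_zero_left]
    exact h1
  set u : s → E 2 := fun j => ‖fc_w b (n j)‖⁻¹ • fc_w b (n j) with hu
  set c : s → ℝ := fun j => ‖fc_w b (n j)‖⁻¹ * (h j - h i * ⟪n j, n i⟫_ℝ) with hc
  have hpos : ∀ j : s, 0 < ‖fc_w b (n j)‖⁻¹ := fun j => inv_pos.2 (norm_pos_iff.2 (hsw j))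
  have huy : ∀ (j : s) (y : E 2), c j - ⟪u j, y⟫_ℝ =
      ‖fc_w b (n j)‖⁻¹ * (h j - ⟪n j, φ y⟫_ℝ) := by
    intro j y
    rw [hin, hu, hc]
    simp only
    rw [real_inner_smul_left]
    ring
  have hun : ∀ j, ‖u j‖ = 1 := by
    intro j
    rw [hu]
    simp only
    rw [norm_smul, norm_inv, norm_norm]
    exact inv_mul_cancel₀ (norm_ne_zero_iff.2 (hsw j))
  have hle : ∀ (j : s) (y : E 2), ⟪u j, y⟫_ℝ ≤ c j ↔ ⟪n j, φ y⟫_ℝ ≤ h j := by
    intro j y
    rw [← sub_nonneg, huy, mul_nonneg_iff_of_pos_left (hpos j), sub_nonneg]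
  have hlt : ∀ (j : s) (y : E 2), ⟪u j, y⟫_ℝ < c j ↔ ⟪n j, φ y⟫_ℝ < h j := by
    intro j y
    rw [← sub_pos, huy, mul_pos_iff_of_pos_left (hpos j), sub_pos]
  have heq : ∀ (j : s) (y : E 2), ⟪u j, y⟫_ℝ = c j ↔ ⟪n j, φ y⟫_ℝ = h j := by
    intro j y
    rw [eq_comm, ← sub_eq_zero, huy, mul_eq_zero, sub_eq_zero, eq_comm (a := h j)]
    exact or_iff_right (hpos j).ne'
  have hmem : ∀ y, φ y ∈ Fac n h i ↔ y ∈ Pgon u c := by
    intro y
    constructor
    · rintro ⟨h1, -⟩ j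
      exact (hle j y).2 (h1 j)
    · intro hy
      refine ⟨fun j => ?_, hφi y⟩
      by_cases hj : j = i
      · rw [hj, hφi]
      by_cases hjs : j ∈ s
      · exact (hle ⟨j, hjs⟩ y).1 (hy ⟨j, hjs⟩)
      · exact (hns j hj hjs y).le
  have himg : Fac n h i = φ '' Pgon u c := by
    ext x
    constructor
    · intro hx
      obtain ⟨y, rfl⟩ := hφs x hx.2
      exact ⟨y, (hmem y).1 hx, rfl⟩
    · rintro ⟨y, hy, rfl⟩
      exact (hmem y).2 hy
  refine ⟨s, u, c, ?_, hun, ?_, ?_, ⟨y0, ?_⟩, ?_, ?_, ?_⟩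
  · intro hh
    exact (Finset.mem_filter.1 hh).2.1 rfl
  · intro j k hjk
    by_contra hne
    simp only [Prod.mk.injEq] at hjk
    obtain ⟨hu1, hc1⟩ := hjk
    set v : E 2 := !₂[-(u j) 1, (u j) 0] with hv
    have huv : ⟪u j, v⟫_ℝ = 0 := by
      rw [PiLp.inner_apply, Fin.sum_univ_two]
      simp [hv]
      ring
    have hvn : v ≠ 0 := by
      intro hh
      have h0 := congrArg (fun z : E 2 => z 0) hh
      have h1 := congrArg (fun z : E 2 => z 1) hh
      simp [hv] at h0 h1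
      have h2 := hun j
      have h3 : u j = 0 := by
        ext l
        fin_cases l
        · simpa using h1
        · simpa using h0
      rw [h3] at h2
      simp at h2
    have hcu : ⟪u j, c j • u j⟫_ℝ = c j := by
      rw [inner_smul_right, real_inner_self_eq_norm_sq, hun j]
      ring
    have hcv : ⟪u j, c j • u j + v⟫_ℝ = c j := by
      rw [inner_add_right, hcu, huv, add_zero]
    have hj1 := (heq j _).1 hcu
    have hj2 := (heq j _).1 hcv
    rw [hu1] at hcu hcv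
    have hk1 := (heq k (c j • u k)).1 (by rw [← hc1]; exact hcu)
    have hk2 := (heq k (c j • u k + v)).1 (by rw [← hc1]; exact hcv)
    rw [← hu1] at hk1 hk2
    have hd := hg.no_three (b := φ (c j • u j)) (d := φ (c j • u j + v) - φ (c j • u j))
      (hsi j).symm (hsi k).symm (fun hh => hne (Subtype.ext hh)) (hφi _) hj1 hk1
      (by rw [inner_sub_right, hφi, hφi, sub_self]) (by rw [inner_sub_right, hj1, hj2, sub_self])
      (by rw [inner_sub_right, hk1, hk2, sub_self])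
    have h4 := hiso.injective (sub_eq_zero.1 hd)
    exact hvn (by simpa using h4)
  · have : Pgon u c = φ ⁻¹' (Fac n h i) := by
      ext y
      exact (hmem y).symm
    rw [this]
    exact hiso.antilipschitz.isBounded_preimage (hg.bdd.subset (Fac_subset n h i))
  · intro j
    rw [hlt, hy0]
    exact hyi' j (hsi j)
  · rw [himg, hiso.euclideanHausdorffMeasure_image,
      EuclideanSpace.euclideanHausdorffMeasure_eq_volume]
  · intro j
    unfold elen side
    have : Fac n h i ∩ Fac n h j = φ '' {x : E 2 | x ∈ Pgon u c ∧ ⟪u j, x⟫_ℝ = c j} := by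
      ext x
      constructor
      · rintro ⟨hx, hx'⟩
        obtain ⟨y, rfl⟩ := hφs x hx.2
        exact ⟨y, ⟨(hmem y).1 hx, (heq j y).2 hx'.2⟩, rfl⟩
      · rintro ⟨y, ⟨hy, hy'⟩, rfl⟩
        have h1 := (hmem y).2 hy
        exact ⟨h1, h1.1, (heq j y).1 hy'⟩
    rw [this, hiso.euclideanHausdorffMeasure_image]
  · intro j hj hjs
    ext x
    simp only [mem_inter_iff, mem_empty_iff_false, iff_false]
    rintro ⟨hx, hx'⟩
    obtain ⟨y, rfl⟩ := hφs x hx.2
    exact absurd hx'.2 (hns j hj hjs y).ne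

theorem fac_measure_ne_top {ι : Type*} [Fintype ι] {n : ι → E 3} {h : ι → ℝ} (hg : Good n h)
    (i : ι) : μHE[2] (Fac n h i) ≠ ∞ := by
  obtain ⟨s, u, c, -, -, -, hbd, -, hvol, -⟩ := facet_chart hg i
  rw [hvol]
  exact hbd.measure_lt_top.ne

theorem farea_pos {ι : Type*} [Fintype ι] {n : ι → E 3} {h : ι → ℝ} (hg : Good n h) (i : ι) :
    0 < farea n h i := by
  have hfin := fac_measure_ne_top hg i
  obtain ⟨s, u, c, -, -, -, hbd, ⟨x, hx⟩, hvol, -⟩ := facet_chart hg i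
  unfold farea
  refine ENNReal.toReal_pos ?_ hfin
  rw [hvol]
  have hopen : IsOpen {y : E 2 | ∀ j, ⟪u j, y⟫_ℝ < c j} := by
    have : {y : E 2 | ∀ j, ⟪u j, y⟫_ℝ < c j} = ⋂ j, {y : E 2 | ⟪u j, y⟫_ℝ < c j} := by
      ext y; simp
    rw [this]
    exact isOpen_iInter_of_finite fun j => isOpen_lt (by fun_prop) continuous_const
  have h1 : 0 < volume {y : E 2 | ∀ j, ⟪u j, y⟫_ℝ < c j} := hopen.measure_pos volume ⟨x, hx⟩
  refine (h1.trans_le (measure_mono ?_)).ne'
  intro y hy j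
  exact (hy j).le

end Melzak
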