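import Pool.Agent.Helper27.Mz2.LensA

/-!
# A2: closed form of cap and kap

cap r t = r^2 arccos (t/r) - t sqrt (r^2 - t^2) for r > 0 and |t| <= r: e.g. both sides are 0 at
t = r and have the derivative -2 sqrt (r^2 - t^2) in t (the left side is the integral of
2 sqrt (r^2 - x^2) over [t, r], as the area of a region between two graphs; see also Mathlib's
Archive/AreaOfADisc). kap_eq is the case r = sqrt a, t = (1+a-b)/2. kap_one_one: r = 1, t = 1/2.
-/

open MeasureTheory Set Filter Topology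
open scoped ENNReal InnerProductSpace

namespace Melzak

lemma lb_deriv {r x : ℝ} (hr : 0 < r) (hx1 : -r < x) (hx2 : x < r) :
    HasDerivAt (fun x => -(r ^ 2 * Real.arccos (x / r) - x * Real.sqrt (r ^ 2 - x ^ 2)))
      (2 * Real.sqrt (r ^ 2 - x ^ 2)) x := by
  have hpos : 0 < r ^ 2 - x ^ 2 := by nlinarith
  have h1 : x / r ≠ -1 := by
    rw [ne_eq, div_eq_iff hr.ne']; intro h; linarith
  have h2 : x / r ≠ 1 := by
    rw [ne_eq, div_eq_iff hr.ne']; intro h; linarith
  have hA := (Real.hasDerivAt_arccos h1 h2).comp x ((hasDerivAt_id x).div_const r)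
  have hS : HasDerivAt (fun x => Real.sqrt (r ^ 2 - x ^ 2))
      (-(2 * x) / (2 * Real.sqrt (r ^ 2 - x ^ 2))) x := by
    have h3 : HasDerivAt (fun x => r ^ 2 - x ^ 2) (-(2 * x)) x := by
      simpa using (hasDerivAt_pow 2 x).const_sub (r ^ 2)
    exact h3.sqrt hpos.ne'
  have hT := ((hasDerivAt_id x).mul hS)
  have hF := ((hA.const_mul (r ^ 2)).sub hT).neg
  have hs := Real.sqrt_pos.mpr hpos
  have hsq := Real.sq_sqrt hpos.le
  have hsd : Real.sqrt (1 - (x / r) ^ 2) = Real.sqrt (r ^ 2 - x ^ 2) / r := by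
    have h4 : 1 - (x / r) ^ 2 = (r ^ 2 - x ^ 2) / r ^ 2 := by field_simp
    rw [h4, Real.sqrt_div hpos.le, Real.sqrt_sq hr.le]
  refine HasDerivAt.congr_deriv (f' := _) hF ?_
  simp only [id]
  rw [hsd]
  field_simp
  nlinarith

lemma cap_eq {r t : ℝ} (hr : 0 < r) (ht : |t| ≤ r) :
    cap r t = r ^ 2 * Real.arccos (t / r) - t * Real.sqrt (r ^ 2 - t ^ 2) := by
  rw [abs_le] at ht
  rw [cap_eq_integral, max_eq_left hr.le, abs_of_pos hr]
  rw [intervalIntegral.integral_eq_sub_of_hasDerivAt_of_le ht.2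
    (f := fun x => -(r ^ 2 * Real.arccos (x / r) - x * Real.sqrt (r ^ 2 - x ^ 2)))]
  · simp [hr.ne']
  · apply Continuous.continuousOn
    have := Real.continuous_arccos
    fun_prop
  · intro x hx
    exact lb_deriv hr (by linarith [hx.1, ht.1]) hx.2
  · apply Continuous.intervalIntegrable
    fun_prop

lemma cap_eq_zero {r t : ℝ} (ht : r ≤ t) : cap r t = 0 := la_cap_zero ht

lemma kap_eq {a b : ℝ} (ha : 0 < a) (h : |(1 + a - b) / 2| ≤ Real.sqrt a) :
    kap a b = a * ang a b - (1 + a - b) / 2 * Real.sqrt (a - ((1 + a - b) / 2) ^ 2) := by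
  unfold kap ang
  rw [cap_eq (Real.sqrt_pos.mpr ha) h, Real.sq_sqrt ha.le]
  have : (1 + a - b) / 2 / Real.sqrt a = (1 + a - b) / (2 * Real.sqrt a) := by
    rw [div_div]
  rw [this]

lemma kap_one_one : kap 1 1 = Real.pi / 3 - Real.sqrt 3 / 4 := by
  rw [kap_eq one_pos (by norm_num [abs_of_pos])]
  unfold ang
  have h1 : Real.arccos ((1 + 1 - 1) / (2 * Real.sqrt 1)) = Real.pi / 3 := by
    have : (1 + 1 - 1 : ℝ) / (2 * Real.sqrt 1) = Real.cos (Real.pi / 3) := by
      rw [Real.cos_pi_div_three, Real.sqrt_one]; norm_num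
    rw [this, Real.arccos_cos (by positivity) (by linarith [Real.pi_pos])]
  rw [h1]
  have h2 : Real.sqrt (1 - ((1 + 1 - 1 : ℝ) / 2) ^ 2) = Real.sqrt 3 / 2 := by
    rw [show (1 - ((1 + 1 - 1 : ℝ) / 2) ^ 2) = 3 / 2 ^ 2 by norm_num,
      Real.sqrt_div (by norm_num), Real.sqrt_sq (by norm_num)]
  rw [h2]; ring

lemma kap_one_zero : kap 1 0 = 0 := by
  unfold kap
  apply la_cap_zero
  norm_num

lemma two_pi_sub_lens_one_one : 2 * Real.pi - lens 1 1 = sig := by
  unfold lens sig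
  rw [kap_one_one]
  ring

end Melzak
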