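import Pool.Agent.Helper27.Mz2.Area
import Pool.Agent.Helper27.Mz2.Defs2
import Pool.Agent.Helper27.Mz2.LensB

/-!
# I2: wedges

m >= 2 an integer, del = 2 pi/(3 m), psi_j = - 2 pi/3 + (2 j + 1) del for j < m,
u_j = (cos psi_j, sin psi_j) (the sides of the inscribed polygon of the arc of 240 degrees),
eps > 0. P = {(x, y, z) : z >= 0, z <= eps (x + 1/2), cos psi_j x + sin psi_j y <= cos del, j < m}.
(The points with z in [0, eps (x+1/2)] have x >= -1/2.)
* pr P contains {p : |p| <= cos del, p_0 >= -1/2} (take z = 0), of area -> sig/2 as m -> infinity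
  (the area of {|p| <= 1, p_0 >= -1/2} is pi - cap 1 (1/2) = 2 pi/3 + sqrt 3/4 = sig/2).
* P is a polytope (bounded as the u_j and (-1, 0) positively span the plane, and 0 <= z <= ...).
* zeta 1 P <= sqrt 3 + 2 sqrt(1 + eps^2) (4 pi/3) + 4 m^2 eps or similar. The edges: by
  Good.zeta_one_pairs (the system is irredundant) or by bounding any 1-face: zeta 1 P is the
  sum over pairs of facets of the length of the intersection.
  - z = 0 and z = eps (x + 1/2): x = -1/2, |y| <= sqrt 3/2: from j = 0 and j = m - 1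
    (u_(m-1) = (cos (2 pi/3 - del), sin (2 pi/3 - del)), and cos(2 pi/3) cos psi + sin(2 pi/3) sin psi =
    cos(2 pi/3 - psi) = cos del); length <= sqrt 3.
  - side j and z = 0: points cos del u_j + t u_j', |t| <= sin del because of the constraints j-1, j+1
    (for j + 1 <= m - 1: cos del cos(2 del) + t sin (2 del) <= cos del gives t <= sin del; for
    j = m - 1 the constraint x >= -1/2 gives the same); length <= 2 sin del <= 2 del; the sum over j
    is <= 2 m del = 4 pi/3.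
  - side j and z = eps (x + 1/2): the same points lifted, length <= sqrt(1 + eps^2) 2 del.
  - side j and side k, j <> k: contained in a vertical segment of length <= eps (x + 1/2) <= 2 eps
    (x <= 1.2 ...; for m >= 2 the polygon lies in |p| <= 2, say; then the length is <= 3 eps).
  The total is <= sqrt 3 + (4 pi/3)(1 + sqrt(1 + eps^2)) + 3 m^2 eps -> sqrt 3 + 8 pi/3 = 2 sig for
  eps = m^-3, m -> infinity.
-/

open MeasureTheory Set Filter Topology
open scoped ENNReal InnerProductSpace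

namespace Melzak

private lemma wg_HE_one : (μHE[1] : Measure (E 3)) = μH[1] := by
  have h1 : (μHE[1] : Measure ℝ) = volume := by
    have := InnerProductSpace.euclideanHausdorffMeasure_eq_volume (V := ℝ)
    simpa using this
  have h2 := MeasureTheory.Measure.euclideanHausdorffMeasure_def (X := ℝ) 1
  have h3 : (Measure.addHaarScalarFactor (volume : Measure (EuclideanSpace ℝ (Fin 1)))
      μH[((1 : ℕ) : ℝ)]) = 1 := by
    have h4 : (μHE[1] : Measure ℝ) (Icc 0 1) = (volume : Measure ℝ) (Icc 0 1) := by rw [h1]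
    rw [h2, Measure.smul_apply] at h4
    have h5 : (μH[((1 : ℕ) : ℝ)] : Measure ℝ) = volume := by
      rw [Nat.cast_one]; exact hausdorffMeasure_real
    rw [h5, Real.volume_Icc] at h4
    simp only [sub_zero, ENNReal.ofReal_one] at h4
    rw [ENNReal.smul_def, smul_eq_mul, mul_one] at h4
    exact_mod_cast h4
  rw [MeasureTheory.Measure.euclideanHausdorffMeasure_def, h3, one_smul, Nat.cast_one]

private lemma wg_HE_segment (a b : E 3) : μHE[1] (segment ℝ a b) = edist a b := by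
  rw [wg_HE_one, hausdorffMeasure_segment]

private lemma wg_edge {S : Set (E 3)} {a v : E 3} {s : ℝ} (hs : 0 ≤ s)
    (h : ∀ x ∈ S, ∃ t : ℝ, |t| ≤ s ∧ x = a + t • v) : μHE[1] S ≤ ENNReal.ofReal (2 * s * ‖v‖) := by
  have hsub : S ⊆ segment ℝ (a - s • v) (a + s • v) := by
    intro x hx
    obtain ⟨t, ht, rfl⟩ := h x hx
    rcases hs.eq_or_lt with h0 | h0
    · rw [← h0] at ht ⊢
      have : t = 0 := abs_nonpos_iff.1 ht
      rw [this]
      simp
    · rw [segment_eq_image']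
      have ht' := abs_le.1 ht
      refine ⟨(t + s) / (2 * s), ⟨by apply div_nonneg <;> linarith, ?_⟩, ?_⟩
      · rw [div_le_one (by linarith)]
        linarith [ht'.2]
      · have : (a + s • v) - (a - s • v) = (2 * s) • v := by
          rw [mul_smul, two_smul]; abel
        rw [this]
        change a - s • v + ((t + s) / (2 * s)) • (2 * s) • v = _
        rw [smul_smul, div_mul_cancel₀ _ (by linarith : (2 * s) ≠ 0), add_smul]
        abel
  refine (measure_mono hsub).trans ?_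
  rw [wg_HE_segment, edist_dist, dist_eq_norm]
  apply ENNReal.ofReal_le_ofReal
  have : (a - s • v) - (a + s • v) = -((2 * s) • v) := by
    rw [mul_smul, two_smul]; abel
  rw [this, norm_neg, norm_smul, Real.norm_eq_abs, abs_of_nonneg (by linarith)]

private lemma wg_inner (a b c : ℝ) (x : E 3) : ⟪(!₂[a, b, c] : E 3), x⟫_ℝ = a * x 0 + b * x 1 + c * x 2 := by
  simp [PiLp.inner_apply, Fin.sum_univ_three]
  ring

private lemma wg_norm_sq (x : E 3) : ‖x‖ ^ 2 = x 0 ^ 2 + x 1 ^ 2 + x 2 ^ 2 := by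
  rw [EuclideanSpace.norm_sq_eq, Fin.sum_univ_three]
  simp

/-- the angle `δ` -/
private noncomputable def wgd (m : ℕ) : ℝ := 2 * Real.pi / (3 * m)
/-- the angles `ψ_j` -/
private noncomputable def wgp (m j : ℕ) : ℝ := (2 * j + 1 - m) * wgd m

private lemma wgd_pos {m : ℕ} (hm : 2 ≤ m) : 0 < wgd m := by
  unfold wgd
  have : (0 : ℝ) < m := by exact_mod_cast (by omega : 0 < m)
  have := Real.pi_pos
  positivity

private lemma wgd_mul {m : ℕ} (hm : 2 ≤ m) : m * wgd m = 2 * Real.pi / 3 := by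
  unfold wgd
  have : (m : ℝ) ≠ 0 := by exact_mod_cast (by omega : m ≠ 0)
  field_simp

private lemma wgd_le {m : ℕ} (hm : 2 ≤ m) : wgd m ≤ Real.pi / 3 := by
  have h1 := wgd_mul hm
  have h2 : (2 : ℝ) ≤ m := by exact_mod_cast hm
  have h3 := wgd_pos hm
  nlinarith

private lemma wg_cos_pos {m : ℕ} (hm : 2 ≤ m) : 0 < Real.cos (wgd m) := by
  have h1 := wgd_pos hm
  have h2 := wgd_le hm
  have := Real.pi_pos
  exact Real.cos_pos_of_mem_Ioo ⟨by linarith, by linarith⟩

private lemma wg_sin_pos {m : ℕ} (hm : 2 ≤ m) : 0 < Real.sin (wgd m) := by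
  have h1 := wgd_pos hm
  have h2 := wgd_le hm
  have := Real.pi_pos
  exact Real.sin_pos_of_pos_of_lt_pi h1 (by linarith)

private noncomputable def wgN (m : ℕ) (ε : ℝ) (i : Fin (m + 2)) : E 3 :=
  if (i : ℕ) < m then !₂[Real.cos (wgp m i), Real.sin (wgp m i), 0]
  else if (i : ℕ) = m then !₂[0, 0, -1]
  else !₂[-(ε / Real.sqrt (1 + ε ^ 2)), 0, 1 / Real.sqrt (1 + ε ^ 2)]

private noncomputable def wgH (m : ℕ) (ε : ℝ) (i : Fin (m + 2)) : ℝ :=
  if (i : ℕ) < m then Real.cos (wgd m)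
  else if (i : ℕ) = m then 0
  else ε / 2 / Real.sqrt (1 + ε ^ 2)

private lemma wg_sqrt_pos (ε : ℝ) : 0 < Real.sqrt (1 + ε ^ 2) := Real.sqrt_pos.2 (by positivity)

/-- the side function -/
private noncomputable def wgs (m j : ℕ) (x : E 3) : ℝ := Real.cos (wgp m j) * x 0 + Real.sin (wgp m j) * x 1

private lemma wg_in1 {m : ℕ} {ε : ℝ} {i : Fin (m + 2)} (h : (i : ℕ) < m) (x : E 3) :
    ⟪wgN m ε i, x⟫_ℝ = wgs m i x := by
  unfold wgN wgs
  rw [if_pos h, wg_inner]
  ring

private lemma wg_in2 {m : ℕ} {ε : ℝ} {i : Fin (m + 2)} (h : (i : ℕ) = m) (x : E 3) :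
    ⟪wgN m ε i, x⟫_ℝ = -x 2 := by
  unfold wgN
  rw [if_neg (by omega), if_pos h, wg_inner]
  ring

private lemma wg_in3 {m : ℕ} {ε : ℝ} {i : Fin (m + 2)} (h : m < (i : ℕ)) (x : E 3) :
    ⟪wgN m ε i, x⟫_ℝ = (x 2 - ε * x 0) / Real.sqrt (1 + ε ^ 2) := by
  unfold wgN
  rw [if_neg (by omega), if_neg (by omega), wg_inner]
  ring

private lemma wg_h1 {m : ℕ} {ε : ℝ} {i : Fin (m + 2)} (h : (i : ℕ) < m) : wgH m ε i = Real.cos (wgd m) := by
  unfold wgH
  rw [if_pos h]

private lemma wg_h2 {m : ℕ} {ε : ℝ} {i : Fin (m + 2)} (h : (i : ℕ) = m) : wgH m ε i = 0 := by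
  unfold wgH
  rw [if_neg (by omega), if_pos h]

private lemma wg_h3 {m : ℕ} {ε : ℝ} {i : Fin (m + 2)} (h : m < (i : ℕ)) :
    wgH m ε i = ε / 2 / Real.sqrt (1 + ε ^ 2) := by
  unfold wgH
  rw [if_neg (by omega), if_neg (by omega)]

/-- cases for the index -/
private lemma wg_cases {m : ℕ} (i : Fin (m + 2)) : (i : ℕ) < m ∨ (i : ℕ) = m ∨ m < (i : ℕ) := by omega

private lemma wg_le3 {m : ℕ} {ε : ℝ} {i : Fin (m + 2)} (h : m < (i : ℕ)) (x : E 3) :
    ⟪wgN m ε i, x⟫_ℝ ≤ wgH m ε i ↔ x 2 ≤ ε * (x 0 + 1 / 2) := by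
  rw [wg_in3 h, wg_h3 h, div_le_div_iff_of_pos_right (wg_sqrt_pos ε)]
  constructor <;> intro h <;> linarith

private lemma wg_lt3 {m : ℕ} {ε : ℝ} {i : Fin (m + 2)} (h : m < (i : ℕ)) (x : E 3) :
    ⟪wgN m ε i, x⟫_ℝ < wgH m ε i ↔ x 2 < ε * (x 0 + 1 / 2) := by
  rw [wg_in3 h, wg_h3 h, div_lt_div_iff_of_pos_right (wg_sqrt_pos ε)]
  constructor <;> intro h <;> linarith

private lemma wg_eq3 {m : ℕ} {ε : ℝ} {i : Fin (m + 2)} (h : m < (i : ℕ)) (x : E 3) :
    ⟪wgN m ε i, x⟫_ℝ = wgH m ε i ↔ x 2 = ε * (x 0 + 1 / 2) := by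
  rw [wg_in3 h, wg_h3 h, div_left_inj' (wg_sqrt_pos ε).ne']
  constructor <;> intro h <;> linarith

private lemma wg_mem {m : ℕ} {ε : ℝ} (x : E 3) : x ∈ Poly (wgN m ε) (wgH m ε) ↔
    (∀ j < m, wgs m j x ≤ Real.cos (wgd m)) ∧ 0 ≤ x 2 ∧ x 2 ≤ ε * (x 0 + 1 / 2) := by
  constructor
  · intro h
    refine ⟨fun j hj => ?_, ?_, ?_⟩
    · have := h ⟨j, by omega⟩
      rw [wg_in1 hj, wg_h1 hj] at this
      exact this
    · have := h ⟨m, by omega⟩
      rw [wg_in2 rfl, wg_h2 rfl] at this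
      linarith
    · exact (wg_le3 (i := ⟨m + 1, by omega⟩) (by simp) x).1 (h _)
  · rintro ⟨h1, h2, h3⟩ i
    rcases wg_cases i with h | h | h
    · rw [wg_in1 h, wg_h1 h]
      exact h1 _ h
    · rw [wg_in2 h, wg_h2 h]
      linarith
    · exact (wg_le3 h x).2 h3


/-! ### trigonometry of the angles -/

private lemma wg_succ (m j : ℕ) : wgp m (j + 1) = wgp m j + 2 * wgd m := by
  unfold wgp
  push_cast
  ring

private lemma wg_cos_diff {m i j : ℕ} (hm : 2 ≤ m) (hi : i < m) (hj : j < m) (hij : i ≠ j) :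
    Real.cos (wgp m i - wgp m j) < 1 := by
  have h1 : wgp m i - wgp m j = 2 * ((i : ℝ) - j) * wgd m := by unfold wgp; ring
  have h2 := wgd_mul hm
  have h3 := wgd_pos hm
  have hpi := Real.pi_pos
  have hi' : (i : ℝ) + 1 ≤ m := by exact_mod_cast hi
  have hj' : (j : ℝ) + 1 ≤ m := by exact_mod_cast hj
  have hi0 : (0 : ℝ) ≤ i := by positivity
  have hj0 : (0 : ℝ) ≤ j := by positivity
  have key : |wgp m i - wgp m j| < 2 * Real.pi := by
    rw [h1, abs_lt]
    constructor
    · nlinarith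
    · nlinarith
  rcases lt_or_eq_of_le (Real.cos_le_one (wgp m i - wgp m j)) with h | h
  · exact h
  · exfalso
    have h4 := (Real.cos_eq_one_iff_of_lt_of_lt (abs_lt.1 key).1 (abs_lt.1 key).2).1 h
    rw [h1] at h4
    have h5 : (i : ℝ) - j ≠ 0 := sub_ne_zero.2 (by exact_mod_cast hij)
    have h6 : 2 * ((i : ℝ) - j) ≠ 0 := mul_ne_zero two_ne_zero h5
    exact mul_ne_zero h6 h3.ne' h4

private lemma wg_last {m : ℕ} (hm : 2 ≤ m) : wgp m (m - 1) = 2 * Real.pi / 3 - wgd m := by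
  have h2 := wgd_mul hm
  unfold wgp
  rw [Nat.cast_sub (by omega)]
  push_cast
  linarith

private lemma wg_first {m : ℕ} (hm : 2 ≤ m) : wgp m 0 = -(2 * Real.pi / 3 - wgd m) := by
  have h2 := wgd_mul hm
  unfold wgp
  push_cast
  linarith

private lemma wg_cos23 : Real.cos (2 * Real.pi / 3) = -1 / 2 := by
  rw [show 2 * Real.pi / 3 = Real.pi - Real.pi / 3 by ring, Real.cos_pi_sub, Real.cos_pi_div_three]
  norm_num

private lemma wg_sin23 : Real.sin (2 * Real.pi / 3) = Real.sqrt 3 / 2 := by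
  rw [show 2 * Real.pi / 3 = Real.pi - Real.pi / 3 by ring, Real.sin_pi_sub, Real.sin_pi_div_three]

private lemma wg_sinlast {m : ℕ} (hm : 2 ≤ m) : Real.sqrt 3 / 2 ≤ Real.sin (2 * Real.pi / 3 - wgd m) := by
  have h1 := wgd_pos hm
  have h2 := wgd_le hm
  have hpi := Real.pi_pos
  -- sin (2π/3 - δ) = sin (π/3 + δ)
  have h3 : Real.sin (2 * Real.pi / 3 - wgd m) = Real.cos (Real.pi / 6 - wgd m) := by
    rw [← Real.cos_pi_div_two_sub]
    rw [← Real.cos_neg]
    congr 1
    ring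
  rw [h3, ← Real.cos_pi_div_six, ← Real.cos_abs (Real.pi / 6 - wgd m)]
  apply Real.cos_le_cos_of_nonneg_of_le_pi (abs_nonneg _) (by linarith)
  rw [abs_le]
  constructor <;> linarith

private lemma wg_last_rel {m : ℕ} : Real.cos (wgd m) * Real.cos (2 * Real.pi / 3 - wgd m) + 1 / 2 =
    Real.sin (wgd m) * Real.sin (2 * Real.pi / 3 - wgd m) := by
  have h := Real.cos_add (2 * Real.pi / 3 - wgd m) (wgd m)
  rw [sub_add_cancel, wg_cos23] at h
  linarith

private lemma wg_last_rel2 {m : ℕ} : Real.cos (wgd m) + Real.cos (2 * Real.pi / 3 - wgd m) / 2 =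
    Real.sqrt 3 / 2 * Real.sin (2 * Real.pi / 3 - wgd m) := by
  have h := Real.cos_sub (2 * Real.pi / 3) (2 * Real.pi / 3 - wgd m)
  rw [sub_sub_cancel, wg_cos23, wg_sin23] at h
  linarith

/-- `cos δ cos ψ_j > -1/2` -/
private lemma wg_x_pos {m j : ℕ} (hm : 2 ≤ m) (hj : j < m) :
    -(1 / 2) < Real.cos (wgd m) * Real.cos (wgp m j) := by
  have h1 := wgd_pos hm
  have h2 := wgd_le hm
  have h3 := wgd_mul hm
  have hpi := Real.pi_pos
  have h4 := wg_cos_pos hm
  have hj' : (j : ℝ) + 1 ≤ m := by exact_mod_cast hj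
  have hj0 : (0 : ℝ) ≤ j := by positivity
  have habs : |wgp m j| ≤ 2 * Real.pi / 3 - wgd m := by
    unfold wgp
    rw [abs_le]
    constructor <;> nlinarith
  have h5 : Real.cos (2 * Real.pi / 3 - wgd m) ≤ Real.cos (wgp m j) := by
    rw [← Real.cos_abs (wgp m j)]
    exact Real.cos_le_cos_of_nonneg_of_le_pi (abs_nonneg _) (by linarith) habs
  have h6 := wg_last_rel (m := m)
  have h7 := wg_sinlast hm
  have h8 := wg_sin_pos hm
  have h9 : 0 < Real.sqrt 3 := Real.sqrt_pos.2 (by norm_num)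
  have h10 : 0 < Real.sin (wgd m) * Real.sin (2 * Real.pi / 3 - wgd m) := mul_pos h8 (by linarith)
  nlinarith

/-- bounds for the coordinates -/
private lemma wg_x_le {m : ℕ} (hm : 2 ≤ m) {x : E 3} (h : ∀ j < m, wgs m j x ≤ Real.cos (wgd m)) : x 0 ≤ 1 := by
  have h3 := wgd_pos hm
  have hc := wg_cos_pos hm
  have h1 := h (m / 2) (by omega)
  have h2 := h (m - 1 - m / 2) (by omega)
  have h4 : wgp m (m - 1 - m / 2) = - wgp m (m / 2) := by
    unfold wgp
    have : ((m - 1 - m / 2 : ℕ) : ℝ) = m - 1 - (m / 2 : ℕ) := by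
      rw [Nat.cast_sub (by omega), Nat.cast_sub (by omega)]
      push_cast
      ring
    rw [this]
    ring
  unfold wgs at h1 h2
  rw [h4, Real.cos_neg, Real.sin_neg] at h2
  have h5 : Real.cos (wgd m) ≤ Real.cos (wgp m (m / 2)) := by
    have h6 : m = 2 * (m / 2) ∨ m = 2 * (m / 2) + 1 := by omega
    have h7 : wgp m (m / 2) = wgd m ∨ wgp m (m / 2) = 0 := by
      unfold wgp
      rcases h6 with h6 | h6
      · left
        have : (m : ℝ) = 2 * ((m / 2 : ℕ) : ℝ) := by exact_mod_cast h6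
        rw [← this]; ring
      · right
        have : (m : ℝ) = 2 * ((m / 2 : ℕ) : ℝ) + 1 := by exact_mod_cast h6
        rw [← this]; ring
    rcases h7 with h7 | h7
    · rw [h7]
    · rw [h7, Real.cos_zero]
      exact Real.cos_le_one _
  by_contra hcon
  push Not at hcon
  nlinarith

private lemma wg_y_le {m : ℕ} (hm : 2 ≤ m) {x : E 3} (h : ∀ j < m, wgs m j x ≤ Real.cos (wgd m))
    (h0 : -(1 / 2) ≤ x 0) : |x 1| ≤ 3 := by
  have hx := wg_x_le hm h
  have h1 := h (m - 1) (by omega)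
  have h2 := h 0 (by omega)
  unfold wgs at h1 h2
  rw [wg_last hm] at h1
  rw [wg_first hm, Real.cos_neg, Real.sin_neg] at h2
  have h3 := wg_sinlast hm
  have h4 := Real.cos_le_one (wgd m)
  have h5 := Real.neg_one_le_cos (2 * Real.pi / 3 - wgd m)
  have h6 := Real.cos_le_one (2 * Real.pi / 3 - wgd m)
  have h7 : (1.7 : ℝ) ≤ Real.sqrt 3 := Real.le_sqrt_of_sq_le (by norm_num)
  have h8 : -1 ≤ Real.cos (2 * Real.pi / 3 - wgd m) * x 0 := by nlinarith
  rw [abs_le]
  constructor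
  · by_contra hcon
    push Not at hcon
    nlinarith
  · by_contra hcon
    push Not at hcon
    nlinarith

private lemma wg_good {m : ℕ} (hm : 2 ≤ m) {ε : ℝ} (hε : 0 < ε) (hε1 : ε ≤ 1) : Good (wgN m ε) (wgH m ε) where
  unit i := by
    have h0 : ∀ v : E 3, v 0 ^ 2 + v 1 ^ 2 + v 2 ^ 2 = 1 → ‖v‖ = 1 := by
      intro v hv
      rw [← wg_norm_sq] at hv
      have := norm_nonneg v
      nlinarith
    unfold wgN
    split_ifs
    · apply h0
      simp
    · apply h0
      simp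
    · apply h0
      have h1 : (Real.sqrt (1 + ε ^ 2)) ^ 2 = 1 + ε ^ 2 := Real.sq_sqrt (by positivity)
      have h2 := wg_sqrt_pos ε
      simp only [Matrix.cons_val_zero, Matrix.cons_val_one, Matrix.cons_val]
      field_simp
      rw [h1]
      ring
  irr i := by
    have hc := wg_cos_pos hm
    rcases wg_cases i with h | h | h
    · -- side
      have hx := wg_x_pos hm h
      refine ⟨!₂[Real.cos (wgd m) * Real.cos (wgp m i), Real.cos (wgd m) * Real.sin (wgp m i),
        ε * (Real.cos (wgd m) * Real.cos (wgp m i) + 1 / 2) / 2], ?_, ?_⟩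
      · rw [wg_in1 h, wg_h1 h]
        unfold wgs
        simp only [Matrix.cons_val_zero, Matrix.cons_val_one]
        have := Real.sin_sq_add_cos_sq (wgp m i)
        linear_combination Real.cos (wgd m) * this
      · intro j hj
        have hpos : 0 < ε * (Real.cos (wgd m) * Real.cos (wgp m i) + 1 / 2) := mul_pos hε (by linarith)
        rcases wg_cases j with h' | h' | h'
        · rw [wg_in1 h', wg_h1 h']
          unfold wgs
          simp only [Matrix.cons_val_zero, Matrix.cons_val_one]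
          have h3 := wg_cos_diff hm h' h (fun h4 => hj (Fin.ext h4))
          rw [Real.cos_sub] at h3
          nlinarith
        · rw [wg_in2 h', wg_h2 h']
          simp only [Matrix.cons_val]
          linarith
        · rw [wg_lt3 h']
          simp only [Matrix.cons_val_zero, Matrix.cons_val]
          linarith
    · -- floor
      refine ⟨!₂[0, 0, 0], ?_, ?_⟩
      · rw [wg_in2 h, wg_h2 h]
        simp
      · intro j hj
        rcases wg_cases j with h' | h' | h'
        · rw [wg_in1 h', wg_h1 h']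
          unfold wgs
          simpa using hc
        · exact absurd (Fin.ext (h'.trans h.symm)) hj
        · rw [wg_lt3 h']
          simp only [Matrix.cons_val_zero, Matrix.cons_val]
          linarith
    · -- roof
      refine ⟨!₂[0, 0, ε / 2], ?_, ?_⟩
      · rw [wg_eq3 h]
        simp only [Matrix.cons_val_zero, Matrix.cons_val]
        ring
      · intro j hj
        rcases wg_cases j with h' | h' | h'
        · rw [wg_in1 h', wg_h1 h']
          unfold wgs
          simpa using hc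
        · rw [wg_in2 h', wg_h2 h']
          simp only [Matrix.cons_val]
          linarith
        · exact absurd (Fin.ext (by omega)) hj
  bdd := by
    refine (Metric.isBounded_closedBall (x := (0 : E 3)) (r := 10)).subset ?_
    intro x hx
    obtain ⟨h1, h2, h3⟩ := (wg_mem x).1 hx
    have h4 : -(1 / 2) ≤ x 0 := by
      by_contra hcon
      push Not at hcon
      nlinarith
    have h5 := wg_x_le hm h1
    have h6 := wg_y_le hm h1 h4
    have h7 : x 2 ≤ 2 := by nlinarith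
    rw [mem_closedBall_zero_iff]
    have h8 : ‖x‖ ^ 2 ≤ 10 ^ 2 := by
      rw [wg_norm_sq]
      have := abs_le.1 h6
      nlinarith
    exact (pow_le_pow_iff_left₀ (norm_nonneg x) (by norm_num) two_ne_zero).1 h8
  slater := by
    have hc := wg_cos_pos hm
    refine ⟨!₂[0, 0, ε / 4], fun j => ?_⟩
    rcases wg_cases j with h' | h' | h'
    · rw [wg_in1 h', wg_h1 h']
      unfold wgs
      simpa using hc
    · rw [wg_in2 h', wg_h2 h']
      simp only [Matrix.cons_val]
      linarith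
    · rw [wg_lt3 h']
      simp only [Matrix.cons_val_zero, Matrix.cons_val]
      linarith


/-! ### the edges -/

private lemma wg_t {m : ℕ} (hm : 2 ≤ m) {ε : ℝ} (hε : 0 < ε) {x : E 3}
    (hx : x ∈ Poly (wgN m ε) (wgH m ε)) {j : ℕ} (hj : j < m) (he : wgs m j x = Real.cos (wgd m)) :
    |-(Real.sin (wgp m j) * x 0) + Real.cos (wgp m j) * x 1| ≤ Real.sin (wgd m) := by
  obtain ⟨h1, h2, h3⟩ := (wg_mem x).1 hx
  have h4 : -(1 / 2) ≤ x 0 := by
    by_contra hcon
    push Not at hcon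
    nlinarith
  have hc := wg_cos_pos hm
  have hs := wg_sin_pos hm
  have hsc := Real.sin_sq_add_cos_sq (wgp m j)
  have hsl := wg_sinlast hm
  have h3' : 0 < Real.sqrt 3 := Real.sqrt_pos.2 (by norm_num)
  have hrel := wg_last_rel (m := m)
  set t := -(Real.sin (wgp m j) * x 0) + Real.cos (wgp m j) * x 1 with ht
  have hx0 : x 0 = Real.cos (wgd m) * Real.cos (wgp m j) - t * Real.sin (wgp m j) := by
    rw [← he, ht]
    unfold wgs
    linear_combination (-(x 0)) * hsc
  have hcs : 0 < 2 * Real.sin (wgd m) * Real.cos (wgd m) := by positivity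
  rw [abs_le]
  constructor
  · rcases Nat.eq_zero_or_pos j with h0 | h0
    · subst h0
      rw [wg_first hm, Real.cos_neg, Real.sin_neg] at hx0
      rw [hx0] at h4
      by_contra hcon
      push Not at hcon
      nlinarith
    · have h5 := h1 (j - 1) (by omega)
      have h6 : wgp m (j - 1) = wgp m j - 2 * wgd m := by
        have := wg_succ m (j - 1)
        rw [Nat.sub_add_cancel h0] at this
        linarith
      unfold wgs at h5
      rw [h6, Real.cos_sub, Real.sin_sub] at h5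
      have h7 : Real.cos (2 * wgd m) * wgs m j x - Real.sin (2 * wgd m) * t ≤ Real.cos (wgd m) := by
        rw [ht]; unfold wgs; linarith
      rw [he, Real.cos_two_mul, Real.sin_two_mul] at h7
      have h8 := Real.sin_sq_add_cos_sq (wgd m)
      by_contra hcon
      push Not at hcon
      nlinarith
  · rcases Nat.lt_or_ge (j + 1) m with h0 | h0
    · have h5 := h1 (j + 1) h0
      unfold wgs at h5
      rw [wg_succ, Real.cos_add, Real.sin_add] at h5
      have h7 : Real.cos (2 * wgd m) * wgs m j x + Real.sin (2 * wgd m) * t ≤ Real.cos (wgd m) := by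
        rw [ht]; unfold wgs; linarith
      rw [he, Real.cos_two_mul, Real.sin_two_mul] at h7
      have h8 := Real.sin_sq_add_cos_sq (wgd m)
      by_contra hcon
      push Not at hcon
      nlinarith
    · have hjm : j = m - 1 := by omega
      subst hjm
      rw [wg_last hm] at hx0
      rw [hx0] at h4
      by_contra hcon
      push Not at hcon
      nlinarith

private lemma wg_ext {x y : E 3} (h0 : x 0 = y 0) (h1 : x 1 = y 1) (h2 : x 2 = y 2) : x = y := by
  ext i
  fin_cases i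
  · exact h0
  · exact h1
  · exact h2

private lemma wg_sin_le {m : ℕ} (hm : 2 ≤ m) : Real.sin (wgd m) ≤ wgd m := Real.sin_le (wgd_pos hm).le

private lemma wg_edge1 {m : ℕ} (hm : 2 ≤ m) {ε : ℝ} (hε : 0 < ε) {i j : Fin (m + 2)} (hi : (i : ℕ) < m)
    (hj : (j : ℕ) = m) : μHE[1] (Fac (wgN m ε) (wgH m ε) i ∩ Fac (wgN m ε) (wgH m ε) j) ≤
      ENNReal.ofReal (2 * wgd m) := by
  refine (wg_edge (a := !₂[Real.cos (wgd m) * Real.cos (wgp m i), Real.cos (wgd m) * Real.sin (wgp m i), 0])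
    (v := !₂[-Real.sin (wgp m i), Real.cos (wgp m i), 0]) (s := Real.sin (wgd m)) (wg_sin_pos hm).le ?_).trans ?_
  · rintro x ⟨⟨hx, hxi⟩, -, hxj⟩
    rw [wg_in1 hi, wg_h1 hi] at hxi
    rw [wg_in2 hj, wg_h2 hj] at hxj
    refine ⟨_, wg_t hm hε hx hi hxi, ?_⟩
    have hsc := Real.sin_sq_add_cos_sq (wgp m i)
    apply wg_ext
    · simp
      rw [← hxi]
      unfold wgs
      linear_combination (-(x 0)) * hsc
    · simp
      rw [← hxi]
      unfold wgs
      linear_combination (-(x 1)) * hsc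
    · simp
      linarith
  · apply ENNReal.ofReal_le_ofReal
    have hn : ‖(!₂[-Real.sin (wgp m i), Real.cos (wgp m i), 0] : E 3)‖ = 1 := by
      have h1 : ‖(!₂[-Real.sin (wgp m i), Real.cos (wgp m i), 0] : E 3)‖ ^ 2 = 1 := by
        rw [wg_norm_sq]; simp
      have := norm_nonneg (!₂[-Real.sin (wgp m i), Real.cos (wgp m i), 0] : E 3)
      nlinarith
    rw [hn, mul_one]
    linarith [wg_sin_le hm]

private lemma wg_edge2 {m : ℕ} (hm : 2 ≤ m) {ε : ℝ} (hε : 0 < ε) {i j : Fin (m + 2)} (hi : (i : ℕ) < m)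
    (hj : m < (j : ℕ)) : μHE[1] (Fac (wgN m ε) (wgH m ε) i ∩ Fac (wgN m ε) (wgH m ε) j) ≤
      ENNReal.ofReal (2 * wgd m * Real.sqrt (1 + ε ^ 2)) := by
  refine (wg_edge (a := !₂[Real.cos (wgd m) * Real.cos (wgp m i), Real.cos (wgd m) * Real.sin (wgp m i),
      ε * (Real.cos (wgd m) * Real.cos (wgp m i) + 1 / 2)])
    (v := !₂[-Real.sin (wgp m i), Real.cos (wgp m i), -(ε * Real.sin (wgp m i))])
    (s := Real.sin (wgd m)) (wg_sin_pos hm).le ?_).trans ?_
  · rintro x ⟨⟨hx, hxi⟩, -, hxj⟩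
    rw [wg_in1 hi, wg_h1 hi] at hxi
    rw [wg_eq3 hj] at hxj
    refine ⟨_, wg_t hm hε hx hi hxi, ?_⟩
    have hsc := Real.sin_sq_add_cos_sq (wgp m i)
    apply wg_ext
    · simp
      rw [← hxi]
      unfold wgs
      linear_combination (-(x 0)) * hsc
    · simp
      rw [← hxi]
      unfold wgs
      linear_combination (-(x 1)) * hsc
    · rw [hxj]
      simp
      rw [← hxi]
      unfold wgs
      linear_combination (-(ε * x 0)) * hsc
  · apply ENNReal.ofReal_le_ofReal
    have hn : ‖(!₂[-Real.sin (wgp m i), Real.cos (wgp m i), -(ε * Real.sin (wgp m i))] : E 3)‖ ≤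
        Real.sqrt (1 + ε ^ 2) := by
      apply Real.le_sqrt_of_sq_le
      rw [wg_norm_sq]
      simp
      have := Real.sin_sq_le_one (wgp m i)
      have h2 : (ε * Real.sin (wgp m i)) ^ 2 ≤ ε ^ 2 := by
        rw [mul_pow]
        nlinarith [sq_nonneg ε]
      linarith
    have h1 := wg_sin_le hm
    have h2 := wg_sin_pos hm
    have h3 := wg_sqrt_pos ε
    have h4 := norm_nonneg (!₂[-Real.sin (wgp m i), Real.cos (wgp m i), -(ε * Real.sin (wgp m i))] : E 3)
    nlinarith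

private lemma wg_edge3 {m : ℕ} (hm : 2 ≤ m) {ε : ℝ} (hε : 0 < ε) {i j : Fin (m + 2)} (hi : (i : ℕ) = m)
    (hj : m < (j : ℕ)) : μHE[1] (Fac (wgN m ε) (wgH m ε) i ∩ Fac (wgN m ε) (wgH m ε) j) ≤
      ENNReal.ofReal (Real.sqrt 3) := by
  refine (wg_edge (a := !₂[-(1 / 2), 0, 0]) (v := !₂[0, 1, 0]) (s := Real.sqrt 3 / 2) (by positivity) ?_).trans ?_
  · rintro x ⟨⟨hx, hxi⟩, -, hxj⟩
    rw [wg_in2 hi, wg_h2 hi] at hxi
    rw [wg_eq3 hj] at hxj
    obtain ⟨h1, h2, h3⟩ := (wg_mem x).1 hx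
    have hx2 : x 2 = 0 := by linarith
    rw [hx2] at hxj
    have hx0 : x 0 = -(1 / 2) := by
      have := (mul_eq_zero.1 hxj.symm).resolve_left hε.ne'
      linarith
    refine ⟨x 1, ?_, ?_⟩
    · have h4 := h1 (m - 1) (by omega)
      have h5 := h1 0 (by omega)
      unfold wgs at h4 h5
      rw [wg_last hm, hx0] at h4
      rw [wg_first hm, Real.cos_neg, Real.sin_neg, hx0] at h5
      have h6 := wg_last_rel2 (m := m)
      have h7 := wg_sinlast hm
      have h8 : 0 < Real.sqrt 3 := Real.sqrt_pos.2 (by norm_num)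
      rw [abs_le]
      constructor
      · by_contra hcon
        push Not at hcon
        nlinarith
      · by_contra hcon
        push Not at hcon
        nlinarith
    · apply wg_ext
      · simp [hx0]
      · simp
      · simp [hx2]
  · apply ENNReal.ofReal_le_ofReal
    have hn : ‖(!₂[0, 1, 0] : E 3)‖ = 1 := by
      have h1 : ‖(!₂[0, 1, 0] : E 3)‖ ^ 2 = 1 := by
        rw [wg_norm_sq]; simp
      have := norm_nonneg (!₂[0, 1, 0] : E 3)
      nlinarith
    rw [hn]
    linarith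

private lemma wg_edge4 {m : ℕ} (hm : 2 ≤ m) {ε : ℝ} (hε : 0 < ε) {i j : Fin (m + 2)} (hi : (i : ℕ) < m)
    (hj : (j : ℕ) < m) (hij : i ≠ j) : μHE[1] (Fac (wgN m ε) (wgH m ε) i ∩ Fac (wgN m ε) (wgH m ε) j) ≤
      ENNReal.ofReal (3 / 2 * ε) := by
  rcases Set.eq_empty_or_nonempty (Fac (wgN m ε) (wgH m ε) i ∩ Fac (wgN m ε) (wgH m ε) j) with he | ⟨a, ha⟩
  · rw [he]; simp
  have hij' : (i : ℕ) ≠ j := fun h => hij (Fin.ext h)
  have hpi := Real.pi_pos
  have hd := wgd_pos hm
  have hm3 := wgd_mul hm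
  have hc := wg_cos_pos hm
  have hun : ∀ x ∈ Fac (wgN m ε) (wgH m ε) i ∩ Fac (wgN m ε) (wgH m ε) j, x 0 = a 0 ∧ x 1 = a 1 := by
    rintro x ⟨⟨hx, hxi⟩, -, hxj⟩
    obtain ⟨⟨ha1, hai⟩, -, haj⟩ := ha
    rw [wg_in1 hi, wg_h1 hi] at hxi hai
    rw [wg_in1 hj, wg_h1 hj] at hxj haj
    have hsin : Real.sin (wgp m j - wgp m i) ≠ 0 := by
      intro h0
      obtain ⟨k, hk⟩ := Real.sin_eq_zero_iff.1 h0
      have h1 : wgp m j - wgp m i = 2 * ((j : ℕ) - (i : ℕ) : ℝ) * wgd m := by unfold wgp; ring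
      have hi' : ((i : ℕ) : ℝ) + 1 ≤ m := by exact_mod_cast hi
      have hj' : ((j : ℕ) : ℝ) + 1 ≤ m := by exact_mod_cast hj
      have hi0 : (0 : ℝ) ≤ ((i : ℕ) : ℝ) := by positivity
      have hj0 : (0 : ℝ) ≤ ((j : ℕ) : ℝ) := by positivity
      have h2 : |wgp m j - wgp m i| < 2 * Real.pi := by
        rw [h1, abs_lt]
        constructor <;> nlinarith
      have h3 : wgp m j - wgp m i ≠ 0 := by
        rw [h1]
        have : ((j : ℕ) : ℝ) - (i : ℕ) ≠ 0 := sub_ne_zero.2 (by exact_mod_cast hij'.symm)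
        exact mul_ne_zero (mul_ne_zero two_ne_zero this) hd.ne'
      have hk2 : |(k : ℝ)| < 2 := by
        rw [← hk, abs_mul, abs_of_pos hpi] at h2
        exact lt_of_mul_lt_mul_right h2 hpi.le
      have hk3 : k ≠ 0 := by
        rintro rfl
        apply h3
        rw [← hk]; simp
      have hk4 : k = 1 ∨ k = -1 := by
        have h5 : |k| < 2 := by exact_mod_cast hk2
        rw [abs_lt] at h5
        omega
      -- opposite sides
      have hcos : Real.cos (wgp m j - wgp m i) = -1 := by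
        rw [← hk]
        rcases hk4 with rfl | rfl
        · simp
        · simp
      -- u_j = - u_i
      have h4 : (Real.cos (wgp m j) + Real.cos (wgp m i)) ^ 2 + (Real.sin (wgp m j) + Real.sin (wgp m i)) ^ 2 = 0 := by
        rw [Real.cos_sub] at hcos
        have e1 := Real.sin_sq_add_cos_sq (wgp m i)
        have e2 := Real.sin_sq_add_cos_sq (wgp m j)
        linear_combination e1 + e2 + 2 * hcos
      have h5 : Real.cos (wgp m j) = -Real.cos (wgp m i) := by nlinarith [sq_nonneg (Real.cos (wgp m j) + Real.cos (wgp m i)), sq_nonneg (Real.sin (wgp m j) + Real.sin (wgp m i))]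
      have h6 : Real.sin (wgp m j) = -Real.sin (wgp m i) := by nlinarith [sq_nonneg (Real.cos (wgp m j) + Real.cos (wgp m i)), sq_nonneg (Real.sin (wgp m j) + Real.sin (wgp m i))]
      unfold wgs at hai haj
      rw [h5, h6] at haj
      linarith
    unfold wgs at hxi hxj hai haj
    rw [Real.sin_sub] at hsin
    constructor
    · have : (Real.sin (wgp m j) * Real.cos (wgp m i) - Real.cos (wgp m j) * Real.sin (wgp m i)) * (x 0 - a 0) = 0 := by
        linear_combination Real.sin (wgp m j) * (hxi - hai) - Real.sin (wgp m i) * (hxj - haj)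
      have := (mul_eq_zero.1 this).resolve_left hsin
      linarith
    · have : (Real.sin (wgp m j) * Real.cos (wgp m i) - Real.cos (wgp m j) * Real.sin (wgp m i)) * (x 1 - a 1) = 0 := by
        linear_combination Real.cos (wgp m i) * (hxj - haj) - Real.cos (wgp m j) * (hxi - hai)
      have := (mul_eq_zero.1 this).resolve_left hsin
      linarith
  have hax := wg_x_le hm ((wg_mem a).1 ha.1.1).1
  have ha0 : 0 ≤ ε * (a 0 + 1 / 2) := ((wg_mem a).1 ha.1.1).2.1.trans ((wg_mem a).1 ha.1.1).2.2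
  refine (wg_edge (a := !₂[a 0, a 1, ε * (a 0 + 1 / 2) / 2]) (v := !₂[0, 0, 1])
    (s := ε * (a 0 + 1 / 2) / 2) (by linarith) ?_).trans ?_
  · intro x hx
    obtain ⟨h0, h1⟩ := hun x hx
    obtain ⟨-, h2, h3⟩ := (wg_mem x).1 hx.1.1
    rw [h0] at h3
    refine ⟨x 2 - ε * (a 0 + 1 / 2) / 2, ?_, ?_⟩
    · rw [abs_le]
      constructor <;> linarith
    · apply wg_ext
      · simp [h0]
      · simp [h1]
      · simp
  · apply ENNReal.ofReal_le_ofReal
    have hn : ‖(!₂[0, 0, 1] : E 3)‖ = 1 := by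
      have h1 : ‖(!₂[0, 0, 1] : E 3)‖ ^ 2 = 1 := by
        rw [wg_norm_sq]; simp
      have := norm_nonneg (!₂[0, 0, 1] : E 3)
      nlinarith
    rw [hn]
    nlinarith


/-- the bound for the length of the edge of the facets `i < j` -/
private noncomputable def wgG (m : ℕ) (ε : ℝ) (i j : Fin (m + 2)) : ℝ :=
  if (j : ℕ) < m then (if (i : ℕ) < m then 3 / 2 * ε else 0)
  else if (j : ℕ) = m then (if (i : ℕ) < m then 2 * wgd m else 0)
  else (if (i : ℕ) < m then 2 * wgd m * Real.sqrt (1 + ε ^ 2) else if (i : ℕ) = m then Real.sqrt 3 else 0)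

private lemma wgG_nonneg {m : ℕ} (hm : 2 ≤ m) {ε : ℝ} (hε : 0 < ε) (i j : Fin (m + 2)) : 0 ≤ wgG m ε i j := by
  have := wgd_pos hm
  unfold wgG
  split_ifs <;> positivity

private lemma wgG_sum {m : ℕ} (hm : 2 ≤ m) (ε : ℝ) : ∑ j : Fin (m + 2), ∑ i : Fin (m + 2), wgG m ε i j =
    m ^ 2 * (3 / 2 * ε) + 4 * Real.pi / 3 + (4 * Real.pi / 3 * Real.sqrt (1 + ε ^ 2) + Real.sqrt 3) := by
  have h1 := wgd_mul hm
  rw [Fin.sum_univ_castSucc, Fin.sum_univ_castSucc]
  simp only [Fin.sum_univ_castSucc (n := m + 1), Fin.sum_univ_castSucc (n := m)]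
  simp only [wgG, Fin.val_castSucc, Fin.val_last, Fin.is_lt, if_true, lt_irrefl, if_false,
    Finset.sum_const, Finset.card_univ, Fintype.card_fin, nsmul_eq_mul]
  have h2 : ¬ (m + 1 < m) := by omega
  have h3 : ¬ (m + 1 = m) := by omega
  simp only [h2, h3, if_false]
  linear_combination (2 + 2 * Real.sqrt (1 + ε ^ 2)) * h1

private lemma wg_edge_all {m : ℕ} (hm : 2 ≤ m) {ε : ℝ} (hε : 0 < ε) {i j : Fin (m + 2)} (hij : i < j) :
    μHE[1] (Fac (wgN m ε) (wgH m ε) i ∩ Fac (wgN m ε) (wgH m ε) j) ≤ ENNReal.ofReal (wgG m ε i j) := by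
  have hij' : (i : ℕ) < j := hij
  unfold wgG
  rcases wg_cases j with h | h | h
  · rw [if_pos h, if_pos (by omega)]
    exact wg_edge4 hm hε (by omega) h hij.ne
  · rw [if_neg (by omega), if_pos h, if_pos (by omega)]
    exact wg_edge1 hm hε (by omega) h
  · rw [if_neg (by omega), if_neg (by omega)]
    rcases wg_cases i with h' | h' | h'
    · rw [if_pos h']
      exact wg_edge2 hm hε h' h
    · rw [if_neg (by omega), if_pos h']
      exact wg_edge3 hm hε h' h
    · omega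

theorem wedge_one (m : ℕ) (hm : 2 ≤ m) {ε : ℝ} (hε : 0 < ε) (hε1 : ε ≤ 1) :
    ∃ P : Set (E 3), IsPolytope P ∧
      zeta 1 P ≤ ENNReal.ofReal (Real.sqrt 3 + 4 * Real.pi / 3 * (1 + Real.sqrt (1 + ε ^ 2)) +
        4 * (m : ℝ) ^ 2 * ε) ∧
      {p : E 2 | ‖p‖ ≤ Real.cos (2 * Real.pi / (3 * m)) ∧ -(1 / 2) ≤ p 0} ⊆ pr '' P := by
  have hg := wg_good hm hε hε1
  refine ⟨Poly (wgN m ε) (wgH m ε), hg.isPolytope, ?_, ?_⟩
  · rw [hg.zeta_one_pairs, Finset.sum_filter]
    calc ∑ p : Fin (m + 2) × Fin (m + 2), (if p.1 < p.2 then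
          μHE[1] (Fac (wgN m ε) (wgH m ε) p.1 ∩ Fac (wgN m ε) (wgH m ε) p.2) else 0)
        ≤ ∑ p : Fin (m + 2) × Fin (m + 2), ENNReal.ofReal (wgG m ε p.1 p.2) := by
          apply Finset.sum_le_sum
          intro p _
          split_ifs with h
          · exact wg_edge_all hm hε h
          · positivity
      _ = ENNReal.ofReal (∑ p : Fin (m + 2) × Fin (m + 2), wgG m ε p.1 p.2) :=
          (ENNReal.ofReal_sum_of_nonneg fun p _ => wgG_nonneg hm hε _ _).symm
      _ ≤ _ := by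
          apply ENNReal.ofReal_le_ofReal
          rw [Fintype.sum_prod_type_right, wgG_sum hm]
          have : 0 ≤ (m : ℝ) ^ 2 * ε := by positivity
          linarith
  · rintro p ⟨hp, hp0⟩
    refine ⟨!₂[p 0, p 1, 0], (wg_mem _).2 ⟨fun j hj => ?_, by simp, ?_⟩, ?_⟩
    · unfold wgs
      simp only [Matrix.cons_val_zero, Matrix.cons_val_one]
      have h1 : ‖p‖ ^ 2 = p 0 ^ 2 + p 1 ^ 2 := la_norm_sq p
      have h2 := Real.sin_sq_add_cos_sq (wgp m j)
      have h3 := wg_cos_pos hm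
      have h4 : ‖p‖ ≤ Real.cos (wgd m) := hp
      have h5 : (Real.cos (wgp m j) * p 0 + Real.sin (wgp m j) * p 1) ^ 2 ≤ ‖p‖ ^ 2 := by
        rw [h1]
        nlinarith [sq_nonneg (Real.sin (wgp m j) * p 0 - Real.cos (wgp m j) * p 1)]
      exact (le_abs_self _).trans ((abs_le_of_sq_le_sq h5 (norm_nonneg p)).trans h4)
    · simp only [Matrix.cons_val_zero, Matrix.cons_val]
      have : 0 ≤ ε * (p 0 + 1 / 2) := mul_nonneg hε.le (by linarith)
      exact this
    · unfold pr
      ext i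
      fin_cases i
      · simp
      · simp

theorem wedge_area {r : ℝ} (hr : 0 ≤ r) (hr1 : r ≤ 1) :
    ENNReal.ofReal (sig / 2 - Real.pi * (1 - r ^ 2)) ≤
      volume {p : E 2 | ‖p‖ ≤ r ∧ -(1 / 2) ≤ p 0} := by
  have hcap : cap 1 (-(1 / 2)) = sig / 2 := by
    rw [cap_eq one_pos (by norm_num [abs_of_pos])]
    have h1 : Real.arccos (-(1 / 2) / 1) = 2 * Real.pi / 3 := by
      have : (-(1 / 2) / 1 : ℝ) = Real.cos (2 * Real.pi / 3) := by rw [wg_cos23]; norm_num
      rw [this, Real.arccos_cos (by positivity) (by linarith [Real.pi_pos])]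
    have h2 : Real.sqrt (1 ^ 2 - (-(1 / 2)) ^ 2) = Real.sqrt 3 / 2 := by
      rw [show (1 ^ 2 - (-(1 / 2)) ^ 2 : ℝ) = 3 / 2 ^ 2 by norm_num,
        Real.sqrt_div (by norm_num), Real.sqrt_sq (by norm_num)]
    rw [h1, h2]
    unfold sig
    ring
  have hsub : {p : E 2 | ‖p‖ ≤ 1 ∧ -(1 / 2) ≤ p 0} ⊆
      {p : E 2 | ‖p‖ ≤ r ∧ -(1 / 2) ≤ p 0} ∪ (Metric.closedBall 0 1 \ Metric.closedBall 0 r) := by
    rintro p ⟨h1, h2⟩
    by_cases h : ‖p‖ ≤ r
    · exact Or.inl ⟨h, h2⟩
    · right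
      refine ⟨by simpa using h1, ?_⟩
      simpa using h
  have h1 : ENNReal.ofReal (sig / 2) = volume {p : E 2 | ‖p‖ ≤ 1 ∧ -(1 / 2) ≤ p 0} := by
    rw [← hcap]
    unfold cap
    exact ENNReal.ofReal_toReal (la_fin _ _)
  have hb : ∀ s : ℝ, 0 ≤ s → volume (Metric.closedBall (0 : E 2) s) = ENNReal.ofReal (Real.pi * s ^ 2) := by
    intro s hs
    rw [← la_ball (0 : E 2) hs, ENNReal.ofReal_toReal (isCompact_closedBall (0 : E 2) s).measure_lt_top.ne]
  have h2 : volume (Metric.closedBall (0 : E 2) 1 \ Metric.closedBall 0 r) = ENNReal.ofReal (Real.pi * (1 - r ^ 2)) := by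
    rw [measure_sdiff (Metric.closedBall_subset_closedBall hr1) measurableSet_closedBall.nullMeasurableSet
      (isCompact_closedBall (0 : E 2) r).measure_lt_top.ne, hb 1 zero_le_one, hb r hr,
      ← ENNReal.ofReal_sub _ (by positivity)]
    congr 1
    ring
  have h3 : volume {p : E 2 | ‖p‖ ≤ 1 ∧ -(1 / 2) ≤ p 0} ≤ volume {p : E 2 | ‖p‖ ≤ r ∧ -(1 / 2) ≤ p 0} +
      volume (Metric.closedBall (0 : E 2) 1 \ Metric.closedBall 0 r) :=
    (measure_mono hsub).trans (measure_union_le _ _)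
  rw [← h1, h2] at h3
  rw [ENNReal.ofReal_sub _ (mul_nonneg Real.pi_pos.le (by nlinarith))]
  exact tsub_le_iff_right.2 h3


private lemma wg_isBody {P : Set (E 3)} (hP : IsPolytope P) : IsBody P := by
  obtain ⟨m, n, h, rfl⟩ := hP.halfspaces
  refine ⟨Metric.isCompact_of_isClosed_isBounded ?_ hP.bounded, ?_, hP.nonempty_interior⟩
  · have : {x : E 3 | ∀ i, ⟪n i, x⟫_ℝ ≤ h i} = ⋂ i, {x | ⟪n i, x⟫_ℝ ≤ h i} := by ext x; simp
    rw [this]
    exact isClosed_iInter fun i => isClosed_le (by fun_prop) continuous_const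
  · intro x hx y hy a b ha hb hab i
    have h1 := hx i
    have h2 := hy i
    rw [inner_add_right, inner_smul_right, inner_smul_right]
    calc a * ⟪n i, x⟫_ℝ + b * ⟪n i, y⟫_ℝ ≤ a * h i + b * h i :=
          add_le_add (mul_le_mul_of_nonneg_left h1 ha) (mul_le_mul_of_nonneg_left h2 hb)
      _ = h i := by rw [← add_mul, hab, one_mul]

theorem wedge {ε : ℝ} (hε : 0 < ε) : ∃ P : Set (E 3), IsPolytope P ∧
    zeta 1 P ≤ ENNReal.ofReal (2 * sig + ε) ∧ ENNReal.ofReal (sig - ε) ≤ zetaLim 2 P := by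
  obtain ⟨k, hk⟩ := exists_nat_gt (15 / ε)
  obtain ⟨m, hm, hkm⟩ : ∃ m : ℕ, 2 ≤ m ∧ 15 / ε ≤ m := by
    refine ⟨k + 2, by omega, ?_⟩
    push_cast
    linarith
  have hm2 : (2 : ℝ) ≤ m := by exact_mod_cast hm
  have hm0 : (0 : ℝ) < m := by linarith
  have hkm' : 15 / (m : ℝ) ≤ ε := by
    rw [div_le_iff₀ hε] at hkm
    rw [div_le_iff₀ hm0]
    linarith
  set η : ℝ := 1 / (m : ℝ) ^ 3 with hη
  have hη0 : 0 < η := by positivity
  have hη1 : η ≤ 1 / m / 4 := by
    rw [hη, div_div, div_le_div_iff_of_pos_left one_pos (by positivity) (by positivity)]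
    nlinarith [sq_nonneg ((m : ℝ) - 2)]
  have hm1 : 1 / (m : ℝ) ≤ 1 / 2 := by
    rw [div_le_div_iff_of_pos_left one_pos hm0 (by norm_num)]
    exact hm2
  have h1m : 0 < 1 / (m : ℝ) := by positivity
  obtain ⟨P, hP, hz, hpr⟩ := wedge_one m hm hη0 (by linarith)
  have hpi := Real.pi_lt_d2
  have hpi0 := Real.pi_pos
  refine ⟨P, hP, hz.trans (ENNReal.ofReal_le_ofReal ?_), ?_⟩
  · have h1 : Real.sqrt (1 + η ^ 2) ≤ 1 + η := by
      rw [Real.sqrt_le_left (by linarith)]
      nlinarith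
    have h2 : 4 * (m : ℝ) ^ 2 * η = 4 * (1 / m) := by
      rw [hη]; field_simp
    have h3 : 15 / (m : ℝ) = 15 * (1 / m) := by ring
    rw [h2]
    unfold sig
    have h4 : 4 * Real.pi / 3 * Real.sqrt (1 + η ^ 2) ≤ 4 * Real.pi / 3 * (1 + η) :=
      mul_le_mul_of_nonneg_left h1 (by positivity)
    have h5 : 4 * Real.pi / 3 * η ≤ 5 * (1 / m) := by nlinarith
    linarith
  · refine le_trans ?_ (zetaLim_two_ge (wg_isBody hP))
    have hc := wg_cos_pos hm
    have h1 := (wedge_area hc.le (Real.cos_le_one _)).trans (measure_mono hpr)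
    refine le_trans ?_ (mul_le_mul_right h1 2)
    rw [show (2 : ℝ≥0∞) = ENNReal.ofReal 2 by simp, ← ENNReal.ofReal_mul (by norm_num)]
    apply ENNReal.ofReal_le_ofReal
    have h2 := Real.sin_sq_add_cos_sq (wgd m)
    have h3 := wg_sin_le hm
    have h4 := wg_sin_pos hm
    have h5 := wgd_pos hm
    have h6 : wgd m ≤ 2.1 * (1 / m) := by
      have : wgd m = 2 * Real.pi / 3 * (1 / m) := by unfold wgd; field_simp
      rw [this]
      apply mul_le_mul_of_nonneg_right _ h1m.le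
      linarith
    have h7 : Real.sin (wgd m) ^ 2 ≤ 2.25 * (1 / m) := by
      have : Real.sin (wgd m) ^ 2 ≤ (2.1 * (1 / m)) ^ 2 := pow_le_pow_left₀ h4.le (h3.trans h6) 2
      nlinarith
    have h8 : 15 / (m : ℝ) = 15 * (1 / m) := by ring
    nlinarith

end Melzak
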