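import Pool.Agent.Helper27.Mz2.Upper
import Pool.Agent.Helper27.Mz2.Wedge
import Pool.Agent.Helper27.Melzak.Final

/-!
# J2: the theorem for the pair (3, 2)

gamma 3 2 = (4 sig)^(-1/2) = (16 pi/3 + 2 sqrt 3)^(-1/2).
Upper bound: for a body K and polytopes P_n -> K: zetaLim 2 K <= liminf zeta 2 (P_n) <=
(4 sig)^(-1) liminf (zeta 1 P_n)^2 = (4 sig)^(-1) (liminf zeta 1 P_n)^2; take the infimum over the
sequences: zetaLim 2 K ^ (1/2) <= (4 sig)^(-1/2) zetaLim 1 K.
Lower bound: wedge, with the body K = P: zetaLim 1 P <= zeta 1 P (constant sequence).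
The strict inequality for polytopes is upper.
-/

open MeasureTheory Set Filter Topology
open scoped ENNReal InnerProductSpace

namespace Melzak

private lemma fj_sig_pos : 0 < sig := by
  unfold sig
  have := Real.pi_pos
  positivity

/-- The constant. -/
private noncomputable def fjG : ℝ≥0∞ := ENNReal.ofReal ((4 * sig) ^ (-(1 / 2) : ℝ))

private lemma fjG_sq : fjG ^ 2 * ENNReal.ofReal (4 * sig) = 1 := by
  have h := fj_sig_pos
  unfold fjG
  rw [← ENNReal.ofReal_pow (Real.rpow_nonneg (by positivity) _), ← ENNReal.ofReal_mul (by positivity),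
    ← Real.rpow_natCast, ← Real.rpow_mul (by positivity)]
  norm_num
  rw [Real.rpow_neg_one]
  exact inv_mul_cancel₀ (by positivity)

private lemma fj_all {P : Set (E 3)} (hP : IsPolytope P) : zeta 2 P < (fjG * zeta 1 P) ^ 2 := by
  have h := upper hP
  have h0 : fjG ^ 2 ≠ 0 := by
    intro h0
    have := fjG_sq
    rw [h0, zero_mul] at this
    exact zero_ne_one this
  have ht : fjG ^ 2 ≠ ∞ := ENNReal.pow_ne_top ENNReal.ofReal_ne_top
  have h1 : fjG ^ 2 * (ENNReal.ofReal (4 * sig) * zeta 2 P) < fjG ^ 2 * zeta 1 P ^ 2 :=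
    (ENNReal.mul_lt_mul_iff_right h0 ht).2 h
  rwa [← mul_assoc, fjG_sq, one_mul, ← mul_pow] at h1

private lemma fj_sqrt (x : ℝ≥0∞) : (x ^ 2) ^ (1 / (2 : ℝ)) = x := by
  rw [← ENNReal.rpow_natCast, ← ENNReal.rpow_mul]
  norm_num

private lemma fj_upper : gamma 3 2 ≤ fjG := by
  have hΓ0 : fjG ≠ 0 := by
    intro h0
    have := fjG_sq
    rw [h0] at this
    simp at this
  have hΓt : fjG ≠ ∞ := ENNReal.ofReal_ne_top
  unfold gamma
  refine iSup_le fun K => iSup_le fun hK => iSup_le fun _ => ?_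
  apply ENNReal.div_le_of_le_mul
  rw [← ENNReal.div_le_iff' hΓ0 hΓt]
  nth_rewrite 2 [zetaLim]
  refine le_iInf fun Q => le_iInf fun hQ => le_iInf fun hc => ?_
  rw [ENNReal.div_le_iff' hΓ0 hΓt]
  have h1 : zetaLim 2 K ≤ liminf (fun n => zeta 2 (Q n)) atTop :=
    iInf_le_of_le Q (iInf_le_of_le hQ (iInf_le_of_le hc le_rfl))
  have h2 : liminf (fun n => zeta 2 (Q n)) atTop ≤
      liminf (fun n => (fjG * zeta 1 (Q n)) ^ 2) atTop := by
    refine liminf_le_liminf (Eventually.of_forall fun n => ?_)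
    exact (fj_all (hQ n)).le
  have h3 : liminf (fun n => (fjG * zeta 1 (Q n)) ^ 2) atTop
      = (fjG * liminf (fun n => zeta 1 (Q n)) atTop) ^ 2 := by
    have hmono : Monotone (fun x : ℝ≥0∞ => (fjG * x) ^ 2) := fun x y hxy =>
      pow_le_pow_left' (mul_le_mul_right hxy fjG) 2
    have hcont : Continuous (fun x : ℝ≥0∞ => (fjG * x) ^ 2) :=
      (ENNReal.continuous_pow 2).comp (ENNReal.continuous_const_mul hΓt)
    exact (hmono.map_liminf_of_continuousAt (fun n => zeta 1 (Q n)) hcont.continuousAt).symm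
  calc zetaLim 2 K ^ (1 / ((2 : ℕ) : ℝ))
      ≤ ((fjG * liminf (fun n => zeta 1 (Q n)) atTop) ^ 2) ^ (1 / (2 : ℝ)) := by
        norm_num only [Nat.cast_ofNat]
        exact ENNReal.rpow_le_rpow ((h1.trans h2).trans h3.le) (by norm_num)
    _ = _ := fj_sqrt _

private lemma fj_isBody {P : Set (E 3)} (hP : IsPolytope P) : IsBody P := by
  obtain ⟨m, n, h, rfl⟩ := hP.halfspaces
  refine ⟨Metric.isCompact_of_isClosed_isBounded ?_ hP.bounded, ?_, hP.nonempty_interior⟩
  · have : {x : E 3 | ∀ i, ⟪n i, x⟫_ℝ ≤ h i} = ⋂ i, {x | ⟪n i, x⟫_ℝ ≤ h i} := by ext x; simp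
    rw [this]
    exact isClosed_iInter fun i => isClosed_le (by fun_prop) continuous_const
  · intro x hx y hy a b ha hb hab i
    have h1 := hx i
    have h2 := hy i
    rw [inner_add_right, inner_smul_right, inner_smul_right]
    calc a * ⟪n i, x⟫_ℝ + b * ⟪n i, y⟫_ℝ ≤ a * h i + b * h i :=
          add_le_add (mul_le_mul_of_nonneg_left h1 ha) (mul_le_mul_of_nonneg_left h2 hb)
      _ = h i := by rw [← add_mul, hab, one_mul]

private lemma fj_lower_eps {ε : ℝ} (hε : 0 < ε) (hε1 : ε < sig) :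
    ENNReal.ofReal (Real.sqrt (sig - ε) / (2 * sig + ε)) ≤ gamma 3 2 := by
  have hs := fj_sig_pos
  obtain ⟨P, hP, h1, h2⟩ := wedge hε
  have hbody := fj_isBody hP
  have h3 : zetaLim 1 P ≤ zeta 1 P := by
    unfold zetaLim
    refine iInf_le_of_le (fun _ => P) (iInf_le_of_le (fun _ => hP) (iInf_le_of_le ?_ ?_))
    · simp only [Metric.hausdorffEDist_self]
      exact tendsto_const_nhds
    · simp
  have h4 : zetaLim 1 P < ∞ := lt_of_le_of_lt (h3.trans h1) ENNReal.ofReal_lt_top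
  have h5 : zetaLim 2 P ^ (1 / ((2 : ℕ) : ℝ)) / zetaLim 1 P ≤ gamma 3 2 := by
    unfold gamma
    exact le_iSup_of_le P (le_iSup_of_le hbody (le_iSup_of_le h4 le_rfl))
  refine le_trans ?_ h5
  rw [ENNReal.ofReal_div_of_pos (by linarith)]
  apply ENNReal.div_le_div _ (h3.trans h1)
  calc ENNReal.ofReal (Real.sqrt (sig - ε)) = ENNReal.ofReal (sig - ε) ^ (1 / ((2 : ℕ) : ℝ)) := by
        rw [Real.sqrt_eq_rpow, ENNReal.ofReal_rpow_of_nonneg (by linarith) (by norm_num)]
        norm_num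
    _ ≤ _ := ENNReal.rpow_le_rpow h2 (by positivity)

private lemma fj_lower : fjG ≤ gamma 3 2 := by
  have hs := fj_sig_pos
  have hc : Tendsto (fun ε : ℝ => ENNReal.ofReal (Real.sqrt (sig - ε) / (2 * sig + ε))) (𝓝[>] 0)
      (𝓝 (ENNReal.ofReal (Real.sqrt (sig - 0) / (2 * sig + 0)))) := by
    apply Tendsto.mono_left _ nhdsWithin_le_nhds
    apply ENNReal.tendsto_ofReal
    apply Tendsto.div
    · exact (Real.continuous_sqrt.comp (continuous_const.sub continuous_id)).tendsto 0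
    · exact (continuous_const.add continuous_id).tendsto 0
    · rw [add_zero]; positivity
  have e : ENNReal.ofReal (Real.sqrt (sig - 0) / (2 * sig + 0)) = fjG := by
    unfold fjG
    congr 1
    rw [sub_zero, add_zero, Real.rpow_neg (by positivity), ← Real.sqrt_eq_rpow,
      Real.sqrt_mul (by norm_num), show (4 : ℝ) = 2 ^ 2 by norm_num, Real.sqrt_sq (by norm_num)]
    have h1 := Real.sqrt_pos.2 hs
    have h2 := Real.mul_self_sqrt hs.le
    rw [div_eq_iff (by positivity), mul_inv]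
    field_simp
    nlinarith
  rw [← e]
  refine le_of_tendsto hc ?_
  have h1 : ∀ᶠ ε : ℝ in 𝓝[>] 0, ε < sig :=
    nhdsWithin_le_nhds (Iio_mem_nhds hs)
  filter_upwards [h1, self_mem_nhdsWithin] with ε h2 h3
  exact fj_lower_eps h3 h2

theorem gamma_three_two :
    gamma 3 2 = ENNReal.ofReal ((16 * Real.pi / 3 + 2 * Real.sqrt 3) ^ (-(1 / 2) : ℝ)) := by
  have h : (16 * Real.pi / 3 + 2 * Real.sqrt 3 : ℝ) = 4 * sig := by
    unfold sig; ring
  rw [h]
  exact le_antisymm fj_upper fj_lower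

theorem not_attained {P : Set (E 3)} (hP : IsPolytope P) :
    zeta 2 P ^ (1 / (2 : ℝ)) < gamma 3 2 * zeta 1 P := by
  rw [le_antisymm fj_upper fj_lower]
  calc zeta 2 P ^ (1 / (2 : ℝ)) < ((fjG * zeta 1 P) ^ 2) ^ (1 / (2 : ℝ)) :=
        ENNReal.rpow_lt_rpow (fj_all hP) (by norm_num)
    _ = _ := fj_sqrt _

end Melzak
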