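import Pool.Agent.Helper27.Mz2.Boundary

/-!
# H2: existence of rho with F_i(rho) = tau a_i, tau > sig / sum a

Proof. S = sum a, tau0 = sig / S. For tau > tau0 let C_tau = {rho : Reg rho, F_i(rho) <= tau a_i for
all i}: compact (FF is continuous, the region is bounded: 0 <= rho_i <= 12/5 because of a triple
containing i, as there are at least 3 indices), contains 0 (kap 0 0 = 0). Let rho be a maximiser of
sum rho_i on C_tau. If all the inequalities of Reg for triples and pairs are strict at rho, then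
F_i(rho) = tau a_i for all i, and we are done: otherwise F_i(rho) < tau a_i for some i; increase
rho_i by a small amount: F_i stays < tau a_i by continuity, F_j for j <> i does not increase
(kap_mono_right), the strict inequalities of Reg persist; the sum has increased, contradiction.
So if the theorem fails, for every tau > tau0 there is rho in C_tau with Bdy rho (an equality in Reg).
Take tau_n -> tau0; by compactness there is rho* with Reg rho*, Bdy rho*, F_i(rho*) <= tau0 a_i.
sum_i F_i(rho*) <= sig, so by boundary rho* is 1 at two indices i <> j and 0 elsewhere. Then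
F_i + F_j >= 2 pi - 2 kap 1 1 = sig (kap 1 0 = 0: two_pi_sub_lens_one_one), but
F_i + F_j <= tau0 (a_i + a_j) < tau0 S = sig as there is a third index. Contradiction.
-/

open MeasureTheory Set Filter Topology
open scoped ENNReal InnerProductSpace

namespace Melzak

private lemma fix_continuous_FF {ι : Type*} [Fintype ι] (adj : ι → ι → Prop) (i : ι) :
    Continuous (fun ρ : ι → ℝ => FF adj ρ i) := by
  unfold FF
  refine (continuous_const.mul (continuous_apply i)).sub ?_
  refine continuous_finsetSum _ (fun j _ => ?_)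
  have h : Continuous (fun ρ : ι → ℝ => (ρ i, ρ j)) :=
    (continuous_apply i).prodMk (continuous_apply j)
  exact continuous_kap.comp h

private lemma fix_isClosed_Reg {ι : Type*} [Fintype ι] : IsClosed {ρ : ι → ℝ | Reg ρ} := by
  have h1 : {ρ : ι → ℝ | Reg ρ} = (⋂ i, {ρ : ι → ℝ | 0 ≤ ρ i}) ∩
      ((⋂ i, ⋂ j, ⋂ k, ⋂ (_ : i ≠ j), ⋂ (_ : i ≠ k), ⋂ (_ : j ≠ k),
        {ρ : ι → ℝ | ρ i + ρ j + ρ k ≤ 12 / 5}) ∩
      (⋂ i, ⋂ j, ⋂ (_ : i ≠ j), {ρ : ι → ℝ | Real.sqrt (ρ i) + Real.sqrt (ρ j) ≤ 2})) := by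
    ext ρ
    simp only [Reg, mem_ofPred_eq, mem_inter_iff, mem_iInter]
  rw [h1]
  refine IsClosed.inter ?_ (IsClosed.inter ?_ ?_)
  · exact isClosed_iInter fun i => isClosed_le continuous_const (continuous_apply i)
  · refine isClosed_iInter fun i => isClosed_iInter fun j => isClosed_iInter fun k =>
      isClosed_iInter fun _ => isClosed_iInter fun _ => isClosed_iInter fun _ => ?_
    exact isClosed_le (((continuous_apply i).add (continuous_apply j)).add (continuous_apply k))
      continuous_const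
  · refine isClosed_iInter fun i => isClosed_iInter fun j => isClosed_iInter fun _ => ?_
    exact isClosed_le ((Real.continuous_sqrt.comp (continuous_apply i)).add
      (Real.continuous_sqrt.comp (continuous_apply j))) continuous_const

private lemma fix_isClosed_Bdy {ι : Type*} [Fintype ι] : IsClosed {ρ : ι → ℝ | Bdy ρ} := by
  have h1 : {ρ : ι → ℝ | Bdy ρ} =
      (⋃ i, ⋃ j, ⋃ k, ({ρ : ι → ℝ | i ≠ j ∧ i ≠ k ∧ j ≠ k ∧ ρ i + ρ j + ρ k = 12 / 5})) ∪
      (⋃ i, ⋃ j, ({ρ : ι → ℝ | i ≠ j ∧ Real.sqrt (ρ i) + Real.sqrt (ρ j) = 2})) := by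
    ext ρ
    simp only [Bdy, mem_ofPred_eq, mem_union, mem_iUnion]
  rw [h1]
  refine IsClosed.union ?_ ?_
  · refine isClosed_iUnion_of_finite fun i => isClosed_iUnion_of_finite fun j =>
      isClosed_iUnion_of_finite fun k => ?_
    by_cases hh : i ≠ j ∧ i ≠ k ∧ j ≠ k
    · have : {ρ : ι → ℝ | i ≠ j ∧ i ≠ k ∧ j ≠ k ∧ ρ i + ρ j + ρ k = 12 / 5} =
          {ρ : ι → ℝ | ρ i + ρ j + ρ k = 12 / 5} := by
        ext ρ
        simp only [mem_ofPred_eq]
        tauto
      rw [this]
      exact isClosed_eq (((continuous_apply i).add (continuous_apply j)).add (continuous_apply k))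
        continuous_const
    · have : {ρ : ι → ℝ | i ≠ j ∧ i ≠ k ∧ j ≠ k ∧ ρ i + ρ j + ρ k = 12 / 5} = ∅ := by
        ext ρ
        simp only [mem_ofPred_eq, mem_empty_iff_false, iff_false]
        tauto
      rw [this]
      exact isClosed_empty
  · refine isClosed_iUnion_of_finite fun i => isClosed_iUnion_of_finite fun j => ?_
    by_cases hh : i ≠ j
    · have : {ρ : ι → ℝ | i ≠ j ∧ Real.sqrt (ρ i) + Real.sqrt (ρ j) = 2} =
          {ρ : ι → ℝ | Real.sqrt (ρ i) + Real.sqrt (ρ j) = 2} := by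
        ext ρ
        simp only [mem_ofPred_eq]
        tauto
      rw [this]
      exact isClosed_eq ((Real.continuous_sqrt.comp (continuous_apply i)).add
        (Real.continuous_sqrt.comp (continuous_apply j))) continuous_const
    · have : {ρ : ι → ℝ | i ≠ j ∧ Real.sqrt (ρ i) + Real.sqrt (ρ j) = 2} = ∅ := by
        ext ρ
        simp only [mem_ofPred_eq, mem_empty_iff_false, iff_false]
        tauto
      rw [this]
      exact isClosed_empty

private lemma fix_two_others {ι : Type*} [Fintype ι] (hcard : 3 ≤ Fintype.card ι) (i : ι) :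
    ∃ j k, i ≠ j ∧ i ≠ k ∧ j ≠ k := by
  obtain ⟨a, b, c, hab, hac, hbc⟩ := Fintype.two_lt_card_iff.1 (show 2 < Fintype.card ι by omega)
  by_cases h1 : i = a
  · exact ⟨b, c, by rw [h1]; exact hab, by rw [h1]; exact hac, hbc⟩
  · by_cases h2 : i = b
    · exact ⟨a, c, h1, by rw [h2]; exact hbc, hac⟩
    · exact ⟨a, b, h1, h2, hab⟩

private lemma fix_bound {ι : Type*} [Fintype ι] (hcard : 3 ≤ Fintype.card ι) {ρ : ι → ℝ}
    (h : Reg ρ) (i : ι) : ρ i ≤ 12 / 5 := by
  obtain ⟨j, k, hij, hik, hjk⟩ := fix_two_others hcard i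
  have := h.2.1 i j k hij hik hjk
  have h1 := h.1 j
  have h2 := h.1 k
  linarith

private def fixC {ι : Type*} [Fintype ι] (adj : ι → ι → Prop) (a : ι → ℝ) (τ : ℝ) :
    Set (ι → ℝ) := {ρ | Reg ρ ∧ ∀ i, FF adj ρ i ≤ τ * a i}

private lemma fixC_isClosed {ι : Type*} [Fintype ι] (adj : ι → ι → Prop) (a : ι → ℝ) (τ : ℝ) :
    IsClosed (fixC adj a τ) := by
  have : fixC adj a τ = {ρ : ι → ℝ | Reg ρ} ∩ ⋂ i, {ρ : ι → ℝ | FF adj ρ i ≤ τ * a i} := by
    ext ρ
    simp only [fixC, mem_ofPred_eq, mem_inter_iff, mem_iInter]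
  rw [this]
  exact fix_isClosed_Reg.inter
    (isClosed_iInter fun i => isClosed_le (fix_continuous_FF adj i) continuous_const)

private lemma fixC_isCompact {ι : Type*} [Fintype ι] (hcard : 3 ≤ Fintype.card ι)
    (adj : ι → ι → Prop) (a : ι → ℝ) (τ : ℝ) : IsCompact (fixC adj a τ) := by
  have h1 : fixC adj a τ ⊆ Set.pi univ (fun _ : ι => Icc (0 : ℝ) (12 / 5)) := by
    intro ρ hρ i _
    exact ⟨hρ.1.1 i, fix_bound hcard hρ.1 i⟩
  exact (isCompact_univ_pi fun _ => isCompact_Icc).of_isClosed_subset (fixC_isClosed adj a τ) h1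

private lemma fix_zero_mem {ι : Type*} [Fintype ι] (adj : ι → ι → Prop) (a : ι → ℝ)
    (ha : ∀ i, 0 < a i) {τ : ℝ} (hτ : 0 ≤ τ) : (0 : ι → ℝ) ∈ fixC adj a τ := by
  refine ⟨⟨fun i => le_refl _, ?_, ?_⟩, ?_⟩
  · intro i j k _ _ _
    simp only [Pi.zero_apply]
    norm_num
  · intro i j _
    simp only [Pi.zero_apply, Real.sqrt_zero]
    norm_num
  · intro i
    have h1 : FF adj (0 : ι → ℝ) i ≤ 0 := by
      unfold FF
      simp only [Pi.zero_apply, mul_zero, zero_sub, neg_nonpos]
      exact Finset.sum_nonneg fun j _ => kap_nonneg _ _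
    exact h1.trans (mul_nonneg hτ (ha i).le)

private lemma fix_step {ι : Type*} [Fintype ι] (hcard : 3 ≤ Fintype.card ι)
    (adj : ι → ι → Prop) (a : ι → ℝ) (ha : ∀ i, 0 < a i)
    {τ : ℝ} (hτ : 0 ≤ τ)
    (hno : ¬ ∃ ρ : ι → ℝ, (∀ i, 0 ≤ ρ i) ∧ ∀ i, FF adj ρ i = τ * a i) :
    ∃ ρ ∈ fixC adj a τ, Bdy ρ := by
  classical
  obtain ⟨ρ, hρ, hmax⟩ := (fixC_isCompact hcard adj a τ).exists_isMaxOn
    ⟨0, fix_zero_mem adj a ha hτ⟩
    (f := fun ρ : ι → ℝ => ∑ i, ρ i)
    (continuous_finsetSum _ fun i _ => continuous_apply i).continuousOn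
  refine ⟨ρ, hρ, ?_⟩
  by_contra hB
  have h3 : ∀ i j k, i ≠ j → i ≠ k → j ≠ k → ρ i + ρ j + ρ k < 12 / 5 := by
    intro i j k h1 h2 h3
    refine lt_of_le_of_ne (hρ.1.2.1 i j k h1 h2 h3) ?_
    intro h
    exact hB (Or.inl ⟨i, j, k, h1, h2, h3, h⟩)
  have h2 : ∀ i j, i ≠ j → Real.sqrt (ρ i) + Real.sqrt (ρ j) < 2 := by
    intro i j h1
    refine lt_of_le_of_ne (hρ.1.2.2 i j h1) ?_
    intro h
    exact hB (Or.inr ⟨i, j, h1, h⟩)
  have hex : ∃ i, FF adj ρ i < τ * a i := by
    by_contra hc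
    push Not at hc
    exact hno ⟨ρ, hρ.1.1, fun i => le_antisymm (hρ.2 i) (hc i)⟩
  obtain ⟨i, hi⟩ := hex
  -- perturbation
  have hcont : Continuous (fun ε : ℝ => Function.update ρ i (ρ i + ε)) :=
    continuous_const.update i (continuous_const.add continuous_id)
  have hup0 : Function.update ρ i (ρ i + 0) = ρ := by
    rw [add_zero, Function.update_eq_self]
  have ev1 : ∀ᶠ ε in 𝓝 (0 : ℝ), FF adj (Function.update ρ i (ρ i + ε)) i < τ * a i := by
    have hc : Continuous (fun ε : ℝ => FF adj (Function.update ρ i (ρ i + ε)) i) :=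
      (fix_continuous_FF adj i).comp hcont
    have := hc.tendsto 0
    simp only [hup0] at this
    exact this.eventually (gt_mem_nhds hi)
  have ev2 : ∀ᶠ ε in 𝓝 (0 : ℝ), ∀ j k l, j ≠ k → j ≠ l → k ≠ l →
      Function.update ρ i (ρ i + ε) j + Function.update ρ i (ρ i + ε) k +
        Function.update ρ i (ρ i + ε) l < 12 / 5 := by
    rw [eventually_all]; intro j
    rw [eventually_all]; intro k
    rw [eventually_all]; intro l
    by_cases hh : j ≠ k ∧ j ≠ l ∧ k ≠ l
    · have hc : Continuous (fun ε : ℝ => Function.update ρ i (ρ i + ε) j +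
          Function.update ρ i (ρ i + ε) k + Function.update ρ i (ρ i + ε) l) :=
        (((continuous_apply j).comp hcont).add ((continuous_apply k).comp hcont)).add
          ((continuous_apply l).comp hcont)
      have := hc.tendsto 0
      simp only [hup0] at this
      filter_upwards [this.eventually (gt_mem_nhds (h3 j k l hh.1 hh.2.1 hh.2.2))] with ε hε
      intro _ _ _
      exact hε
    · filter_upwards with ε
      intro g1 g2 g3
      exact absurd ⟨g1, g2, g3⟩ hh
  have ev3 : ∀ᶠ ε in 𝓝 (0 : ℝ), ∀ j k, j ≠ k →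
      Real.sqrt (Function.update ρ i (ρ i + ε) j) +
        Real.sqrt (Function.update ρ i (ρ i + ε) k) < 2 := by
    rw [eventually_all]; intro j
    rw [eventually_all]; intro k
    by_cases hh : j ≠ k
    · have hc : Continuous (fun ε : ℝ => Real.sqrt (Function.update ρ i (ρ i + ε) j) +
          Real.sqrt (Function.update ρ i (ρ i + ε) k)) :=
        (Real.continuous_sqrt.comp ((continuous_apply j).comp hcont)).add
          (Real.continuous_sqrt.comp ((continuous_apply k).comp hcont))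
      have := hc.tendsto 0
      simp only [hup0] at this
      filter_upwards [this.eventually (gt_mem_nhds (h2 j k hh))] with ε hε
      intro _
      exact hε
    · filter_upwards with ε
      intro g1
      exact absurd g1 hh
  have ev : ∀ᶠ ε in 𝓝[>] (0 : ℝ), FF adj (Function.update ρ i (ρ i + ε)) i < τ * a i ∧
      (∀ j k l, j ≠ k → j ≠ l → k ≠ l →
      Function.update ρ i (ρ i + ε) j + Function.update ρ i (ρ i + ε) k +
        Function.update ρ i (ρ i + ε) l < 12 / 5) ∧ (∀ j k, j ≠ k →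
      Real.sqrt (Function.update ρ i (ρ i + ε) j) +
        Real.sqrt (Function.update ρ i (ρ i + ε) k) < 2) ∧ 0 < ε := by
    have e0 : ∀ᶠ ε in 𝓝[>] (0 : ℝ), 0 < ε := eventually_mem_nhdsWithin
    filter_upwards [nhdsWithin_le_nhds ev1, nhdsWithin_le_nhds ev2, nhdsWithin_le_nhds ev3, e0]
      with ε g1 g2 g3 g4
    exact ⟨g1, g2, g3, g4⟩
  obtain ⟨ε, g1, g2, g3, g4⟩ := ev.exists
  set ρ' := Function.update ρ i (ρ i + ε) with hρ'
  have hge : ∀ j, ρ j ≤ ρ' j := by
    intro j
    by_cases hj : j = i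
    · rw [hj, hρ', Function.update_self]
      linarith
    · rw [hρ', Function.update_of_ne hj]
  have hmem : ρ' ∈ fixC adj a τ := by
    refine ⟨⟨fun j => (hρ.1.1 j).trans (hge j), fun j k l q1 q2 q3 => (g2 j k l q1 q2 q3).le,
      fun j k q1 => (g3 j k q1).le⟩, ?_⟩
    intro j
    by_cases hj : j = i
    · rw [hj]
      exact g1.le
    · refine le_trans ?_ (hρ.2 j)
      unfold FF
      have : ρ' j = ρ j := by rw [hρ', Function.update_of_ne hj]
      rw [this]
      refine sub_le_sub_left ?_ _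
      refine Finset.sum_le_sum fun k _ => ?_
      exact kap_mono_right _ (hge k)
  have hsum : ∑ j, ρ j < ∑ j, ρ' j := by
    refine Finset.sum_lt_sum (fun j _ => hge j) ⟨i, Finset.mem_univ i, ?_⟩
    rw [hρ', Function.update_self]
    linarith
  have := hmax hmem
  simp only [mem_ofPred_eq] at this
  exact absurd this (not_le.2 hsum)

private lemma fix_sig_pos : 0 < sig := by
  unfold sig
  have := Real.pi_pos
  have h2 := Real.sqrt_nonneg 3
  linarith

open Classical in
theorem exists_rho {ι : Type*} [Fintype ι] (hcard : 3 ≤ Fintype.card ι) (adj : ι → ι → Prop)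
    (hsymm : ∀ i j, adj i j → adj j i) (hirr : ∀ i, ¬ adj i i)
    (hpl : ∀ T : Finset ι, 3 ≤ T.card →
      ((T ×ˢ T).filter (fun p => adj p.1 p.2)).card + 12 ≤ 6 * T.card)
    (a : ι → ℝ) (ha : ∀ i, 0 < a i) :
    ∃ τ : ℝ, sig / ∑ i, a i < τ ∧ ∃ ρ : ι → ℝ, (∀ i, 0 ≤ ρ i) ∧ ∀ i, FF adj ρ i = τ * a i := by
  by_contra hcon
  push Not at hcon
  have hne : Nonempty ι := Fintype.card_pos_iff.1 (by omega)
  have hS : 0 < ∑ i, a i := Finset.sum_pos (fun i _ => ha i) Finset.univ_nonempty
  set S := ∑ i, a i with hSdef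
  have hτ0 : 0 < sig / S := div_pos fix_sig_pos hS
  set τ0 := sig / S with hτ0def
  -- nested compact sets
  let t : ℕ → ℝ := fun n => τ0 + 1 / ((n : ℝ) + 1)
  have ht : ∀ n, τ0 < t n := by
    intro n
    have : 0 < 1 / ((n : ℝ) + 1) := by positivity
    simp only [t]
    linarith
  have htanti : ∀ n, t (n + 1) ≤ t n := by
    intro n
    simp only [t]
    have : 1 / (((n + 1 : ℕ) : ℝ) + 1) ≤ 1 / ((n : ℝ) + 1) := by
      apply one_div_le_one_div_of_le
      · positivity
      · push_cast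
        linarith
    linarith
  let K : ℕ → Set (ι → ℝ) := fun n => fixC adj a (t n) ∩ {ρ | Bdy ρ}
  have hKne : ∀ n, (K n).Nonempty := by
    intro n
    have hno : ¬ ∃ ρ : ι → ℝ, (∀ i, 0 ≤ ρ i) ∧ ∀ i, FF adj ρ i = t n * a i := by
      rintro ⟨ρ, h1, h2⟩
      obtain ⟨i, hi⟩ := hcon (t n) (ht n) ρ h1
      exact hi (h2 i)
    obtain ⟨ρ, h1, h2⟩ := fix_step hcard adj a ha (hτ0.le.trans (ht n).le) hno
    exact ⟨ρ, h1, h2⟩
  have hKsub : ∀ n, K (n + 1) ⊆ K n := by
    intro n ρ hρ
    refine ⟨⟨hρ.1.1, fun i => (hρ.1.2 i).trans ?_⟩, hρ.2⟩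
    exact mul_le_mul_of_nonneg_right (htanti n) (ha i).le
  have hKcomp : IsCompact (K 0) := (fixC_isCompact hcard adj a (t 0)).inter_right fix_isClosed_Bdy
  have hKclosed : ∀ n, IsClosed (K n) := fun n =>
    (fixC_isClosed adj a (t n)).inter fix_isClosed_Bdy
  obtain ⟨ρ, hρ⟩ := IsCompact.nonempty_iInter_of_sequence_nonempty_isCompact_isClosed K hKsub hKne
    hKcomp hKclosed
  rw [mem_iInter] at hρ
  have hReg : Reg ρ := (hρ 0).1.1
  have hBdy : Bdy ρ := (hρ 0).2
  have hFF : ∀ i, FF adj ρ i ≤ τ0 * a i := by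
    intro i
    have hlim : Tendsto (fun n : ℕ => t n * a i) atTop (𝓝 ((τ0 + 0) * a i)) :=
      (tendsto_const_nhds.add tendsto_one_div_add_atTop_nhds_zero_nat).mul_const _
    rw [add_zero] at hlim
    exact ge_of_tendsto' hlim (fun n => (hρ n).1.2 i)
  rcases boundary hcard adj hsymm hirr hpl hReg hBdy with h | ⟨i, j, hij, hi, hj, hk⟩
  · have h1 : ∑ i, FF adj ρ i ≤ ∑ i, τ0 * a i := Finset.sum_le_sum fun i _ => hFF i
    rw [← Finset.mul_sum, ← hSdef, hτ0def, div_mul_cancel₀ _ hS.ne'] at h1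
    linarith
  · have key : ∀ i j : ι, i ≠ j → ρ i = 1 → ρ j = 1 → (∀ k, k ≠ i → k ≠ j → ρ k = 0) →
        Real.pi - kap 1 1 ≤ FF adj ρ i := by
      intro i j hij hi hj hk
      unfold FF
      rw [hi, mul_one]
      refine sub_le_sub_left ?_ _
      calc ∑ k with adj i k, kap 1 (ρ k) ≤ ∑ k ∈ {j}, kap 1 (ρ k) := by
            rw [← Finset.sum_filter_add_sum_filter_not
              (Finset.univ.filter fun k => adj i k) (fun k => k = j)]
            have e2 : ∑ k ∈ Finset.filter (fun k => ¬ k = j)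
                (Finset.univ.filter fun k => adj i k), kap 1 (ρ k) = 0 := by
              refine Finset.sum_eq_zero fun k hk' => ?_
              rw [Finset.mem_filter, Finset.mem_filter] at hk'
              have hki : k ≠ i := by
                intro h
                rw [h] at hk'
                exact hirr i hk'.1.2
              rw [hk k hki hk'.2, kap_one_zero]
            rw [e2, add_zero]
            refine Finset.sum_le_sum_of_subset_of_nonneg ?_ (fun k _ _ => kap_nonneg _ _)
            intro k hk'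
            rw [Finset.mem_filter] at hk'
            rw [Finset.mem_singleton]
            exact hk'.2
        _ = kap 1 1 := by rw [Finset.sum_singleton, hj]
    have k1 := key i j hij hi hj hk
    have k2 := key j i hij.symm hj hi (fun k h1 h2 => hk k h2 h1)
    have hsig : 2 * Real.pi - (kap 1 1 + kap 1 1) = sig := by
      have := two_pi_sub_lens_one_one
      unfold lens at this
      exact this
    have f1 := hFF i
    have f2 := hFF j
    -- third index
    obtain ⟨k, hki, hkj⟩ : ∃ k, k ≠ i ∧ k ≠ j := by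
      obtain ⟨p, q, h1, h2, h3⟩ := fix_two_others hcard i
      by_cases hp : p = j
      · exact ⟨q, h2.symm, fun h => h3 (hp.trans h.symm)⟩
      · exact ⟨p, h1.symm, hp⟩
    have hlt : a i + a j < S := by
      have hsub : ({i, j, k} : Finset ι) ⊆ Finset.univ := Finset.subset_univ _
      have hle : ∑ l ∈ ({i, j, k} : Finset ι), a l ≤ S := by
        rw [hSdef]
        exact Finset.sum_le_sum_of_subset_of_nonneg hsub fun l _ _ => (ha l).le
      rw [Finset.sum_insert (by simp [hij, hki.symm]), Finset.sum_insert (by simp [hkj.symm]),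
        Finset.sum_singleton] at hle
      have := ha k
      linarith
    have hmul : τ0 * (a i + a j) < sig := by
      have h1 : τ0 * (a i + a j) < τ0 * S := mul_lt_mul_of_pos_left hlt hτ0
      rw [hτ0def, div_mul_cancel₀ _ hS.ne'] at h1
      rw [hτ0def]
      exact h1
    have hadd : τ0 * (a i + a j) = τ0 * a i + τ0 * a j := mul_add _ _ _
    linarith

end Melzak
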