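import Pool.Agent.Helper27.Mz2.LensB

/-!
# A3: lens is the integral of ang; derivatives

lens_eq_integral. Way 1, polar coordinates: the disc D(e_0, sqrt b) meets the circle of radius r
centred at 0 in an arc of angle 2 arccos ((1 + r^2 - b)/(2r)) (arccos clamped, as Real.arccos), so
lens a b = int_0^(sqrt a) 2 arccos ((1+r^2-b)/(2r)) r dr = int_0^a arccos ((1+s-b)/(2 sqrt s)) ds.
Way 2: for fixed b the function a -> lens a b is continuous, lens 0 b = 0, and it has the derivative
ang a b except at the at most three values of a > 0 with |1 + a - b| = 2 sqrt a (that is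
a = (1 - sqrt b)^2, (1 + sqrt b)^2): where |1 + a - b| > 2 sqrt a lens a b is locally 0 (discs
disjoint), pi b (second disc inside the first) or pi a (first inside the second), and where
|1 + a - b| < 2 sqrt a use kap_eq for both terms; the contributions of the moving line cancel
(note a - ((1+a-b)/2)^2 = b - ((1+b-a)/2)^2). Then use
MeasureTheory.integral_eq_of_hasDerivAt_off_countable or similar (continuous, differentiable off a
countable set, ang bounded).
hasDerivAt_lens follows from lens_eq_integral and the continuity of ang . b at a > 0.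
hasFDerivAt_lens: lens (a+x) (b+y) - lens a b = int_a^(a+x) ang s (b+y) ds + int_b^(b+y) ang s a ds
(lens_comm) and ang is jointly continuous at points of (0, inf) x R.
ang_le_ang: with d = b - a >= 0: if 1 - d <= 0 clear (arccos of a nonpositive number ...compare
signs); if 1 - d > 2 sqrt a then both are 0; else (1-d)^2 <= 4a gives (1-d)^2 b <= (1+d)^2 a.
ang_le_of_mul_le: u(t) = (sqrt t + (1-y)/sqrt t)/2, u(t) <= u(t') iff
(1-y)(sqrt t' - sqrt t)/sqrt(t t') <= sqrt t' - sqrt t.
-/

open MeasureTheory Set Filter Topology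
open scoped ENNReal InnerProductSpace

namespace Melzak

lemma ang_nonneg (a b : ℝ) : 0 ≤ ang a b := Real.arccos_nonneg _

/-- Second disc inside the first. -/
lemma lc_inside {x b : ℝ} (hx : 0 ≤ x) (hb : 0 ≤ b) (h : 1 + Real.sqrt b ≤ Real.sqrt x) :
    lens x b = Real.pi * b := by
  rw [lens_eq_inter hx hb]
  change (volume (Metric.closedBall (0 : E 2) (Real.sqrt x) ∩
      Metric.closedBall la_e (Real.sqrt b))).toReal = _
  have h1 : Metric.closedBall la_e (Real.sqrt b) ⊆ Metric.closedBall (0 : E 2) (Real.sqrt x) := by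
    apply Metric.closedBall_subset_closedBall'
    have : dist la_e 0 = 1 := by
      rw [dist_zero_right]; simp [la_e]
    linarith
  rw [inter_eq_right.mpr h1, la_ball _ (Real.sqrt_nonneg b), Real.sq_sqrt hb]

/-- The derivative in the generic case. -/
lemma lc_deriv_mid {x b : ℝ} (hx : 0 < x) (hb : 0 < b) (h : (1 + x - b) ^ 2 < 4 * x) :
    HasDerivAt (fun x => lens x b) (ang x b) x := by
  have hD : 0 < x - ((1 + x - b) / 2) ^ 2 := by nlinarith
  set S : ℝ := Real.sqrt (x - ((1 + x - b) / 2) ^ 2) with hS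
  have hSpos : 0 < S := Real.sqrt_pos.mpr hD
  have hSsq : S ^ 2 = x - ((1 + x - b) / 2) ^ 2 := Real.sq_sqrt hD.le
  -- near `x` the lens has a closed form
  have hev : (fun x => lens x b) =ᶠ[𝓝 x] fun x =>
      x * Real.arccos ((1 + x - b) / (2 * Real.sqrt x)) +
        b * Real.arccos ((1 + b - x) / (2 * Real.sqrt b)) -
        Real.sqrt (x - ((1 + x - b) / 2) ^ 2) := by
    have o1 : ∀ᶠ y in 𝓝 x, 0 < y := lt_mem_nhds hx
    have o2 : ∀ᶠ y in 𝓝 x, (1 + y - b) ^ 2 < 4 * y := by
      apply (isOpen_lt (by fun_prop) (by fun_prop)).mem_nhds h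
    filter_upwards [o1, o2] with y hy hy2
    have k1 : |(1 + y - b) / 2| ≤ Real.sqrt y := by
      apply Real.abs_le_sqrt; nlinarith
    have k2 : |(1 + b - y) / 2| ≤ Real.sqrt b := by
      apply Real.abs_le_sqrt; nlinarith
    unfold lens
    rw [kap_eq hy k1, kap_eq hb k2]
    have : b - ((1 + b - y) / 2) ^ 2 = y - ((1 + y - b) / 2) ^ 2 := by ring
    rw [this]
    unfold ang
    ring
  refine HasDerivAt.congr_of_eventuallyEq ?_ hev
  have hsx := Real.sqrt_pos.mpr hx
  have hsb := Real.sqrt_pos.mpr hb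
  have hxx := Real.sq_sqrt hx.le
  have hbb := Real.sq_sqrt hb.le
  -- the two arguments
  have a1 : |(1 + x - b) / (2 * Real.sqrt x)| < 1 := by
    rw [← sq_lt_one_iff_abs_lt_one, div_pow, div_lt_one (by positivity), mul_pow, hxx]
    linarith
  have a2 : |(1 + b - x) / (2 * Real.sqrt b)| < 1 := by
    rw [← sq_lt_one_iff_abs_lt_one, div_pow, div_lt_one (by positivity), mul_pow, hbb]
    nlinarith
  rw [abs_lt] at a1 a2
  have d1 : HasDerivAt (fun x => (1 + x - b) / (2 * Real.sqrt x))
      ((1 * (2 * Real.sqrt x) - (1 + x - b) * (2 * (1 / (2 * Real.sqrt x)))) /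
        (2 * Real.sqrt x) ^ 2) x := by
    have n1 : HasDerivAt (fun x => 1 + x - b) 1 x := by
      simpa using ((hasDerivAt_id x).const_add 1).sub_const b
    have n2 : HasDerivAt (fun x => 2 * Real.sqrt x) (2 * (1 / (2 * Real.sqrt x))) x :=
      (Real.hasDerivAt_sqrt hx.ne').const_mul 2
    exact n1.div n2 (by positivity)
  have d2 : HasDerivAt (fun x => (1 + b - x) / (2 * Real.sqrt b)) (-1 / (2 * Real.sqrt b)) x := by
    have n1 : HasDerivAt (fun x => 1 + b - x) (-1) x := by
      simpa using (hasDerivAt_id x).const_sub (1 + b)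
    exact n1.div_const _
  have c1 := (Real.hasDerivAt_arccos a1.1.ne' a1.2.ne).comp x d1
  have c2 := (Real.hasDerivAt_arccos a2.1.ne' a2.2.ne).comp x d2
  have s1 : Real.sqrt (1 - ((1 + x - b) / (2 * Real.sqrt x)) ^ 2) = S / Real.sqrt x := by
    have : 1 - ((1 + x - b) / (2 * Real.sqrt x)) ^ 2 = (x - ((1 + x - b) / 2) ^ 2) / x := by
      rw [div_pow, mul_pow, hxx]; field_simp
    rw [this, Real.sqrt_div hD.le]
  have s2 : Real.sqrt (1 - ((1 + b - x) / (2 * Real.sqrt b)) ^ 2) = S / Real.sqrt b := by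
    have : 1 - ((1 + b - x) / (2 * Real.sqrt b)) ^ 2 = (x - ((1 + x - b) / 2) ^ 2) / b := by
      rw [div_pow, mul_pow, hbb]; field_simp; ring
    rw [this, Real.sqrt_div hD.le]
  have d3 : HasDerivAt (fun x => Real.sqrt (x - ((1 + x - b) / 2) ^ 2))
      ((1 - (1 + x - b) / 2) / (2 * S)) x := by
    have n1 : HasDerivAt (fun x => (1 + x - b) / 2) (1 / 2) x := by
      have : HasDerivAt (fun x => 1 + x - b) 1 x := by
        simpa using ((hasDerivAt_id x).const_add 1).sub_const b
      exact this.div_const 2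
    have n2 : HasDerivAt (fun x => x - ((1 + x - b) / 2) ^ 2) (1 - (1 + x - b) / 2) x := by
      have := (hasDerivAt_id x).sub (n1.pow 2)
      refine HasDerivAt.congr_deriv (f' := _) this ?_
      simp only [Nat.cast_ofNat]
      ring
    exact n2.sqrt hD.ne'
  have hF := (((hasDerivAt_id x).mul c1).add (c2.const_mul b)).sub d3
  refine HasDerivAt.congr_deriv (f' := _) hF ?_
  simp only [id, Function.comp]
  rw [s1, s2]
  unfold ang
  have e1 : x * (-(1 / (S / Real.sqrt x)) * ((1 * (2 * Real.sqrt x) - (1 + x - b) *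
      (2 * (1 / (2 * Real.sqrt x)))) / (2 * Real.sqrt x) ^ 2)) = -(x - (1 + x - b) / 2) / (2 * S) := by
    rw [mul_pow, hxx]
    field_simp
    rw [hxx]
  have e2 : b * (-(1 / (S / Real.sqrt b)) * (-1 / (2 * Real.sqrt b))) = b / (2 * S) := by
    field_simp
  rw [e1, e2]
  field_simp
  ring_nf

lemma lc_deriv {x b : ℝ} (hx : 0 < x) (hb : 0 ≤ b) (h1 : (1 + x - b) ^ 2 ≠ 4 * x) :
    HasDerivAt (fun x => lens x b) (ang x b) x := by
  have hsx := Real.sqrt_pos.mpr hx
  have hsb := Real.sqrt_nonneg b
  have hxx := Real.sq_sqrt hx.le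
  have hbb := Real.sq_sqrt hb
  have hcs : ContinuousAt (fun y => Real.sqrt y) x := Real.continuous_sqrt.continuousAt
  rcases lt_or_gt_of_ne h1 with h | h
  · rcases hb.eq_or_lt with hb0 | hb0
    · exfalso
      rw [← hb0] at h
      nlinarith [sq_nonneg (1 - x)]
    · exact lc_deriv_mid hx hb0 h
  · -- `|1 + x - b| > 2 sqrt x`
    have hfac : 0 < ((1 - Real.sqrt x) ^ 2 - b) * ((1 + Real.sqrt x) ^ 2 - b) := by
      have : ((1 - Real.sqrt x) ^ 2 - b) * ((1 + Real.sqrt x) ^ 2 - b) =
          (1 + Real.sqrt x ^ 2 - b) ^ 2 - 4 * Real.sqrt x ^ 2 := by ring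
      rw [this, hxx]; linarith
    have o1 : ∀ᶠ y in 𝓝 x, 0 < y := lt_mem_nhds hx
    rcases lt_or_ge b ((1 + Real.sqrt x) ^ 2) with hb1 | hb1
    · have hb2 : b < (1 - Real.sqrt x) ^ 2 := by
        by_contra hcon
        push Not at hcon
        nlinarith
      have hang : ang x b = 0 := by
        unfold ang
        apply Real.arccos_of_one_le
        rw [one_le_div (by positivity)]
        nlinarith
      rw [hang]
      rcases lt_or_ge (Real.sqrt x) 1 with hs | hs
      · have hlt : Real.sqrt x + Real.sqrt b < 1 := by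
          have : Real.sqrt b < 1 - Real.sqrt x := by
            rw [Real.sqrt_lt' (by linarith)]; exact hb2
          linarith
        have o2 : ∀ᶠ y in 𝓝 x, Real.sqrt y + Real.sqrt b < 1 :=
          (hcs.add continuousAt_const).eventually_lt continuousAt_const hlt
        have hev : (fun x => lens x b) =ᶠ[𝓝 x] fun _ => 0 := by
          filter_upwards [o1, o2] with y hy hy2
          exact lens_eq_zero hy.le hb hy2.le
        exact (hasDerivAt_const x (0 : ℝ)).congr_of_eventuallyEq hev
      · have hlt : 1 + Real.sqrt b < Real.sqrt x := by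
          have : Real.sqrt b < Real.sqrt x - 1 := by
            by_contra hcon
            push Not at hcon
            nlinarith
          linarith
        have o2 : ∀ᶠ y in 𝓝 x, 1 + Real.sqrt b < Real.sqrt y :=
          (continuousAt_const (y := 1 + Real.sqrt b)).eventually_lt hcs hlt
        have hev : (fun x => lens x b) =ᶠ[𝓝 x] fun _ => Real.pi * b := by
          filter_upwards [o1, o2] with y hy hy2
          exact lc_inside hy.le hb hy2.le
        exact (hasDerivAt_const x (Real.pi * b)).congr_of_eventuallyEq hev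
    · have hb2 : (1 + Real.sqrt x) ^ 2 < b := by
        rcases hb1.eq_or_lt with h | h
        · rw [h] at hfac; simp at hfac
        · exact h
      have hlt : 1 + Real.sqrt x < Real.sqrt b := by
        by_contra hcon
        push Not at hcon
        nlinarith
      have hang : ang x b = Real.pi := by
        unfold ang
        apply Real.arccos_of_le_neg_one
        rw [div_le_iff₀ (by positivity)]
        nlinarith
      rw [hang]
      have o2 : ∀ᶠ y in 𝓝 x, 1 + Real.sqrt y < Real.sqrt b :=
        (continuousAt_const.add hcs).eventually_lt continuousAt_const hlt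
      have hev : (fun x => lens x b) =ᶠ[𝓝 x] fun y => Real.pi * y := by
        filter_upwards [o1, o2] with y hy hy2
        rw [lens_comm]
        exact lc_inside hb hy.le hy2.le
      have := (hasDerivAt_id x).const_mul Real.pi
      simp only [mul_one] at this
      exact this.congr_of_eventuallyEq hev

lemma lc_int (b : ℝ) (x y : ℝ) : IntervalIntegrable (fun s => ang s b) volume x y := by
  have hm : Measurable fun s => ang s b := by
    unfold ang
    apply Real.measurable_arccos.comp
    fun_prop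
  refine (intervalIntegrable_const (c := Real.pi)).mono_fun hm.aestronglyMeasurable ?_
  refine Eventually.of_forall fun s => ?_
  show ‖ang s b‖ ≤ ‖Real.pi‖
  rw [Real.norm_of_nonneg (ang_nonneg s b), Real.norm_of_nonneg Real.pi_pos.le]
  exact Real.arccos_le_pi _

lemma lens_eq_integral {a b : ℝ} (ha : 0 ≤ a) (hb : 0 ≤ b) :
    lens a b = ∫ s in (0 : ℝ)..a, ang s b := by
  have hfin : Set.Finite {x : ℝ | (1 + x - b) ^ 2 = 4 * x} := by
    apply Set.Finite.subset (Set.toFinite {(1 + Real.sqrt b) ^ 2, (1 - Real.sqrt b) ^ 2})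
    intro x hx
    have hx' : (1 + x - b) ^ 2 = 4 * x := hx
    have : (x - (1 + Real.sqrt b) ^ 2) * (x - (1 - Real.sqrt b) ^ 2) = 0 := by
      have e : (x - (1 + Real.sqrt b) ^ 2) * (x - (1 - Real.sqrt b) ^ 2) =
          x ^ 2 - 2 * x * (1 + Real.sqrt b ^ 2) + (1 - Real.sqrt b ^ 2) ^ 2 := by ring
      rw [e, Real.sq_sqrt hb]
      nlinarith
    rcases mul_eq_zero.mp this with h | h
    · left; linarith
    · right; show x = _; linarith
  have h := MeasureTheory.integral_eq_of_hasDerivAt_off_countable_of_le (fun x => lens x b)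
    (fun s => ang s b) ha hfin.countable
    (continuous_lens.comp (f := fun x : ℝ => (x, b)) (by fun_prop)).continuousOn
    (fun x hx => lc_deriv hx.1.1 hb hx.2) (lc_int b 0 a)
  rw [h]
  have h0 : lens 0 b = 0 := by
    have h1 := lens_le le_rfl hb
    have h2 := lens_nonneg 0 b
    rw [mul_zero] at h1
    linarith
  rw [h0, sub_zero]

lemma continuousAt_ang {a b : ℝ} (ha : 0 < a) :
    ContinuousAt (fun p : ℝ × ℝ => ang p.1 p.2) (a, b) := by
  unfold ang
  apply Real.continuous_arccos.continuousAt.comp (f := fun p : ℝ × ℝ =>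
    (1 + p.1 - p.2) / (2 * Real.sqrt p.1))
  apply ContinuousAt.div
  · fun_prop
  · fun_prop
  · have := Real.sqrt_pos.mpr ha
    positivity

lemma hasDerivAt_lens {a b : ℝ} (ha : 0 < a) (hb : 0 ≤ b) :
    HasDerivAt (fun x => lens x b) (ang a b) a := by
  have hev : (fun x => lens x b) =ᶠ[𝓝 a] fun x => ∫ s in (0 : ℝ)..x, ang s b := by
    filter_upwards [lt_mem_nhds ha] with y hy
    exact lens_eq_integral hy.le hb
  refine HasDerivAt.congr_of_eventuallyEq ?_ hev
  apply intervalIntegral.integral_hasDerivAt_right (lc_int b 0 a)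
  · have hm : Measurable fun s => ang s b := by
      unfold ang
      apply Real.measurable_arccos.comp
      fun_prop
    exact hm.stronglyMeasurable.stronglyMeasurableAtFilter
  · exact (continuousAt_ang ha).comp (f := fun s : ℝ => (s, b)) (by fun_prop)

lemma hasFDerivAt_lens {a b : ℝ} (ha : 0 < a) (hb : 0 < b) :
    HasFDerivAt (fun p : ℝ × ℝ => lens p.1 p.2)
      (ang a b • ContinuousLinearMap.fst ℝ ℝ ℝ + ang b a • ContinuousLinearMap.snd ℝ ℝ ℝ)
      (a, b) := by
  have o : ∀ᶠ v : ℝ × ℝ in 𝓝 (a, b), 0 < v.1 ∧ 0 < v.2 := by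
    have : IsOpen {v : ℝ × ℝ | 0 < v.1 ∧ 0 < v.2} :=
      (isOpen_lt continuous_const continuous_fst).inter (isOpen_lt continuous_const continuous_snd)
    exact this.mem_nhds ⟨ha, hb⟩
  have h := hasStrictFDerivAt_uncurry_coprod (𝕜 := ℝ) (u := (a, b)) (f := fun x y => lens x y)
    (f₁ := fun x y => ContinuousLinearMap.toSpanSingleton ℝ (ang x y))
    (f₂ := fun x y => ContinuousLinearMap.toSpanSingleton ℝ (ang y x))
    (by
      filter_upwards [o] with v hv
      exact (hasDerivAt_lens hv.1 hv.2.le).hasFDerivAt)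
    (by
      filter_upwards [o] with v hv
      have := (hasDerivAt_lens hv.2 hv.1.le).hasFDerivAt
      simp only [lens_comm _ v.1] at this
      exact this)
    (by
      have h1 : ContinuousAt (fun p : ℝ × ℝ => ang p.1 p.2) (a, b) := continuousAt_ang ha
      exact (ContinuousLinearMap.toSpanSingletonCLE (𝕜 := ℝ) (E := ℝ)).continuous.continuousAt.comp h1)
    (by
      have h1 : ContinuousAt (fun p : ℝ × ℝ => ang p.2 p.1) (a, b) :=
        ContinuousAt.comp (x := (a, b)) (f := fun p : ℝ × ℝ => (p.2, p.1))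
          (g := fun p : ℝ × ℝ => ang p.1 p.2) (continuousAt_ang hb) (by fun_prop)
      exact (ContinuousLinearMap.toSpanSingletonCLE (𝕜 := ℝ) (E := ℝ)).continuous.continuousAt.comp h1)
  refine HasFDerivAt.congr_fderiv (f' := _) h.hasFDerivAt ?_
  ext <;> simp [Function.HasUncurry.uncurry]

/-- Chain rule along a curve. -/
lemma hasDerivAt_lens_comp {f g : ℝ → ℝ} {f' g' x : ℝ} (hf : HasDerivAt f f' x)
    (hg : HasDerivAt g g' x) (ha : 0 < f x) (hb : 0 < g x) :
    HasDerivAt (fun y => lens (f y) (g y)) (ang (f x) (g x) * f' + ang (g x) (f x) * g') x := by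
  have h := (hasFDerivAt_lens ha hb).comp_hasDerivAt x (hf.prodMk hg)
  refine HasDerivAt.congr_deriv (f' := _) h ?_
  simp

/-- The smaller disc has the larger half-angle. -/
lemma ang_le_ang {a b : ℝ} (ha : 0 < a) (hab : a ≤ b) : ang b a ≤ ang a b := by
  have hb : 0 < b := ha.trans_le hab
  have hsa := Real.sqrt_pos.mpr ha
  have hsb := Real.sqrt_pos.mpr hb
  have haa := Real.sq_sqrt ha.le
  have hbb := Real.sq_sqrt hb.le
  unfold ang
  by_cases h : 2 * Real.sqrt a < 1 + a - b
  · have h1 : 1 ≤ (1 + b - a) / (2 * Real.sqrt b) := by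
      rw [one_le_div (by positivity)]
      have : (2 * Real.sqrt b) ^ 2 ≤ (1 + b - a) ^ 2 := by nlinarith
      exact le_of_sq_le_sq this (by linarith)
    rw [Real.arccos_of_one_le h1]
    exact Real.arccos_nonneg _
  · push Not at h
    apply Real.arccos_le_arccos
    by_cases h1 : 1 + a - b ≤ 0
    · have k1 : (1 + a - b) / (2 * Real.sqrt a) ≤ 0 := div_nonpos_of_nonpos_of_nonneg h1 (by positivity)
      have k2 : 0 ≤ (1 + b - a) / (2 * Real.sqrt b) := div_nonneg (by linarith) (by positivity)
      linarith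
    · push Not at h1
      rw [div_le_div_iff₀ (by positivity) (by positivity)]
      have : ((1 + a - b) * (2 * Real.sqrt b)) ^ 2 ≤ ((1 + b - a) * (2 * Real.sqrt a)) ^ 2 := by
        have e1 : ((1 + a - b) * (2 * Real.sqrt b)) ^ 2 = 4 * (1 + a - b) ^ 2 * b := by
          rw [mul_pow, mul_pow, hbb]; ring
        have e2 : ((1 + b - a) * (2 * Real.sqrt a)) ^ 2 = 4 * (1 + b - a) ^ 2 * a := by
          rw [mul_pow, mul_pow, haa]; ring
        rw [e1, e2]
        have k : (1 + a - b) ^ 2 ≤ 4 * a := by nlinarith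
        have k2 := mul_le_mul_of_nonneg_right k (sub_nonneg.mpr hab)
        nlinarith
      exact le_of_sq_le_sq this (by
        have : 0 ≤ 1 + b - a := by linarith
        positivity)

/-- Comparison of the derivative of lens (., y) at two points. -/
lemma ang_le_of_mul_le {t t' y : ℝ} (ht : 0 < t) (htt : t ≤ t')
    (h : 1 - y ≤ Real.sqrt (t * t')) : ang t' y ≤ ang t y := by
  have ht' : 0 < t' := ht.trans_le htt
  have hs := Real.sqrt_pos.mpr ht
  have hs' := Real.sqrt_pos.mpr ht'
  have e := Real.sq_sqrt ht.le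
  have e' := Real.sq_sqrt ht'.le
  have hss := Real.sqrt_le_sqrt htt
  rw [Real.sqrt_mul ht.le] at h
  apply Real.arccos_le_arccos
  rw [div_le_div_iff₀ (by positivity) (by positivity)]
  have := mul_le_mul_of_nonneg_right h (sub_nonneg.mpr hss)
  nlinarith

lemma ang_le_of_le_mul {t t' y : ℝ} (ht : 0 < t) (htt : t ≤ t')
    (h : Real.sqrt (t * t') ≤ 1 - y) : ang t y ≤ ang t' y := by
  have ht' : 0 < t' := ht.trans_le htt
  have hs := Real.sqrt_pos.mpr ht
  have hs' := Real.sqrt_pos.mpr ht'
  have e := Real.sq_sqrt ht.le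
  have e' := Real.sq_sqrt ht'.le
  have hss := Real.sqrt_le_sqrt htt
  rw [Real.sqrt_mul ht.le] at h
  apply Real.arccos_le_arccos
  rw [div_le_div_iff₀ (by positivity) (by positivity)]
  have := mul_le_mul_of_nonneg_right h (sub_nonneg.mpr hss)
  nlinarith

end Melzak
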