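import Pool.Agent.Helper27.Mz2.PlanarCount
import Pool.Agent.Helper27.Mz2.FacetDefs

/-!
# E2: planarity of the facet adjacency

Good.planar: restrict to a subset T of the facets; adjacency gives strict witnesses, by
Good.no_three: two different points of Fac i cap Fac j cannot both lie in the plane k.
Good.three_le_card: with at most two constraints the polyhedron is unbounded.
-/

open MeasureTheory Set Filter Topology
open scoped ENNReal InnerProductSpace

namespace Melzak

/-- Two active normals at a common point are linearly independent. -/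
private lemma pl_indep {ι : Type*} {n : ι → E 3} {h : ι → ℝ} (hg : Good n h) {i j : ι}
    (hij : i ≠ j) {b : E 3} (hi : ⟪n i, b⟫_ℝ = h i) (hj : ⟪n j, b⟫_ℝ = h j) :
    LinearIndependent ℝ ![n i, n j] := by
  rw [LinearIndependent.pair_iff]
  intro s t hst
  obtain ⟨yi, hyi, hyi'⟩ := hg.irr i
  obtain ⟨yj, hyj, hyj'⟩ := hg.irr j
  have h2 : s * ⟪n i, yi - b⟫_ℝ + t * ⟪n j, yi - b⟫_ℝ = 0 := by
    have : ⟪s • n i + t • n j, yi - b⟫_ℝ = 0 := by rw [hst, inner_zero_left]
    rw [inner_add_left, inner_smul_left, inner_smul_left] at this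
    simpa using this
  have h3 : s * ⟪n i, yj - b⟫_ℝ + t * ⟪n j, yj - b⟫_ℝ = 0 := by
    have : ⟪s • n i + t • n j, yj - b⟫_ℝ = 0 := by rw [hst, inner_zero_left]
    rw [inner_add_left, inner_smul_left, inner_smul_left] at this
    simpa using this
  rw [inner_sub_right, inner_sub_right, hyi, hi, sub_self, mul_zero, zero_add, hj] at h2
  rw [inner_sub_right, inner_sub_right, hyj, hj, sub_self, mul_zero, add_zero, hi] at h3
  have k2 := hyi' j hij.symm
  have k3 := hyj' i hij
  constructor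
  · rcases mul_eq_zero.1 h3 with h | h
    · exact h
    · exact absurd h (by linarith)
  · rcases mul_eq_zero.1 h2 with h | h
    · exact h
    · exact absurd h (by linarith)

private lemma pl_two_points {ι : Type*} {n : ι → E 3} {h : ι → ℝ} {i j : ι}
    (hpos : 0 < elen n h i j) :
    ∃ a ∈ Fac n h i ∩ Fac n h j, ∃ b ∈ Fac n h i ∩ Fac n h j, a ≠ b := by
  by_contra hcon
  push Not at hcon
  have hss : (Fac n h i ∩ Fac n h j).Subsingleton := fun a ha b hb => hcon a ha b hb
  have h0 : μHE[1] (Fac n h i ∩ Fac n h j) = 0 := by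
    rw [MeasureTheory.Measure.euclideanHausdorffMeasure_def, Measure.smul_apply]
    have h1 : (μH[((1 : ℕ) : ℝ)] : Measure (E 3)) (Fac n h i ∩ Fac n h j) = 0 := by
      have := Measure.noAtoms_hausdorff (E 3) (d := ((1 : ℕ) : ℝ)) (by norm_num)
      exact hss.measure_zero _
    rw [h1]
    simp
  rw [elen, h0] at hpos
  simp at hpos

open Classical in
theorem Good.planar {ι : Type*} [Fintype ι] {n : ι → E 3} {h : ι → ℝ} (hg : Good n h)
    (T : Finset ι) (hT : 3 ≤ T.card) :
    ((T ×ˢ T).filter (fun p => Adj n h p.1 p.2)).card + 12 ≤ 6 * T.card := by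
  have key := planar_count (T := T) (by simpa using hT) (fun i => n i) (fun i => h i)
    (fun i j => Adj n h (i : ι) (j : ι))
    (fun i j hij => ⟨hij.1.symm, by
      have h1 := hij.2
      rw [elen, Set.inter_comm] at h1
      exact h1⟩)
    (by
      rintro i j ⟨hij, hpos⟩
      obtain ⟨a, ha, b, hb, hab⟩ := pl_two_points hpos
      refine ⟨pl_indep hg hij ha.1.2 ha.2.2, (1 / 2 : ℝ) • a + (1 / 2 : ℝ) • b, ?_, ?_, ?_⟩
      · rw [inner_add_right, inner_smul_right, inner_smul_right, ha.1.2, hb.1.2]; ring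
      · rw [inner_add_right, inner_smul_right, inner_smul_right, ha.2.2, hb.2.2]; ring
      · intro k hki hkj
        rw [inner_add_right, inner_smul_right, inner_smul_right]
        have h1 := ha.1.1 (k : ι)
        have h2 := hb.1.1 (k : ι)
        by_contra hcon
        push Not at hcon
        have h3 : ⟪n k, a⟫_ℝ = h k := by linarith
        have h4 : ⟪n k, b⟫_ℝ = h k := by linarith
        have h5 := hg.no_three hij (fun h => hki (Subtype.ext h.symm))
          (fun h => hkj (Subtype.ext h.symm)) ha.1.2 ha.2.2 h3 (d := a - b)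
          (by rw [inner_sub_right, ha.1.2, hb.1.2, sub_self])
          (by rw [inner_sub_right, ha.2.2, hb.2.2, sub_self])
          (by rw [inner_sub_right, h3, h4, sub_self])
        exact hab (sub_eq_zero.1 h5))
  rw [Fintype.card_coe] at key
  have hcard : ((T ×ˢ T).filter (fun p => Adj n h p.1 p.2)).card =
      (Finset.univ.filter (fun p : T × T => Adj n h (p.1 : ι) (p.2 : ι))).card := by
    symm
    refine Finset.card_bij (fun p _ => ((p.1 : ι), (p.2 : ι))) ?_ ?_ ?_
    · rintro ⟨⟨a, ha⟩, ⟨b, hb⟩⟩ hp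
      simp only [Finset.mem_filter, Finset.mem_univ, true_and, Finset.mem_product] at hp ⊢
      exact ⟨⟨ha, hb⟩, hp⟩
    · rintro ⟨⟨a, ha⟩, ⟨b, hb⟩⟩ _ ⟨⟨c, hc⟩, ⟨d, hd⟩⟩ _ heq
      simp only [Prod.mk.injEq] at heq
      simp [heq.1, heq.2]
    · rintro ⟨a, b⟩ hp
      simp only [Finset.mem_filter, Finset.mem_product] at hp
      exact ⟨(⟨a, hp.1.1⟩, ⟨b, hp.1.2⟩), by simpa using hp.2, rfl⟩
  rw [hcard]
  exact key

theorem Good.three_le_card {ι : Type*} [Fintype ι] {n : ι → E 3} {h : ι → ℝ} (hg : Good n h) :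
    3 ≤ Fintype.card ι := by
  by_contra hcon
  push Not at hcon
  set K : Submodule ℝ (E 3) := Submodule.span ℝ (Set.range n) with hK
  have h1 : Module.finrank ℝ K ≤ Fintype.card ι := finrank_range_le_card n
  have h2 : Module.finrank ℝ K + Module.finrank ℝ Kᗮ = 3 := by
    rw [Submodule.finrank_add_finrank_orthogonal]; simp
  have h3 : 0 < Module.finrank ℝ Kᗮ := by omega
  have h4 : Kᗮ ≠ ⊥ := by
    intro hbot
    rw [hbot, finrank_bot] at h3
    exact lt_irrefl _ h3
  obtain ⟨d, hd, hd0⟩ := Submodule.exists_mem_ne_zero_of_ne_bot h4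
  have hdi : ∀ i, ⟪n i, d⟫_ℝ = 0 := by
    intro i
    rw [Submodule.mem_orthogonal] at hd
    exact hd (n i) (Submodule.subset_span ⟨i, rfl⟩)
  obtain ⟨z, hz⟩ := hg.slater
  obtain ⟨C, hC⟩ := hg.bdd.exists_norm_le
  have h5 : ∀ t : ℝ, z + t • d ∈ Poly n h := by
    intro t i
    rw [inner_add_right, inner_smul_right, hdi i, mul_zero, add_zero]
    exact (hz i).le
  have hdn : 0 < ‖d‖ := norm_pos_iff.2 hd0
  have h6 := hC _ (h5 ((C + ‖z‖ + 1) / ‖d‖))
  have hC0 : 0 ≤ C := (norm_nonneg _).trans h6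
  have h7 : ‖((C + ‖z‖ + 1) / ‖d‖) • d‖ = C + ‖z‖ + 1 := by
    rw [norm_smul, Real.norm_eq_abs, abs_of_nonneg (by positivity)]
    field_simp
  have h8 : ‖((C + ‖z‖ + 1) / ‖d‖) • d‖ ≤ ‖z + ((C + ‖z‖ + 1) / ‖d‖) • d‖ + ‖z‖ := by
    have := norm_sub_le (z + ((C + ‖z‖ + 1) / ‖d‖) • d) z
    simpa using this
  linarith

end Melzak
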