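import Pool.Agent.Helper27.Melzak.Defs

/-!
# E: planarity: at most 3k - 6 adjacencies among k facets

planar_count: T a set of k >= 3 half-spaces <n_i, x> <= h_i; pairs {i, j} which have a point x with
equality for i and j and strict inequality for all others (n_i, n_j independent). There are at most
3k - 6 such pairs (ordered pairs are counted, so 6k - 12).

Proof. (1) General position. Replace (n_i, h_i) by (n_i + eps m_i, h_i + eps g_i) such that for all
small eps > 0 any three of the new normals are independent and any four of the new augmented vectors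
(n, h) in R^4 are independent (no four planes with a common point); e.g. (m_i, g_i) =
(1, s_i, s_i^2, s_i^3) with distinct s_i: the determinants are nonzero polynomials in eps (their top
coefficients are Vandermonde determinants, for three normals use (1, s_i, s_i^2)). The pairs with a
strict witness keep a strict witness for small eps (solve two linear equations, open conditions).
(2) Let t_i > 0 and f(x) = - sum_i t_i <n_i, x>. Add the half-space f(x) <= c with c large (if the
n_i do not span the space or P is unbounded...): since on P' = {all constraints, f <= c} the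
functions h_i - <n_i, x> >= 0 have a bounded weighted sum, <n_i, x> is bounded below and above for
all i, and three of the n_i are independent, so P' is bounded. For generic t and c the new system
is in general position too, and for c large the strict witnesses satisfy f(x) < c. Let k' be the
number of i (including the new one) with nonempty facet Fac i; k' <= k + 1.
(3) Let g be a linear functional, not in the span of any two normals. A vertex is a triple
t = {i, j, k} (three indices) whose common point x_t lies in P'; all other constraints are strict at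
x_t. Edge directions at x_t: d_i with <n_j, d_i> = <n_k, d_i> = 0, <n_i, d_i> = -1, similarly d_j,
d_k; g(d_i) <> 0. Every x in P' is x_t + sum of nonnegative multiples of the d's
(with coefficients <n_i, x_t - x>, ...); x in Fac i has zero coefficient of d_i.
So: x_t minimises g over P' iff all three g(d) > 0; x_t minimises g over Fac i iff g(d_j), g(d_k) > 0;
x_t minimises g over the edge Fac j cap Fac k iff g(d_i) > 0; the minimisers are then unique.
Conversely the minimum of g over P', over a nonempty Fac i, over a nonempty Fac j cap Fac k is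
attained (compactness) at a point with exactly three active constraints (if fewer are active, move in
a direction d orthogonal to the active normals with g(d) < 0), i.e. at a vertex.
Let A_u be the number of vertices with exactly u of the three g(d) positive. Counting vertices:
A_3 = 1 and, with -g, A_0 = 1 (P' is nonempty). Counting (vertex, facet) with the vertex the minimum
of the facet: A_2 + 3 A_3 = k', and with the maximum: A_1 + 3 A_0 = k'. Counting (vertex, edge) with
the vertex the minimum of the edge: A_1 + 2 A_2 + 3 A_3 = number of edges. So the number of edges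
is 3 k' - 6. If the new facet is nonempty then it is a compact facet, with at least three edges
(its minimum vertex has two of its edges going up, and its maximum vertex two going down, and
these are not the same two), so the number of edges between old facets is at most
3 (k + 1) - 6 - 3; else k' <= k.
-/

open MeasureTheory Set Filter Topology
open scoped ENNReal InnerProductSpace

namespace Melzak
namespace PC

set_option linter.unusedSectionVars false
set_option linter.unusedVariables false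

variable {K : Type*} [Fintype K] [DecidableEq K]

def Fc (n : K → E 3) (h : K → ℝ) (I : Finset K) : Set (E 3) :=
  {x | (∀ i, ⟪n i, x⟫_ℝ ≤ h i) ∧ ∀ i ∈ I, ⟪n i, x⟫_ℝ = h i}

structure GP (n : K → E 3) (h : K → ℝ) (g : E 3) : Prop where
  notMem : ∀ i j k, i ≠ j → i ≠ k → j ≠ k → n i ∉ Submodule.span ℝ {n j, n k}
  four : ∀ (t : Finset K) (x : E 3), (∀ i ∈ t, ⟪n i, x⟫_ℝ = h i) → t.card ≤ 3
  gen : ∀ i j, g ∉ Submodule.span ℝ {n i, n j}
  bdd : Bornology.IsBounded (Fc n h ∅)
  card : 3 ≤ Fintype.card K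

lemma li_of_notMem {n : K → E 3} {i j k : K} (h1 : n i ∉ Submodule.span ℝ {n j, n k})
    (h2 : n j ∉ Submodule.span ℝ {n i, n k}) (h3 : n k ∉ Submodule.span ℝ {n i, n j}) :
    LinearIndependent ℝ ![n i, n j, n k] := by
  rw [linearIndependent_fin_succ]
  have hr : Set.range (Fin.tail ![n i, n j, n k]) = {n j, n k} := by
    ext v
    simp only [Set.mem_range, Set.mem_insert_iff, Set.mem_singleton_iff]
    constructor
    · rintro ⟨l, rfl⟩
      fin_cases l
      · left; rfl
      · right; rfl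
    · rintro (rfl | rfl)
      · exact ⟨0, rfl⟩
      · exact ⟨1, rfl⟩
  refine ⟨?_, by
    rw [hr]; exact h1⟩
  rw [linearIndependent_fin2]
  refine ⟨fun h0 => h3 ?_, fun a ha => h2 ?_⟩
  · have h0' : n k = 0 := h0
    rw [h0']; exact Submodule.zero_mem _
  · have ha' : a • n k = n j := ha
    rw [← ha']
    exact Submodule.smul_mem _ _ (Submodule.subset_span (by simp))

lemma GP.indep {n : K → E 3} {h : K → ℝ} {g : E 3} (hGP : GP n h g) {i j k : K} (hij : i ≠ j)
    (hik : i ≠ k) (hjk : j ≠ k) : LinearIndependent ℝ ![n i, n j, n k] :=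
  li_of_notMem (hGP.notMem i j k hij hik hjk) (hGP.notMem j i k hij.symm hjk hik)
    (hGP.notMem k i j hik.symm hjk.symm hij)

lemma exists_orth {S : Submodule ℝ (E 3)} {g : E 3} (hg : g ∉ S) :
    ∃ d : E 3, (∀ v ∈ S, ⟪v, d⟫_ℝ = 0) ∧ ⟪g, d⟫_ℝ < 0 := by
  by_contra hcon
  push Not at hcon
  apply hg
  rw [← Submodule.orthogonal_orthogonal S, Submodule.mem_orthogonal']
  intro d hd
  rw [Submodule.mem_orthogonal] at hd
  have h1 := hcon d hd
  have h2 := hcon (-d) (fun v hv => by rw [inner_neg_right, hd v hv, neg_zero])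
  rw [inner_neg_right] at h2
  linarith

lemma exists_move (n : K → E 3) (h : K → ℝ) {x d : E 3} (hx : ∀ i, ⟪n i, x⟫_ℝ ≤ h i)
    (hd : ∀ i, ⟪n i, x⟫_ℝ = h i → ⟪n i, d⟫_ℝ ≤ 0) :
    ∃ ε : ℝ, 0 < ε ∧ ∀ i, ⟪n i, x + ε • d⟫_ℝ ≤ h i := by
  have key : ∀ i, ∀ᶠ ε in 𝓝[>] (0 : ℝ), ⟪n i, x + ε • d⟫_ℝ ≤ h i := by
    intro i
    rcases eq_or_lt_of_le (hx i) with h1 | h1
    · filter_upwards [self_mem_nhdsWithin] with ε hε
      rw [inner_add_right, inner_smul_right, h1]
      have := hd i h1
      have hε' : 0 < ε := hε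
      nlinarith
    · have hcont : Continuous (fun ε : ℝ => ⟪n i, x + ε • d⟫_ℝ) := by fun_prop
      have h2 : ∀ᶠ ε in 𝓝 (0 : ℝ), ⟪n i, x + ε • d⟫_ℝ < h i := by
        apply hcont.continuousAt.eventually_lt_const
        simpa using h1
      exact (h2.filter_mono nhdsWithin_le_nhds).mono fun ε hε => hε.le
  have h3 : ∀ᶠ ε in 𝓝[>] (0 : ℝ), 0 < ε ∧ ∀ i, ⟪n i, x + ε • d⟫_ℝ ≤ h i :=
    (show ∀ᶠ ε in 𝓝[>] (0 : ℝ), 0 < ε from self_mem_nhdsWithin).and (eventually_all.2 key)
  exact h3.exists

lemma isClosed_Fc (n : K → E 3) (h : K → ℝ) (I : Finset K) : IsClosed (Fc n h I) := by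
  have : Fc n h I = (⋂ i, {x | ⟪n i, x⟫_ℝ ≤ h i}) ∩ ⋂ i ∈ I, {x | ⟪n i, x⟫_ℝ = h i} := by
    ext x; simp [Fc]
  rw [this]
  refine IsClosed.inter (isClosed_iInter fun i => isClosed_le (by fun_prop) continuous_const) ?_
  exact isClosed_biInter fun i _ => isClosed_eq (by fun_prop) continuous_const

lemma Fc_mono (n : K → E 3) (h : K → ℝ) {I J : Finset K} (hIJ : I ⊆ J) : Fc n h J ⊆ Fc n h I :=
  fun _ hx => ⟨hx.1, fun i hi => hx.2 i (hIJ hi)⟩

lemma span_pair_of_card_le_two {n : K → E 3} {A : Finset K} (hK : 3 ≤ Fintype.card K)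
    (hA : A.card ≤ 2) : ∃ i j, ∀ k ∈ A, n k ∈ Submodule.span ℝ {n i, n j} := by
  have hne : Nonempty K := by
    by_contra hcon
    rw [not_nonempty_iff] at hcon
    have := Fintype.card_eq_zero (α := K)
    omega
  obtain ⟨i₀⟩ := hne
  interval_cases hc : A.card
  · rw [Finset.card_eq_zero] at hc
    subst hc
    exact ⟨i₀, i₀, fun k hk => absurd hk (Finset.notMem_empty k)⟩
  · rw [Finset.card_eq_one] at hc
    obtain ⟨a, rfl⟩ := hc
    refine ⟨a, a, fun k hk => ?_⟩
    rw [Finset.mem_singleton] at hk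
    subst hk
    exact Submodule.subset_span (by simp)
  · rw [Finset.card_eq_two] at hc
    obtain ⟨a, b, -, rfl⟩ := hc
    refine ⟨a, b, fun k hk => ?_⟩
    rw [Finset.mem_insert, Finset.mem_singleton] at hk
    rcases hk with rfl | rfl
    · exact Submodule.subset_span (by simp)
    · exact Submodule.subset_span (by simp)

lemma coef_ne_zero {n : K → E 3} {h : K → ℝ} {g : E 3} (hGP : GP n h g) {t : Finset K}
    (ht : t.card = 3) {c : K → ℝ} (hc : ∑ i ∈ t, c i • n i = g) {i : K} (hi : i ∈ t) :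
    c i ≠ 0 := by
  intro h0
  have h1 : (t.erase i).card ≤ 2 := by rw [Finset.card_erase_of_mem hi]; omega
  obtain ⟨j, k, hjk⟩ := span_pair_of_card_le_two (n := n) hGP.card h1
  apply hGP.gen j k
  rw [← hc, ← Finset.add_sum_erase t _ hi, h0, zero_smul, zero_add]
  exact Submodule.sum_mem _ fun l hl => Submodule.smul_mem _ _ (hjk l hl)

/-- Existence of the minimal vertex of a face. -/
lemma exists_vertex {n : K → E 3} {h : K → ℝ} {g : E 3} (hGP : GP n h g)
    {c : Finset K → K → ℝ} (hc : ∀ t, t.card = 3 → ∑ i ∈ t, c t i • n i = g)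
    {I : Finset K} (hne : (Fc n h I).Nonempty) :
    ∃ t : Finset K, t.card = 3 ∧ (Fc n h t).Nonempty ∧ I ⊆ t ∧ ∀ i ∈ t, 0 < c t i → i ∈ I := by
  have hcomp : IsCompact (Fc n h I) := Metric.isCompact_of_isClosed_isBounded (isClosed_Fc n h I)
    (hGP.bdd.subset (Fc_mono n h (Finset.empty_subset I)))
  obtain ⟨x, hx, hmin⟩ := hcomp.exists_isMinOn hne
    (f := fun x => ⟪g, x⟫_ℝ) (by fun_prop)
  set A : Finset K := Finset.univ.filter (fun i => ⟪n i, x⟫_ℝ = h i) with hA
  have hmemA : ∀ i, i ∈ A ↔ ⟪n i, x⟫_ℝ = h i := by intro i; simp [hA]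
  have hA3 : A.card ≤ 3 := hGP.four A x fun i hi => (hmemA i).1 hi
  have hIA : I ⊆ A := fun i hi => (hmemA i).2 (hx.2 i hi)
  -- moving along `d`
  have hmove : ∀ d : E 3, (∀ i ∈ A, ⟪n i, d⟫_ℝ ≤ 0) → (∀ i ∈ I, ⟪n i, d⟫_ℝ = 0) →
      ⟪g, d⟫_ℝ < 0 → False := by
    intro d h1 h2 h3
    obtain ⟨ε, hε, hε'⟩ := exists_move n h hx.1 (d := d) (fun i hi => h1 i ((hmemA i).2 hi))
    have h4 : x + ε • d ∈ Fc n h I := by
      refine ⟨hε', fun i hi => ?_⟩
      rw [inner_add_right, inner_smul_right, h2 i hi, hx.2 i hi]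
      ring
    have h5 : ⟪g, x⟫_ℝ ≤ ⟪g, x + ε • d⟫_ℝ := hmin h4
    rw [inner_add_right, inner_smul_right] at h5
    nlinarith
  have hA2 : A.card = 3 := by
    by_contra hcon
    have h1 : A.card ≤ 2 := by omega
    obtain ⟨i, j, hij⟩ := span_pair_of_card_le_two (n := n) hGP.card h1
    obtain ⟨d, hd1, hd2⟩ := exists_orth (hGP.gen i j)
    exact hmove d (fun k hk => (hd1 _ (hij k hk)).le)
      (fun k hk => hd1 _ (hij k (hIA hk))) hd2
  refine ⟨A, hA2, ⟨x, hx.1, fun i hi => (hmemA i).1 hi⟩, hIA, fun i hi hci => ?_⟩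
  by_contra hiI
  have hcard : (A.erase i).card = 2 := by rw [Finset.card_erase_of_mem hi]; omega
  obtain ⟨j, k, hjk, hAjk⟩ := Finset.card_eq_two.1 hcard
  have hji : i ≠ j := by
    intro hcon
    have : j ∈ A.erase i := by rw [hAjk]; simp
    rw [← hcon] at this
    simp at this
  have hki : i ≠ k := by
    intro hcon
    have : k ∈ A.erase i := by rw [hAjk]; simp
    rw [← hcon] at this
    simp at this
  obtain ⟨d, hd1, hd2⟩ := exists_orth (hGP.notMem i j k hji hki hjk)
  have hd0 : ∀ l ∈ A.erase i, ⟪n l, d⟫_ℝ = 0 := by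
    intro l hl
    rw [hAjk, Finset.mem_insert, Finset.mem_singleton] at hl
    rcases hl with rfl | rfl
    · exact hd1 _ (Submodule.subset_span (by simp))
    · exact hd1 _ (Submodule.subset_span (by simp))
  refine hmove d (fun l hl => ?_) (fun l hl => ?_) ?_
  · by_cases hli : l = i
    · rw [hli]; exact hd2.le
    · exact (hd0 l (Finset.mem_erase.2 ⟨hli, hl⟩)).le
  · exact hd0 l (Finset.mem_erase.2 ⟨fun hcon => hiI (hcon ▸ hl), hIA hl⟩)
  · rw [← hc A hA2, sum_inner, ← Finset.add_sum_erase A _ hi]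
    have : ∑ l ∈ A.erase i, ⟪c A l • n l, d⟫_ℝ = 0 := by
      apply Finset.sum_eq_zero
      intro l hl
      rw [real_inner_smul_left, hd0 l hl, mul_zero]
    rw [this, add_zero, real_inner_smul_left]
    exact mul_neg_of_pos_of_neg hci hd2

lemma unique_vertex {n : K → E 3} {h : K → ℝ} {g : E 3} (hGP : GP n h g)
    {c : Finset K → K → ℝ} (hc : ∀ t, t.card = 3 → ∑ i ∈ t, c t i • n i = g)
    {I t t' : Finset K} (ht : t.card = 3) (htn : (Fc n h t).Nonempty) (hIt : I ⊆ t)
    (htc : ∀ i ∈ t, 0 < c t i → i ∈ I) (ht' : t'.card = 3) (htn' : (Fc n h t').Nonempty)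
    (hIt' : I ⊆ t') (htc' : ∀ i ∈ t', 0 < c t' i → i ∈ I) : t = t' := by
  have key : ∀ (s s' : Finset K) (x x' : E 3), s.card = 3 → I ⊆ s → I ⊆ s' →
      (∀ i ∈ s, 0 < c s i → i ∈ I) → x ∈ Fc n h s → x' ∈ Fc n h s' →
      (⟪g, x⟫_ℝ ≤ ⟪g, x'⟫_ℝ) ∧ (⟪g, x'⟫_ℝ ≤ ⟪g, x⟫_ℝ → ∀ i ∈ s, ⟪n i, x'⟫_ℝ = h i) := by
    intro s s' x x' hs hIs hIs' hsc hx hx'
    have h1 : ⟪g, x'⟫_ℝ - ⟪g, x⟫_ℝ = ∑ i ∈ s, c s i * (⟪n i, x'⟫_ℝ - h i) := by
      rw [← inner_sub_right, ← hc s hs, sum_inner]
      refine Finset.sum_congr rfl fun i hi => ?_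
      rw [real_inner_smul_left, inner_sub_right, hx.2 i hi]
    have h2 : ∀ i ∈ s, 0 ≤ c s i * (⟪n i, x'⟫_ℝ - h i) := by
      intro i hi
      by_cases hiI : i ∈ I
      · rw [hx'.2 i (hIs' hiI), sub_self, mul_zero]
      · have h3 : c s i ≤ 0 := not_lt.1 fun hcon => hiI (hsc i hi hcon)
        exact mul_nonneg_of_nonpos_of_nonpos h3 (sub_nonpos.2 (hx'.1 i))
    refine ⟨?_, fun h4 i hi => ?_⟩
    · have := Finset.sum_nonneg h2
      linarith
    · have h5 : ∑ i ∈ s, c s i * (⟪n i, x'⟫_ℝ - h i) = 0 :=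
        le_antisymm (by linarith) (Finset.sum_nonneg h2)
      have h6 := (Finset.sum_eq_zero_iff_of_nonneg h2).1 h5 i hi
      rcases mul_eq_zero.1 h6 with h7 | h7
      · exact absurd h7 (coef_ne_zero hGP hs (hc s hs) hi)
      · linarith
  obtain ⟨x, hx⟩ := htn
  obtain ⟨x', hx'⟩ := htn'
  have h1 := key t t' x x' ht hIt hIt' htc hx hx'
  have h2 := key t' t x' x ht' hIt' hIt htc' hx' hx
  have h3 := h1.2 h2.1
  have h4 := hGP.four (t ∪ t') x' (fun i hi => by
    rcases Finset.mem_union.1 hi with hi | hi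
    · exact h3 i hi
    · exact hx'.2 i hi)
  have h5 : t = t ∪ t' := Finset.eq_of_subset_of_card_le Finset.subset_union_left (by omega)
  have h6 : t' = t ∪ t' := Finset.eq_of_subset_of_card_le Finset.subset_union_right (by omega)
  rw [h5]; exact h6.symm

lemma cnt {t D : Finset K} (hD : D ⊆ t) (k : ℕ) :
    ((t.powersetCard k).filter (fun I => D ⊆ I)).card =
      if D.card ≤ k then (t.card - D.card).choose (k - D.card) else 0 := by
  split_ifs with hk
  · rw [← Finset.card_sdiff_of_subset hD, ← Finset.card_powersetCard]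
    refine Finset.card_nbij' (fun I => I \ D) (fun J => J ∪ D) ?_ ?_ ?_ ?_
    · intro I hI
      simp only [Finset.coe_filter, Finset.mem_powersetCard, Set.mem_ofPred_eq] at hI
      simp only [Finset.mem_coe, Finset.mem_powersetCard]
      refine ⟨Finset.sdiff_subset_sdiff hI.1.1 le_rfl, ?_⟩
      rw [Finset.card_sdiff_of_subset hI.2, hI.1.2]
    · intro J hJ
      simp only [Finset.mem_coe, Finset.mem_powersetCard] at hJ
      simp only [Finset.mem_coe, Finset.mem_filter, Finset.mem_powersetCard]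
      refine ⟨⟨Finset.union_subset (hJ.1.trans Finset.sdiff_subset) hD, ?_⟩,
        Finset.subset_union_right⟩
      rw [Finset.card_union_of_disjoint, hJ.2]
      · omega
      · exact Finset.disjoint_of_subset_left hJ.1 Finset.sdiff_disjoint
    · intro I hI
      simp only [Finset.mem_coe, Finset.mem_filter, Finset.mem_powersetCard] at hI
      exact Finset.sdiff_union_of_subset hI.2
    · intro J hJ
      simp only [Finset.mem_coe, Finset.mem_powersetCard] at hJ
      exact Finset.union_sdiff_cancel_right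
        (Finset.disjoint_of_subset_left hJ.1 Finset.sdiff_disjoint)
  · rw [Finset.card_eq_zero, Finset.filter_eq_empty_iff]
    intro I hI hDI
    rw [Finset.mem_powersetCard] at hI
    exact hk (hI.2 ▸ Finset.card_le_card hDI)

open Classical in
noncomputable def Ek (n : K → E 3) (h : K → ℝ) (k : ℕ) : Finset (Finset K) :=
  (Finset.univ.powersetCard k).filter (fun I => (Fc n h I).Nonempty)

open Classical in
noncomputable def Vt (n : K → E 3) (h : K → ℝ) : Finset (Finset K) :=
  Finset.univ.filter (fun t => t.card = 3 ∧ (Fc n h t).Nonempty)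

open Classical in
lemma card_Ek {n : K → E 3} {h : K → ℝ} {g : E 3} (hGP : GP n h g)
    {c : Finset K → K → ℝ} (hc : ∀ t, t.card = 3 → ∑ i ∈ t, c t i • n i = g) (k : ℕ) :
    (Ek n h k).card = ∑ t ∈ Vt n h,
      ((t.powersetCard k).filter (fun I => t.filter (fun i => 0 < c t i) ⊆ I)).card := by
  rw [← Finset.card_sigma]
  symm
  refine Finset.card_nbij (fun p => p.2) ?_ ?_ ?_
  · rintro ⟨t, I⟩ hp
    simp only [Finset.mem_coe, Finset.mem_sigma, Finset.mem_filter, Finset.mem_powersetCard, Vt,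
      Finset.mem_univ, true_and] at hp
    simp only [Ek, Finset.mem_coe, Finset.mem_filter, Finset.mem_powersetCard]
    exact ⟨⟨Finset.subset_univ _, hp.2.1.2⟩, hp.1.2.mono (Fc_mono n h hp.2.1.1)⟩
  · rintro ⟨t, I⟩ hp ⟨t', I'⟩ hp' heq
    simp only [Finset.mem_coe, Finset.mem_sigma, Finset.mem_filter, Finset.mem_powersetCard, Vt,
      Finset.mem_univ, true_and] at hp hp'
    simp only at heq
    subst heq
    have : t = t' := unique_vertex hGP hc hp.1.1 hp.1.2 hp.2.1.1
      (fun i hi hci => hp.2.2 (Finset.mem_filter.2 ⟨hi, hci⟩)) hp'.1.1 hp'.1.2 hp'.2.1.1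
      (fun i hi hci => hp'.2.2 (Finset.mem_filter.2 ⟨hi, hci⟩))
    subst this
    rfl
  · intro I hI
    simp only [Ek, Finset.mem_coe, Finset.mem_filter, Finset.mem_powersetCard] at hI
    obtain ⟨t, ht1, ht2, ht3, ht4⟩ := exists_vertex hGP hc hI.2
    refine ⟨⟨t, I⟩, ?_, rfl⟩
    simp only [Finset.mem_coe, Finset.mem_sigma, Finset.mem_filter, Finset.mem_powersetCard, Vt,
      Finset.mem_univ, true_and]
    refine ⟨⟨ht1, ht2⟩, ⟨ht3, hI.1.2⟩, fun i hi => ?_⟩
    rw [Finset.mem_filter] at hi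
    exact ht4 i hi.1 hi.2

lemma exists_coef {n : K → E 3} {h : K → ℝ} {g : E 3} (hGP : GP n h g) :
    ∃ c : Finset K → K → ℝ, ∀ t, t.card = 3 → ∑ i ∈ t, c t i • n i = g := by
  have : ∀ t : Finset K, ∃ c : K → ℝ, t.card = 3 → ∑ i ∈ t, c i • n i = g := by
    intro t
    by_cases ht : t.card = 3
    · obtain ⟨i, j, k, hij, hik, hjk, rfl⟩ := Finset.card_eq_three.1 ht
      have hli := hGP.indep hij hik hjk
      have htop := hli.span_eq_top_of_card_eq_finrank (by simp)
      have hmem : g ∈ Submodule.span ℝ (Set.range ![n i, n j, n k]) := by rw [htop]; trivial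
      rw [Submodule.mem_span_range_iff_exists_fun] at hmem
      obtain ⟨a, ha⟩ := hmem
      refine ⟨fun l => if l = i then a 0 else if l = j then a 1 else a 2, fun _ => ?_⟩
      rw [Finset.sum_insert (by simp [hij, hik]), Finset.sum_insert (by simp [hjk]),
        Finset.sum_singleton]
      simp only [if_true, if_neg hij.symm, if_neg hik.symm, if_neg hjk.symm]
      rw [← ha, Fin.sum_univ_three]
      simp [add_assoc]
    · exact ⟨0, fun h => absurd h ht⟩
  choose c hc using this
  exact ⟨c, hc⟩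

open Classical in
/-- The main count in general position. -/
lemma core {n : K → E 3} {h : K → ℝ} {g : E 3} (hGP : GP n h g) (hne : (Fc n h ∅).Nonempty) :
    (Ek n h 2).card + 6 = 3 * (Ek n h 1).card := by
  obtain ⟨c, hc⟩ := exists_coef hGP
  have hGP' : GP n h (-g) := ⟨hGP.notMem, hGP.four, fun i j hcon => hGP.gen i j (by
    rw [← neg_neg g]; exact Submodule.neg_mem _ hcon), hGP.bdd, hGP.card⟩
  have hc' : ∀ t : Finset K, t.card = 3 → ∑ i ∈ t, (fun t i => - c t i) t i • n i = -g := by
    intro t ht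
    rw [← hc t ht, ← Finset.sum_neg_distrib]
    exact Finset.sum_congr rfl fun i _ => by rw [neg_smul]
  have h0 : (Ek n h 0).card = 1 := by
    have : Ek n h 0 = {∅} := by
      ext I
      simp only [Ek, Finset.mem_filter, Finset.mem_powersetCard, Finset.card_eq_zero,
        Finset.mem_singleton]
      constructor
      · rintro ⟨⟨-, h1⟩, -⟩; exact h1
      · rintro rfl; exact ⟨⟨Finset.empty_subset _, rfl⟩, hne⟩
    rw [this, Finset.card_singleton]
  have e0 := card_Ek hGP hc 0
  have e1 := card_Ek hGP hc 1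
  have e2 := card_Ek hGP hc 2
  have e0' := card_Ek hGP' hc' 0
  have e1' := card_Ek hGP' hc' 1
  have key : ∀ t ∈ Vt n h,
      ((t.powersetCard 2).filter (fun I => t.filter (fun i => 0 < c t i) ⊆ I)).card +
      3 * ((t.powersetCard 0).filter (fun I => t.filter (fun i => 0 < c t i) ⊆ I)).card +
      3 * ((t.powersetCard 0).filter (fun I => t.filter (fun i => 0 < - c t i) ⊆ I)).card =
      2 * ((t.powersetCard 1).filter (fun I => t.filter (fun i => 0 < c t i) ⊆ I)).card +
      ((t.powersetCard 1).filter (fun I => t.filter (fun i => 0 < - c t i) ⊆ I)).card := by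
    intro t ht
    rw [Vt, Finset.mem_filter] at ht
    have ht3 := ht.2.1
    rw [cnt (Finset.filter_subset _ _), cnt (Finset.filter_subset _ _),
      cnt (Finset.filter_subset _ _), cnt (Finset.filter_subset _ _),
      cnt (Finset.filter_subset _ _), ht3]
    have hsum : (t.filter (fun i => 0 < c t i)).card + (t.filter (fun i => 0 < - c t i)).card
        = 3 := by
      rw [← Finset.card_union_of_disjoint, ← Finset.filter_or, ← ht3]
      · congr 1
        rw [Finset.filter_eq_self]
        intro i hi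
        have := coef_ne_zero hGP ht3 (hc t ht3) hi
        rcases lt_or_gt_of_ne this with h1 | h1
        · right; linarith
        · left; exact h1
      · rw [Finset.disjoint_filter]
        intro i _ h1 h2
        linarith
    generalize (t.filter (fun i => 0 < c t i)).card = a at *
    generalize (t.filter (fun i => 0 < - c t i)).card = b at *
    have ha : a ≤ 3 := by omega
    obtain rfl : b = 3 - a := by omega
    interval_cases a <;> simp [Nat.choose]
  have hs := Finset.sum_congr rfl key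
  simp only [Finset.sum_add_distrib, ← Finset.mul_sum] at hs
  have e0'' : (Ek n h 0).card = ∑ t ∈ Vt n h,
      ((t.powersetCard 0).filter (fun I => t.filter (fun i => 0 < - c t i) ⊆ I)).card := e0'
  have e1'' : (Ek n h 1).card = ∑ t ∈ Vt n h,
      ((t.powersetCard 1).filter (fun I => t.filter (fun i => 0 < - c t i) ⊆ I)).card := e1'
  rw [← e0, ← e1, ← e2, ← e0'', ← e1'', h0] at hs
  omega

open Classical in
/-- A nonempty facet has at least three edges. -/
lemma three_edges {n : K → E 3} {h : K → ℝ} {g : E 3} (hGP : GP n h g) {i₀ : K}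
    (hne : (Fc n h {i₀}).Nonempty) : 3 ≤ ((Ek n h 2).filter (fun I => i₀ ∈ I)).card := by
  obtain ⟨c, hc⟩ := exists_coef hGP
  have hGP' : GP n h (-g) := ⟨hGP.notMem, hGP.four, fun i j hcon => hGP.gen i j (by
    rw [← neg_neg g]; exact Submodule.neg_mem _ hcon), hGP.bdd, hGP.card⟩
  have hc' : ∀ t : Finset K, t.card = 3 → ∑ i ∈ t, (fun t i => - c t i) t i • n i = -g := by
    intro t ht
    rw [← hc t ht, ← Finset.sum_neg_distrib]
    exact Finset.sum_congr rfl fun i _ => by rw [neg_smul]
  obtain ⟨t, ht1, ht2, ht3, ht4⟩ := exists_vertex hGP hc hne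
  obtain ⟨t', ht1', ht2', ht3', ht4'⟩ := exists_vertex hGP' hc' hne
  have hi : i₀ ∈ t := ht3 (Finset.mem_singleton_self _)
  have hi' : i₀ ∈ t' := ht3' (Finset.mem_singleton_self _)
  have htt : t ≠ t' := by
    rintro rfl
    have h1 : t ⊆ {i₀} := by
      intro i hi
      rcases lt_or_gt_of_ne (coef_ne_zero hGP ht1 (hc t ht1) hi) with h2 | h2
      · exact ht4' i hi (by linarith)
      · exact ht4 i hi h2
    have := Finset.card_le_card h1
    rw [Finset.card_singleton] at this
    omega
  have hcard : 4 ≤ (t ∪ t').card := by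
    by_contra hcon
    have h5 : t = t ∪ t' := Finset.eq_of_subset_of_card_le Finset.subset_union_left (by omega)
    have h6 : t' = t ∪ t' := Finset.eq_of_subset_of_card_le Finset.subset_union_right (by omega)
    exact htt (h5.trans h6.symm)
  have h7 : 3 ≤ ((t ∪ t').erase i₀).card := by
    rw [Finset.card_erase_of_mem (Finset.mem_union_left _ hi)]
    omega
  refine h7.trans ?_
  refine Finset.card_le_card_of_injOn (fun x => {i₀, x}) ?_ ?_
  · intro x hx
    simp only [Finset.mem_coe, Finset.mem_erase, Finset.mem_union] at hx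
    simp only [Ek, Finset.mem_coe, Finset.mem_filter, Finset.mem_powersetCard, Finset.mem_insert,
      true_or, and_true]
    refine ⟨⟨Finset.subset_univ _, Finset.card_pair hx.1.symm⟩, ?_⟩
    rcases hx.2 with h8 | h8
    · refine ht2.mono (Fc_mono n h ?_)
      intro y hy
      rw [Finset.mem_insert, Finset.mem_singleton] at hy
      rcases hy with rfl | rfl
      · exact hi
      · exact h8
    · refine ht2'.mono (Fc_mono n h ?_)
      intro y hy
      rw [Finset.mem_insert, Finset.mem_singleton] at hy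
      rcases hy with rfl | rfl
      · exact hi'
      · exact h8
  · intro x hx y hy hxy
    simp only [Finset.mem_coe, Finset.mem_erase] at hx hy
    have hxy' : ({i₀, x} : Finset K) = {i₀, y} := hxy
    have h8 : x ∈ ({i₀, y} : Finset K) := by rw [← hxy']; simp
    rw [Finset.mem_insert, Finset.mem_singleton] at h8
    rcases h8 with h8 | h8
    · exact absurd h8 hx.1
    · exact h8

/-- A point outside finitely many preimages of planes. -/
lemma exists_avoid {V : Type*} [NormedAddCommGroup V] [NormedSpace ℝ V] [FiniteDimensional ℝ V]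
    [MeasurableSpace V] [BorelSpace V] {J : Type*} [Finite J] (B : J → Submodule ℝ V)
    (hB : ∀ j, B j ≠ ⊤) {U : Set V} (hU : IsOpen U) (hUn : U.Nonempty) :
    ∃ v ∈ U, ∀ j, v ∉ B j := by
  by_contra hcon
  push Not at hcon
  have h1 : U ⊆ ⋃ j, (B j : Set V) := by
    intro v hv
    obtain ⟨j, hj⟩ := hcon v hv
    exact mem_iUnion.2 ⟨j, hj⟩
  have h2 : (Measure.addHaar : Measure V) (⋃ j, (B j : Set V)) = 0 := by
    rw [measure_iUnion_null_iff]
    exact fun j => Measure.addHaar_submodule _ _ (hB j)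
  have h3 := hU.measure_pos (Measure.addHaar : Measure V) hUn
  exact absurd (measure_mono_null h1 h2) h3.ne'

lemma span_pair_ne_top (v w : E 3) : Submodule.span ℝ {v, w} ≠ ⊤ := by
  intro h
  have h1 : Module.finrank ℝ (Submodule.span ℝ ({v, w} : Set (E 3))) ≤ 2 := by
    refine (finrank_span_le_card ({v, w} : Set (E 3))).trans ?_
    simp only [Set.toFinset_insert, Set.toFinset_singleton]
    exact Finset.card_le_two
  rw [h] at h1
  simp at h1

/-- Three planes in general position meet in at most one point. -/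
lemma unique_point {n : K → E 3} {i j k : K} (h1 : LinearIndependent ℝ ![n i, n j, n k])
    {d : E 3} (hi : ⟪n i, d⟫_ℝ = 0) (hj : ⟪n j, d⟫_ℝ = 0) (hk : ⟪n k, d⟫_ℝ = 0) : d = 0 := by
  have htop := h1.span_eq_top_of_card_eq_finrank (by simp)
  have hmem : d ∈ Submodule.span ℝ (Set.range ![n i, n j, n k]) := by rw [htop]; trivial
  rw [Submodule.mem_span_range_iff_exists_fun] at hmem
  obtain ⟨a, ha⟩ := hmem
  have : ⟪d, d⟫_ℝ = 0 := by
    nth_rewrite 1 [← ha]
    rw [sum_inner, Fin.sum_univ_three]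
    simp [real_inner_smul_left, hi, hj, hk]
  exact inner_self_eq_zero.1 this

lemma bounded_of_three {S : Set (E 3)} {n : K → E 3} {i j k : K}
    (h1 : LinearIndependent ℝ ![n i, n j, n k]) {M : ℝ}
    (hS : ∀ x ∈ S, |⟪n i, x⟫_ℝ| ≤ M ∧ |⟪n j, x⟫_ℝ| ≤ M ∧ |⟪n k, x⟫_ℝ| ≤ M) :
    Bornology.IsBounded S := by
  let φ : E 3 →ₗ[ℝ] (ℝ × ℝ × ℝ) :=
    (innerₛₗ ℝ (n i)).prod ((innerₛₗ ℝ (n j)).prod (innerₛₗ ℝ (n k)))
  have hφ : LinearMap.ker φ = ⊥ := by
    rw [LinearMap.ker_eq_bot']
    intro d hd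
    have h2 : ⟪n i, d⟫_ℝ = 0 ∧ ⟪n j, d⟫_ℝ = 0 ∧ ⟪n k, d⟫_ℝ = 0 := by
      simpa [φ, Prod.ext_iff] using hd
    exact unique_point h1 h2.1 h2.2.1 h2.2.2
  obtain ⟨C, hC0, hC⟩ := φ.exists_antilipschitzWith hφ
  have h3 : ∀ x ∈ S, φ x ∈ Metric.closedBall (0 : ℝ × ℝ × ℝ) M := by
    intro x hx
    obtain ⟨ha, hb, hc⟩ := hS x hx
    rw [mem_closedBall_zero_iff]
    simp only [φ, LinearMap.prod_apply, Prod.norm_def, Real.norm_eq_abs]
    exact max_le ha (max_le hb hc)
  have h4 : Bornology.IsBounded (φ '' S) :=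
    Metric.isBounded_closedBall.subset (by rintro _ ⟨x, hx, rfl⟩; exact h3 x hx)
  exact (hC.isBounded_preimage h4).subset (Set.subset_preimage_image _ _)

open Classical in
lemma bounded_count {T : Type*} [Fintype T] (hT : 3 ≤ Fintype.card T) {n : T → E 3} {h : T → ℝ}
    (hnm : ∀ i j k, i ≠ j → i ≠ k → j ≠ k → n i ∉ Submodule.span ℝ {n j, n k})
    (hfour : ∀ (t : Finset T) (x : E 3), (∀ i ∈ t, ⟪n i, x⟫_ℝ = h i) → t.card ≤ 3) :
    (Ek n h 2).card + 6 ≤ 3 * Fintype.card T := by
  by_cases hEk : (Ek n h 2).Nonempty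
  swap
  · rw [Finset.not_nonempty_iff_eq_empty] at hEk
    rw [hEk, Finset.card_empty]
    omega
  -- the weights
  let Φ : (T → ℝ) →ₗ[ℝ] E 3 :=
    { toFun := fun s => ∑ k, s k • n k
      map_add' := by
        intro s t
        simp [add_smul, Finset.sum_add_distrib]
      map_smul' := by
        intro a s
        simp [Finset.smul_sum, smul_smul] }
  have hΦ : ∀ s, Φ s = ∑ k, s k • n k := fun s => rfl
  obtain ⟨s, hs, hsB⟩ := exists_avoid (V := T → ℝ) (J := {p : T × T // p.1 ≠ p.2})
    (fun p => (Submodule.span ℝ {n p.1.1, n p.1.2}).comap Φ) (by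
      rintro ⟨⟨i, j⟩, hij⟩ hcon
      obtain ⟨k, hk⟩ : ∃ k, k ∉ ({i, j} : Finset T) := by
        by_contra hcon
        push Not at hcon
        have h1 : (Finset.univ : Finset T) ⊆ {i, j} := fun k _ => hcon k
        have h2 := (Finset.card_le_card h1).trans Finset.card_le_two
        rw [Finset.card_univ] at h2
        omega
      rw [Finset.mem_insert, Finset.mem_singleton, not_or] at hk
      apply hnm k i j hk.1 hk.2 hij
      have h3 : (Pi.single k (1 : ℝ) : T → ℝ) ∈ (Submodule.span ℝ {n i, n j}).comap Φ := by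
        rw [hcon]; trivial
      rw [Submodule.mem_comap, hΦ, Finset.sum_eq_single k] at h3
      · simpa using h3
      · intro l _ hl
        rw [Pi.single_eq_of_ne hl, zero_smul]
      · intro h4
        exact absurd (Finset.mem_univ k) h4)
    (U := Set.pi Set.univ (fun _ => Set.Ioi 0))
    (isOpen_set_pi Set.finite_univ fun _ _ => isOpen_Ioi)
    ⟨fun _ => 1, fun _ _ => Set.mem_Ioi.2 one_pos⟩
  have hs0 : ∀ k, 0 < s k := fun k => hs k (Set.mem_univ k)
  have hsum : ∀ i j, i ≠ j → ∑ k, s k • n k ∉ Submodule.span ℝ {n i, n j} :=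
    fun i j hij => hsB ⟨(i, j), hij⟩
  set σ : E 3 := ∑ k, s k • n k with hσ
  -- points
  have hX : ∀ t : Finset T, ∃ X : E 3, (∃ x : E 3, ∀ i ∈ t, ⟪n i, x⟫_ℝ = h i) →
      ∀ i ∈ t, ⟪n i, X⟫_ℝ = h i := by
    intro t
    by_cases h1 : ∃ x : E 3, ∀ i ∈ t, ⟪n i, x⟫_ℝ = h i
    · obtain ⟨x, hx⟩ := h1
      exact ⟨x, fun _ => hx⟩
    · exact ⟨0, fun h2 => absurd h2 h1⟩
  choose X hX using hX
  have hY : ∀ t : Finset T, ∃ Y : E 3, (Fc n h t).Nonempty → Y ∈ Fc n h t := by
    intro t
    by_cases h1 : (Fc n h t).Nonempty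
    · obtain ⟨x, hx⟩ := h1
      exact ⟨x, fun _ => hx⟩
    · exact ⟨0, fun h2 => absurd h2 h1⟩
  choose Y hY using hY
  obtain ⟨C, hC⟩ : ∃ C : ℝ, ∀ t : Finset T, -⟪σ, X t⟫_ℝ < C ∧ -⟪σ, Y t⟫_ℝ < C := by
    obtain ⟨C, hC⟩ := (Set.finite_range (fun t : Finset T =>
      max (-⟪σ, X t⟫_ℝ) (-⟪σ, Y t⟫_ℝ))).bddAbove
    refine ⟨C + 1, fun t => ?_⟩
    have h1 : max (-⟪σ, X t⟫_ℝ) (-⟪σ, Y t⟫_ℝ) ≤ C := hC ⟨t, rfl⟩
    have h2 := le_max_left (-⟪σ, X t⟫_ℝ) (-⟪σ, Y t⟫_ℝ)
    have h3 := le_max_right (-⟪σ, X t⟫_ℝ) (-⟪σ, Y t⟫_ℝ)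
    constructor <;> linarith
  -- the bounded system
  let N : Option T → E 3 := fun o => o.elim (-σ) n
  let H : Option T → ℝ := fun o => o.elim C h
  obtain ⟨g, -, hg⟩ := exists_avoid (V := E 3) (J := Option T × Option T)
    (fun p => Submodule.span ℝ {N p.1, N p.2}) (fun p => span_pair_ne_top _ _)
    isOpen_univ ⟨0, Set.mem_univ _⟩
  have hli : ∀ i j k : T, i ≠ j → i ≠ k → j ≠ k → LinearIndependent ℝ ![n i, n j, n k] :=
    fun i j k hij hik hjk => li_of_notMem (hnm i j k hij hik hjk) (hnm j i k hij.symm hjk hik)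
      (hnm k i j hik.symm hjk.symm hij)
  have hσspan : ∀ i j, i ≠ j → n i ∉ Submodule.span ℝ {-σ, n j} := by
    intro i j hij hcon
    rw [Submodule.mem_span_pair] at hcon
    obtain ⟨a, b, hab⟩ := hcon
    by_cases ha : a = 0
    · subst ha
      rw [zero_smul, zero_add] at hab
      obtain ⟨k, hk⟩ : ∃ k, k ∉ ({i, j} : Finset T) := by
        by_contra hcon
        push Not at hcon
        have h1 : (Finset.univ : Finset T) ⊆ {i, j} := fun k _ => hcon k
        have h2 := (Finset.card_le_card h1).trans Finset.card_le_two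
        rw [Finset.card_univ] at h2
        omega
      rw [Finset.mem_insert, Finset.mem_singleton, not_or] at hk
      apply hnm i j k hij (Ne.symm hk.1) (Ne.symm hk.2)
      rw [← hab]
      exact Submodule.smul_mem _ _ (Submodule.subset_span (by simp))
    · apply hsum i j hij
      rw [Submodule.mem_span_pair]
      refine ⟨-a⁻¹, a⁻¹ * b, ?_⟩
      rw [← hab, smul_add, smul_smul, smul_neg, smul_smul, neg_mul, inv_mul_cancel₀ ha]
      module
  have hGP : GP N H g := by
    refine ⟨?_, ?_, fun i j => hg (i, j), ?_, ?_⟩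
    · rintro (_ | i) (_ | j) (_ | k) hij hik hjk
      · exact absurd rfl hij
      · exact absurd rfl hij
      · exact absurd rfl hik
      · intro hcon
        have h1 : σ ∈ Submodule.span ℝ {n j, n k} := by
          have := Submodule.neg_mem _ hcon
          simpa [N] using this
        exact hsum j k (fun h2 => hjk (by rw [h2])) h1
      · exact absurd rfl hjk
      · exact hσspan i k (fun h2 => hik (by rw [h2]))
      · have := hσspan i j (fun h2 => hij (by rw [h2]))
        rw [Set.pair_comm] at this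
        exact this
      · exact hnm i j k (fun h2 => hij (by rw [h2])) (fun h2 => hik (by rw [h2]))
          (fun h2 => hjk (by rw [h2]))
    · intro t x hx
      by_contra hcon
      have h1 : t.eraseNone.card ≤ 3 := hfour _ x fun i hi => by
        have := hx (some i) (Finset.mem_eraseNone.1 hi)
        exact this
      have hnone : none ∈ t := by
        by_contra h2
        have h3 : t.eraseNone.card = t.card := by
          rw [← Finset.card_map Function.Embedding.some, Finset.map_some_eraseNone,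
            Finset.erase_eq_of_notMem h2]
        omega
      have h3 : t.eraseNone.card = 3 := by
        have h4 : (t.erase none).card = t.eraseNone.card := by
          rw [← Finset.map_some_eraseNone, Finset.card_map]
        rw [Finset.card_erase_of_mem hnone] at h4
        omega
      obtain ⟨i, j, k, hij, hik, hjk, hijk⟩ := Finset.card_eq_three.1 h3
      have h4 : ∀ l ∈ t.eraseNone, ⟪n l, x⟫_ℝ = h l := fun l hl =>
        hx (some l) (Finset.mem_eraseNone.1 hl)
      have h5 := hX t.eraseNone ⟨x, h4⟩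
      have hmi : i ∈ t.eraseNone := by rw [hijk]; simp
      have hmj : j ∈ t.eraseNone := by rw [hijk]; simp
      have hmk : k ∈ t.eraseNone := by rw [hijk]; simp
      have h6 : x - X t.eraseNone = 0 := unique_point (hli i j k hij hik hjk)
        (by rw [inner_sub_right, h4 i hmi, h5 i hmi, sub_self])
        (by rw [inner_sub_right, h4 j hmj, h5 j hmj, sub_self])
        (by rw [inner_sub_right, h4 k hmk, h5 k hmk, sub_self])
      have h7 : ⟪-σ, x⟫_ℝ = C := hx none hnone
      rw [sub_eq_zero.1 h6, inner_neg_left] at h7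
      have := (hC t.eraseNone).1
      linarith
    · obtain ⟨i, j, k, hij, hik, hjk⟩ : ∃ i j k : T, i ≠ j ∧ i ≠ k ∧ j ≠ k := by
        obtain ⟨i, j, k, h1, h2, h3⟩ := (Fintype.two_lt_card_iff (α := T)).1 (by omega)
        exact ⟨i, j, k, h1, h2, h3⟩
      have hlow : ∃ M : ℝ, ∀ x ∈ Fc N H ∅, ∀ l, |⟪n l, x⟫_ℝ| ≤ M := by
        -- each is bounded above by h and below
        have h1 : ∀ l, ∃ M : ℝ, ∀ x ∈ Fc N H ∅, |⟪n l, x⟫_ℝ| ≤ M := by
          intro l
          refine ⟨max (h l) ((C + ∑ m ∈ Finset.univ.erase l, s m * h m) / s l), fun x hx => ?_⟩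
          have h2 : ∀ m, ⟪n m, x⟫_ℝ ≤ h m := fun m => hx.1 (some m)
          have h3 : ⟪-σ, x⟫_ℝ ≤ C := hx.1 none
          rw [inner_neg_left, hσ, sum_inner, ← Finset.add_sum_erase _ _ (Finset.mem_univ l),
            real_inner_smul_left] at h3
          have h4 : ∑ m ∈ Finset.univ.erase l, ⟪s m • n m, x⟫_ℝ ≤
              ∑ m ∈ Finset.univ.erase l, s m * h m := by
            refine Finset.sum_le_sum fun m _ => ?_
            rw [real_inner_smul_left]
            exact mul_le_mul_of_nonneg_left (h2 m) (hs0 m).le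
          rw [abs_le]
          constructor
          · have h5 : -(s l * ⟪n l, x⟫_ℝ) ≤ C + ∑ m ∈ Finset.univ.erase l, s m * h m := by
              linarith
            have h6 : -⟪n l, x⟫_ℝ ≤ (C + ∑ m ∈ Finset.univ.erase l, s m * h m) / s l := by
              rw [le_div_iff₀ (hs0 l)]
              linarith
            have := le_max_right (h l) ((C + ∑ m ∈ Finset.univ.erase l, s m * h m) / s l)
            linarith
          · exact (h2 l).trans (le_max_left _ _)
        choose M hM using h1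
        obtain ⟨B, hB⟩ := (Set.finite_range M).bddAbove
        exact ⟨B, fun x hx l => (hM l x hx).trans (hB ⟨l, rfl⟩)⟩
      obtain ⟨M, hM⟩ := hlow
      exact bounded_of_three (hli i j k hij hik hjk) fun x hx => ⟨hM x hx i, hM x hx j, hM x hx k⟩
    · rw [Fintype.card_option]; omega
  -- old faces in the new system
  have hold : ∀ I : Finset T, (Fc n h I).Nonempty → (Fc N H (I.map Function.Embedding.some)).Nonempty := by
    intro I hI
    have h1 := hY I hI
    refine ⟨Y I, ?_, ?_⟩
    · rintro (_ | i)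
      · have := (hC I).2
        simp only [N, H, Option.elim_none, inner_neg_left]
        exact this.le
      · exact h1.1 i
    · intro o ho
      rw [Finset.mem_map] at ho
      obtain ⟨i, hi, rfl⟩ := ho
      exact h1.2 i hi
  have hcore := core hGP (by
    obtain ⟨I, hI⟩ := hEk
    rw [Ek, Finset.mem_filter] at hI
    exact (hold I hI.2).mono (Fc_mono _ _ (Finset.empty_subset _)))
  have hinj : (Ek n h 2).card ≤ ((Ek N H 2).filter (fun I => none ∉ I)).card := by
    refine Finset.card_le_card_of_injOn (fun I => I.map Function.Embedding.some) ?_ ?_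
    · intro I hI
      simp only [Ek, Finset.mem_coe, Finset.mem_filter, Finset.mem_powersetCard] at hI
      simp only [Ek, Finset.mem_coe, Finset.mem_filter, Finset.mem_powersetCard, Finset.card_map]
      exact ⟨⟨⟨Finset.subset_univ _, hI.1.2⟩, hold I hI.2⟩, by simp⟩
    · intro I _ J _ hIJ
      exact Finset.map_injective _ hIJ
  have hsplit : (Ek N H 2).card = ((Ek N H 2).filter (fun I => none ∉ I)).card +
      ((Ek N H 2).filter (fun I => none ∈ I)).card := by
    rw [add_comm, Finset.card_filter_add_card_filter_not]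
  have hE1 : Ek N H 1 ⊆ Finset.univ.image (fun o : Option T => ({o} : Finset (Option T))) := by
    intro I hI
    simp only [Ek, Finset.mem_filter, Finset.mem_powersetCard] at hI
    obtain ⟨o, rfl⟩ := Finset.card_eq_one.1 hI.1.2
    exact Finset.mem_image.2 ⟨o, Finset.mem_univ _, rfl⟩
  by_cases hnone : (Fc N H {none}).Nonempty
  · have h1 := three_edges hGP hnone
    have h2 : (Ek N H 1).card ≤ Fintype.card T + 1 := by
      refine (Finset.card_le_card hE1).trans (Finset.card_image_le.trans ?_)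
      rw [Finset.card_univ, Fintype.card_option]
    omega
  · have h2 : (Ek N H 1).card ≤ Fintype.card T := by
      have h3 : Ek N H 1 ⊆ (Finset.univ : Finset T).image
          (fun i : T => ({some i} : Finset (Option T))) := by
        intro I hI
        simp only [Ek, Finset.mem_filter, Finset.mem_powersetCard] at hI
        obtain ⟨o, rfl⟩ := Finset.card_eq_one.1 hI.1.2
        rcases o with _ | i
        · exact absurd hI.2 hnone
        · exact Finset.mem_image.2 ⟨i, Finset.mem_univ _, rfl⟩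
      refine (Finset.card_le_card h3).trans (Finset.card_image_le.trans ?_)
      rw [Finset.card_univ]
    omega

lemma eventually_det_ne {m : ℕ} (A B : Matrix (Fin m) (Fin m) ℝ) (hB : B.det ≠ 0) :
    ∀ᶠ ε in 𝓝[≠] (0 : ℝ), (A + ε • B).det ≠ 0 := by
  set p : Polynomial ℝ := (-(B⁻¹ * A)).charpoly with hp
  have hp0 : p ≠ 0 := (Matrix.charpoly_monic _).ne_zero
  have hdet : ∀ ε : ℝ, (A + ε • B).det = B.det * p.eval ε := by
    intro ε
    rw [hp, Matrix.eval_charpoly, ← Matrix.det_mul]
    congr 1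
    have hu : IsUnit B.det := isUnit_iff_ne_zero.2 hB
    have h1 : B * Matrix.scalar (Fin m) ε = ε • B := by
      rw [Matrix.scalar_apply]
      ext i j
      simp [Matrix.mul_diagonal, mul_comm]
    rw [sub_neg_eq_add, Matrix.mul_add, ← Matrix.mul_assoc, Matrix.mul_nonsing_inv B hu,
      Matrix.one_mul, add_comm, h1]
  have hfin : {ε : ℝ | p.IsRoot ε}.Finite := Polynomial.finite_setOfPred_isRoot hp0
  have h2 : ∀ᶠ ε in 𝓝[≠] (0 : ℝ), ε ∉ {ε : ℝ | p.IsRoot ε} \ {0} := by
    have h3 : IsClosed ({ε : ℝ | p.IsRoot ε} \ {0}) := (hfin.subset Set.diff_subset).isClosed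
    have h4 : ({ε : ℝ | p.IsRoot ε} \ {0})ᶜ ∈ 𝓝 (0 : ℝ) := h3.isOpen_compl.mem_nhds (by simp)
    exact nhdsWithin_le_nhds h4
  filter_upwards [h2, self_mem_nhdsWithin] with ε h3 h4
  rw [hdet]
  refine mul_ne_zero hB fun h5 => h3 ⟨h5, h4⟩

/-- Four linearly independent augmented vectors: no common point. -/
lemma four_of_det {m : Fin 4 → E 3} {b : Fin 4 → ℝ}
    (hd : (Matrix.of fun i : Fin 4 => (![m i 0, m i 1, m i 2, b i] : Fin 4 → ℝ)).det ≠ 0)
    (x : E 3) (hx : ∀ i, ⟪m i, x⟫_ℝ = b i) : False := by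
  apply hd
  rw [← Matrix.exists_mulVec_eq_zero_iff]
  refine ⟨![x 0, x 1, x 2, -1], ?_, ?_⟩
  · intro h
    have := congrFun h 3
    simp at this
  · ext i
    have h1 := hx i
    rw [PiLp.inner_apply, Fin.sum_univ_three] at h1
    simp only [RCLike.inner_apply, conj_trivial] at h1
    simp [Matrix.mulVec, dotProduct, Fin.sum_univ_four]
    linarith

lemma three_of_det {m : Fin 3 → E 3}
    (hd : (Matrix.of fun i : Fin 3 => (![m i 0, m i 1, m i 2] : Fin 3 → ℝ)).det ≠ 0) :
    m 0 ∉ Submodule.span ℝ {m 1, m 2} := by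
  intro hcon
  rw [Submodule.mem_span_pair] at hcon
  obtain ⟨a, b, hab⟩ := hcon
  apply hd
  rw [← Matrix.exists_vecMul_eq_zero_iff]
  refine ⟨![-1, a, b], ?_, ?_⟩
  · intro h
    have := congrFun h 0
    simp at this
  · have h0 := congrArg (fun v : E 3 => v 0) hab
    have h1 := congrArg (fun v : E 3 => v 1) hab
    have h2 := congrArg (fun v : E 3 => v 2) hab
    simp only [PiLp.add_apply, PiLp.smul_apply, smul_eq_mul] at h0 h1 h2
    ext i
    fin_cases i <;> simp [Matrix.vecMul, dotProduct, Fin.sum_univ_three] <;> linarith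

lemma gram_ne {v w : E 3} (h : LinearIndependent ℝ ![v, w]) :
    ⟪v, v⟫_ℝ * ⟪w, w⟫_ℝ - ⟪v, w⟫_ℝ * ⟪w, v⟫_ℝ ≠ 0 := by
  intro h0
  have hw : w ≠ 0 := by
    have := h.ne_zero 1
    simpa using this
  rw [LinearIndependent.pair_iff] at h
  have h1 : ⟪w, w⟫_ℝ • v + (-⟪v, w⟫_ℝ) • w = 0 := by
    rw [← @inner_self_eq_zero ℝ]
    simp only [inner_add_left, inner_add_right, real_inner_smul_left, real_inner_smul_right]
    linear_combination ⟪w, w⟫_ℝ * h0
  have := (h _ _ h1).1
  exact hw (inner_self_eq_zero.1 this)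

/-- Strict witnesses persist under small perturbations. -/
lemma eventually_witness {T : Type*} [Finite T] {n m : T → E 3} {h b : T → ℝ} {i j : T}
    (hli : LinearIndependent ℝ ![n i, n j]) {x : E 3} (hi : ⟪n i, x⟫_ℝ = h i)
    (hj : ⟪n j, x⟫_ℝ = h j) (hk : ∀ k, k ≠ i → k ≠ j → ⟪n k, x⟫_ℝ < h k) :
    ∀ᶠ ε in 𝓝 (0 : ℝ), ∃ y, ⟪n i + ε • m i, y⟫_ℝ = h i + ε * b i ∧
      ⟪n j + ε • m j, y⟫_ℝ = h j + ε * b j ∧
      ∀ k, k ≠ i → k ≠ j → ⟪n k + ε • m k, y⟫_ℝ < h k + ε * b k := by
  let a11 : ℝ → ℝ := fun ε => ⟪n i + ε • m i, n i⟫_ℝ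
  let a12 : ℝ → ℝ := fun ε => ⟪n i + ε • m i, n j⟫_ℝ
  let a21 : ℝ → ℝ := fun ε => ⟪n j + ε • m j, n i⟫_ℝ
  let a22 : ℝ → ℝ := fun ε => ⟪n j + ε • m j, n j⟫_ℝ
  let r1 : ℝ → ℝ := fun ε => h i + ε * b i - ⟪n i + ε • m i, x⟫_ℝ
  let r2 : ℝ → ℝ := fun ε => h j + ε * b j - ⟪n j + ε • m j, x⟫_ℝ
  let Δ : ℝ → ℝ := fun ε => a11 ε * a22 ε - a12 ε * a21 ε
  have ca11 : Continuous a11 := by fun_prop
  have ca12 : Continuous a12 := by fun_prop
  have ca21 : Continuous a21 := by fun_prop
  have ca22 : Continuous a22 := by fun_prop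
  have cr1 : Continuous r1 := by fun_prop
  have cr2 : Continuous r2 := by fun_prop
  have cΔ : Continuous Δ := by fun_prop
  have hΔ0 : Δ 0 ≠ 0 := by
    have := gram_ne hli
    simpa [Δ, a11, a12, a21, a22] using this
  have hr1 : r1 0 = 0 := by simp [r1, hi]
  have hr2 : r2 0 = 0 := by simp [r2, hj]
  let α : ℝ → ℝ := fun ε => (r1 ε * a22 ε - a12 ε * r2 ε) / Δ ε
  let β : ℝ → ℝ := fun ε => (a11 ε * r2 ε - a21 ε * r1 ε) / Δ ε
  have cα : ContinuousAt α 0 :=
    ((cr1.mul ca22).sub (ca12.mul cr2)).continuousAt.div cΔ.continuousAt hΔ0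
  have cβ : ContinuousAt β 0 :=
    ((ca11.mul cr2).sub (ca21.mul cr1)).continuousAt.div cΔ.continuousAt hΔ0
  have hα0 : α 0 = 0 := by simp [α, hr1, hr2]
  have hβ0 : β 0 = 0 := by simp [β, hr1, hr2]
  let y : ℝ → E 3 := fun ε => x + α ε • n i + β ε • n j
  have cy : ContinuousAt y 0 :=
    (continuousAt_const.add (cα.smul continuousAt_const)).add (cβ.smul continuousAt_const)
  have hy0 : y 0 = x := by simp [y, hα0, hβ0]
  have hstrict : ∀ k, ∀ᶠ ε in 𝓝 (0 : ℝ), k ≠ i → k ≠ j →
      ⟪n k + ε • m k, y ε⟫_ℝ < h k + ε * b k := by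
    intro k
    by_cases hki : k = i
    · exact Eventually.of_forall fun ε h1 => absurd hki h1
    by_cases hkj : k = j
    · exact Eventually.of_forall fun ε _ h1 => absurd hkj h1
    have c1 : ContinuousAt (fun ε : ℝ => ⟪n k + ε • m k, y ε⟫_ℝ) 0 :=
      ContinuousAt.inner (by fun_prop) cy
    have c2 : ContinuousAt (fun ε : ℝ => h k + ε * b k) 0 := by fun_prop
    have h1 : (fun ε : ℝ => ⟪n k + ε • m k, y ε⟫_ℝ) 0 < (fun ε : ℝ => h k + ε * b k) 0 := by
      simp only [zero_smul, add_zero, zero_mul, hy0]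
      exact hk k hki hkj
    filter_upwards [c1.eventually_lt c2 h1] with ε h2 _ _
    exact h2
  filter_upwards [eventually_all.2 hstrict, cΔ.continuousAt.eventually_ne hΔ0] with ε h1 h2
  refine ⟨y ε, ?_, ?_, fun k => h1 k⟩
  · have e1 : ⟪n i + ε • m i, y ε⟫_ℝ = ⟪n i + ε • m i, x⟫_ℝ + α ε * a11 ε + β ε * a12 ε := by
      simp only [y, a11, a12]
      rw [inner_add_right, inner_add_right, real_inner_smul_right, real_inner_smul_right]
    rw [e1]
    have e2 : α ε * a11 ε + β ε * a12 ε = r1 ε := by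
      simp only [α, β]
      field_simp
      simp only [Δ]
      ring
    have e3 : r1 ε = h i + ε * b i - ⟪n i + ε • m i, x⟫_ℝ := rfl
    linarith
  · have e1 : ⟪n j + ε • m j, y ε⟫_ℝ = ⟪n j + ε • m j, x⟫_ℝ + α ε * a21 ε + β ε * a22 ε := by
      simp only [y, a21, a22]
      rw [inner_add_right, inner_add_right, real_inner_smul_right, real_inner_smul_right]
    rw [e1]
    have e2 : α ε * a21 ε + β ε * a22 ε = r2 ε := by
      simp only [α, β]
      field_simp
      simp only [Δ]
      ring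
    have e3 : r2 ε = h j + ε * b j - ⟪n j + ε • m j, x⟫_ℝ := rfl
    linarith

end PC

open Classical in
theorem planar_count {T : Type*} [Fintype T] (hT : 3 ≤ Fintype.card T) (n : T → E 3)
    (h : T → ℝ) (adj : T → T → Prop) (hsymm : ∀ i j, adj i j → adj j i)
    (hw : ∀ i j, adj i j → LinearIndependent ℝ ![n i, n j] ∧
      ∃ x, ⟪n i, x⟫_ℝ = h i ∧ ⟪n j, x⟫_ℝ = h j ∧ ∀ k, k ≠ i → k ≠ j → ⟪n k, x⟫_ℝ < h k) :
    (Finset.univ.filter (fun p : T × T => adj p.1 p.2)).card + 12 ≤ 6 * Fintype.card T := by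
  -- perturbation directions
  let s : T → ℝ := fun i => ((Fintype.equivFin T i : ℕ) : ℝ)
  have hs : Function.Injective s := by
    intro i j hij
    have h1 : ((Fintype.equivFin T i : ℕ) : ℝ) = ((Fintype.equivFin T j : ℕ) : ℝ) := hij
    have h2 : (Fintype.equivFin T i : ℕ) = (Fintype.equivFin T j : ℕ) := by exact_mod_cast h1
    exact (Fintype.equivFin T).injective (Fin.ext h2)
  let m : T → E 3 := fun i => !₂[1, s i, s i ^ 2]
  let b : T → ℝ := fun i => s i ^ 3
  have hA : ∀ f : Fin 3 ↪ T, ∀ᶠ ε in 𝓝[≠] (0 : ℝ),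
      n (f 0) + ε • m (f 0) ∉ Submodule.span ℝ {n (f 1) + ε • m (f 1), n (f 2) + ε • m (f 2)} := by
    intro f
    have h1 := PC.eventually_det_ne
      (Matrix.of fun i : Fin 3 => (![n (f i) 0, n (f i) 1, n (f i) 2] : Fin 3 → ℝ))
      (Matrix.vandermonde fun i => s (f i))
      (Matrix.det_vandermonde_ne_zero_iff.2 (hs.comp f.injective))
    filter_upwards [h1] with ε h2
    apply PC.three_of_det (m := fun i => n (f i) + ε • m (f i))
    convert h2 using 2
    ext i j
    fin_cases j <;> simp [m, Matrix.vandermonde_apply]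
  have hB : ∀ f : Fin 4 ↪ T, ∀ᶠ ε in 𝓝[≠] (0 : ℝ),
      ∀ x, ¬ ∀ i, ⟪n (f i) + ε • m (f i), x⟫_ℝ = h (f i) + ε * b (f i) := by
    intro f
    have h1 := PC.eventually_det_ne
      (Matrix.of fun i : Fin 4 => (![n (f i) 0, n (f i) 1, n (f i) 2, h (f i)] : Fin 4 → ℝ))
      (Matrix.vandermonde fun i => s (f i))
      (Matrix.det_vandermonde_ne_zero_iff.2 (hs.comp f.injective))
    filter_upwards [h1] with ε h2 x hx
    apply PC.four_of_det (m := fun i => n (f i) + ε • m (f i))
      (b := fun i => h (f i) + ε * b (f i)) _ x hx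
    convert h2 using 2
    ext i j
    fin_cases j <;> simp [m, b, Matrix.vandermonde_apply]
  have hC : ∀ p : {p : T × T // adj p.1 p.2}, ∀ᶠ ε in 𝓝[≠] (0 : ℝ), ∃ y,
      ⟪n p.1.1 + ε • m p.1.1, y⟫_ℝ = h p.1.1 + ε * b p.1.1 ∧
      ⟪n p.1.2 + ε • m p.1.2, y⟫_ℝ = h p.1.2 + ε * b p.1.2 ∧
      ∀ k, k ≠ p.1.1 → k ≠ p.1.2 → ⟪n k + ε • m k, y⟫_ℝ < h k + ε * b k := by
    rintro ⟨⟨i, j⟩, hij⟩
    obtain ⟨h1, x, h2, h3, h4⟩ := hw i j hij
    exact (PC.eventually_witness (m := m) (b := b) h1 h2 h3 h4).filter_mono nhdsWithin_le_nhds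
  have hall := ((eventually_all.2 hA).and (eventually_all.2 hB)).and (eventually_all.2 hC)
  obtain ⟨ε, ⟨hA', hB'⟩, hC'⟩ := hall.exists
  set N : T → E 3 := fun i => n i + ε • m i with hN
  set H : T → ℝ := fun i => h i + ε * b i with hH
  have hcount := PC.bounded_count hT (n := N) (h := H) (by
    intro i j k hij hik hjk
    have := hA' ⟨![i, j, k], by
      intro a c hac
      fin_cases a <;> fin_cases c <;> simp_all⟩
    simpa [hN] using this) (by
    intro t x hx
    by_contra hcon
    push Not at hcon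
    obtain ⟨t', ht', hcard⟩ := Finset.exists_subset_card_eq (n := 4) (s := t) (by omega)
    let f : Fin 4 ↪ T := ((t'.equivFinOfCardEq hcard).symm.toEmbedding).trans
      (Function.Embedding.subtype _)
    exact hB' f x fun i => hx (f i) (ht' ((t'.equivFinOfCardEq hcard).symm i).2))
  have himg : (Finset.univ.filter (fun p : T × T => adj p.1 p.2)).image
      (fun p => ({p.1, p.2} : Finset T)) ⊆ PC.Ek N H 2 := by
    intro I hI
    rw [Finset.mem_image] at hI
    obtain ⟨⟨i, j⟩, hp, rfl⟩ := hI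
    rw [Finset.mem_filter] at hp
    have hij : i ≠ j := by
      rintro rfl
      have h1 := (hw i i hp.2).1
      have h2 := h1.injective (a₁ := 0) (a₂ := 1) (by simp)
      simp at h2
    obtain ⟨y, h1, h2, h3⟩ := hC' ⟨(i, j), hp.2⟩
    simp only [PC.Ek, Finset.mem_filter, Finset.mem_powersetCard]
    refine ⟨⟨Finset.subset_univ _, Finset.card_pair hij⟩, y, ?_, ?_⟩
    · intro k
      by_cases hki : k = i
      · rw [hki]; exact h1.le
      by_cases hkj : k = j
      · rw [hkj]; exact h2.le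
      exact (h3 k hki hkj).le
    · intro k hk
      rw [Finset.mem_insert, Finset.mem_singleton] at hk
      rcases hk with rfl | rfl
      · exact h1
      · exact h2
  have hfib := Finset.card_le_mul_card_image
    (f := fun p : T × T => ({p.1, p.2} : Finset T))
    (Finset.univ.filter (fun p : T × T => adj p.1 p.2)) 2 (by
      intro I hI
      rw [Finset.mem_image] at hI
      obtain ⟨⟨a, c⟩, -, rfl⟩ := hI
      refine (Finset.card_le_card (t := {(a, c), (c, a)}) ?_).trans Finset.card_le_two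
      rintro ⟨i, j⟩ hp
      rw [Finset.mem_filter] at hp
      have h1 : ({i, j} : Finset T) = {a, c} := hp.2
      have h2 : i ∈ ({a, c} : Finset T) := by rw [← h1]; simp
      have h3 : j ∈ ({a, c} : Finset T) := by rw [← h1]; simp
      have h4 : a ∈ ({i, j} : Finset T) := by rw [h1]; simp
      have h5 : c ∈ ({i, j} : Finset T) := by rw [h1]; simp
      simp only [Finset.mem_insert, Finset.mem_singleton] at h2 h3 h4 h5
      simp only [Finset.mem_insert, Finset.mem_singleton, Prod.mk.injEq]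
      rcases h2 with rfl | rfl <;> rcases h3 with rfl | rfl <;> simp_all)
  have h1 := Finset.card_le_card himg
  omega

end Melzak
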