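import Pool.Agent.Helper27.Mz2.UpperA

/-!
# J1: the strict upper bound 4 sig zeta_2 < zeta_1^2 for polytopes

Proof of Good.main_ineq (in UpperA): adj = Adj n h, a_i = farea; exists_rho gives tau > sig/S and
rho with FF adj rho i = tau a_i > 0. facet_ineq with r = sqrt rho_i, t_j = (1 + rho_i - rho_j)/2
(r^2 = rho_i, cap r t_j = kap rho_i rho_j): 2 sqrt(a_i tau a_i) <= sum_(j <> i) t_ij elen i j.
Sum over i: 2 sqrt tau S <= sum over unordered pairs (t_ij + t_ji) elen i j = sum of elen = zeta_1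
(Good.zeta_one_pairs). Square: 4 tau S^2 <= zeta_1^2, tau S > sig.
zeta_two_le: the 2-faces are among the Fac i (see Good.facets_le).
-/

open MeasureTheory Set Filter Topology
open scoped ENNReal InnerProductSpace

namespace Melzak

variable {ι : Type*}

/-- A point of a convex subset of the polyhedron with the smallest set of active constraints. -/
private lemma ub_min_active [Fintype ι] {n : ι → E 3} {h : ι → ℝ} {F : Set (E 3)}
    (hF : F ⊆ Poly n h) (hc : Convex ℝ F) (hne : F.Nonempty) :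
    ∃ x₀ ∈ F, ∀ x ∈ F, ∀ i, ⟪n i, x₀⟫_ℝ = h i → ⟪n i, x⟫_ℝ = h i := by
  classical
  obtain ⟨x₀, hx₀, hmin⟩ := WellFounded.has_min
    (measure fun x : E 3 => (Finset.univ.filter (fun i => ⟪n i, x⟫_ℝ = h i)).card).wf F hne
  refine ⟨x₀, hx₀, fun x hx i hi => ?_⟩
  by_contra hxi
  have hm : (1 / 2 : ℝ) • x₀ + (1 / 2 : ℝ) • x ∈ F := hc hx₀ hx (by norm_num) (by norm_num)
    (by norm_num)
  apply hmin _ hm
  change (Finset.univ.filter (fun i => ⟪n i, (1 / 2 : ℝ) • x₀ + (1 / 2 : ℝ) • x⟫_ℝ = h i)).card <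
    (Finset.univ.filter (fun i => ⟪n i, x₀⟫_ℝ = h i)).card
  apply Finset.card_lt_card
  rw [Finset.ssubset_iff_of_subset]
  · refine ⟨i, by simpa using hi, ?_⟩
    simp only [Finset.mem_filter, Finset.mem_univ, true_and]
    rw [inner_add_right, inner_smul_right, inner_smul_right, hi]
    intro h3
    exact hxi (by linarith)
  · intro j hj
    simp only [Finset.mem_filter, Finset.mem_univ, true_and] at hj ⊢
    rw [inner_add_right, inner_smul_right, inner_smul_right] at hj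
    have h1 := hF hx₀ j
    have h2 := hF hx j
    linarith

/-- Small moves in directions orthogonal to the active normals stay in the polyhedron. -/
private lemma ub_move [Fintype ι] {n : ι → E 3} {h : ι → ℝ} {x₀ d : E 3} (hx : x₀ ∈ Poly n h)
    (hd : ∀ i, ⟪n i, x₀⟫_ℝ = h i → ⟪n i, d⟫_ℝ = 0) :
    ∃ ε : ℝ, 0 < ε ∧ x₀ + ε • d ∈ Poly n h ∧ x₀ - ε • d ∈ Poly n h := by
  have hev : ∀ i, ∀ᶠ ε : ℝ in 𝓝[>] 0,
      ⟪n i, x₀ + ε • d⟫_ℝ ≤ h i ∧ ⟪n i, x₀ - ε • d⟫_ℝ ≤ h i := by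
    intro i
    by_cases hi : ⟪n i, x₀⟫_ℝ = h i
    · refine Eventually.of_forall fun ε => ?_
      rw [inner_add_right, inner_sub_right, inner_smul_right, hd i hi, hi]
      simp
    · have hlt : ⟪n i, x₀⟫_ℝ < h i := lt_of_le_of_ne (hx i) hi
      have c1 : Continuous fun ε : ℝ => ⟪n i, x₀ + ε • d⟫_ℝ := by fun_prop
      have c2 : Continuous fun ε : ℝ => ⟪n i, x₀ - ε • d⟫_ℝ := by fun_prop
      have e1 : ∀ᶠ ε : ℝ in 𝓝 0, ⟪n i, x₀ + ε • d⟫_ℝ < h i :=
        c1.continuousAt.eventually_lt continuousAt_const (by simpa using hlt)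
      have e2 : ∀ᶠ ε : ℝ in 𝓝 0, ⟪n i, x₀ - ε • d⟫_ℝ < h i :=
        c2.continuousAt.eventually_lt continuousAt_const (by simpa using hlt)
      filter_upwards [nhdsWithin_le_nhds e1, nhdsWithin_le_nhds e2] with ε h1 h2
      exact ⟨h1.le, h2.le⟩
  have hall := (eventually_all.2 hev).and (self_mem_nhdsWithin : Ioi (0 : ℝ) ∈ 𝓝[>] 0)
  obtain ⟨ε, h1, h2⟩ := hall.exists
  exact ⟨ε, h2, fun i => (h1 i).1, fun i => (h1 i).2⟩

/-- An exposed face is determined by the active constraints of a generic point. -/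
private lemma ub_face [Fintype ι] {n : ι → E 3} {h : ι → ℝ} {F : Set (E 3)}
    (hF : F.Nonempty) (hexp : IsExposed ℝ (Poly n h) F) :
    ∃ x₀ ∈ F, F = {x | x ∈ Poly n h ∧ ∀ i, ⟪n i, x₀⟫_ℝ = h i → ⟪n i, x⟫_ℝ = h i} ∧
      ∀ d : E 3, d ∈ vectorSpan ℝ F ↔ ∀ i, ⟪n i, x₀⟫_ℝ = h i → ⟪n i, d⟫_ℝ = 0 := by
  have hsub : F ⊆ Poly n h := hexp.subset
  obtain ⟨x₀, hx₀, hmin⟩ := ub_min_active hsub (hexp.convex (convex_Poly n h)) hF
  have hFeq : F = {x | x ∈ Poly n h ∧ ∀ i, ⟪n i, x₀⟫_ℝ = h i → ⟪n i, x⟫_ℝ = h i} := by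
    obtain ⟨l, hl⟩ := hexp hF
    apply Set.Subset.antisymm
    · intro x hx
      exact ⟨hsub hx, hmin x hx⟩
    · rintro x ⟨hxP, hxa⟩
      obtain ⟨ε, hε, -, h2⟩ := ub_move (d := x - x₀) (hsub hx₀) (by
        intro i hi
        rw [inner_sub_right, hxa i hi, hi, sub_self])
      rw [hl] at hx₀ ⊢
      refine ⟨hxP, fun y hy => (hx₀.2 y hy).trans ?_⟩
      have h3 := hx₀.2 _ h2
      rw [map_sub, map_smul, map_sub, smul_eq_mul] at h3
      have : 0 ≤ ε * (l x - l x₀) := by linarith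
      have := nonneg_of_mul_nonneg_right this hε
      linarith
  refine ⟨x₀, hx₀, hFeq, fun d => ⟨fun hd i hi => ?_, fun hd => ?_⟩⟩
  · rw [vectorSpan_def] at hd
    have : Submodule.span ℝ (F -ᵥ F) ≤ LinearMap.ker (innerₛₗ ℝ (n i)) := by
      rw [Submodule.span_le]
      rintro _ ⟨x, hx, y, hy, rfl⟩
      simp [vsub_eq_sub, inner_sub_right, hmin x hx i hi, hmin y hy i hi]
    simpa using this hd
  · obtain ⟨ε, hε, h1, -⟩ := ub_move (hsub hx₀) hd
    have hmem : x₀ + ε • d ∈ F := by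
      rw [hFeq]
      refine ⟨h1, fun i hi => ?_⟩
      rw [inner_add_right, inner_smul_right, hd i hi, hi]
      simp
    have h3 : (x₀ + ε • d) -ᵥ x₀ ∈ vectorSpan ℝ F := vsub_mem_vectorSpan ℝ hmem hx₀
    have h4 : ε⁻¹ • ((x₀ + ε • d) -ᵥ x₀) ∈ vectorSpan ℝ F := Submodule.smul_mem _ _ h3
    simpa [vsub_eq_sub, smul_smul, hε.ne'] using h4

/-- Two active normals at a common point are linearly independent. -/
private lemma ub_indep {n : ι → E 3} {h : ι → ℝ} (hg : Good n h) {i j : ι} (hij : i ≠ j)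
    {b : E 3} (hi : ⟪n i, b⟫_ℝ = h i) (hj : ⟪n j, b⟫_ℝ = h j) :
    LinearIndependent ℝ ![n i, n j] := by
  rw [LinearIndependent.pair_iff]
  intro s t hst
  obtain ⟨z, hz⟩ := hg.slater
  obtain ⟨yi, hyi, hyi'⟩ := hg.irr i
  obtain ⟨yj, hyj, hyj'⟩ := hg.irr j
  have h1 : s * ⟪n i, b - z⟫_ℝ + t * ⟪n j, b - z⟫_ℝ = 0 := by
    have : ⟪s • n i + t • n j, b - z⟫_ℝ = 0 := by rw [hst, inner_zero_left]
    rw [inner_add_left, inner_smul_left, inner_smul_left] at this
    simpa using this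
  have h2 : s * ⟪n i, yi - b⟫_ℝ + t * ⟪n j, yi - b⟫_ℝ = 0 := by
    have : ⟪s • n i + t • n j, yi - b⟫_ℝ = 0 := by rw [hst, inner_zero_left]
    rw [inner_add_left, inner_smul_left, inner_smul_left] at this
    simpa using this
  have h3 : s * ⟪n i, yj - b⟫_ℝ + t * ⟪n j, yj - b⟫_ℝ = 0 := by
    have : ⟪s • n i + t • n j, yj - b⟫_ℝ = 0 := by rw [hst, inner_zero_left]
    rw [inner_add_left, inner_smul_left, inner_smul_left] at this
    simpa using this
  rw [inner_sub_right, inner_sub_right, hyi, hi, sub_self, mul_zero, zero_add, hj] at h2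
  rw [inner_sub_right, inner_sub_right, hyj, hj, sub_self, mul_zero, add_zero, hi] at h3
  have k2 := hyi' j hij.symm
  have k3 := hyj' i hij
  constructor
  · rcases mul_eq_zero.1 h3 with h | h
    · exact h
    · exact absurd h (by linarith)
  · rcases mul_eq_zero.1 h2 with h | h
    · exact h
    · exact absurd h (by linarith)

private lemma ub_finrank_pair {v w : E 3} (hvw : LinearIndependent ℝ ![v, w])
    {W : Submodule ℝ (E 3)} (hv : ∀ d ∈ W, ⟪v, d⟫_ℝ = 0) (hw : ∀ d ∈ W, ⟪w, d⟫_ℝ = 0) :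
    Module.finrank ℝ W ≤ 1 := by
  set K : Submodule ℝ (E 3) := Submodule.span ℝ (Set.range ![v, w]) with hK
  have h1 : Module.finrank ℝ K = 2 := by
    rw [hK, finrank_span_eq_card hvw]; simp
  have h2 : Module.finrank ℝ K + Module.finrank ℝ Kᗮ = 3 := by
    rw [Submodule.finrank_add_finrank_orthogonal]; simp
  have h3 : W ≤ Kᗮ := by
    intro d hd
    rw [Submodule.mem_orthogonal]
    intro x hx
    rw [hK] at hx
    induction hx using Submodule.span_induction with
    | mem x hx =>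
      obtain ⟨k, rfl⟩ := hx
      fin_cases k
      · simpa using hv d hd
      · simpa using hw d hd
    | zero => simp
    | add x y _ _ hx hy => rw [inner_add_left, hx, hy, add_zero]
    | smul a x _ hx => rw [inner_smul_left, hx, mul_zero]
  have h4 := Submodule.finrank_mono h3
  omega

private lemma ub_two_face [Fintype ι] {n : ι → E 3} {h : ι → ℝ} (hg : Good n h)
    {F : Set (E 3)} (hF : IsKFace 2 (Poly n h) F) : ∃ i, Fac n h i = F := by
  obtain ⟨hne, hexp, hrk⟩ := hF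
  obtain ⟨x₀, hx₀, hFeq, hspan⟩ := ub_face hne hexp
  by_cases hex1 : ∃ i, ⟪n i, x₀⟫_ℝ = h i
  · obtain ⟨i, hi⟩ := hex1
    refine ⟨i, ?_⟩
    have honly : ∀ k, ⟪n k, x₀⟫_ℝ = h k → k = i := by
      intro k hk
      by_contra hcon
      have := ub_finrank_pair (W := vectorSpan ℝ F) (ub_indep hg (Ne.symm hcon) hi hk)
        (fun d hd => (hspan d).1 hd i hi) (fun d hd => (hspan d).1 hd k hk)
      omega
    rw [hFeq]
    ext x
    constructor
    · rintro ⟨h1, h2⟩
      refine ⟨h1, fun k hk => ?_⟩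
      rw [honly k hk]; exact h2
    · rintro ⟨h1, h2⟩
      exact ⟨h1, h2 i hi⟩
  · exfalso
    push Not at hex1
    have : vectorSpan ℝ F = ⊤ := by
      rw [Submodule.eq_top_iff']
      intro d
      rw [hspan]
      intro j hj
      exact absurd hj (hex1 j)
    rw [this] at hrk
    simp at hrk

theorem Good.zeta_two_le {m : ℕ} {n : Fin m → E 3} {h : Fin m → ℝ} (hg : Good n h) :
    zeta 2 (Poly n h) ≤ ∑ i, μHE[2] (Fac n h i) := by
  classical
  choose f hf using fun F : {F : Set (E 3) // IsKFace 2 (Poly n h) F} => ub_two_face hg F.2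
  have hinj : Function.Injective f := by
    intro F G hFG
    apply Subtype.ext
    rw [← hf F, ← hf G, hFG]
  unfold zeta
  calc ∑' F : {F : Set (E 3) // IsKFace 2 (Poly n h) F}, μHE[2] (F : Set (E 3))
      = ∑' F : {F : Set (E 3) // IsKFace 2 (Poly n h) F}, μHE[2] (Fac n h (f F)) := by
        refine tsum_congr fun F => ?_
        rw [hf F]
    _ ≤ ∑' i : Fin m, μHE[2] (Fac n h i) :=
        ENNReal.tsum_comp_le_tsum_of_injective hinj (fun i => μHE[2] (Fac n h i))
    _ = ∑ i, μHE[2] (Fac n h i) := tsum_fintype _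

theorem upper {P : Set (E 3)} (hP : IsPolytope P) :
    ENNReal.ofReal (4 * sig) * zeta 2 P < zeta 1 P ^ 2 := by
  obtain ⟨m, n, h, hg, rfl⟩ := exists_good hP
  have h1 := hg.main_ineq
  have h2 := hg.zeta_two_le
  have hsig : 0 < sig := by
    unfold sig
    have := Real.pi_pos
    positivity
  have h3 : ∑ i, μHE[2] (Fac n h i) = ENNReal.ofReal (∑ i, farea n h i) := by
    rw [ENNReal.ofReal_sum_of_nonneg (fun i _ => (farea_pos hg i).le)]
    refine Finset.sum_congr rfl fun i _ => ?_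
    unfold farea
    rw [ENNReal.ofReal_toReal (fac_measure_ne_top hg i)]
  have h4 : zeta 1 (Poly n h) = ENNReal.ofReal (zeta 1 (Poly n h)).toReal := by
    rw [ENNReal.ofReal_toReal hg.zeta_one_ne_top]
  calc ENNReal.ofReal (4 * sig) * zeta 2 (Poly n h)
      ≤ ENNReal.ofReal (4 * sig) * ∑ i, μHE[2] (Fac n h i) := by gcongr
    _ = ENNReal.ofReal (4 * sig * ∑ i, farea n h i) := by
        rw [h3, ← ENNReal.ofReal_mul (by positivity)]
    _ < ENNReal.ofReal ((zeta 1 (Poly n h)).toReal ^ 2) := by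
        rw [ENNReal.ofReal_lt_ofReal_iff_of_nonneg]
        · exact h1
        · exact mul_nonneg (by positivity) (Finset.sum_nonneg fun i _ => (farea_pos hg i).le)
    _ = zeta 1 (Poly n h) ^ 2 := by
        rw [ENNReal.ofReal_pow ENNReal.toReal_nonneg, ← h4]

end Melzak
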