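import Pool.Agent.Helper27.Mz2.Fix
import Pool.Agent.Helper27.Mz2.Planar
import Pool.Agent.Helper27.Mz2.Facet
import Pool.Agent.Helper27.Melzak.Irred
import Pool.Agent.Helper27.Melzak.Edges

/-!
# J1a: the strict upper bound for irredundant representations
-/

open MeasureTheory Set Filter Topology
open scoped ENNReal InnerProductSpace

namespace Melzak

private lemma ua_elen_symm {ι : Type*} (n : ι → E 3) (h : ι → ℝ) (i j : ι) :
    elen n h i j = elen n h j i := by
  unfold elen
  rw [Set.inter_comm]

theorem Good.zeta_one_real {m : ℕ} {n : Fin m → E 3} {h : Fin m → ℝ} (hg : Good n h) :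
    2 * (zeta 1 (Poly n h)).toReal = ∑ i, ∑ j with j ≠ i, elen n h i j := by
  classical
  have h1 := hg.zeta_one_pairs
  have htop := hg.zeta_one_ne_top
  rw [h1] at htop
  have h2 : (zeta 1 (Poly n h)).toReal = ∑ p : Fin m × Fin m with p.1 < p.2, elen n h p.1 p.2 := by
    rw [h1, ENNReal.toReal_sum]
    · rfl
    · intro p hp
      exact ne_top_of_le_ne_top htop
        (Finset.single_le_sum (f := fun p : Fin m × Fin m => μHE[1] (Fac n h p.1 ∩ Fac n h p.2))
          (fun _ _ => bot_le) hp)
  have h3 : ∑ p : Fin m × Fin m with p.2 < p.1, elen n h p.1 p.2 =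
      ∑ p : Fin m × Fin m with p.1 < p.2, elen n h p.1 p.2 := by
    refine Finset.sum_nbij' (fun p => (p.2, p.1)) (fun p => (p.2, p.1)) ?_ ?_ ?_ ?_ ?_
    · intro p hp; simpa using hp
    · intro p hp; simpa using hp
    · intro p _; rfl
    · intro p _; rfl
    · intro p _; exact ua_elen_symm n h p.1 p.2
  have h4 : ∑ i, ∑ j with j ≠ i, elen n h i j =
      ∑ p : Fin m × Fin m with p.2 ≠ p.1, elen n h p.1 p.2 := by
    rw [Finset.sum_filter, ← Finset.univ_product_univ, Finset.sum_product]
    refine Finset.sum_congr rfl fun i _ => ?_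
    rw [Finset.sum_filter]
  have h5 : ∑ p : Fin m × Fin m with p.2 ≠ p.1, elen n h p.1 p.2 =
      ∑ p : Fin m × Fin m with p.1 < p.2, elen n h p.1 p.2 +
      ∑ p : Fin m × Fin m with p.2 < p.1, elen n h p.1 p.2 := by
    rw [← Finset.sum_union]
    · refine Finset.sum_congr ?_ fun _ _ => rfl
      ext p
      simp only [Finset.mem_filter, Finset.mem_univ, true_and, Finset.mem_union]
      constructor
      · intro hp
        exact lt_or_gt_of_ne (Ne.symm hp)
      · rintro (hp | hp)
        · exact hp.ne'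
        · exact hp.ne
    · rw [Finset.disjoint_filter]
      intro p _ h6 h7
      exact lt_asymm h6 h7
  rw [h4, h5, h3, h2]
  ring

theorem Good.main_ineq {m : ℕ} {n : Fin m → E 3} {h : Fin m → ℝ} (hg : Good n h) :
    4 * sig * ∑ i, farea n h i < (zeta 1 (Poly n h)).toReal ^ 2 := by
  classical
  have hcard := hg.three_le_card
  have hS : 0 < ∑ i, farea n h i := by
    have : Nonempty (Fin m) := Fintype.card_pos_iff.1 (by omega)
    exact Finset.sum_pos (fun i _ => farea_pos hg i) Finset.univ_nonempty
  obtain ⟨τ, hτ, ρ, hρ, hFF⟩ := exists_rho hcard (Adj n h)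
    (fun i j hij => ⟨hij.1.symm, by rw [ua_elen_symm]; exact hij.2⟩) (fun i hi => hi.1 rfl)
    (fun T hT => by
      have := hg.planar T hT
      convert this using 4)
    (farea n h) (fun i => farea_pos hg i)
  have hsig : 0 < sig := by
    unfold sig
    have := Real.pi_pos
    positivity
  have hτ0 : 0 < τ := lt_trans (div_pos hsig hS) hτ
  set S := ∑ i, farea n h i with hSdef
  set L := (zeta 1 (Poly n h)).toReal with hL
  have hLS : sig < τ * S := by
    rw [div_lt_iff₀ hS] at hτ
    exact hτ
  -- the facet inequalities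
  have hf : ∀ i, 2 * (farea n h i * Real.sqrt τ) ≤
      ∑ j with j ≠ i, (1 + ρ i - ρ j) / 2 * elen n h i j := by
    intro i
    have hfa := farea_pos hg i
    have hFi : FF (Adj n h) ρ i = Real.pi * (Real.sqrt (ρ i)) ^ 2 -
        ∑ j with Adj n h i j, cap (Real.sqrt (ρ i)) ((1 + ρ i - ρ j) / 2) := by
      rw [Real.sq_sqrt (hρ i)]
      unfold FF kap
      rfl
    have h1 := facet_ineq hg i (Real.sqrt_nonneg (ρ i)) (fun j => (1 + ρ i - ρ j) / 2) (by
      have h2 : 0 < FF (Adj n h) ρ i := by
        rw [hFF i]; positivity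
      rw [hFi] at h2
      convert h2 using 3)
    have h3 : Real.pi * (Real.sqrt (ρ i)) ^ 2 -
        ∑ j with Adj n h i j, cap (Real.sqrt (ρ i)) ((1 + ρ i - ρ j) / 2) = τ * farea n h i := by
      rw [← hFi, hFF i]
    have h4 : Real.sqrt (farea n h i * (τ * farea n h i)) = farea n h i * Real.sqrt τ := by
      rw [show farea n h i * (τ * farea n h i) = (farea n h i) ^ 2 * τ by ring,
        Real.sqrt_mul (by positivity), Real.sqrt_sq hfa.le]
    rw [← h4, ← h3]
    convert h1 using 5
  have hsum : 2 * (S * Real.sqrt τ) ≤ L := by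
    have h1 : 2 * (S * Real.sqrt τ) = ∑ i, 2 * (farea n h i * Real.sqrt τ) := by
      rw [hSdef, Finset.sum_mul, Finset.mul_sum]
    have h2 : ∑ i, ∑ j with j ≠ i, (1 + ρ i - ρ j) / 2 * elen n h i j = L := by
      have e1 : ∀ g : Fin m → Fin m → ℝ, ∑ i, ∑ j with j ≠ i, g i j =
          ∑ i, ∑ j with j ≠ i, g j i := by
        intro g
        simp only [Finset.sum_filter]
        rw [Finset.sum_comm]
        refine Finset.sum_congr rfl fun i _ => Finset.sum_congr rfl fun j _ => ?_
        by_cases hij : i = j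
        · simp [hij]
        · rw [if_pos hij, if_pos (Ne.symm hij)]
      have e2 : 2 * ∑ i, ∑ j with j ≠ i, (1 + ρ i - ρ j) / 2 * elen n h i j =
          ∑ i, ∑ j with j ≠ i, elen n h i j := by
        rw [two_mul]
        nth_rewrite 2 [e1]
        rw [← Finset.sum_add_distrib]
        refine Finset.sum_congr rfl fun i _ => ?_
        rw [← Finset.sum_add_distrib]
        refine Finset.sum_congr rfl fun j _ => ?_
        rw [ua_elen_symm n h j i]
        ring
      have e3 := hg.zeta_one_real
      rw [← hL] at e3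
      linarith
    rw [h1, ← h2]
    exact Finset.sum_le_sum fun i _ => hf i
  have hL0 : 0 ≤ 2 * (S * Real.sqrt τ) := by positivity
  calc 4 * sig * S < 4 * (τ * S) * S := by
        have : 4 * sig < 4 * (τ * S) := by linarith
        exact mul_lt_mul_of_pos_right this hS
    _ = (2 * (S * Real.sqrt τ)) ^ 2 := by
        rw [mul_pow, mul_pow, Real.sq_sqrt hτ0.le]
        ring
    _ ≤ L ^ 2 := by
        exact pow_le_pow_left₀ hL0 hsum 2

end Melzak
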